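import Mathlib

set_option autoImplicit false

open Polynomial Metric Topology

namespace Pool.Agent.Helper714

/-- `f` is bi-univalent: analytic and injective on the unit disc, `f 0 = 0`, `f' 0 = 1`, and the
local inverse of `f` at `0` extends to an analytic injective function on the unit disc. -/
def IsBiUnivalent (f : ℂ → ℂ) : Prop :=
  DifferentiableOn ℂ f (ball 0 1) ∧ f 0 = 0 ∧ deriv f 0 = 1 ∧ Set.InjOn f (ball 0 1) ∧
    ∃ g : ℂ → ℂ, DifferentiableOn ℂ g (ball 0 1) ∧ Set.InjOn g (ball 0 1) ∧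
      ∀ᶠ z in 𝓝 (0 : ℂ), g (f z) = z

/-- The polynomials `z + a₂ z² + ... + aₙ zⁿ` that are bi-univalent. -/
def V (n : ℕ) : Set ℂ[X] :=
  {P | P.natDegree ≤ n ∧ P.coeff 0 = 0 ∧ P.coeff 1 = 1 ∧ IsBiUnivalent (fun z => P.eval z)}

end Pool.Agent.Helper714
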