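import Mathlib

set_option autoImplicit false

namespace Pool.Agent.Helper714

/-- logarithm of `z - z^(m+1)` in the coordinate `z = exp Z` -/
noncomputable def E (m : ℕ) (Z : ℂ) : ℂ := Z + Complex.log (1 - Complex.exp (m * Z))

/-- logarithm of the critical value -/
noncomputable def Wc (m : ℕ) : ℝ := Real.log m - (m + 1) / m * Real.log (m + 1)

/-- the strip -/
def S (m : ℕ) : Set ℂ := {Z | 0 < Z.im ∧ Z.im < Real.pi / m}

/-- the slit strip -/
def Y (m : ℕ) : Set ℂ :=
  {W | -Real.pi < W.im ∧ W.im < Real.pi / m ∧ (W.im = 0 → Wc m < W.re)}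

/-- angular distance between the rays through `c` and `w` -/
noncomputable def ang (c w : ℂ) : ℝ := |Complex.arg (w / c)|

/-- `min (π/m) (min_{j ∈ vis} ang (c j) w)` -/
noncomputable def D (m : ℕ) (c : Fin m → ℂ) (vis : Finset (Fin m)) (w : ℂ) : ℝ :=
  vis.fold min (Real.pi / m) (fun j => ang (c j) w)

end Pool.Agent.Helper714
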