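import Mathlib
import Pool.Agent.Helper714.BU.ExtDefs

set_option autoImplicit false

open Metric Set Filter Topology

namespace Pool.Agent.Helper714.L1

namespace J1

theorem mul_im_bounds (m : ℕ) (hm : 1 ≤ m) {Z : ℂ} (hZ : Z ∈ S m) :
    0 < (m : ℝ) * Z.im ∧ (m : ℝ) * Z.im < Real.pi := by
  have hm0 : (0 : ℝ) < m := by exact_mod_cast hm
  refine ⟨mul_pos hm0 hZ.1, ?_⟩
  have := mul_lt_mul_of_pos_left hZ.2 hm0
  rwa [mul_div_cancel₀ _ hm0.ne'] at this

theorem zeta_re (m : ℕ) (Z : ℂ) : (Complex.exp (m * Z)).re =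
    Real.exp (m * Z.re) * Real.cos (m * Z.im) := by
  simp [Complex.exp_re]

theorem zeta_im (m : ℕ) (Z : ℂ) : (Complex.exp (m * Z)).im =
    Real.exp (m * Z.re) * Real.sin (m * Z.im) := by
  simp [Complex.exp_im]

theorem zeta_im_pos (m : ℕ) (hm : 1 ≤ m) {Z : ℂ} (hZ : Z ∈ S m) :
    0 < (Complex.exp (m * Z)).im := by
  rw [zeta_im]
  obtain ⟨h1, h2⟩ := mul_im_bounds m hm hZ
  exact mul_pos (Real.exp_pos _) (Real.sin_pos_of_pos_of_lt_pi h1 h2)

theorem one_sub_im (m : ℕ) (hm : 1 ≤ m) {Z : ℂ} (hZ : Z ∈ S m) :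
    (1 - Complex.exp (m * Z)).im < 0 := by
  have := zeta_im_pos m hm hZ
  simp only [Complex.sub_im, Complex.one_im]
  linarith

theorem one_sub_slit (m : ℕ) (hm : 1 ≤ m) {Z : ℂ} (hZ : Z ∈ S m) :
    (1 - Complex.exp (m * Z)) ∈ Complex.slitPlane := by
  rw [Complex.mem_slitPlane_iff]
  exact Or.inr (one_sub_im m hm hZ).ne

theorem hasDerivAt_E (m : ℕ) {Z : ℂ} (h : (1 - Complex.exp (m * Z)) ∈ Complex.slitPlane) :
    HasDerivAt (E m) (1 + (- (Complex.exp (m * Z) * m)) / (1 - Complex.exp (m * Z))) Z := by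
  unfold E
  have h1 : HasDerivAt (fun Z : ℂ => Complex.exp (m * Z)) (Complex.exp (m * Z) * m) Z := by
    have := ((hasDerivAt_id Z).const_mul (m : ℂ)).cexp
    simpa using this
  have h2 : HasDerivAt (fun Z : ℂ => 1 - Complex.exp (m * Z)) (- (Complex.exp (m * Z) * m)) Z := by
    simpa using h1.const_sub 1
  exact (hasDerivAt_id Z).add (h2.clog h)

theorem deriv_im_neg (m : ℕ) (hm : 1 ≤ m) {Z : ℂ} (hZ : Z ∈ S m) :
    (1 + (- (Complex.exp (m * Z) * m)) / (1 - Complex.exp (m * Z))).im < 0 := by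
  have hz := zeta_im_pos m hm hZ
  set ζ := Complex.exp (m * Z) with hζ
  have hne : (1 - ζ) ≠ 0 := by
    intro h
    have : (1 - ζ).im = 0 := by rw [h]; simp
    simp at this
    linarith
  have hm0 : (0 : ℝ) < m := by exact_mod_cast hm
  have e1 : 1 + (- (ζ * m)) / (1 - ζ) = 1 + m - m * (1 - ζ)⁻¹ := by
    field_simp
    ring
  rw [e1]
  have e2 : (1 + (m : ℂ) - m * (1 - ζ)⁻¹).im = - (m * (ζ.im / Complex.normSq (1 - ζ))) := by
    simp [Complex.inv_im]
  rw [e2]
  have : 0 < Complex.normSq (1 - ζ) := Complex.normSq_pos.mpr hne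
  have : 0 < (m : ℝ) * (ζ.im / Complex.normSq (1 - ζ)) := by positivity
  linarith

theorem convex_S (m : ℕ) : Convex ℝ (S m) := by
  have : S m = Complex.im ⁻¹' (Ioo 0 (Real.pi / m)) := rfl
  rw [this]
  exact (convex_Ioo _ _).linear_preimage Complex.imLm

theorem isOpen_S (m : ℕ) : IsOpen (S m) := by
  have : S m = Complex.im ⁻¹' (Ioo 0 (Real.pi / m)) := rfl
  rw [this]
  exact isOpen_Ioo.preimage Complex.continuous_im

theorem injOn_E (m : ℕ) (hm : 1 ≤ m) : InjOn (E m) (S m) := by
  intro Z1 h1 Z2 h2 h12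
  by_contra hne
  have hd : (Z2 - Z1) ≠ 0 := sub_ne_zero.mpr (Ne.symm hne)
  let γ : ℝ → ℂ := fun t => Z1 + t * (Z2 - Z1)
  have hγmem : ∀ t ∈ Icc (0 : ℝ) 1, γ t ∈ S m := by
    intro t ht
    have := (convex_S m) h1 h2 (sub_nonneg.mpr ht.2) ht.1 (by ring)
    convert this using 1
    simp only [γ, Complex.real_smul]
    push_cast
    ring
  have hγ : ∀ t : ℝ, HasDerivAt γ (Z2 - Z1) t := by
    intro t
    have h := (Complex.ofRealCLM.hasDerivAt (x := t)).mul_const (Z2 - Z1)
    have h' := h.const_add Z1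
    simpa [γ] using h'
  let g : ℝ → ℂ := fun t => (E m (γ t) - E m Z1) / (Z2 - Z1)
  have hg : ∀ t ∈ Icc (0 : ℝ) 1, HasDerivAt g
      (1 + (- (Complex.exp (m * γ t) * m)) / (1 - Complex.exp (m * γ t))) t := by
    intro t ht
    have hE := hasDerivAt_E m (one_sub_slit m hm (hγmem t ht))
    have h3 := HasDerivAt.comp t hE (hγ t)
    have h4 := (h3.sub_const (E m Z1)).div_const (Z2 - Z1)
    rw [mul_div_assoc, div_self hd, mul_one] at h4
    exact h4
  have hgi : ∀ t ∈ Icc (0 : ℝ) 1, HasDerivAt (fun t => (g t).im)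
      (1 + (- (Complex.exp (m * γ t) * m)) / (1 - Complex.exp (m * γ t))).im t := by
    intro t ht
    have := (Complex.imCLM.hasFDerivAt.comp_hasDerivAt t (hg t ht))
    exact this
  have g0 : (g 0).im = 0 := by simp [g, γ]
  have g1 : (g 1).im = 0 := by simp [g, γ, h12]
  obtain ⟨c, hc, hc0⟩ := exists_hasDerivAt_eq_zero (f := fun t => (g t).im)
    (f' := fun t => (1 + (- (Complex.exp (m * γ t) * m)) / (1 - Complex.exp (m * γ t))).im)
    (a := 0) (b := 1) one_pos
    (fun t ht => (hgi t ht).continuousAt.continuousWithinAt) (by rw [g0, g1])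
    (fun t ht => hgi t (Ioo_subset_Icc_self ht))
  have := deriv_im_neg m hm (hγmem c (Ioo_subset_Icc_self hc))
  linarith

theorem differentiableOn_E (m : ℕ) (hm : 1 ≤ m) : DifferentiableOn ℂ (E m) (S m) := fun _ hZ =>
  (hasDerivAt_E m (one_sub_slit m hm hZ)).differentiableAt.differentiableWithinAt


theorem exp_E (m : ℕ) {Z : ℂ} (h : (1 - Complex.exp (m * Z)) ≠ 0) :
    Complex.exp (E m Z) = Complex.exp Z * (1 - Complex.exp (m * Z)) := by
  rw [E, Complex.exp_add, Complex.exp_log h]

theorem one_sub_ne (m : ℕ) (hm : 1 ≤ m) {Z : ℂ} (hZ : Z ∈ S m) :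
    (1 - Complex.exp (m * Z)) ≠ 0 := by
  intro h
  have := one_sub_im m hm hZ
  rw [h] at this
  simp at this

theorem E_im (m : ℕ) (Z : ℂ) : (E m Z).im = Z.im + (1 - Complex.exp (m * Z)).arg := by
  simp [E, Complex.log_im]

theorem arg_bounds (m : ℕ) (hm : 1 ≤ m) {Z : ℂ} (hZ : Z ∈ S m) :
    m * Z.im - Real.pi < (1 - Complex.exp (m * Z)).arg ∧ (1 - Complex.exp (m * Z)).arg < 0 := by
  have hi := one_sub_im m hm hZ
  obtain ⟨hp0, hppi⟩ := mul_im_bounds m hm hZ
  have hlt : (1 - Complex.exp (m * Z)).arg < 0 := Complex.arg_neg_iff.mpr hi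
  refine ⟨?_, hlt⟩
  have hgt := Complex.neg_pi_lt_arg (1 - Complex.exp (m * Z))
  set w := 1 - Complex.exp (m * Z) with hw
  set θ := w.arg with hθ
  set p := (m : ℝ) * Z.im with hp
  have hwre : w.re = 1 - Real.exp (m * Z.re) * Real.cos p := by
    rw [hw, Complex.sub_re, zeta_re]; simp [hp]
  have hwim : w.im = - (Real.exp (m * Z.re) * Real.sin p) := by
    rw [hw, Complex.sub_im, zeta_im]; simp [hp]
  have hne : w ≠ 0 := one_sub_ne m hm hZ
  have hn : 0 < ‖w‖ := norm_pos_iff.mpr hne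
  have h1 : ‖w‖ * Real.cos θ = w.re := Complex.norm_mul_cos_arg w
  have h2 : ‖w‖ * Real.sin θ = w.im := Complex.norm_mul_sin_arg w
  have hs : 0 < Real.sin p := Real.sin_pos_of_pos_of_lt_pi hp0 hppi
  have key : ‖w‖ * Real.sin (θ - p + Real.pi) = Real.sin p := by
    rw [Real.sin_add_pi, Real.sin_sub]
    have : ‖w‖ * -(Real.sin θ * Real.cos p - Real.cos θ * Real.sin p) =
      -(‖w‖ * Real.sin θ) * Real.cos p + (‖w‖ * Real.cos θ) * Real.sin p := by ring
    rw [this, h1, h2, hwre, hwim]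
    ring
  have hsin : 0 < Real.sin (θ - p + Real.pi) := by
    by_contra hcon
    push Not at hcon
    have : ‖w‖ * Real.sin (θ - p + Real.pi) ≤ 0 := mul_nonpos_of_nonneg_of_nonpos hn.le hcon
    linarith
  by_contra hcon
  push Not at hcon
  have hle : θ - p + Real.pi ≤ 0 := by linarith
  have hge : -Real.pi ≤ θ - p + Real.pi := by linarith
  have := Real.sin_nonpos_of_nonpos_of_neg_pi_le hle hge
  linarith

theorem E_im_bounds (m : ℕ) (hm : 1 ≤ m) {Z : ℂ} (hZ : Z ∈ S m) :
    -Real.pi < (E m Z).im ∧ (E m Z).im < Z.im := by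
  obtain ⟨h1, h2⟩ := arg_bounds m hm hZ
  obtain ⟨hp0, hppi⟩ := mul_im_bounds m hm hZ
  have := hZ.1
  rw [E_im]
  constructor <;> linarith

theorem sin_div_lt {x y : ℝ} (hx : 0 < x) (hxy : x < y) (hy : y < Real.pi) :
    Real.sin y / y < Real.sin x / x := by
  have hy0 : 0 < y := hx.trans hxy
  have hc := strictConcaveOn_sin_Icc
  have ha : 0 < 1 - x / y := by rw [sub_pos, div_lt_one hy0]; exact hxy
  have hb : 0 < x / y := by positivity
  have h := hc.2 (⟨le_rfl, Real.pi_pos.le⟩ : (0 : ℝ) ∈ Icc 0 Real.pi)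
    (⟨hy0.le, hy.le⟩ : y ∈ Icc 0 Real.pi) hy0.ne ha hb (by ring)
  simp only [Real.sin_zero, smul_eq_mul, mul_zero, zero_add] at h
  rw [div_mul_cancel₀ _ hy0.ne'] at h
  rw [lt_div_iff₀ hx]
  calc Real.sin y / y * x = x / y * Real.sin y := by ring
    _ < _ := h

theorem E_re_gt (m : ℕ) (hm : 1 ≤ m) {Z : ℂ} (hZ : Z ∈ S m) (h0 : (E m Z).im = 0) :
    Wc m < (E m Z).re := by
  have hm0 : (0 : ℝ) < m := by exact_mod_cast hm
  have hm1 : (1 : ℝ) ≤ m := by exact_mod_cast hm
  obtain ⟨hp0, hppi⟩ := mul_im_bounds m hm hZ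
  have hφ0 := hZ.1
  have hφh := hZ.2
  set φ := Z.im with hφ
  set X := Z.re with hX
  have hh : Real.pi / m ≤ Real.pi := div_le_self Real.pi_pos.le hm1
  have hexp := exp_E m (one_sub_ne m hm hZ)
  have hreal : Complex.exp (E m Z) = (Real.exp (E m Z).re : ℂ) := by
    have : E m Z = ((E m Z).re : ℂ) := by
      apply Complex.ext
      · simp
      · simp [h0]
    conv_lhs => rw [this]
    rw [Complex.ofReal_exp]
  rw [hreal] at hexp
  have hre := congrArg Complex.re hexp
  have him := congrArg Complex.im hexp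
  rw [Complex.mul_re, Complex.sub_re, Complex.sub_im, zeta_re, zeta_im, Complex.exp_re, Complex.exp_im,
    Complex.ofReal_re] at hre
  rw [Complex.mul_im, Complex.sub_re, Complex.sub_im, zeta_re, zeta_im, Complex.exp_re, Complex.exp_im,
    Complex.ofReal_im] at him
  simp only [Complex.one_re, Complex.one_im, zero_sub] at hre him
  rw [← hφ, ← hX] at hre him
  set r := Real.exp X with hr
  have hr0 : 0 < r := Real.exp_pos _
  set rm := Real.exp (m * X) with hrm
  have hrm0 : 0 < rm := Real.exp_pos _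
  set n : ℝ := m + 1 with hn
  have hsn : Real.sin (n * φ) = Real.sin φ * Real.cos (m * φ) + Real.cos φ * Real.sin (m * φ) := by
    rw [hn, add_mul, one_mul, add_comm, Real.sin_add]
  have hcn : Real.cos (n * φ) = Real.cos φ * Real.cos (m * φ) - Real.sin φ * Real.sin (m * φ) := by
    rw [hn, add_mul, one_mul, add_comm, Real.cos_add]
  -- imaginary part
  have him2 : rm * Real.sin (n * φ) = Real.sin φ := by
    rw [hsn]
    have : r * (Real.sin φ - rm * (Real.sin φ * Real.cos (m * φ) + Real.cos φ * Real.sin (m * φ))) = 0 := by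
      linear_combination -him
    rcases mul_eq_zero.mp this with h | h
    · exact absurd h hr0.ne'
    · linarith
  have hsφ : 0 < Real.sin φ := Real.sin_pos_of_pos_of_lt_pi hφ0 (hφh.trans_le hh)
  have hsm : 0 < Real.sin (m * φ) := Real.sin_pos_of_pos_of_lt_pi hp0 hppi
  have hsnpos : 0 < Real.sin (n * φ) := by
    by_contra hcon
    push Not at hcon
    have : rm * Real.sin (n * φ) ≤ 0 := mul_nonpos_of_nonneg_of_nonpos hrm0.le hcon
    linarith
  have hnφ0 : 0 < n * φ := by positivity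
  have hnφ : n * φ < Real.pi := by
    by_contra hcon
    push Not at hcon
    have h2 : n * φ < 2 * Real.pi := by
      rw [hn]; linarith
    have h3 : Real.sin (n * φ - Real.pi) < 0 ∨ Real.sin (n * φ - Real.pi) = 0 ∨
        0 < Real.sin (n * φ - Real.pi) := lt_trichotomy _ _
    have h4 : 0 ≤ Real.sin (n * φ - Real.pi) :=
      Real.sin_nonneg_of_nonneg_of_le_pi (by linarith) (by linarith)
    rw [Real.sin_sub_pi] at h4
    linarith
  -- real part
  have hre2 : Real.exp (E m Z).re * Real.sin (n * φ) = r * Real.sin (m * φ) := by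
    rw [hre]
    have e1 : Real.sin (m * φ) = Real.sin (n * φ) * Real.cos φ - Real.cos (n * φ) * Real.sin φ := by
      rw [← Real.sin_sub]; congr 1; rw [hn]; ring
    have e2 : (r * Real.cos φ * (1 - rm * Real.cos (m * φ)) - r * Real.sin φ * -(rm * Real.sin (m * φ)))
        = r * Real.cos φ - r * rm * Real.cos (n * φ) := by
      rw [hcn]; ring
    rw [e2]
    rw [e1]
    linear_combination (-(r * Real.cos (n * φ))) * him2
  -- logs
  have hlog1 : (m : ℝ) * X + Real.log (Real.sin (n * φ)) = Real.log (Real.sin φ) := by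
    rw [← him2, Real.log_mul hrm0.ne' hsnpos.ne', hrm, Real.log_exp]
  have hlog2 : (E m Z).re + Real.log (Real.sin (n * φ)) = X + Real.log (Real.sin (m * φ)) := by
    have := congrArg Real.log hre2
    rw [Real.log_mul (Real.exp_pos _).ne' hsnpos.ne', Real.log_exp, Real.log_mul hr0.ne' hsm.ne', hr,
      Real.log_exp] at this
    exact this
  have hn0 : 0 < n := by positivity
  have hn1 : 1 < n := by rw [hn]; linarith
  have c1 : Real.log (Real.sin (n * φ)) - Real.log (n * φ) < Real.log (Real.sin φ) - Real.log φ := by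
    rw [← Real.log_div hsnpos.ne' hnφ0.ne', ← Real.log_div hsφ.ne' hφ0.ne']
    apply Real.log_lt_log (by positivity)
    exact sin_div_lt hφ0 (by nlinarith) hnφ
  have c2 : Real.log (Real.sin (n * φ)) - Real.log (n * φ) <
      Real.log (Real.sin (m * φ)) - Real.log (m * φ) := by
    rw [← Real.log_div hsnpos.ne' hnφ0.ne', ← Real.log_div hsm.ne' hp0.ne']
    apply Real.log_lt_log (by positivity)
    exact sin_div_lt hp0 (by nlinarith) hnφ
  rw [Real.log_mul hn0.ne' hφ0.ne'] at c1 c2
  rw [Real.log_mul hm0.ne' hφ0.ne'] at c2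
  rw [Wc, ← hn]
  have c3 : m * (Real.log m - n / m * Real.log n) < m * (E m Z).re := by
    have e3 : (m : ℝ) * (Real.log m - n / m * Real.log n) = m * Real.log m - n * Real.log n := by
      field_simp
    rw [e3]
    have c2' := mul_lt_mul_of_pos_left c2 hm0
    have hlog2' : (m : ℝ) * ((E m Z).re + Real.log (Real.sin (n * φ))) =
      m * (X + Real.log (Real.sin (m * φ))) := by rw [hlog2]
    rw [hn] at *
    nlinarith
  exact lt_of_mul_lt_mul_left c3 hm0.le

theorem E_mem_Y (m : ℕ) (hm : 1 ≤ m) {Z : ℂ} (hZ : Z ∈ S m) : E m Z ∈ Y m := by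
  obtain ⟨h1, h2⟩ := E_im_bounds m hm hZ
  exact ⟨h1, h2.trans hZ.2, fun h => E_re_gt m hm hZ h⟩


theorem E_re (m : ℕ) (Z : ℂ) : (E m Z).re = Z.re + Real.log ‖1 - Complex.exp (m * Z)‖ := by
  simp [E, Complex.log_re]

theorem norm_zeta (m : ℕ) (Z : ℂ) : ‖Complex.exp (m * Z)‖ = Real.exp (m * Z.re) := by
  simp [Complex.norm_exp]

theorem re_le (m : ℕ) (hm : 1 ≤ m) {Z : ℂ} (_hZ : Z ∈ S m) : Z.re ≤ max 1 (E m Z).re := by
  by_cases h : Z.re ≤ 1
  · exact le_max_of_le_left h
  · apply le_max_of_le_right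
    push Not at h
    have hm1 : (1 : ℝ) ≤ m := by exact_mod_cast hm
    rw [E_re]
    have h1 : Real.exp (m * Z.re) - 1 ≤ ‖1 - Complex.exp (m * Z)‖ := by
      rw [← norm_zeta, norm_sub_rev]
      have := norm_sub_norm_le (Complex.exp (m * Z)) 1
      simpa using this
    have h2 : (m * Z.re) + 1 ≤ Real.exp (m * Z.re) := Real.add_one_le_exp _
    have h3 : 1 ≤ m * Z.re := by nlinarith
    have h4 : 1 ≤ ‖1 - Complex.exp (m * Z)‖ := by linarith
    have := Real.log_nonneg h4
    linarith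

theorem re_ge (m : ℕ) (hm : 1 ≤ m) {Z : ℂ} (hZ : Z ∈ S m) :
    min 0 ((E m Z).re - Real.log 2) ≤ Z.re := by
  by_cases h : 0 ≤ Z.re
  · exact min_le_of_left_le h
  · apply min_le_of_right_le
    push Not at h
    have hm0 : (0 : ℝ) < m := by exact_mod_cast hm
    rw [E_re]
    have h1 : ‖1 - Complex.exp (m * Z)‖ ≤ 1 + Real.exp (m * Z.re) := by
      rw [← norm_zeta]
      have := norm_sub_le (1 : ℂ) (Complex.exp (m * Z))
      simpa using this
    have h2 : Real.exp (m * Z.re) ≤ 1 := Real.exp_le_one_iff.mpr (by nlinarith)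
    have h3 : ‖1 - Complex.exp (m * Z)‖ ≤ 2 := by linarith
    have h4 : 0 < ‖1 - Complex.exp (m * Z)‖ := norm_pos_iff.mpr (one_sub_ne m hm hZ)
    have := Real.log_le_log h4 h3
    linarith

/-- bound of the logarithm of the critical value -/
theorem re_le_Wc (m : ℕ) (hm : 1 ≤ m) {X : ℝ} (hX : X < 0) :
    X + Real.log (1 - Real.exp (m * X)) ≤ Wc m := by
  have hm0 : (0 : ℝ) < m := by exact_mod_cast hm
  set t := Real.exp (m * X) with ht
  have ht0 : 0 < t := Real.exp_pos _
  have ht1 : t < 1 := by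
    rw [ht, Real.exp_lt_one_iff]; nlinarith
  set n : ℝ := m + 1 with hn
  have hn0 : 0 < n := by positivity
  have hX' : (m : ℝ) * X = Real.log t := by rw [ht, Real.log_exp]
  have l1 : Real.log t + Real.log n ≤ t * n - 1 := by
    rw [← Real.log_mul ht0.ne' hn0.ne']
    exact Real.log_le_sub_one_of_pos (by positivity)
  have l2 : Real.log (1 - t) + Real.log n - Real.log m ≤ (1 - t) * n / m - 1 := by
    have h1t : 0 < 1 - t := by linarith
    rw [← Real.log_mul h1t.ne' hn0.ne', ← Real.log_div (by positivity) hm0.ne']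
    exact Real.log_le_sub_one_of_pos (by positivity)
  rw [Wc, ← hn]
  have key : (m : ℝ) * (X + Real.log (1 - t)) ≤ m * (Real.log m - n / m * Real.log n) := by
    have e3 : (m : ℝ) * (Real.log m - n / m * Real.log n) = m * Real.log m - n * Real.log n := by
      field_simp
    rw [e3, mul_add, hX']
    have l2' := mul_le_mul_of_nonneg_left l2 hm0.le
    have e4 : (m : ℝ) * ((1 - t) * n / m - 1) = (1 - t) * n - m := by field_simp
    rw [e4] at l2'
    have : n = m + 1 := hn
    nlinarith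
  exact le_of_mul_le_mul_left key hm0

theorem im_eq_of_exp_eq {W V : ℂ} (h : Complex.exp W = Complex.exp V) :
    ∃ k : ℤ, W = V + k * (2 * Real.pi * Complex.I) := by
  obtain ⟨k, hk⟩ := Complex.exp_eq_exp_iff_exists_int.mp h
  exact ⟨k, hk⟩

theorem im_shift (k : ℤ) : ((k : ℂ) * (2 * Real.pi * Complex.I)).im = k * (2 * Real.pi) := by
  simp

theorem re_shift (k : ℤ) : ((k : ℂ) * (2 * Real.pi * Complex.I)).re = 0 := by
  simp

theorem closed_in_Y (m : ℕ) (hm : 1 ≤ m) : closure (E m '' S m) ∩ Y m ⊆ E m '' S m := by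
  rintro W ⟨hWc, hWY⟩
  have hm0 : (0 : ℝ) < m := by exact_mod_cast hm
  have hm1 : (1 : ℝ) ≤ m := by exact_mod_cast hm
  have hh : Real.pi / m ≤ Real.pi := div_le_self Real.pi_pos.le hm1
  obtain ⟨u, hu, hul⟩ := mem_closure_iff_seq_limit.mp hWc
  choose z hzS hzu using hu
  -- boundedness
  have hre : Tendsto (fun k => (u k).re) atTop (𝓝 W.re) :=
    (Complex.continuous_re.tendsto W).comp hul
  obtain ⟨R, hR⟩ := (Metric.isBounded_range_of_tendsto _ hre).exists_norm_le
  have hR' : ∀ k, |(u k).re| ≤ R := fun k => hR _ ⟨k, rfl⟩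
  let K : Set ℂ := (Icc (min 0 (-R - Real.log 2)) (max 1 R)) ×ℂ (Icc 0 (Real.pi / m))
  have hK : IsCompact K := isCompact_Icc.reProdIm isCompact_Icc
  have hzK : ∀ k, z k ∈ K := by
    intro k
    have h1 := re_le m hm (hzS k)
    have h2 := re_ge m hm (hzS k)
    rw [hzu] at h1 h2
    have h3 := abs_le.mp (hR' k)
    refine Complex.mem_reProdIm.mpr ⟨⟨?_, ?_⟩, ⟨(hzS k).1.le, (hzS k).2.le⟩⟩
    · exact le_trans (min_le_min le_rfl (by linarith)) h2
    · exact le_trans h1 (max_le_max le_rfl h3.2)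
  obtain ⟨Z, hZK, φ, hφ, hφl⟩ := hK.tendsto_subseq hzK
  have hZim := (Complex.mem_reProdIm.mp hZK).2
  have hexp : Complex.exp W = Complex.exp Z * (1 - Complex.exp (m * Z)) := by
    have t1 : Tendsto (fun k => Complex.exp (u (φ k))) atTop (𝓝 (Complex.exp W)) :=
      (Complex.continuous_exp.tendsto W).comp (hul.comp hφ.tendsto_atTop)
    have hcont : Continuous (fun Z : ℂ => Complex.exp Z * (1 - Complex.exp (m * Z))) := by fun_prop
    have t2 : Tendsto (fun k => Complex.exp (z (φ k)) * (1 - Complex.exp (m * z (φ k)))) atTop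
        (𝓝 (Complex.exp Z * (1 - Complex.exp (m * Z)))) := (hcont.tendsto Z).comp hφl
    refine tendsto_nhds_unique t1 (t2.congr fun k => ?_)
    rw [← exp_E m (one_sub_ne m hm (hzS (φ k))), hzu]
  obtain ⟨hY1, hY2, hY3⟩ := hWY
  have hpi := Real.pi_pos
  -- case Im Z = h
  have hlt : Z.im < Real.pi / m := by
    rcases hZim.2.lt_or_eq with h | h
    · exact h
    · exfalso
      have hz : Complex.exp (m * Z) = - (Real.exp (m * Z.re) : ℂ) := by
        apply Complex.ext
        · rw [zeta_re, h, mul_div_cancel₀ _ hm0.ne']; simp [-Complex.ofReal_exp]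
        · rw [zeta_im, h, mul_div_cancel₀ _ hm0.ne']; simp [-Complex.ofReal_exp]
      have h1 : (0 : ℝ) < 1 + Real.exp (m * Z.re) := by positivity
      have h2 : Complex.exp W = Complex.exp (Z + (Real.log (1 + Real.exp (m * Z.re)) : ℝ)) := by
        rw [Complex.exp_add, ← Complex.ofReal_exp, Real.exp_log h1, hexp, hz]
        push_cast
        ring
      obtain ⟨k, hk⟩ := im_eq_of_exp_eq h2
      have h3 := congrArg Complex.im hk
      rw [Complex.add_im, Complex.add_im, im_shift, Complex.ofReal_im, add_zero, h] at h3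
      have hk0 : k < 0 := by
        by_contra hcon
        push Not at hcon
        have : (0 : ℝ) ≤ k := by exact_mod_cast hcon
        nlinarith
      have hk1 : (k : ℝ) ≤ -1 := by
        have : k ≤ -1 := by omega
        exact_mod_cast this
      nlinarith
  have hgt : 0 < Z.im := by
    rcases hZim.1.lt_or_eq with h | h
    · exact h
    · exfalso
      have hz : Complex.exp (m * Z) = (Real.exp (m * Z.re) : ℂ) := by
        apply Complex.ext
        · rw [zeta_re, ← h]; simp [-Complex.ofReal_exp]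
        · rw [zeta_im, ← h]; simp [-Complex.ofReal_exp]
      have hZr : Z = (Z.re : ℂ) := by
        apply Complex.ext
        · simp
        · simp [← h]
      rcases lt_trichotomy Z.re 0 with hX | hX | hX
      · have h1 : (0 : ℝ) < 1 - Real.exp (m * Z.re) := by
          rw [sub_pos, Real.exp_lt_one_iff]; nlinarith
        have h2 : Complex.exp W = Complex.exp ((Z.re + Real.log (1 - Real.exp (m * Z.re)) : ℝ) : ℂ) := by
          rw [hexp, hz]
          rw [Complex.ofReal_add, Complex.exp_add, ← Complex.ofReal_exp (Real.log _), Real.exp_log h1, ← hZr]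
          push_cast
          ring
        obtain ⟨k, hk⟩ := im_eq_of_exp_eq h2
        have h3 := congrArg Complex.im hk
        have h4 := congrArg Complex.re hk
        rw [Complex.add_im, im_shift, Complex.ofReal_im, zero_add] at h3
        rw [Complex.add_re, re_shift, Complex.ofReal_re, add_zero] at h4
        have hk0 : k = 0 := by
          have a1 : (-1 : ℝ) < k := by nlinarith
          have a2 : (k : ℝ) < 1 := by nlinarith
          have a1' : (-1 : ℤ) < k := by exact_mod_cast a1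
          have a2' : k < (1 : ℤ) := by exact_mod_cast a2
          omega
        rw [hk0] at h3
        have h5 := hY3 (by simpa using h3)
        have h6 := re_le_Wc m hm hX
        linarith
      · rw [hX] at hz
        rw [hz] at hexp
        simp at hexp
      · have h1 : (0 : ℝ) < Real.exp (m * Z.re) - 1 := by
          rw [sub_pos, Real.one_lt_exp_iff]; positivity
        have h2 : Complex.exp W = Complex.exp (((Z.re + Real.log (Real.exp (m * Z.re) - 1) : ℝ) : ℂ)
            + Real.pi * Complex.I) := by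
          rw [Complex.exp_add, Complex.exp_pi_mul_I, hexp, hz]
          rw [Complex.ofReal_add, Complex.exp_add, ← Complex.ofReal_exp (Real.log _), Real.exp_log h1, ← hZr]
          push_cast
          ring
        obtain ⟨k, hk⟩ := im_eq_of_exp_eq h2
        have h3 := congrArg Complex.im hk
        rw [Complex.add_im, Complex.add_im, im_shift, Complex.ofReal_im, zero_add] at h3
        have h4 : ((Real.pi : ℂ) * Complex.I).im = Real.pi := by simp
        rw [h4] at h3
        have hk0 : k < 0 := by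
          by_contra hcon
          push Not at hcon
          have : (0 : ℝ) ≤ k := by exact_mod_cast hcon
          nlinarith
        have hk1 : (k : ℝ) ≤ -1 := by
          have : k ≤ -1 := by omega
          exact_mod_cast this
        nlinarith
  have hZS : Z ∈ S m := ⟨hgt, hlt⟩
  refine ⟨Z, hZS, ?_⟩
  have hc : ContinuousAt (E m) Z := (hasDerivAt_E m (one_sub_slit m hm hZS)).continuousAt
  have t1 : Tendsto (fun k => E m (z (φ k))) atTop (𝓝 (E m Z)) := hc.tendsto.comp hφl
  have t2 : Tendsto (fun k => u (φ k)) atTop (𝓝 W) := hul.comp hφ.tendsto_atTop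
  refine tendsto_nhds_unique t1 (t2.congr fun k => ?_)
  rw [hzu]

theorem starConvex_Y (m : ℕ) (hm : 1 ≤ m) : StarConvex ℝ ((Wc m + 1 : ℝ) : ℂ) (Y m) := by
  intro W hW a b ha hb hab
  obtain ⟨h1, h2, h3⟩ := hW
  have hm0 : (0 : ℝ) < m := by exact_mod_cast hm
  have hpi := Real.pi_pos
  have hh : 0 < Real.pi / m := by positivity
  have hb1 : b ≤ 1 := by linarith
  have him : (a • ((Wc m + 1 : ℝ) : ℂ) + b • W).im = b * W.im := by simp
  have hre : (a • ((Wc m + 1 : ℝ) : ℂ) + b • W).re = a * (Wc m + 1) + b * W.re := by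
    rw [Complex.add_re, Complex.real_smul, Complex.real_smul, Complex.re_ofReal_mul,
      Complex.re_ofReal_mul, Complex.ofReal_re]
  refine ⟨?_, ?_, ?_⟩
  · rw [him]
    rcases hb.eq_or_lt with h | h
    · rw [← h]; linarith
    · have := mul_lt_mul_of_pos_left h1 h
      nlinarith
  · rw [him]
    rcases hb.eq_or_lt with h | h
    · rw [← h]; linarith
    · have := mul_lt_mul_of_pos_left h2 h
      nlinarith
  · rw [him, hre]
    intro h0
    rcases mul_eq_zero.mp h0 with hb0 | hW0
    · have : a = 1 := by linarith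
      rw [hb0, this]; linarith
    · have h4 := h3 hW0
      have ha' : a = 1 - b := by linarith
      rw [ha']
      rcases hb.eq_or_lt with h | h
      · rw [← h]; linarith
      · have := mul_lt_mul_of_pos_left h4 h
        nlinarith

theorem center_mem (m : ℕ) (hm : 1 ≤ m) : ((Wc m + 1 : ℝ) : ℂ) ∈ Y m := by
  have hm0 : (0 : ℝ) < m := by exact_mod_cast hm
  have hpi := Real.pi_pos
  have hh : 0 < Real.pi / m := by positivity
  refine ⟨by simpa using hpi, by simpa using hh, ?_⟩
  intro _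
  rw [Complex.ofReal_re]; linarith

theorem isPreconnected_Y (m : ℕ) (hm : 1 ≤ m) : IsPreconnected (Y m) :=
  ((starConvex_Y m hm).isPathConnected (center_mem m hm)).isConnected.isPreconnected

end J1

namespace J1Univ

variable {f : ℂ → ℂ} {U : Set ℂ}

/-- An injective holomorphic map is open, local form. -/
theorem nhds_le_map (hU : IsOpen U) (hf : DifferentiableOn ℂ f U) (hi : InjOn f U)
    {z : ℂ} (hz : z ∈ U) : 𝓝 (f z) ≤ map f (𝓝 z) := by
  have ha : AnalyticAt ℂ f z := hf.analyticAt (hU.mem_nhds hz)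
  rcases ha.eventually_constant_or_nhds_le_map_nhds with h | h
  · exfalso
    have h1 : ∀ᶠ w in 𝓝[≠] z, f w = f z ∧ w ∈ U :=
      (h.and (hU.mem_nhds hz)).filter_mono nhdsWithin_le_nhds
    have h2 : ∀ᶠ w in 𝓝[≠] z, w ≠ z := eventually_mem_nhdsWithin
    obtain ⟨w, hw, hw2⟩ := (h1.and h2).exists
    exact hw2 (hi hw.2 hz hw.1)
  · exact h

theorem map_nhds (hU : IsOpen U) (hf : DifferentiableOn ℂ f U) (hi : InjOn f U)
    {z : ℂ} (hz : z ∈ U) : map f (𝓝 z) = 𝓝 (f z) := by
  apply le_antisymm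
  · exact (hf.analyticAt (hU.mem_nhds hz)).continuousAt
  · exact nhds_le_map hU hf hi hz

theorem isOpen_image (hU : IsOpen U) (hf : DifferentiableOn ℂ f U) (hi : InjOn f U)
    {s : Set ℂ} (hs : IsOpen s) (hsU : s ⊆ U) : IsOpen (f '' s) := by
  rw [isOpen_iff_mem_nhds]
  rintro _ ⟨z, hz, rfl⟩
  rw [← map_nhds hU hf hi (hsU hz)]
  exact image_mem_map (hs.mem_nhds hz)

theorem invFunOn_left (hi : InjOn f U) {z : ℂ} (hz : z ∈ U) :
    Function.invFunOn f U (f z) = z :=
  hi.leftInvOn_invFunOn hz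

theorem invFunOn_mem {w : ℂ} (hw : w ∈ f '' U) :
    Function.invFunOn f U w ∈ U :=
  Function.invFunOn_mem (by simpa using hw)

theorem invFunOn_right {w : ℂ} (hw : w ∈ f '' U) :
    f (Function.invFunOn f U w) = w :=
  Function.invFunOn_eq (by simpa using hw)

theorem continuousAt_inv (hU : IsOpen U) (hf : DifferentiableOn ℂ f U) (hi : InjOn f U)
    {w : ℂ} (hw : w ∈ f '' U) : ContinuousAt (Function.invFunOn f U) w := by
  obtain ⟨z, hz, rfl⟩ := hw
  rw [ContinuousAt, invFunOn_left hi hz]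
  intro V hV
  rw [mem_map]
  have h1 : V ∩ U ∈ 𝓝 z := inter_mem hV (hU.mem_nhds hz)
  have h2 : f '' (V ∩ U) ∈ 𝓝 (f z) := by
    rw [← map_nhds hU hf hi hz]
    exact image_mem_map h1
  refine mem_of_superset h2 ?_
  rintro _ ⟨y, hy, rfl⟩
  simp only [mem_preimage]
  rw [invFunOn_left hi hy.2]
  exact hy.1

/-- the inverse is differentiable where the derivative does not vanish -/
theorem hasDerivAt_inv_of_ne (hU : IsOpen U) (hf : DifferentiableOn ℂ f U) (hi : InjOn f U)
    {z : ℂ} (hz : z ∈ U) (hd : deriv f z ≠ 0) :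
    HasDerivAt (Function.invFunOn f U) (deriv f z)⁻¹ (f z) := by
  have hzz : Function.invFunOn f U (f z) = z := invFunOn_left hi hz
  apply HasDerivAt.of_local_left_inverse (f := f)
  · exact continuousAt_inv hU hf hi (mem_image_of_mem f hz)
  · rw [hzz]
    exact (hf.differentiableAt (hU.mem_nhds hz)).hasDerivAt
  · exact hd
  · have : f '' U ∈ 𝓝 (f z) := (isOpen_image hU hf hi hU subset_rfl).mem_nhds (mem_image_of_mem f hz)
    filter_upwards [this] with w hw using invFunOn_right hw


end J1Univ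

theorem exists_Lam (m : ℕ) (hm : 1 ≤ m) :
    ∃ Λ : ℂ → ℂ, DifferentiableOn ℂ Λ (Y m) ∧
      (∀ W ∈ Y m, Λ W ∈ S m ∧ E m (Λ W) = W) ∧
      (∀ Z ∈ S m, E m Z ∈ Y m ∧ Λ (E m Z) = Z) := by
  have hU := J1.isOpen_S m
  have hf := J1.differentiableOn_E m hm
  have hi := J1.injOn_E m hm
  have himg : Y m ⊆ E m '' S m := by
    apply (J1.isPreconnected_Y m hm).subset_of_closure_inter_subset
    · exact J1Univ.isOpen_image hU hf hi hU subset_rfl
    · have hm0 : (0 : ℝ) < m := by exact_mod_cast hm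
      have hz : (⟨0, Real.pi / m / 2⟩ : ℂ) ∈ S m := by
        have : 0 < Real.pi / m := by positivity
        constructor
        · show 0 < Real.pi / m / 2
          positivity
        · show Real.pi / m / 2 < Real.pi / m
          linarith
      exact ⟨_, J1.E_mem_Y m hm hz, ⟨_, hz, rfl⟩⟩
    · exact J1.closed_in_Y m hm
  refine ⟨Function.invFunOn (E m) (S m), ?_, ?_, ?_⟩
  · intro W hW
    obtain ⟨Z, hZ, rfl⟩ := himg hW
    have hd : deriv (E m) Z ≠ 0 := by
      rw [(J1.hasDerivAt_E m (J1.one_sub_slit m hm hZ)).deriv]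
      intro h
      have := J1.deriv_im_neg m hm hZ
      rw [h] at this
      simp at this
    exact (J1Univ.hasDerivAt_inv_of_ne hU hf hi hZ hd).differentiableAt.differentiableWithinAt
  · intro W hW
    exact ⟨J1Univ.invFunOn_mem (himg hW), J1Univ.invFunOn_right (himg hW)⟩
  · intro Z hZ
    exact ⟨J1.E_mem_Y m hm hZ, J1Univ.invFunOn_left hi hZ⟩

end Pool.Agent.Helper714.L1
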