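import Mathlib
import Pool.Agent.Helper714.BU.ExtDefs

set_option autoImplicit false

open Set Topology

namespace Pool.Agent.Helper714.L10

theorem ang_eq_angle {c w : ℂ} (hc : c ≠ 0) (hw : w ≠ 0) :
    ang c w = InnerProductGeometry.angle w c := by
  unfold ang
  rw [Complex.angle_eq_abs_arg hw hc]

theorem ang_cont {c w : ℂ} (hc : c ≠ 0) (hw : w ≠ 0) : ContinuousAt (ang c) w := by
  have h1 : ContinuousAt (fun w : ℂ => InnerProductGeometry.angle w c) w := by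
    have h2 : ContinuousAt (fun y : ℂ × ℂ => InnerProductGeometry.angle y.1 y.2) (w, c) :=
      InnerProductGeometry.continuousAt_angle hw hc
    exact ContinuousAt.comp (f := fun w : ℂ => (w, c)) h2
      (Continuous.continuousAt (by fun_prop))
  refine h1.congr ?_
  filter_upwards [isOpen_ne.mem_nhds hw] with z hz
  exact (ang_eq_angle hc hz).symm

theorem ang_nonneg (c w : ℂ) : 0 ≤ ang c w := abs_nonneg _

theorem ang_le_pi (c w : ℂ) : ang c w ≤ Real.pi := Complex.abs_arg_le_pi _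

theorem ang_zero {c w : ℂ} (hc : c ≠ 0) (hw : w ≠ 0) (h : ang c w = 0) :
    w = ((‖w‖ / ‖c‖ : ℝ) : ℂ) * c := by
  rw [ang_eq_angle hc hw, InnerProductGeometry.angle_eq_zero_iff] at h
  obtain ⟨_, r, hr, hrc⟩ := h
  have hn : ‖c‖ = r * ‖w‖ := by rw [hrc, norm_smul, Real.norm_of_nonneg hr.le]
  have hw0 : ‖w‖ ≠ 0 := norm_ne_zero_iff.2 hw
  have h1 : ‖w‖ / ‖c‖ = r⁻¹ := by
    rw [hn]; field_simp
  rw [h1, hrc, Complex.real_smul, Complex.ofReal_inv, ← mul_assoc, inv_mul_cancel₀, one_mul]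
  exact_mod_cast hr.ne'

theorem ray_excluded {m : ℕ} {c w : ℂ} (hc : c ≠ 0) (hw : w ≠ 0) (h : ang c w = 0)
    (hl : Real.log ‖w‖ = Wc m) : w = ((Real.exp (Wc m) / ‖c‖ : ℝ) : ℂ) * c := by
  rw [← hl, Real.exp_log (norm_pos_iff.2 hw)]
  exact ang_zero hc hw h

theorem D_cont (m : ℕ) (c : Fin m → ℂ) (hc0 : ∀ j, c j ≠ 0) (vis : Finset (Fin m)) (w : ℂ)
    (hw : w ≠ 0) : ContinuousAt (D m c vis) w := by
  unfold D
  induction vis using Finset.induction_on with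
  | empty => simp only [Finset.fold_empty]; exact continuousAt_const
  | insert a s ha ih =>
    simp only [Finset.fold_insert ha]
    exact (ang_cont (hc0 a) hw).min ih

theorem D_nonneg (m : ℕ) (c : Fin m → ℂ) (vis : Finset (Fin m)) (w : ℂ) : 0 ≤ D m c vis w := by
  unfold D
  rw [Finset.le_fold_min]
  exact ⟨by positivity, fun j _ => ang_nonneg _ _⟩

theorem D_le (m : ℕ) (c : Fin m → ℂ) (vis : Finset (Fin m)) (w : ℂ) :
    D m c vis w ≤ Real.pi / m := by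
  unfold D
  rw [Finset.fold_min_le]
  exact Or.inl le_rfl

theorem D_zero (m : ℕ) (hm : 1 ≤ m) (c : Fin m → ℂ) (vis : Finset (Fin m)) (w : ℂ)
    (h : D m c vis w = 0) : ∃ j ∈ vis, ang (c j) w = 0 := by
  have h1 : D m c vis w ≤ 0 := h.le
  unfold D at h1
  rw [Finset.fold_min_le] at h1
  rcases h1 with h1 | ⟨j, hj, h1⟩
  · exfalso
    have : 0 < Real.pi / m := by
      have : (0 : ℝ) < m := by exact_mod_cast hm
      positivity
    linarith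
  · exact ⟨j, hj, le_antisymm h1 (ang_nonneg _ _)⟩

theorem log_cont {w : ℂ} (hw : w ≠ 0) : ContinuousAt (fun w : ℂ => Real.log ‖w‖) w :=
  continuous_norm.continuousAt.log (norm_ne_zero_iff.2 hw)

theorem comp_cont (b : ℝ) (q : ℝ × ℝ) (A : ℝ → ℝ → ℝ)
    (hA : ContinuousOn (fun p : ℝ × ℝ => A p.1 p.2) {p | 0 ≤ p.2 ∧ p.2 ≤ b ∧ p ≠ q})
    (f g : ℂ → ℝ) (w : ℂ) (hf : ContinuousAt f w) (hg : ContinuousAt g w)
    (h0 : ∀ z, 0 ≤ g z) (hb : ∀ z, g z ≤ b) (hne : (f w, g w) ≠ q) :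
    ContinuousAt (fun z => A (f z) (g z)) w := by
  have hfg : ContinuousAt (fun z => (f z, g z)) w := hf.prodMk hg
  have h1 := hA (f w, g w) ⟨h0 w, hb w, hne⟩
  have h2 : Filter.Tendsto (fun z => (f z, g z)) (𝓝 w)
      (𝓝[{p | 0 ≤ p.2 ∧ p.2 ≤ b ∧ p ≠ q}] (f w, g w)) := by
    rw [tendsto_nhdsWithin_iff]
    refine ⟨hfg, ?_⟩
    have h3 : ∀ᶠ z in 𝓝 w, (f z, g z) ≠ q := hfg.eventually_ne hne
    filter_upwards [h3] with z hz
    exact ⟨h0 z, hb z, hz⟩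
  exact Filter.Tendsto.comp h1 h2

theorem F0_cont (m : ℕ) (hm : 1 ≤ m) (c : Fin m → ℂ) (hc0 : ∀ j, c j ≠ 0)
    (vis : Finset (Fin m)) (A : ℝ → ℝ → ℝ)
    (hA : ContinuousOn (fun p : ℝ × ℝ => A p.1 p.2)
        {p | 0 ≤ p.2 ∧ p.2 ≤ Real.pi / m ∧ p ≠ (Wc m, 0)})
    (w : ℂ) (hw : w ≠ 0) (hw' : ∀ j ∈ vis, w ≠ ((Real.exp (Wc m) / ‖c j‖ : ℝ) : ℂ) * c j) :
    ContinuousAt (fun w => A (Real.log ‖w‖) (D m c vis w)) w := by
  refine comp_cont (Real.pi / m) (Wc m, 0) A hA (fun w => Real.log ‖w‖) (D m c vis) w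
    (log_cont hw) (D_cont m c hc0 vis w hw) (D_nonneg m c vis) (D_le m c vis) ?_
  intro h
  have h1 := Prod.mk.inj h
  obtain ⟨j, hj, hang⟩ := D_zero m hm c vis w h1.2
  exact hw' j hj (ray_excluded (hc0 j) hw hang h1.1)

theorem F1_cont (m : ℕ) (hm : 1 ≤ m) (c : ℂ) (hc0 : c ≠ 0) (B : ℝ → ℝ → ℝ)
    (hB : ContinuousOn (fun p : ℝ × ℝ => B p.1 p.2)
        {p | 0 ≤ p.2 ∧ p.2 ≤ Real.pi ∧ p ≠ (Wc m, 0)})
    (w : ℂ) (hw : w ≠ 0) (hw' : w ≠ ((Real.exp (Wc m) / ‖c‖ : ℝ) : ℂ) * c) :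
    ContinuousAt (fun w => B (Real.log ‖w‖) (ang c w)) w := by
  refine comp_cont Real.pi (Wc m, 0) B hB (fun w => Real.log ‖w‖) (ang c) w
    (log_cont hw) (ang_cont hc0 hw) (ang_nonneg c) (ang_le_pi c) ?_
  intro h
  have h1 := Prod.mk.inj h
  exact hw' (ray_excluded hc0 hw h1.2 h1.1)

end Pool.Agent.Helper714.L10
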