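import Mathlib
import Pool.Agent.Helper714.BU.ExtDefs

set_option autoImplicit false

open Set Topology

namespace Pool.Agent.Helper714.L11

/-! helper lemmas -/

theorem j254_ang_eq (c w : ℂ) (h : w / c ≠ 0) :
    ang c w = Real.arccos ((w / c).re / ‖w / c‖) := by
  unfold ang
  rcases le_or_gt 0 (w / c).im with h1 | h1
  · rw [Complex.arg_of_im_nonneg_of_ne_zero h1 h, abs_of_nonneg (Real.arccos_nonneg _)]
  · rw [Complex.arg_of_im_neg h1, abs_neg, abs_of_nonneg (Real.arccos_nonneg _)]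

theorem j254_ang_cont (c : ℂ) (hc : c ≠ 0) (w : ℝ → ℂ) (X : ℝ) (hw : ContinuousAt w X)
    (hw0 : w X ≠ 0) : ContinuousAt (fun x => ang c (w x)) X := by
  have h1 : ContinuousAt (fun x => w x / c) X := hw.div_const c
  have h2 : ∀ᶠ x in 𝓝 X, w x / c ≠ 0 := h1.eventually_ne (div_ne_zero hw0 hc)
  have h3 : ContinuousAt (fun x => Real.arccos ((w x / c).re / ‖w x / c‖)) X := by
    refine Real.continuous_arccos.continuousAt.comp ?_
    exact (Complex.continuous_re.continuousAt.comp h1).div h1.norm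
      (norm_ne_zero_iff.2 (div_ne_zero hw0 hc))
  refine h3.congr ?_
  filter_upwards [h2] with x hx
  exact (j254_ang_eq c (w x) hx).symm

/-- the path `log|w| + i ang c w` is differentiable -/
theorem j254_core (c : ℂ) (hc0 : c ≠ 0) (w : ℝ → ℂ) (w' : ℂ) (X : ℝ) (hw : HasDerivAt w w' X)
    (hw0 : w X ≠ 0) (him : (w X / c).im ≠ 0) :
    0 < ang c (w X) ∧ ang c (w X) < Real.pi ∧ ∃ ζ' : ℂ, ‖ζ'‖ = ‖w'‖ / ‖w X‖ ∧
      HasDerivAt (fun x : ℝ => (Real.log ‖w x‖ : ℂ) + (ang c (w x) : ℂ) * Complex.I) ζ' X := by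
  have hslit : w X / c ∈ Complex.slitPlane := by
    rw [Complex.mem_slitPlane_iff]
    exact Or.inr him
  have hdc : HasDerivAt (fun x => w x / c) (w' / c) X := hw.div_const c
  have hlog : HasDerivAt (fun x : ℝ => Complex.log (w x / c)) (w' / c / (w X / c)) X :=
    hdc.clog_real hslit
  have hq : w' / c / (w X / c) = w' / w X := by
    field_simp
  rw [hq] at hlog
  have hcont : ContinuousAt (fun x => (w x / c).im) X :=
    Complex.continuous_im.continuousAt.comp hdc.continuousAt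
  have hwne : ∀ᶠ x in 𝓝 X, w x ≠ 0 := hw.continuousAt.eventually_ne hw0
  have hre : ∀ z : ℂ, z ≠ 0 → Real.log ‖z‖ = Real.log ‖z / c‖ + Real.log ‖c‖ := by
    intro z hz
    rw [norm_div, Real.log_div (norm_ne_zero_iff.2 hz) (norm_ne_zero_iff.2 hc0)]
    ring
  rcases lt_or_gt_of_ne him with h | h
  · -- negative imaginary part
    have hargneg : Complex.arg (w X / c) < 0 := Complex.arg_neg_iff.2 h
    have hang : ang c (w X) = - Complex.arg (w X / c) := abs_of_neg hargneg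
    refine ⟨by rw [hang]; linarith, ?_, ?_⟩
    · rw [hang]
      have := Complex.neg_pi_lt_arg (w X / c)
      linarith
    · refine ⟨(starRingEnd ℂ) (w' / w X), by rw [RCLike.norm_conj, norm_div], ?_⟩
      have h1 : HasDerivAt (fun x : ℝ => (starRingEnd ℂ) (Complex.log (w x / c)) +
          (Real.log ‖c‖ : ℂ)) ((starRingEnd ℂ) (w' / w X)) X := by
        have h2 := (Complex.conjCLE.toContinuousLinearMap.hasFDerivAt.comp_hasDerivAt X
          hlog).add_const (Real.log ‖c‖ : ℂ)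
        exact h2
      refine h1.congr_of_eventuallyEq ?_
      filter_upwards [hwne, hcont.eventually_lt continuousAt_const h] with x hx hx2
      have hx3 : Complex.arg (w x / c) < 0 := Complex.arg_neg_iff.2 hx2
      have hx4 : ang c (w x) = - Complex.arg (w x / c) := abs_of_neg hx3
      rw [hx4, hre (w x) hx]
      apply Complex.ext
      · simp [Complex.log_re]
      · simp [Complex.log_im]
  · have hargnn : ∀ z : ℂ, 0 < z.im → 0 < Complex.arg z ∧ Complex.arg z < Real.pi := by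
      intro z hz
      refine ⟨?_, ?_⟩
      · rcases (Complex.arg_nonneg_iff.2 hz.le).lt_or_eq with h5 | h5
        · exact h5
        · exfalso
          have := (Complex.arg_eq_zero_iff.1 h5.symm).2
          exact hz.ne' this
      · rcases (Complex.arg_le_pi z).lt_or_eq with h5 | h5
        · exact h5
        · exfalso
          have := (Complex.arg_eq_pi_iff.1 h5).2
          exact hz.ne' this
    obtain ⟨ha1, ha2⟩ := hargnn _ h
    have hang : ang c (w X) = Complex.arg (w X / c) := abs_of_pos ha1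
    refine ⟨by rw [hang]; exact ha1, by rw [hang]; exact ha2, ?_⟩
    refine ⟨w' / w X, norm_div _ _, ?_⟩
    have h1 : HasDerivAt (fun x : ℝ => Complex.log (w x / c) +
          (Real.log ‖c‖ : ℂ)) (w' / w X) X := hlog.add_const _
    refine h1.congr_of_eventuallyEq ?_
    filter_upwards [hwne, continuousAt_const.eventually_lt hcont h] with x hx hx2
    obtain ⟨hx3, _⟩ := hargnn _ hx2
    have hx4 : ang c (w x) = Complex.arg (w x / c) := abs_of_pos hx3
    rw [hx4, hre (w x) hx]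
    apply Complex.ext
    · simp [Complex.log_re]
    · simp [Complex.log_im]

theorem j254_log (w : ℝ → ℂ) (w' : ℂ) (X : ℝ) (hw : HasDerivAt w w' X)
    (hw0 : w X ≠ 0) : ∃ l' : ℝ, HasDerivAt (fun x => Real.log ‖w x‖) l' X ∧
      |l'| ≤ ‖w'‖ / ‖w X‖ := by
  have hI : (w X / (w X / Complex.I)).im ≠ 0 := by
    rw [div_div_cancel₀ hw0]
    simp
  obtain ⟨_, _, ζ', h1, h2⟩ := j254_core (w X / Complex.I) (div_ne_zero hw0 Complex.I_ne_zero)
    w w' X hw hw0 hI
  refine ⟨ζ'.re, ?_, ?_⟩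
  · have h3 := Complex.reCLM.hasFDerivAt.comp_hasDerivAt X h2
    refine h3.congr_of_eventuallyEq (Filter.Eventually.of_forall fun x => ?_)
    simp
  · rw [← h1]
    exact Complex.abs_re_le_norm _

theorem j254_openY (m : ℕ) : IsOpen (Y m) := by
  have h1 : Y m = ({W : ℂ | -Real.pi < W.im} ∩ {W : ℂ | W.im < Real.pi / m}) ∩
      ({W : ℂ | W.im ≠ 0} ∪ {W : ℂ | Wc m < W.re}) := by
    ext W
    simp only [Y, Set.mem_ofPred_eq, Set.mem_inter_iff, Set.mem_union]
    tauto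
  rw [h1]
  refine IsOpen.inter (IsOpen.inter ?_ ?_) (IsOpen.union ?_ ?_)
  · exact isOpen_lt continuous_const Complex.continuous_im
  · exact isOpen_lt Complex.continuous_im continuous_const
  · exact isOpen_ne_fun Complex.continuous_im continuous_const
  · exact isOpen_lt continuous_const Complex.continuous_re

theorem j254_chain (m : ℕ) (Λ : ℂ → ℂ) (hd : DifferentiableOn ℂ Λ (Y m)) (ζ : ℝ → ℂ) (ζ' : ℂ)
    (X : ℝ) (hζ : HasDerivAt ζ ζ' X) (hY : ζ X ∈ Y m) :
    HasDerivAt (fun x => (Λ (ζ x)).re) (deriv Λ (ζ X) * ζ').re X ∧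
      (deriv Λ (ζ X) * ζ').re ^ 2 ≤ ‖deriv Λ (ζ X)‖ ^ 2 * ‖ζ'‖ ^ 2 := by
  constructor
  · have h1 : HasDerivAt Λ (deriv Λ (ζ X)) (ζ X) :=
      (hd.differentiableAt ((j254_openY m).mem_nhds hY)).hasDerivAt
    have h2 : HasDerivAt (fun x => Λ (ζ x)) (deriv Λ (ζ X) * ζ') X := by
      have h3 := h1.scomp X hζ
      rw [smul_eq_mul, mul_comm] at h3
      exact h3
    exact Complex.reCLM.hasFDerivAt.comp_hasDerivAt X h2
  · rw [← mul_pow, ← norm_mul, ← sq_abs]
    exact pow_le_pow_left₀ (abs_nonneg _) (Complex.abs_re_le_norm _) 2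

/-- case of a nearest visible ray at angular distance `< π/m`; `A s x = Re Λ(s+ix)` -/
theorem F0_deriv (m : ℕ) (hm : 1 ≤ m) (c : Fin m → ℂ) (hc0 : ∀ j, c j ≠ 0)
    (vis : Finset (Fin m)) (Λ : ℂ → ℂ) (hd : DifferentiableOn ℂ Λ (Y m)) (A : ℝ → ℝ → ℝ)
    (hA : ∀ s x : ℝ, 0 < x → x < Real.pi / m → A s x = (Λ (s + x * Complex.I)).re)
    (w : ℝ → ℂ) (w' : ℂ) (X : ℝ) (hw : HasDerivAt w w' X) (hw0 : w X ≠ 0)
    (him : ∀ j ∈ vis, (w X / c j).im ≠ 0)
    (htie : ∀ i ∈ vis, ∀ j ∈ vis, i ≠ j → ang (c i) (w X) ≠ ang (c j) (w X))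
    (hlt : D m c vis (w X) < Real.pi / m) :
    ∃ D' : ℝ, HasDerivAt (fun x => A (Real.log ‖w x‖) (D m c vis (w x))) D' X ∧
      D' ^ 2 ≤ ‖deriv Λ (Real.log ‖w X‖ + D m c vis (w X) * Complex.I)‖ ^ 2
        * (‖w'‖ / ‖w X‖) ^ 2 := by
  classical
  have hle : ∀ x, ∀ j ∈ vis, D m c vis (w x) ≤ ang (c j) (w x) := by
    intro x j hj
    unfold D
    rw [Finset.fold_min_le]
    exact Or.inr ⟨j, hj, le_refl _⟩
  obtain ⟨j, hj, hj2⟩ : ∃ j ∈ vis, ang (c j) (w X) ≤ D m c vis (w X) := by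
    have h1 := le_refl (D m c vis (w X))
    unfold D at h1 hlt ⊢
    rw [Finset.fold_min_le] at h1
    rcases h1 with h1 | h1
    · exact absurd h1 (not_le.2 hlt)
    · exact h1
  have hDX : D m c vis (w X) = ang (c j) (w X) := le_antisymm (hle X j hj) hj2
  have hcontang : ∀ i, ContinuousAt (fun x => ang (c i) (w x)) X :=
    fun i => j254_ang_cont (c i) (hc0 i) w X hw.continuousAt hw0
  have hev1 : ∀ i ∈ vis, ∀ᶠ x in 𝓝 X, ang (c j) (w x) ≤ ang (c i) (w x) := by
    intro i hi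
    by_cases hij : i = j
    · subst hij
      exact Filter.Eventually.of_forall fun x => le_refl _
    · have h1 : ang (c j) (w X) < ang (c i) (w X) :=
        lt_of_le_of_ne (by rw [← hDX]; exact hle X i hi) (htie j hj i hi (Ne.symm hij))
      filter_upwards [(hcontang j).eventually_lt (hcontang i) h1] with x hx
      exact hx.le
  have hev2 : ∀ᶠ x in 𝓝 X, ∀ i ∈ vis, ang (c j) (w x) ≤ ang (c i) (w x) :=
    (Finset.eventually_all vis).2 hev1
  obtain ⟨hp0, _, ζ', hn, hder⟩ := j254_core (c j) (hc0 j) w w' X hw hw0 (him j hj)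
  have hltj : ang (c j) (w X) < Real.pi / m := by rw [← hDX]; exact hlt
  have hev3 : ∀ᶠ x in 𝓝 X, ang (c j) (w x) < Real.pi / m :=
    (hcontang j).eventually_lt continuousAt_const hltj
  have hev4 : ∀ᶠ x in 𝓝 X, 0 < ang (c j) (w x) :=
    continuousAt_const.eventually_lt (hcontang j) hp0
  have hevD : ∀ᶠ x in 𝓝 X, D m c vis (w x) = ang (c j) (w x) := by
    filter_upwards [hev2, hev3] with x h1 h2
    refine le_antisymm (hle x j hj) ?_
    unfold D
    rw [Finset.le_fold_min]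
    exact ⟨h2.le, h1⟩
  have hY : (Real.log ‖w X‖ : ℂ) + (ang (c j) (w X) : ℂ) * Complex.I ∈ Y m := by
    have him' : ((Real.log ‖w X‖ : ℂ) + (ang (c j) (w X) : ℂ) * Complex.I).im
        = ang (c j) (w X) := by simp
    refine ⟨?_, ?_, ?_⟩
    · rw [him']; linarith [Real.pi_pos]
    · rw [him']; exact hltj
    · intro h0
      rw [him'] at h0
      exact absurd h0 hp0.ne'
  obtain ⟨h1, h2⟩ := j254_chain m Λ hd
    (fun x : ℝ => (Real.log ‖w x‖ : ℂ) + (ang (c j) (w x) : ℂ) * Complex.I) ζ' X hder hY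
  refine ⟨_, h1.congr_of_eventuallyEq ?_, ?_⟩
  · filter_upwards [hevD, hev3, hev4] with x hx1 hx2 hx3
    rw [hx1]
    exact hA _ _ hx3 hx2
  · rw [hDX, ← hn]
    exact h2

/-- case of no visible ray at angular distance `≤ π/m` -/
theorem F0_deriv' (m : ℕ) (hm : 1 ≤ m) (c : Fin m → ℂ) (hc0 : ∀ j, c j ≠ 0)
    (vis : Finset (Fin m)) (A : ℝ → ℝ → ℝ) (A' : ℝ → ℝ)
    (hA' : ∀ s, HasDerivAt (fun t => A t (Real.pi / m)) (A' s) s)
    (w : ℝ → ℂ) (w' : ℂ) (X : ℝ) (hw : HasDerivAt w w' X) (hw0 : w X ≠ 0)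
    (hgt : ∀ j ∈ vis, Real.pi / m < ang (c j) (w X)) :
    ∃ D' : ℝ, HasDerivAt (fun x => A (Real.log ‖w x‖) (D m c vis (w x))) D' X ∧
      D' ^ 2 ≤ (A' (Real.log ‖w X‖)) ^ 2 * (‖w'‖ / ‖w X‖) ^ 2 := by
  classical
  have hcontang : ∀ i, ContinuousAt (fun x => ang (c i) (w x)) X :=
    fun i => j254_ang_cont (c i) (hc0 i) w X hw.continuousAt hw0
  have hev2 : ∀ᶠ x in 𝓝 X, ∀ i ∈ vis, Real.pi / m < ang (c i) (w x) := by
    refine (Finset.eventually_all vis).2 ?_
    intro i hi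
    exact continuousAt_const.eventually_lt (hcontang i) (hgt i hi)
  obtain ⟨l', hl, hl2⟩ := j254_log w w' X hw hw0
  have h1 : HasDerivAt (fun x => A (Real.log ‖w x‖) (Real.pi / m))
      (A' (Real.log ‖w X‖) * l') X := by
    have h0 := HasDerivAt.comp X (h₂ := fun t => A t (Real.pi / m)) (hA' (Real.log ‖w X‖)) hl
    exact h0
  refine ⟨_, h1.congr_of_eventuallyEq ?_, ?_⟩
  · filter_upwards [hev2] with x hx
    have h2 : D m c vis (w x) = Real.pi / m := by
      unfold D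
      refine le_antisymm ?_ ?_
      · rw [Finset.fold_min_le]
        exact Or.inl (le_refl _)
      · rw [Finset.le_fold_min]
        exact ⟨le_refl _, fun i hi => (hx i hi).le⟩
    rw [h2]
  · rw [mul_pow]
    refine mul_le_mul_of_nonneg_left ?_ (sq_nonneg _)
    rw [← sq_abs l']
    exact pow_le_pow_left₀ (abs_nonneg _) hl2 2

/-- other sheets; `B s x = Re Λ(s-ix)` -/
theorem F1_deriv (m : ℕ) (hm : 1 ≤ m) (c : ℂ) (hc0 : c ≠ 0)
    (Λ : ℂ → ℂ) (hd : DifferentiableOn ℂ Λ (Y m)) (B : ℝ → ℝ → ℝ)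
    (hB : ∀ s x : ℝ, 0 < x → x < Real.pi → B s x = (Λ (s - x * Complex.I)).re)
    (w : ℝ → ℂ) (w' : ℂ) (X : ℝ) (hw : HasDerivAt w w' X) (hw0 : w X ≠ 0)
    (him : (w X / c).im ≠ 0) :
    ∃ D' : ℝ, HasDerivAt (fun x => B (Real.log ‖w x‖) (ang c (w x))) D' X ∧
      D' ^ 2 ≤ ‖deriv Λ (Real.log ‖w X‖ - ang c (w X) * Complex.I)‖ ^ 2
        * (‖w'‖ / ‖w X‖) ^ 2 := by
  obtain ⟨hp0, hp1, ζ', hn, hder⟩ := j254_core c hc0 w w' X hw hw0 him
  have hcontang : ContinuousAt (fun x => ang c (w x)) X :=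
    j254_ang_cont c hc0 w X hw.continuousAt hw0
  have hder2 : HasDerivAt (fun x : ℝ => (Real.log ‖w x‖ : ℂ) - (ang c (w x) : ℂ) * Complex.I)
      ((starRingEnd ℂ) ζ') X := by
    have h2 := Complex.conjCLE.toContinuousLinearMap.hasFDerivAt.comp_hasDerivAt X hder
    refine h2.congr_of_eventuallyEq (Filter.Eventually.of_forall fun x => ?_)
    apply Complex.ext
    · simp
    · simp
  have hmpos : 0 < Real.pi / m := by
    have : (0 : ℝ) < m := by exact_mod_cast hm
    exact div_pos Real.pi_pos this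
  have hY : (Real.log ‖w X‖ : ℂ) - (ang c (w X) : ℂ) * Complex.I ∈ Y m := by
    have him' : ((Real.log ‖w X‖ : ℂ) - (ang c (w X) : ℂ) * Complex.I).im
        = - ang c (w X) := by simp
    refine ⟨?_, ?_, ?_⟩
    · rw [him']; linarith
    · rw [him']; linarith
    · intro h0
      rw [him'] at h0
      exfalso
      linarith
  obtain ⟨h1, h2⟩ := j254_chain m Λ hd
    (fun x : ℝ => (Real.log ‖w x‖ : ℂ) - (ang c (w x) : ℂ) * Complex.I) _ X hder2 hY
  refine ⟨_, h1.congr_of_eventuallyEq ?_, ?_⟩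
  · filter_upwards [hcontang.eventually_lt continuousAt_const hp1,
      continuousAt_const.eventually_lt hcontang hp0] with x hx2 hx3
    exact hB _ _ hx3 hx2
  · rw [← hn, ← RCLike.norm_conj ζ']
    exact h2

end Pool.Agent.Helper714.L11
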