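import Mathlib
import Pool.Agent.Helper714.BU.ExtDefs

set_option autoImplicit false

open Set Polynomial

namespace Pool.Agent.Helper714.L12

theorem finite_lines_key (Q : ℂ[X]) (m : ℕ) (hm : 0 < m) (hq : Q.coeff m ≠ 0) :
    {y : ℝ | y ∈ Ioo (-Real.pi) Real.pi ∧
      ¬ {x : ℝ | (Q.eval (Complex.exp (x + y * Complex.I))).im = 0}.Finite}.Finite := by
  have hfin : {y : ℝ | y ∈ Ioo (-Real.pi) Real.pi ∧
      (Q.coeff m * Complex.exp (y * Complex.I) ^ m).im = 0}.Finite := by
    set c := Q.coeff m with hc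
    set F : ℂ[X] := X ^ (2 * m) - C ((starRingEnd ℂ) c / c) with hF
    have hF0 : F ≠ 0 := by
      intro h
      have h1 := congrArg (fun G : ℂ[X] => G.coeff (2 * m)) h
      simp only [hF, coeff_sub, coeff_X_pow, coeff_C, coeff_zero, if_true] at h1
      rw [if_neg (by omega)] at h1
      norm_num at h1
    refine Set.Finite.of_injOn (f := fun y : ℝ => Complex.exp (y * Complex.I))
      (t := {z | F.eval z = 0}) ?_ ?_ ?_
    · rintro y ⟨_, hy⟩
      show F.eval (Complex.exp (y * Complex.I)) = 0
      set w := Complex.exp (y * Complex.I) with hw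
      have hnw : (starRingEnd ℂ) w * w = 1 := by
        rw [hw, ← Complex.exp_conj, ← Complex.exp_add]
        simp
      have h2 : (starRingEnd ℂ) (c * w ^ m) = c * w ^ m := Complex.conj_eq_iff_im.2 hy
      rw [map_mul, map_pow] at h2
      have h3 : (starRingEnd ℂ) c = c * w ^ (2 * m) := by
        calc (starRingEnd ℂ) c = (starRingEnd ℂ) c * ((starRingEnd ℂ) w * w) ^ m := by
              rw [hnw, one_pow, mul_one]
          _ = ((starRingEnd ℂ) c * (starRingEnd ℂ) w ^ m) * w ^ m := by rw [mul_pow]; ring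
          _ = c * w ^ (2 * m) := by rw [h2]; ring
      rw [hF]
      simp only [eval_sub, eval_pow, eval_X, eval_C]
      rw [h3]
      field_simp
      ring
    · intro y1 h1 y2 h2 h
      simp only at h
      have := Complex.exp_inj_of_neg_pi_lt_of_le_pi (x := y1 * Complex.I) (y := y2 * Complex.I)
        (by simpa using h1.1.1) (by simpa using h1.1.2.le) (by simpa using h2.1.1)
        (by simpa using h2.1.2.le) h
      have h3 := mul_right_cancel₀ Complex.I_ne_zero this
      exact_mod_cast h3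
    · have : {z | F.eval z = 0} = (F.roots.toFinset : Set ℂ) := by
        ext z
        simp only [mem_ofPred_eq, Finset.mem_coe, Multiset.mem_toFinset, mem_roots hF0, IsRoot.def]
      rw [this]
      exact F.roots.toFinset.finite_toSet
  apply hfin.subset
  rintro y ⟨hy, hnf⟩
  refine ⟨hy, ?_⟩
  by_contra hne
  apply hnf
  set R : ℝ[X] := ∑ k ∈ Q.support, monomial k (Q.coeff k * Complex.exp (y * Complex.I) ^ k).im
    with hR
  have hcoef : R.coeff m = (Q.coeff m * Complex.exp (y * Complex.I) ^ m).im := by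
    rw [hR, finsetSum_coeff]
    simp only [coeff_monomial]
    rw [Finset.sum_ite_eq' Q.support m]
    rw [if_pos (mem_support_iff.2 hq)]
  have hR0 : R ≠ 0 := by
    intro h
    rw [h, coeff_zero] at hcoef
    exact hne hcoef.symm
  have heval : ∀ x : ℝ, (Q.eval (Complex.exp (x + y * Complex.I))).im = R.eval (Real.exp x) := by
    intro x
    rw [hR, eval_finsetSum, eval_eq_sum, Polynomial.sum, Complex.im_sum]
    refine Finset.sum_congr rfl fun k _ => ?_
    rw [eval_monomial, Complex.exp_add, mul_pow]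
    have h1 : (Complex.exp (x : ℂ)) ^ k = ((Real.exp x ^ k : ℝ) : ℂ) := by
      push_cast; rfl
    rw [h1]
    rw [show Q.coeff k * (((Real.exp x ^ k : ℝ) : ℂ) * Complex.exp (y * Complex.I) ^ k) =
      ((Real.exp x ^ k : ℝ) : ℂ) * (Q.coeff k * Complex.exp (y * Complex.I) ^ k) by ring]
    rw [Complex.im_ofReal_mul]
    ring
  refine Set.Finite.of_injOn (f := Real.exp) (t := {z | R.eval z = 0}) ?_ ?_ ?_
  · intro x hx
    show R.eval (Real.exp x) = 0
    rw [← heval]; exact hx
  · exact Real.exp_injective.injOn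
  · have : {z | R.eval z = 0} = (R.roots.toFinset : Set ℝ) := by
      ext z
      simp only [mem_ofPred_eq, Finset.mem_coe, Multiset.mem_toFinset, mem_roots hR0, IsRoot.def]
    rw [this]
    exact R.roots.toFinset.finite_toSet

/-- on all but finitely many rays `arg z = y`, the curve `P(z)` meets the line
`Im (κ w) = 0` finitely often -/
theorem finite_lines (P : ℂ[X]) (h0 : P.coeff 0 = 0) (h1 : P.coeff 1 = 1) (κ : ℂ) (hκ : κ ≠ 0) :
    {y : ℝ | y ∈ Ioo (-Real.pi) Real.pi ∧
      ¬ {x : ℝ | (κ * P.eval (Complex.exp (x + y * Complex.I))).im = 0}.Finite}.Finite := by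
  have h := finite_lines_key (C κ * P) 1 one_pos (by rw [coeff_C_mul, h1, mul_one]; exact hκ)
  simpa only [eval_mul, eval_C] using h

/-- the same for the pair of lines `Im (κ w²) = 0` -/
theorem finite_lines_sq (P : ℂ[X]) (h0 : P.coeff 0 = 0) (h1 : P.coeff 1 = 1) (κ : ℂ)
    (hκ : κ ≠ 0) :
    {y : ℝ | y ∈ Ioo (-Real.pi) Real.pi ∧
      ¬ {x : ℝ | (κ * (P.eval (Complex.exp (x + y * Complex.I))) ^ 2).im = 0}.Finite}.Finite := by
  have hc : (P ^ 2).coeff 2 = 1 := by
    rw [sq, coeff_mul]
    rw [Finset.Nat.sum_antidiagonal_eq_sum_range_succ_mk]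
    simp [Finset.sum_range_succ, h0, h1]
  have h := finite_lines_key (C κ * P ^ 2) 2 two_pos (by rw [coeff_C_mul, hc, mul_one]; exact hκ)
  simpa only [eval_mul, eval_C, eval_pow] using h

end Pool.Agent.Helper714.L12
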