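import Mathlib
import Pool.Agent.Helper714.BU.ExtDefs

set_option autoImplicit false

open Set MeasureTheory

namespace Pool.Agent.Helper714.L13

/-- Cauchy-Schwarz along a line -/
theorem line_ineq (a b : ℝ) (hab : a < b) (φ : ℝ → ℝ) (hφ : ContinuousOn φ (Icc a b))
    (s : Set ℝ) (hs : s.Finite) (k : ℝ → ENNReal)
    (h : ∀ x ∈ Ioo a b, x ∉ s → ∃ D : ℝ, HasDerivAt φ D x ∧ ENNReal.ofReal (D ^ 2) ≤ k x) :
    ENNReal.ofReal ((φ b - φ a) ^ 2) ≤ ENNReal.ofReal (b - a) * ∫⁻ x in Ioo a b, k x := by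
  have hba : 0 < b - a := sub_pos.mpr hab
  by_cases hk : ∫⁻ x in Ioo a b, k x = ⊤
  · rw [hk, ENNReal.mul_top]
    · exact le_top
    · simpa using hba
  have hle : ∫⁻ x in Ioo a b, ENNReal.ofReal ((deriv φ x) ^ 2) ≤ ∫⁻ x in Ioo a b, k x := by
    apply lintegral_mono_ae
    have h1 : ∀ᵐ x ∂(volume.restrict (Ioo a b)), x ∈ Ioo a b := ae_restrict_mem measurableSet_Ioo
    have h2 : ∀ᵐ x ∂(volume.restrict (Ioo a b)), x ∉ s :=
      ae_restrict_of_ae (hs.countable.ae_notMem volume)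
    filter_upwards [h1, h2] with x hx hxs
    obtain ⟨D, hD, hDk⟩ := h x hx hxs
    rw [hD.deriv]
    exact hDk
  have hmeas : Measurable (deriv φ) := measurable_deriv φ
  have hfin : ∫⁻ x in Ioo a b, ENNReal.ofReal ((deriv φ x) ^ 2) < ⊤ :=
    lt_of_le_of_lt hle (lt_top_iff_ne_top.mpr hk)
  have hsq : Integrable (fun x => (deriv φ x) ^ 2) (volume.restrict (Ioo a b)) := by
    refine ⟨(hmeas.pow_const 2).aestronglyMeasurable, ?_⟩
    rw [hasFiniteIntegral_iff_ofReal (Filter.Eventually.of_forall fun x => sq_nonneg _)]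
    exact hfin
  have hL2 : MemLp (deriv φ) 2 (volume.restrict (Ioo a b)) :=
    (memLp_two_iff_integrable_sq hmeas.aestronglyMeasurable).mpr hsq
  have hint : Integrable (deriv φ) (volume.restrict (Ioo a b)) := hL2.integrable (by norm_num)
  have hii : IntervalIntegrable (deriv φ) volume a b := by
    rw [intervalIntegrable_iff_integrableOn_Ioo_of_le hab.le]
    exact hint
  have hFTC : ∫ x in a..b, deriv φ x = φ b - φ a := by
    apply integral_eq_of_hasDerivAt_off_countable_of_le φ (deriv φ) hab.le hs.countable hφ _ hii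
    intro x hx
    obtain ⟨D, hD, -⟩ := h x hx.1 hx.2
    rw [hD.deriv]
    exact hD
  have hset : ∫ x in Ioo a b, deriv φ x = φ b - φ a := by
    rw [← hFTC, intervalIntegral.integral_of_le hab.le, integral_Ioc_eq_integral_Ioo]
  set m : ℝ := (φ b - φ a) / (b - a) with hm
  have hnn : 0 ≤ ∫ x in Ioo a b, (deriv φ x - m) ^ 2 := integral_nonneg fun x => sq_nonneg _
  have hexp : ∫ x in Ioo a b, (deriv φ x - m) ^ 2
      = (∫ x in Ioo a b, (deriv φ x) ^ 2) - 2 * m * (φ b - φ a) + m ^ 2 * (b - a) := by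
    have e1 : (fun x => (deriv φ x - m) ^ 2)
        = fun x => ((deriv φ x) ^ 2 - 2 * m * deriv φ x) + m ^ 2 := by
      funext x; ring
    have hc : Integrable (fun _ : ℝ => m ^ 2) (volume.restrict (Ioo a b)) := by
      apply integrable_const
    have hd : Integrable (fun x => (deriv φ x) ^ 2 - 2 * m * deriv φ x)
        (volume.restrict (Ioo a b)) := hsq.sub (hint.const_mul (2 * m))
    rw [e1, integral_add hd hc,
      integral_sub hsq (hint.const_mul (2 * m)), integral_const_mul, hset]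
    simp [measureReal_def, Real.volume_Ioo, ENNReal.toReal_ofReal hba.le, mul_comm]
  have hreal : (φ b - φ a) ^ 2 ≤ (b - a) * ∫ x in Ioo a b, (deriv φ x) ^ 2 := by
    have hmm : m * (b - a) = φ b - φ a := by
      rw [hm]; field_simp
    rw [hexp] at hnn
    have : 0 ≤ (b - a) * ((∫ x in Ioo a b, (deriv φ x) ^ 2) - 2 * m * (φ b - φ a)
        + m ^ 2 * (b - a)) := mul_nonneg hba.le hnn
    have e2 : (b - a) * ((∫ x in Ioo a b, (deriv φ x) ^ 2) - 2 * m * (φ b - φ a)
        + m ^ 2 * (b - a)) = (b - a) * (∫ x in Ioo a b, (deriv φ x) ^ 2)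
        - 2 * (m * (b - a)) * (φ b - φ a) + (m * (b - a)) ^ 2 := by ring
    rw [e2, hmm] at this
    nlinarith [this]
  calc ENNReal.ofReal ((φ b - φ a) ^ 2)
      ≤ ENNReal.ofReal ((b - a) * ∫ x in Ioo a b, (deriv φ x) ^ 2) := ENNReal.ofReal_le_ofReal hreal
    _ = ENNReal.ofReal (b - a) * ENNReal.ofReal (∫ x in Ioo a b, (deriv φ x) ^ 2) :=
        ENNReal.ofReal_mul hba.le
    _ = ENNReal.ofReal (b - a) * ∫⁻ x in Ioo a b, ENNReal.ofReal ((deriv φ x) ^ 2) := by
        rw [ofReal_integral_eq_lintegral_ofReal hsq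
          (Filter.Eventually.of_forall fun x => sq_nonneg _)]
    _ ≤ ENNReal.ofReal (b - a) * ∫⁻ x in Ioo a b, k x := by gcongr

end Pool.Agent.Helper714.L13
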