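import Mathlib
import Pool.Agent.Helper714.BU.ExtDefs

set_option autoImplicit false

open Set MeasureTheory Polynomial Topology

namespace Pool.Agent.Helper714.L14

theorem det_smul_one_aux (c : ℂ) : (c • (1 : ℂ →L[ℝ] ℂ)).det = ‖c‖ ^ 2 := by
  have h1 : ((c • (1 : ℂ →L[ℝ] ℂ) : ℂ →L[ℝ] ℂ) : ℂ →ₗ[ℝ] ℂ) = Algebra.lmul ℝ ℂ c := by
    ext z <;> simp
  rw [ContinuousLinearMap.det, h1, ← Algebra.norm_apply, Algebra.norm_complex_apply,
    Complex.normSq_eq_norm_sq]

theorem rect_integral_aux (h : ℂ → ENNReal) (hh : Measurable h) (a b c d : ℝ) :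
    ∫⁻ y in Ioo c d, ∫⁻ x in Ioo a b, h (x + y * Complex.I) =
      ∫⁻ Z in {Z : ℂ | Z.re ∈ Ioo a b ∧ Z.im ∈ Ioo c d}, h Z := by
  have hm := Complex.volume_preserving_equiv_real_prod
  have h1 : {Z : ℂ | Z.re ∈ Ioo a b ∧ Z.im ∈ Ioo c d} =
      Complex.measurableEquivRealProd ⁻¹' (Ioo a b ×ˢ Ioo c d) := by
    ext Z
    simp [Complex.measurableEquivRealProd]
  have h2 : ∫⁻ Z in Complex.measurableEquivRealProd ⁻¹' (Ioo a b ×ˢ Ioo c d), h Z =
      ∫⁻ p in Ioo a b ×ˢ Ioo c d, h (Complex.measurableEquivRealProd.symm p) := by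
    rw [← hm.setLIntegral_comp_preimage_emb (Complex.measurableEquivRealProd.measurableEmbedding)
      (fun p => h (Complex.measurableEquivRealProd.symm p))]
    simp
  rw [h1, h2, Measure.volume_eq_prod, ← Measure.prod_restrict,
    lintegral_prod_symm (fun p => h (Complex.measurableEquivRealProd.symm p))
      (hh.comp Complex.measurableEquivRealProd.symm.measurable).aemeasurable]
  refine lintegral_congr fun y => lintegral_congr fun x => ?_
  congr 1
  apply Complex.ext <;> simp [Complex.measurableEquivRealProd]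

/-- Change of variables `w = P(e^Z)` on the sheets `τ = i` (on which `P` is injective). -/
theorem energy_le (N : ℕ) (P : ℂ[X]) (O : Set ℂ) (hO : IsOpen O) (τ : ℂ → Fin N)
    (hloc : ∀ z, P.eval z ∈ O → ∀ᶠ z' in 𝓝 z, τ z' = τ z)
    (hinj : ∀ z z', P.eval z ∈ O → P.eval z' = P.eval z → τ z = τ z' → z = z')
    (κ : Fin N → ℂ → ENNReal) (hκ : ∀ i, Measurable (κ i)) (a b : ℝ) (R : Fin N → Set ℂ)
    (hR : ∀ z, P.eval z ∈ O → Real.exp a < ‖z‖ → ‖z‖ < Real.exp b → P.eval z ∈ R (τ z)) :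
    ∫⁻ y in Ioo (-Real.pi) Real.pi, ∫⁻ x in Ioo a b,
      ({z | P.eval z ∈ O}.indicator (fun z => κ (τ z) (P.eval z) *
        ENNReal.ofReal (‖P.derivative.eval z * z‖ ^ 2))) (Complex.exp (x + y * Complex.I))
    ≤ ∑ i, ∫⁻ w in R i, κ i w := by
  classical
  set G : ℂ → ℂ := fun Z => P.eval (Complex.exp Z) with hG
  have hGc : Continuous G := P.continuous.comp Complex.continuous_exp
  set V : Fin N → Set ℂ := fun i => {Z | G Z ∈ O ∧ τ (Complex.exp Z) = i} with hV
  have hVo : ∀ i, IsOpen (V i) := by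
    intro i
    rw [isOpen_iff_mem_nhds]
    rintro Z ⟨hZ1, hZ2⟩
    have e1 : ∀ᶠ Z' in 𝓝 Z, G Z' ∈ O := hGc.continuousAt.eventually (hO.mem_nhds hZ1)
    have e2 : ∀ᶠ Z' in 𝓝 Z, τ (Complex.exp Z') = τ (Complex.exp Z) :=
      Complex.continuous_exp.continuousAt.eventually (hloc (Complex.exp Z) hZ1)
    filter_upwards [e1, e2] with Z' h1 h2
    exact ⟨h1, h2.trans hZ2⟩
  set f : Fin N → ℂ → ENNReal := fun i Z => κ i (G Z) *
    ENNReal.ofReal (‖P.derivative.eval (Complex.exp Z) * Complex.exp Z‖ ^ 2) with hf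
  have hfm : ∀ i, Measurable (f i) := by
    intro i
    refine ((hκ i).comp hGc.measurable).mul (ENNReal.measurable_ofReal.comp ?_)
    refine Continuous.measurable ?_
    exact ((P.derivative.continuous.comp Complex.continuous_exp).mul
      Complex.continuous_exp).norm.pow 2
  have hpt : ∀ Z : ℂ, ({z | P.eval z ∈ O}.indicator (fun z => κ (τ z) (P.eval z) *
        ENNReal.ofReal (‖P.derivative.eval z * z‖ ^ 2))) (Complex.exp Z) =
        ∑ i, (V i).indicator (f i) Z := by
    intro Z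
    by_cases hZ : P.eval (Complex.exp Z) ∈ O
    · rw [Set.indicator_of_mem (by exact hZ)]
      rw [Finset.sum_eq_single (τ (Complex.exp Z))]
      · rw [Set.indicator_of_mem (show Z ∈ V (τ (Complex.exp Z)) from ⟨hZ, rfl⟩)]
      · intro i _ hi
        exact Set.indicator_of_notMem (fun h => hi h.2.symm) _
      · intro h
        exact absurd (Finset.mem_univ _) h
    · rw [Set.indicator_of_notMem (by exact hZ)]
      symm
      refine Finset.sum_eq_zero fun i _ => ?_
      exact Set.indicator_of_notMem (fun h => hZ h.1) _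
  have hmeas : ∀ i, Measurable ((V i).indicator (f i)) := fun i =>
    (hfm i).indicator (hVo i).measurableSet
  have hmeas' : Measurable (fun Z => ∑ i, (V i).indicator (f i) Z) :=
    Finset.measurable_fun_sum _ fun i _ => hmeas i
  calc ∫⁻ y in Ioo (-Real.pi) Real.pi, ∫⁻ x in Ioo a b,
      ({z | P.eval z ∈ O}.indicator (fun z => κ (τ z) (P.eval z) *
        ENNReal.ofReal (‖P.derivative.eval z * z‖ ^ 2))) (Complex.exp (x + y * Complex.I))
      = ∫⁻ y in Ioo (-Real.pi) Real.pi, ∫⁻ x in Ioo a b,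
        (fun Z => ∑ i, (V i).indicator (f i) Z) (x + y * Complex.I) := by
        refine lintegral_congr fun y => lintegral_congr fun x => ?_
        exact hpt _
    _ = ∫⁻ Z in {Z : ℂ | Z.re ∈ Ioo a b ∧ Z.im ∈ Ioo (-Real.pi) Real.pi},
        ∑ i, (V i).indicator (f i) Z := rect_integral_aux _ hmeas' a b _ _
    _ = ∑ i, ∫⁻ Z in {Z : ℂ | Z.re ∈ Ioo a b ∧ Z.im ∈ Ioo (-Real.pi) Real.pi},
        (V i).indicator (f i) Z := lintegral_finsetSum _ fun i _ => hmeas i
    _ ≤ ∑ i, ∫⁻ w in R i, κ i w := by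
        refine Finset.sum_le_sum fun i _ => ?_
        have hT : MeasurableSet (V i ∩ {Z : ℂ | Z.re ∈ Ioo a b ∧ Z.im ∈ Ioo (-Real.pi) Real.pi}) := by
          refine (hVo i).measurableSet.inter ?_
          exact (Complex.measurable_re measurableSet_Ioo).inter
            (Complex.measurable_im measurableSet_Ioo)
        rw [lintegral_indicator (hVo i).measurableSet, Measure.restrict_restrict (hVo i).measurableSet]
        have hcv := lintegral_image_eq_lintegral_abs_det_fderiv_mul (volume : Measure ℂ) hT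
          (f := G) (f' := fun Z => (P.derivative.eval (Complex.exp Z) * Complex.exp Z) •
            (1 : ℂ →L[ℝ] ℂ)) (by
            intro Z _
            have hd : HasDerivAt G (P.derivative.eval (Complex.exp Z) * Complex.exp Z) Z :=
              (P.hasDerivAt (Complex.exp Z)).comp Z (Complex.hasDerivAt_exp Z)
            exact hd.complexToReal_fderiv.hasFDerivWithinAt) (by
            rintro Z ⟨hZ1, hZ2⟩ Z' ⟨hZ1', hZ2'⟩ hZZ
            have h1 := hinj (Complex.exp Z) (Complex.exp Z') hZ1.1 hZZ.symm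
              (hZ1.2.trans hZ1'.2.symm)
            exact Complex.exp_inj_of_neg_pi_lt_of_le_pi hZ2.2.1 hZ2.2.2.le hZ2'.2.1 hZ2'.2.2.le h1)
          (κ i)
        have heq : ∫⁻ Z in V i ∩ {Z : ℂ | Z.re ∈ Ioo a b ∧ Z.im ∈ Ioo (-Real.pi) Real.pi}, f i Z =
            ∫⁻ Z in V i ∩ {Z : ℂ | Z.re ∈ Ioo a b ∧ Z.im ∈ Ioo (-Real.pi) Real.pi},
              ENNReal.ofReal |((P.derivative.eval (Complex.exp Z) * Complex.exp Z) •
            (1 : ℂ →L[ℝ] ℂ)).det| * κ i (G Z) := by
          refine lintegral_congr fun Z => ?_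
          rw [det_smul_one_aux, abs_of_nonneg (by positivity), mul_comm]
        rw [heq, ← hcv]
        refine lintegral_mono_set ?_
        rintro _ ⟨Z, ⟨hZ1, hZ2⟩, rfl⟩
        have h1 := hR (Complex.exp Z) hZ1.1 (by
          rw [Complex.norm_exp]; exact Real.exp_lt_exp.2 hZ2.1.1) (by
          rw [Complex.norm_exp]; exact Real.exp_lt_exp.2 hZ2.1.2)
        rw [hZ1.2] at h1
        exact h1

end Pool.Agent.Helper714.L14
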