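import Mathlib
import Pool.Agent.Helper714.BU.ExtDefs

set_option autoImplicit false

open Set MeasureTheory

namespace Pool.Agent.Helper714.L15

theorem ang_measurable (c : ℂ) : Measurable (fun w : ℂ => ang c w) := by
  unfold ang
  exact (Complex.measurable_arg.comp (measurable_id.div_const c)).abs

/-- the polar point -/
noncomputable def pt (s θ : ℝ) : ℂ := (Real.exp s : ℂ) * Complex.exp (θ * Complex.I)

theorem pt_measurable : Measurable (fun p : ℝ × ℝ => pt p.1 p.2) := by
  unfold pt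
  fun_prop

theorem norm_pt (s θ : ℝ) : ‖pt s θ‖ = Real.exp s := by
  unfold pt
  rw [norm_mul, Complex.norm_exp_ofReal_mul_I, mul_one, Complex.norm_real, Real.norm_eq_abs,
    abs_of_pos (Real.exp_pos s)]

theorem pt_ne_zero (s θ : ℝ) : pt s θ ≠ 0 := by
  rw [← norm_ne_zero_iff, norm_pt]; exact (Real.exp_pos s).ne'

/-- log-polar coordinates, raw form -/
theorem logpolar_raw (F : ℂ → ENNReal) (hF : Measurable F) :
    ∫⁻ w, F w * ENNReal.ofReal (1 / ‖w‖ ^ 2)
      = ∫⁻ θ in Ioo (-Real.pi) Real.pi, ∫⁻ s, F (pt s θ) := by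
  rw [← Complex.lintegral_comp_polarCoord_symm]
  rw [show polarCoord.target = Set.Ioi (0 : ℝ) ×ˢ Set.Ioo (-Real.pi) Real.pi from rfl]
  rw [Measure.volume_eq_prod, ← Measure.prod_restrict, lintegral_prod_symm]
  · refine lintegral_congr fun θ => ?_
    have himg : Real.exp '' univ = Ioi 0 := by
      rw [image_univ, Real.range_exp]
    rw [← himg, lintegral_image_eq_lintegral_abs_deriv_mul MeasurableSet.univ
      (fun x _ => (Real.hasDerivAt_exp x).hasDerivWithinAt) (Real.exp_injective.injOn)]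
    rw [Measure.restrict_univ]
    refine lintegral_congr fun s => ?_
    have h1 : Complex.polarCoord.symm (Real.exp s, θ) = pt s θ := by
      rw [Complex.polarCoord_symm_apply]
      unfold pt
      rw [Complex.exp_mul_I]
      push_cast
      ring
    simp only [h1, norm_pt, smul_eq_mul]
    rw [mul_comm (F _), ← mul_assoc, ← mul_assoc, ← ENNReal.ofReal_mul (abs_nonneg _),
      ← ENNReal.ofReal_mul (by positivity), abs_of_pos (Real.exp_pos s)]
    have : Real.exp s * Real.exp s * (1 / Real.exp s ^ 2) = 1 := by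
      have := (Real.exp_pos s).ne'
      field_simp
    rw [this, ENNReal.ofReal_one, one_mul]
  · apply Measurable.aemeasurable
    have h2 : Measurable (fun p : ℝ × ℝ => Complex.polarCoord.symm p) := by
      have : (fun p : ℝ × ℝ => Complex.polarCoord.symm p)
          = fun p : ℝ × ℝ => (p.1 : ℂ) * (Real.cos p.2 + Real.sin p.2 * Complex.I) := by
        funext p; rw [Complex.polarCoord_symm_apply]
      rw [this]
      fun_prop
    refine Measurable.mul (ENNReal.measurable_ofReal.comp measurable_fst) ?_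
    refine Measurable.mul (hF.comp h2) ?_
    refine ENNReal.measurable_ofReal.comp ?_
    fun_prop

theorem ang_pt (c : ℂ) (s θ : ℝ) : ang c (pt s θ) = ang c (pt 0 θ) := by
  unfold ang pt
  rw [Real.exp_zero]
  push_cast
  rw [one_mul, mul_div_assoc, ← Complex.ofReal_exp, Complex.arg_real_mul _ (Real.exp_pos s)]

theorem D_pt (m : ℕ) (c : Fin m → ℂ) (vis : Finset (Fin m)) (s θ : ℝ) :
    D m c vis (pt s θ) = D m c vis (pt 0 θ) := by
  unfold D
  congr 1
  funext j
  exact ang_pt _ _ _

theorem D_measurable (m : ℕ) (c : Fin m → ℂ) (vis : Finset (Fin m)) :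
    Measurable (fun w : ℂ => D m c vis w) := by
  unfold D
  induction vis using Finset.induction_on with
  | empty => simp
  | insert a s ha ih =>
    simp only [Finset.fold_insert ha]
    exact (ang_measurable _).min ih

theorem D_attained (m : ℕ) (c : Fin m → ℂ) (vis : Finset (Fin m)) (w : ℂ) :
    D m c vis w = Real.pi / m ∨ ∃ j ∈ vis, D m c vis w = ang (c j) w := by
  unfold D
  induction vis using Finset.induction_on with
  | empty => simp
  | insert a s ha ih =>
    rw [Finset.fold_insert ha]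
    rcases le_total (ang (c a) w) (Finset.fold min (Real.pi / m) (fun j => ang (c j) w) s) with h | h
    · right
      exact ⟨a, Finset.mem_insert_self _ _, min_eq_left h⟩
    · rw [min_eq_right h]
      rcases ih with ih | ⟨j, hj, ih⟩
      · left; exact ih
      · right; exact ⟨j, Finset.mem_insert_of_mem hj, ih⟩

/-- rotation invariance -/
theorem lintegral_rot (u : ℂ) (hu : ‖u‖ = 1) (f : ℂ → ENNReal) :
    ∫⁻ w, f (w * u) = ∫⁻ w, f w := by
  let U : Circle := ⟨u, by rw [Submonoid.unitSphere]; simpa using hu⟩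
  have h := (rotation U).measurePreserving
  have h2 := h.lintegral_comp_emb (rotation U).toMeasurableEquiv.measurableEmbedding f
  rw [← h2]
  refine lintegral_congr fun w => ?_
  rw [rotation_apply, mul_comm]

theorem ang_self_rot (c w : ℂ) (hc : c ≠ 0) : ang c (w * (c / ‖c‖)) = |Complex.arg w| := by
  unfold ang
  have hn : (‖c‖ : ℂ) ≠ 0 := by
    exact_mod_cast (norm_ne_zero_iff.mpr hc)
  have : w * (c / ‖c‖) / c = ((1 / ‖c‖ : ℝ) : ℂ) * w := by
    push_cast
    field_simp
  rw [this, Complex.arg_real_mul _ (by positivity)]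

theorem arg_pt (s θ : ℝ) (h : θ ∈ Ioo (-Real.pi) Real.pi) : Complex.arg (pt s θ) = θ := by
  unfold pt
  rw [Complex.arg_real_mul _ (Real.exp_pos s), Complex.exp_mul_I]
  exact Complex.arg_cos_add_sin_mul_I ⟨h.1, h.2.le⟩

theorem lintegral_abs (H : ℝ → ENNReal) (hH : Measurable H) :
    ∫⁻ θ in Ioo (-Real.pi) Real.pi, H |θ| = 2 * ∫⁻ x in Ioo 0 Real.pi, H x := by
  have h1 : Ioo (-Real.pi) Real.pi =ᵐ[volume] (Ioo (-Real.pi) 0 ∪ Ioo 0 Real.pi : Set ℝ) := by
    have h0 : (Ioo (-Real.pi) Real.pi : Set ℝ) = (Ioo (-Real.pi) 0 ∪ Ioo 0 Real.pi) ∪ {0} := by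
      ext x
      simp only [mem_Ioo, mem_union, mem_singleton_iff]
      have := Real.pi_pos
      constructor
      · rintro ⟨h1, h2⟩
        rcases lt_trichotomy x 0 with h | h | h
        · left; left; exact ⟨h1, h⟩
        · right; exact h
        · left; right; exact ⟨h, h2⟩
      · rintro ((⟨h1, h2⟩ | ⟨h1, h2⟩) | h)
        · constructor <;> linarith
        · constructor <;> linarith
        · subst h; constructor <;> linarith
    rw [h0]
    exact union_ae_eq_left_of_ae_eq_empty (by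
      rw [ae_eq_empty]; exact Real.volume_singleton)
  rw [setLIntegral_congr h1, lintegral_union measurableSet_Ioo
    (by
      rw [Set.disjoint_left]
      intro x hx hx'
      exact absurd hx.2 (not_lt.mpr hx'.1.le))]
  have h2 : ∫⁻ θ in Ioo (-Real.pi) 0, H |θ| = ∫⁻ x in Ioo 0 Real.pi, H x := by
    have hmp := (Measure.measurePreserving_neg (volume : Measure ℝ)).setLIntegral_comp_preimage_emb
      (MeasurableEquiv.neg ℝ).measurableEmbedding (fun x => H x) (Ioo 0 Real.pi)
    rw [← hmp]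
    have : (Neg.neg ⁻¹' Ioo 0 Real.pi : Set ℝ) = Ioo (-Real.pi) 0 := by
      ext x; simp only [mem_preimage, mem_Ioo]; constructor
      · rintro ⟨h1, h2⟩; constructor <;> linarith
      · rintro ⟨h1, h2⟩; constructor <;> linarith
    rw [this]
    refine setLIntegral_congr_fun measurableSet_Ioo fun x hx => ?_
    rw [abs_of_neg hx.2]
  have h3 : ∫⁻ θ in Ioo 0 Real.pi, H |θ| = ∫⁻ x in Ioo 0 Real.pi, H x := by
    refine setLIntegral_congr_fun measurableSet_Ioo fun x hx => ?_
    rw [abs_of_pos hx.1]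
  rw [h2, h3, two_mul]

/-- logarithmic polar coordinates, a function of `|w|` and the angular distance to one ray -/
theorem polar_one (c : ℂ) (hc : c ≠ 0) (k : ℝ → ℝ → ENNReal)
    (hk : Measurable (Function.uncurry k)) (b : ℝ) :
    ∫⁻ w in {w : ℂ | w ≠ 0 ∧ Real.log ‖w‖ < b},
        k (Real.log ‖w‖) (ang c w) * ENNReal.ofReal (1 / ‖w‖ ^ 2)
      = 2 * ∫⁻ x in Ioo 0 Real.pi, ∫⁻ s in Iio b, k s x := by
  have hmeas : MeasurableSet {w : ℂ | w ≠ 0 ∧ Real.log ‖w‖ < b} := by
    refine MeasurableSet.inter ?_ ?_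
    · exact (measurableSet_singleton (0 : ℂ)).compl
    · exact measurableSet_lt (Real.measurable_log.comp measurable_norm) measurable_const
  rw [← lintegral_indicator hmeas]
  have hn : (‖c‖ : ℝ) ≠ 0 := (norm_ne_zero_iff.mpr hc)
  have hu : ‖c / (‖c‖ : ℂ)‖ = 1 := by
    rw [norm_div, Complex.norm_real, norm_norm, div_self hn]
  rw [← lintegral_rot (c / (‖c‖ : ℂ)) hu]
  have hu0 : c / (‖c‖ : ℂ) ≠ 0 := by
    intro h; rw [h] at hu; simp at hu
  have hcongr : ∀ w : ℂ, indicator {w : ℂ | w ≠ 0 ∧ Real.log ‖w‖ < b}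
      (fun w => k (Real.log ‖w‖) (ang c w) * ENNReal.ofReal (1 / ‖w‖ ^ 2)) (w * (c / (‖c‖ : ℂ)))
      = indicator {w : ℂ | w ≠ 0 ∧ Real.log ‖w‖ < b}
        (fun w => k (Real.log ‖w‖) |Complex.arg w|) w * ENNReal.ofReal (1 / ‖w‖ ^ 2) := by
    intro w
    by_cases hw : w ∈ {w : ℂ | w ≠ 0 ∧ Real.log ‖w‖ < b}
    · have hw2 : w * (c / (‖c‖ : ℂ)) ∈ {w : ℂ | w ≠ 0 ∧ Real.log ‖w‖ < b} := by
        refine ⟨mul_ne_zero hw.1 hu0, ?_⟩
        rw [norm_mul, hu, mul_one]; exact hw.2
      rw [indicator_of_mem hw, indicator_of_mem hw2]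
      rw [ang_self_rot c w hc, norm_mul, hu, mul_one]
    · have hw2 : w * (c / (‖c‖ : ℂ)) ∉ {w : ℂ | w ≠ 0 ∧ Real.log ‖w‖ < b} := by
        rintro ⟨h1, h2⟩
        apply hw
        refine ⟨left_ne_zero_of_mul h1, ?_⟩
        rw [norm_mul, hu, mul_one] at h2; exact h2
      rw [indicator_of_notMem hw, indicator_of_notMem hw2, zero_mul]
  rw [lintegral_congr hcongr]
  have hFm : Measurable (fun w : ℂ => k (Real.log ‖w‖) |Complex.arg w|) :=
    hk.comp ((Real.measurable_log.comp measurable_norm).prodMk Complex.measurable_arg.abs)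
  rw [logpolar_raw _ (hFm.indicator hmeas)]
  rw [← lintegral_abs (fun x => ∫⁻ s in Iio b, k s x)
    (Measurable.lintegral_prod_left' hk)]
  refine setLIntegral_congr_fun measurableSet_Ioo fun θ hθ => ?_
  rw [← lintegral_indicator measurableSet_Iio]
  refine lintegral_congr fun s => ?_
  by_cases hs : s ∈ Iio b
  · rw [indicator_of_mem hs, indicator_of_mem, norm_pt, Real.log_exp, arg_pt s θ hθ]
    refine ⟨pt_ne_zero s θ, ?_⟩
    rw [norm_pt, Real.log_exp]; exact hs
  · rw [indicator_of_notMem hs, indicator_of_notMem]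
    rintro ⟨h1, h2⟩
    rw [norm_pt, Real.log_exp] at h2
    exact hs h2

theorem circle_one (c : ℂ) (hc : c ≠ 0) (H : ℝ → ENNReal) (hH : Measurable H) :
    ∫⁻ θ in Ioo (-Real.pi) Real.pi, H (ang c (pt 0 θ)) = 2 * ∫⁻ x in Ioo 0 Real.pi, H x := by
  have hmI : Measurable (indicator (Ioo (0 : ℝ) 1) (fun _ => (1 : ENNReal))) :=
    measurable_const.indicator measurableSet_Ioo
  have hkm : Measurable (Function.uncurry
      (fun s x => indicator (Ioo (0 : ℝ) 1) (fun _ => (1 : ENNReal)) s * H x)) :=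
    (hmI.comp measurable_fst).mul (hH.comp measurable_snd)
  have h := polar_one c hc (fun s x => indicator (Ioo (0 : ℝ) 1) (fun _ => (1 : ENNReal)) s * H x)
    hkm 1
  have hI : ∫⁻ s in Iio (1 : ℝ), indicator (Ioo (0 : ℝ) 1) (fun _ => (1 : ENNReal)) s = 1 := by
    rw [lintegral_indicator measurableSet_Ioo, Measure.restrict_restrict measurableSet_Ioo,
      inter_eq_left.mpr (fun x hx => hx.2), lintegral_one, Measure.restrict_apply_univ]
    simp
  have hr : ∀ x : ℝ, ∫⁻ s in Iio (1 : ℝ), indicator (Ioo (0 : ℝ) 1) (fun _ => (1 : ENNReal)) s * H x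
      = H x := by
    intro x
    rw [lintegral_mul_const _ hmI, hI, one_mul]
  simp only [hr] at h
  rw [← h]
  have hmeas : MeasurableSet {w : ℂ | w ≠ 0 ∧ Real.log ‖w‖ < 1} := by
    refine MeasurableSet.inter ?_ ?_
    · exact (measurableSet_singleton (0 : ℂ)).compl
    · exact measurableSet_lt (Real.measurable_log.comp measurable_norm) measurable_const
  rw [← lintegral_indicator hmeas]
  have hFm : Measurable (fun w : ℂ => indicator (Ioo (0 : ℝ) 1) (fun _ => (1 : ENNReal))
      (Real.log ‖w‖) * H (ang c w)) :=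
    (hmI.comp (Real.measurable_log.comp measurable_norm)).mul (hH.comp (ang_measurable c))
  have hcongr : ∀ w : ℂ, indicator {w : ℂ | w ≠ 0 ∧ Real.log ‖w‖ < 1}
      (fun w => indicator (Ioo (0 : ℝ) 1) (fun _ => (1 : ENNReal))
      (Real.log ‖w‖) * H (ang c w) * ENNReal.ofReal (1 / ‖w‖ ^ 2)) w
      = indicator {w : ℂ | w ≠ 0 ∧ Real.log ‖w‖ < 1}
        (fun w => indicator (Ioo (0 : ℝ) 1) (fun _ => (1 : ENNReal))
      (Real.log ‖w‖) * H (ang c w)) w * ENNReal.ofReal (1 / ‖w‖ ^ 2) := by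
    intro w
    by_cases hw : w ∈ {w : ℂ | w ≠ 0 ∧ Real.log ‖w‖ < 1}
    · rw [indicator_of_mem hw, indicator_of_mem hw]
    · rw [indicator_of_notMem hw, indicator_of_notMem hw, zero_mul]
  rw [lintegral_congr hcongr, logpolar_raw _ (hFm.indicator hmeas)]
  refine setLIntegral_congr_fun measurableSet_Ioo fun θ hθ => ?_
  have : ∀ s : ℝ, indicator {w : ℂ | w ≠ 0 ∧ Real.log ‖w‖ < 1}
        (fun w => indicator (Ioo (0 : ℝ) 1) (fun _ => (1 : ENNReal))
      (Real.log ‖w‖) * H (ang c w)) (pt s θ)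
      = indicator (Iio (1:ℝ)) (fun s => indicator (Ioo (0 : ℝ) 1) (fun _ => (1 : ENNReal)) s
        * H (ang c (pt 0 θ))) s := by
    intro s
    by_cases hs : s ∈ Iio (1:ℝ)
    · rw [indicator_of_mem hs, indicator_of_mem, norm_pt, Real.log_exp, ang_pt]
      refine ⟨pt_ne_zero s θ, ?_⟩
      rw [norm_pt, Real.log_exp]; exact hs
    · rw [indicator_of_notMem hs, indicator_of_notMem]
      rintro ⟨h1, h2⟩
      rw [norm_pt, Real.log_exp] at h2
      exact hs h2
  rw [lintegral_congr this, lintegral_indicator measurableSet_Iio, hr]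

/-- logarithmic polar coordinates for the principal sheet, with the union bound -/
theorem polar_main (m : ℕ) (hm : 1 ≤ m) (c : Fin m → ℂ) (hc : ∀ j, c j ≠ 0)
    (vis : Finset (Fin m)) (k : ℝ → ℝ → ENNReal)
    (hk : Measurable (Function.uncurry k)) (kH : ℝ → ENNReal) (hkH : Measurable kH)
    (a b : ℝ) (δ : ENNReal) (hfin : ∫⁻ s in Ioo a b, kH s ≠ ⊤)
    (hle : ∀ x, 0 < x → x < Real.pi / m →
      ∫⁻ s in Ioo a b, kH s ≤ (∫⁻ s in Ioo a b, k s x) + δ) :
    ∫⁻ w in {w : ℂ | w ≠ 0 ∧ a < Real.log ‖w‖ ∧ Real.log ‖w‖ < b},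
        (if D m c vis w < Real.pi / m then k (Real.log ‖w‖) (D m c vis w)
          else kH (Real.log ‖w‖)) * ENNReal.ofReal (1 / ‖w‖ ^ 2)
      ≤ 2 * m * (∫⁻ x in Ioo 0 (Real.pi / m), ∫⁻ s in Ioo a b, k s x)
        + ENNReal.ofReal (2 * Real.pi) * δ := by
  have hlog : Measurable (fun w : ℂ => Real.log ‖w‖) := Real.measurable_log.comp measurable_norm
  have hmeas : MeasurableSet {w : ℂ | w ≠ 0 ∧ a < Real.log ‖w‖ ∧ Real.log ‖w‖ < b} := by
    refine MeasurableSet.inter ?_ (MeasurableSet.inter ?_ ?_)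
    · exact (measurableSet_singleton (0 : ℂ)).compl
    · exact measurableSet_lt measurable_const hlog
    · exact measurableSet_lt hlog measurable_const
  set h : ℝ := Real.pi / m with hh
  have hm0 : (0 : ℝ) < m := by exact_mod_cast hm
  have hpos : 0 < h := by rw [hh]; exact div_pos Real.pi_pos hm0
  have hlepi : h ≤ Real.pi := by
    rw [hh, div_le_iff₀ hm0]
    have : (1 : ℝ) ≤ m := by exact_mod_cast hm
    nlinarith [Real.pi_pos]
  set EA : ℝ → ENNReal := fun x => ∫⁻ s in Ioo a b, k s x with hEA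
  set EH : ENNReal := ∫⁻ s in Ioo a b, kH s with hEH
  have hEAm : Measurable EA := Measurable.lintegral_prod_left' hk
  have hDm := D_measurable m c vis
  have hFm : Measurable (fun w : ℂ => (if D m c vis w < h then k (Real.log ‖w‖) (D m c vis w)
          else kH (Real.log ‖w‖))) := by
    refine Measurable.ite (measurableSet_lt hDm measurable_const) ?_ (hkH.comp hlog)
    exact hk.comp (hlog.prodMk hDm)
  rw [← lintegral_indicator hmeas]
  have hcongr : ∀ w : ℂ, indicator {w : ℂ | w ≠ 0 ∧ a < Real.log ‖w‖ ∧ Real.log ‖w‖ < b}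
      (fun w => (if D m c vis w < h then k (Real.log ‖w‖) (D m c vis w)
          else kH (Real.log ‖w‖)) * ENNReal.ofReal (1 / ‖w‖ ^ 2)) w
      = indicator {w : ℂ | w ≠ 0 ∧ a < Real.log ‖w‖ ∧ Real.log ‖w‖ < b}
      (fun w => (if D m c vis w < h then k (Real.log ‖w‖) (D m c vis w)
          else kH (Real.log ‖w‖))) w * ENNReal.ofReal (1 / ‖w‖ ^ 2) := by
    intro w
    by_cases hw : w ∈ {w : ℂ | w ≠ 0 ∧ a < Real.log ‖w‖ ∧ Real.log ‖w‖ < b}
    · rw [indicator_of_mem hw, indicator_of_mem hw]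
    · rw [indicator_of_notMem hw, indicator_of_notMem hw, zero_mul]
  rw [lintegral_congr hcongr, logpolar_raw _ (hFm.indicator hmeas)]
  have hinner : ∀ θ : ℝ, ∫⁻ s, indicator {w : ℂ | w ≠ 0 ∧ a < Real.log ‖w‖ ∧ Real.log ‖w‖ < b}
      (fun w => (if D m c vis w < h then k (Real.log ‖w‖) (D m c vis w)
          else kH (Real.log ‖w‖))) (pt s θ)
      = if D m c vis (pt 0 θ) < h then EA (D m c vis (pt 0 θ)) else EH := by
    intro θ
    have h1 : ∀ s : ℝ, indicator {w : ℂ | w ≠ 0 ∧ a < Real.log ‖w‖ ∧ Real.log ‖w‖ < b}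
      (fun w => (if D m c vis w < h then k (Real.log ‖w‖) (D m c vis w)
          else kH (Real.log ‖w‖))) (pt s θ)
        = indicator (Ioo a b) (fun s => if D m c vis (pt 0 θ) < h then k s (D m c vis (pt 0 θ))
          else kH s) s := by
      intro s
      by_cases hs : s ∈ Ioo a b
      · rw [indicator_of_mem hs, indicator_of_mem, norm_pt, Real.log_exp, D_pt]
        refine ⟨pt_ne_zero s θ, ?_⟩
        rw [norm_pt, Real.log_exp]; exact hs
      · rw [indicator_of_notMem hs, indicator_of_notMem]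
        rintro ⟨h1, h2⟩
        rw [norm_pt, Real.log_exp] at h2
        exact hs h2
    rw [lintegral_congr h1, lintegral_indicator measurableSet_Ioo]
    by_cases hd : D m c vis (pt 0 θ) < h
    · simp only [hd, if_true, hEA]
    · simp only [hd, if_false, hEH]
  rw [lintegral_congr hinner]
  -- the angles are a.e. positive
  have hptm : Measurable (fun θ : ℝ => pt 0 θ) :=
    pt_measurable.comp (measurable_const.prodMk measurable_id)
  have hangpos : ∀ᵐ θ ∂(volume.restrict (Ioo (-Real.pi) Real.pi)), ∀ j, 0 < ang (c j) (pt 0 θ) := by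
    rw [ae_all_iff]
    intro j
    have h1 := circle_one (c j) (hc j) (indicator {0} (fun _ => (1 : ENNReal)))
      (measurable_const.indicator (measurableSet_singleton 0))
    have h2 : ∫⁻ x in Ioo 0 Real.pi, indicator {0} (fun _ => (1 : ENNReal)) x = 0 := by
      rw [lintegral_indicator (measurableSet_singleton 0),
        Measure.restrict_restrict (measurableSet_singleton 0)]
      have : ({0} ∩ Ioo 0 Real.pi : Set ℝ) = ∅ := by
        ext x; simp only [mem_inter_iff, mem_singleton_iff, mem_Ioo, mem_empty_iff_false,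
          iff_false]
        rintro ⟨rfl, h1, _⟩
        exact lt_irrefl _ h1
      rw [this]; simp
    have hmm : Measurable (fun θ : ℝ => indicator {0} (fun _ => (1 : ENNReal))
        (ang (c j) (pt 0 θ))) :=
      (measurable_const.indicator (measurableSet_singleton 0)).comp
        ((ang_measurable (c j)).comp hptm)
    rw [h2, mul_zero, lintegral_eq_zero_iff hmm] at h1
    filter_upwards [h1] with θ hθ
    have h3 : 0 ≤ ang (c j) (pt 0 θ) := abs_nonneg _
    rcases h3.lt_or_eq with h4 | h4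
    · exact h4
    · exfalso
      rw [← h4] at hθ
      simp at hθ
  set G : ℝ → ENNReal := fun x => indicator (Iio h) (fun x => EA x + δ - EH) x with hG
  have hGm : Measurable G := by
    refine Measurable.indicator ?_ measurableSet_Iio
    exact (hEAm.add_const δ).sub measurable_const
  have hbound : ∀ᵐ θ ∂(volume.restrict (Ioo (-Real.pi) Real.pi)),
      (if D m c vis (pt 0 θ) < h then EA (D m c vis (pt 0 θ)) else EH)
        ≤ EH + ∑ j ∈ vis, G (ang (c j) (pt 0 θ)) := by
    filter_upwards [hangpos] with θ hθ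
    by_cases hd : D m c vis (pt 0 θ) < h
    · rw [if_pos hd]
      rcases D_attained m c vis (pt 0 θ) with hD | ⟨j, hj, hD⟩
      · rw [← hh] at hD
        rw [hD] at hd
        exact absurd hd (lt_irrefl _)
      · rw [hD] at hd ⊢
        have h1 : G (ang (c j) (pt 0 θ)) ≤ ∑ j ∈ vis, G (ang (c j) (pt 0 θ)) :=
          Finset.single_le_sum (f := fun j => G (ang (c j) (pt 0 θ))) (fun _ _ => bot_le) hj
        refine le_trans ?_ (add_le_add_right h1 EH)
        have h2 : G (ang (c j) (pt 0 θ)) = EA (ang (c j) (pt 0 θ)) + δ - EH := by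
          rw [hG]; exact indicator_of_mem (show ang (c j) (pt 0 θ) ∈ Iio h from hd) _
        rw [h2, add_tsub_cancel_of_le (hle _ (hθ j) hd)]
        exact le_self_add
    · rw [if_neg hd]
      exact le_self_add
  refine le_trans (lintegral_mono_ae hbound) ?_
  have hGm2 : ∀ j ∈ vis, Measurable (fun θ : ℝ => G (ang (c j) (pt 0 θ))) :=
    fun j _ => hGm.comp ((ang_measurable (c j)).comp hptm)
  rw [lintegral_add_left measurable_const, lintegral_finsetSum _ hGm2]
  have hGi : ∀ j ∈ vis, ∫⁻ θ in Ioo (-Real.pi) Real.pi, G (ang (c j) (pt 0 θ))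
      = 2 * ∫⁻ x in Ioo 0 h, (EA x + δ - EH) := by
    intro j _
    rw [circle_one (c j) (hc j) G hGm]
    congr 1
    rw [hG]
    rw [lintegral_indicator measurableSet_Iio, Measure.restrict_restrict measurableSet_Iio]
    congr 2
    ext x
    simp only [mem_inter_iff, mem_Iio, mem_Ioo]
    constructor
    · rintro ⟨h1, h2, h3⟩; exact ⟨h2, h1⟩
    · rintro ⟨h1, h2⟩; exact ⟨h2, h1, lt_of_lt_of_le h2 hlepi⟩
  rw [Finset.sum_congr rfl hGi, Finset.sum_const, nsmul_eq_mul, lintegral_const,
    Measure.restrict_apply_univ, Real.volume_Ioo]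
  have hcard : (vis.card : ENNReal) ≤ m := by
    have := Finset.card_le_univ vis
    rw [Fintype.card_fin] at this
    exact_mod_cast this
  have hsum : (∫⁻ x in Ioo 0 h, (EA x + δ - EH)) + EH * ENNReal.ofReal h
      = (∫⁻ x in Ioo 0 h, EA x) + δ * ENNReal.ofReal h := by
    have e1 : EH * ENNReal.ofReal h = ∫⁻ x in Ioo 0 h, (fun _ => EH) x := by
      rw [lintegral_const, Measure.restrict_apply_univ, Real.volume_Ioo, sub_zero]
    have e2 : δ * ENNReal.ofReal h = ∫⁻ x in Ioo 0 h, (fun _ => δ) x := by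
      rw [lintegral_const, Measure.restrict_apply_univ, Real.volume_Ioo, sub_zero]
    rw [e1, e2, ← lintegral_add_right _ measurable_const, ← lintegral_add_right _ measurable_const]
    refine setLIntegral_congr_fun measurableSet_Ioo fun x hx => ?_
    exact tsub_add_cancel_of_le (hle x hx.1 hx.2)
  have hpi : ENNReal.ofReal (Real.pi - -Real.pi) = 2 * m * ENNReal.ofReal h := by
    rw [show (2 : ENNReal) = ENNReal.ofReal 2 by simp,
      show (m : ENNReal) = ENNReal.ofReal m by simp,
      ← ENNReal.ofReal_mul (by norm_num), ← ENNReal.ofReal_mul (by positivity)]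
    congr 1
    rw [hh]; field_simp; ring
  have hpi2 : ENNReal.ofReal (2 * Real.pi) = 2 * m * ENNReal.ofReal h := by
    rw [← hpi]; congr 1; ring
  rw [hpi, hpi2]
  calc EH * (2 * ↑m * ENNReal.ofReal h) + ↑vis.card * (2 * ∫⁻ x in Ioo 0 h, (EA x + δ - EH))
      ≤ EH * (2 * ↑m * ENNReal.ofReal h) + ↑m * (2 * ∫⁻ x in Ioo 0 h, (EA x + δ - EH)) := by
        gcongr
    _ = 2 * m * ((∫⁻ x in Ioo 0 h, (EA x + δ - EH)) + EH * ENNReal.ofReal h) := by ring
    _ = 2 * m * ((∫⁻ x in Ioo 0 h, EA x) + δ * ENNReal.ofReal h) := by rw [hsum]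
    _ ≤ 2 * ↑m * (∫⁻ x in Ioo 0 h, EA x) + 2 * ↑m * ENNReal.ofReal h * δ := by
        apply le_of_eq; ring

end Pool.Agent.Helper714.L15
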