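import Mathlib
import Pool.Agent.Helper714.BU.ExtDefs

set_option autoImplicit false

open Set Polynomial

namespace Pool.Agent.Helper714.L16

theorem poly_near_zero (P : ℂ[X]) (h0 : P.coeff 0 = 0) (h1 : P.coeff 1 = 1) (δ : ℝ) (hδ : 0 < δ) :
    ∃ r₀ > 0, ∀ z : ℂ, z ≠ 0 → ‖z‖ ≤ r₀ →
      P.eval z ≠ 0 ∧ |Real.log ‖P.eval z‖ - Real.log ‖z‖| ≤ δ := by
  have hd : HasDerivAt (fun z => P.eval z) (P.derivative.eval 0) 0 := P.hasDerivAt 0
  have hd1 : P.derivative.eval 0 = 1 := by
    rw [← Polynomial.coeff_zero_eq_eval_zero, Polynomial.coeff_derivative]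
    simp [h1]
  rw [hd1, hasDerivAt_iff_tendsto_slope] at hd
  have hP0 : P.eval 0 = 0 := by rw [← Polynomial.coeff_zero_eq_eval_zero, h0]
  have h2 : ∀ᶠ z in nhdsWithin (0 : ℂ) {0}ᶜ, slope (fun z => P.eval z) 0 z ≠ 0 :=
    hd.eventually_ne one_ne_zero
  have h3 : Filter.Tendsto (fun z => Real.log ‖slope (fun z => P.eval z) 0 z‖)
      (nhdsWithin (0 : ℂ) {0}ᶜ) (nhds 0) := by
    have h4 := (hd.norm).log (by simp)
    simpa using h4
  have h5 : ∀ᶠ z in nhdsWithin (0 : ℂ) {0}ᶜ,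
      |Real.log ‖slope (fun z => P.eval z) 0 z‖| < δ := by
    have h6 := h3.eventually (Metric.ball_mem_nhds 0 hδ)
    filter_upwards [h6] with z hz
    simpa [Real.dist_eq] using hz
  have h7 := h2.and h5
  rw [eventually_nhdsWithin_iff, Metric.eventually_nhds_iff] at h7
  obtain ⟨ε, hε, hz⟩ := h7
  refine ⟨ε / 2, by positivity, ?_⟩
  intro z hz0 hzr
  have h8 := hz (y := z) (by rw [dist_zero_right]; linarith) hz0
  have h9 : slope (fun z => P.eval z) 0 z = z⁻¹ * P.eval z := by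
    rw [slope_def_field, hP0]
    simp [div_eq_inv_mul]
  rw [h9] at h8
  obtain ⟨h10, h11⟩ := h8
  have hPz : P.eval z ≠ 0 := by
    intro h
    apply h10
    rw [h, mul_zero]
  refine ⟨hPz, ?_⟩
  rw [norm_mul, norm_inv, Real.log_mul (inv_ne_zero (norm_ne_zero_iff.2 hz0))
    (norm_ne_zero_iff.2 hPz), Real.log_inv] at h11
  have h12 : Real.log ‖P.eval z‖ - Real.log ‖z‖ = -Real.log ‖z‖ + Real.log ‖P.eval z‖ := by ring
  rw [h12]
  exact h11.le

/-- behaviour of a polynomial near `0` and near infinity, in logarithmic form -/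
theorem poly_asymp (n : ℕ) (hn : 1 ≤ n) (P : ℂ[X]) (hdeg : P.natDegree = n)
    (h0 : P.coeff 0 = 0) (h1 : P.coeff 1 = 1) (δ : ℝ) (hδ : 0 < δ) :
    (∃ r₀ > 0, ∀ z : ℂ, z ≠ 0 → ‖z‖ ≤ r₀ →
      P.eval z ≠ 0 ∧ |Real.log ‖P.eval z‖ - Real.log ‖z‖| ≤ δ) ∧
    (∃ R₀ > 0, ∀ R ≥ R₀, ∀ z : ℂ, (‖z‖ ≤ R → P.eval z ≠ 0 →
        Real.log ‖P.eval z‖ ≤ n * Real.log R + Real.log ‖P.coeff n‖ + δ) ∧
      (‖z‖ = R → P.eval z ≠ 0 ∧
        n * Real.log R + Real.log ‖P.coeff n‖ - δ ≤ Real.log ‖P.eval z‖)) := by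
  refine ⟨poly_near_zero P h0 h1 δ hδ, ?_⟩
  have hP : P ≠ 0 := by
    intro h
    rw [h] at h1
    simp at h1
  have hlc : P.coeff n ≠ 0 := by
    rw [← hdeg]
    exact Polynomial.leadingCoeff_ne_zero.2 hP
  have hlc' : 0 < ‖P.coeff n‖ := norm_pos_iff.2 hlc
  -- lower bound via the reverse polynomial
  have hrev0 : P.reverse.eval 0 = P.coeff n := by
    rw [← Polynomial.coeff_zero_eq_eval_zero, Polynomial.coeff_zero_reverse,
      Polynomial.leadingCoeff, hdeg]
  have hlow : ∀ᶠ x in nhds (0 : ℂ), ‖P.coeff n‖ * Real.exp (-δ) < ‖P.reverse.eval x‖ := by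
    have hc : ContinuousAt (fun x => ‖P.reverse.eval x‖) 0 :=
      (P.reverse.continuous.norm).continuousAt
    have h2 : ‖P.coeff n‖ * Real.exp (-δ) < ‖P.reverse.eval 0‖ := by
      rw [hrev0]
      have : Real.exp (-δ) < 1 := by rw [Real.exp_lt_one_iff]; linarith
      nlinarith
    exact hc.eventually (lt_mem_nhds h2)
  rw [Metric.eventually_nhds_iff] at hlow
  obtain ⟨ε1, hε1, hlow⟩ := hlow
  -- upper bound
  let T : ℝ → ℝ := fun x => ∑ k ∈ Finset.range (n + 1), ‖P.coeff k‖ * x ^ (n - k)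
  have hT0 : T 0 = ‖P.coeff n‖ := by
    simp only [T]
    rw [Finset.sum_range_succ, Finset.sum_eq_zero]
    · simp
    · intro k hk
      rw [Finset.mem_range] at hk
      rw [zero_pow (by omega), mul_zero]
  have hTc : Continuous T := by
    simp only [T]
    fun_prop
  have hup : ∀ᶠ x in nhds (0 : ℝ), T x < ‖P.coeff n‖ * Real.exp δ := by
    have h2 : T 0 < ‖P.coeff n‖ * Real.exp δ := by
      rw [hT0]
      have : 1 < Real.exp δ := by rw [Real.one_lt_exp_iff]; exact hδ
      nlinarith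
    exact hTc.continuousAt.eventually (gt_mem_nhds h2)
  rw [Metric.eventually_nhds_iff] at hup
  obtain ⟨ε2, hε2, hup⟩ := hup
  refine ⟨max 1 (max (2 / ε1) (2 / ε2)), by positivity, ?_⟩
  intro R hR z
  have hR1 : 1 ≤ R := le_trans (le_max_left _ _) hR
  have hRe1 : 2 / ε1 ≤ R := le_trans (le_trans (le_max_left _ _) (le_max_right _ _)) hR
  have hRe2 : 2 / ε2 ≤ R := le_trans (le_trans (le_max_right _ _) (le_max_right _ _)) hR
  have hRpos : 0 < R := by linarith
  have hinv1 : R⁻¹ < ε1 := by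
    rw [inv_lt_comm₀ hRpos hε1]
    have : ε1⁻¹ < 2 / ε1 := by
      rw [div_eq_mul_inv]
      have := inv_pos.2 hε1
      linarith
    linarith
  have hinv2 : R⁻¹ < ε2 := by
    rw [inv_lt_comm₀ hRpos hε2]
    have : ε2⁻¹ < 2 / ε2 := by
      rw [div_eq_mul_inv]
      have := inv_pos.2 hε2
      linarith
    linarith
  constructor
  · intro hz hPz
    have hnorm : ‖P.eval z‖ ≤ R ^ n * T R⁻¹ := by
      rw [Polynomial.eval_eq_sum_range, hdeg]
      calc ‖∑ k ∈ Finset.range (n + 1), P.coeff k * z ^ k‖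
          ≤ ∑ k ∈ Finset.range (n + 1), ‖P.coeff k * z ^ k‖ := norm_sum_le _ _
        _ ≤ ∑ k ∈ Finset.range (n + 1), R ^ n * (‖P.coeff k‖ * R⁻¹ ^ (n - k)) := by
            apply Finset.sum_le_sum
            intro k hk
            rw [Finset.mem_range] at hk
            rw [norm_mul, norm_pow]
            have h3 : R ^ n * (‖P.coeff k‖ * R⁻¹ ^ (n - k)) = ‖P.coeff k‖ * R ^ k := by
              have h4 : R ^ n = R ^ (n - k) * R ^ k := by rw [← pow_add]; congr 1; omega
              rw [h4, inv_pow]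
              have : R ^ (n - k) ≠ 0 := by positivity
              field_simp
            rw [h3]
            apply mul_le_mul_of_nonneg_left _ (norm_nonneg _)
            exact pow_le_pow_left₀ (norm_nonneg _) hz _
        _ = R ^ n * T R⁻¹ := by rw [← Finset.mul_sum]
    have hT : T R⁻¹ < ‖P.coeff n‖ * Real.exp δ := by
      apply hup
      rw [dist_zero_right, Real.norm_of_nonneg (by positivity)]
      exact hinv2
    have h3 : ‖P.eval z‖ ≤ R ^ n * (‖P.coeff n‖ * Real.exp δ) :=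
      hnorm.trans (mul_le_mul_of_nonneg_left hT.le (by positivity))
    have h4 := Real.log_le_log (norm_pos_iff.2 hPz) h3
    rw [Real.log_mul (by positivity) (by positivity), Real.log_mul (by positivity) (by positivity),
      Real.log_pow, Real.log_exp] at h4
    linarith
  · intro hz
    have hz0 : z ≠ 0 := by
      intro h
      rw [h, norm_zero] at hz
      linarith
    have hPz : P.eval z = P.reverse.eval z⁻¹ * z ^ n := by
      letI : Invertible z := invertibleOfNonzero hz0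
      have h3 := Polynomial.eval₂_reverse_mul_pow (RingHom.id ℂ) z P
      rw [hdeg, invOf_eq_inv] at h3
      exact h3.symm
    have h3 : ‖P.coeff n‖ * Real.exp (-δ) < ‖P.reverse.eval z⁻¹‖ := by
      apply hlow
      rw [dist_zero_right, norm_inv, hz]
      exact hinv1
    have h4 : ‖P.coeff n‖ * Real.exp (-δ) * R ^ n ≤ ‖P.eval z‖ := by
      rw [hPz, norm_mul, norm_pow, hz]
      exact mul_le_mul_of_nonneg_right h3.le (by positivity)
    have h5 : 0 < ‖P.coeff n‖ * Real.exp (-δ) * R ^ n := by positivity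
    refine ⟨norm_pos_iff.1 (lt_of_lt_of_le h5 h4), ?_⟩
    have h6 := Real.log_le_log h5 h4
    rw [Real.log_mul (by positivity) (by positivity), Real.log_mul (by positivity) (by positivity),
      Real.log_pow, Real.log_exp] at h6
    linarith

end Pool.Agent.Helper714.L16
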