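import Mathlib
import Pool.Agent.Helper714.BU.ExtDefs

set_option autoImplicit false

namespace Pool.Agent.Helper714.L2

namespace J2

open Complex Filter Topology Set

theorem exp_im_pos {m : ℕ} (hm : 1 ≤ m) {Z : ℂ} (hZ : Z ∈ S m) : 0 < (exp (m * Z)).im := by
  obtain ⟨h1, h2⟩ := hZ
  have hm0 : (0 : ℝ) < m := by exact_mod_cast hm
  rw [exp_im]
  have h3 : ((m : ℂ) * Z).im = m * Z.im := by simp
  rw [h3]
  apply mul_pos (Real.exp_pos _)
  apply Real.sin_pos_of_pos_of_lt_pi (mul_pos hm0 h1)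
  rw [lt_div_iff₀ hm0] at h2
  linarith [mul_comm (m : ℝ) Z.im]

theorem slit {m : ℕ} (hm : 1 ≤ m) {Z : ℂ} (hZ : Z ∈ S m) : 1 - exp (m * Z) ∈ slitPlane := by
  have := exp_im_pos hm hZ
  rw [mem_slitPlane_iff]
  right
  simp only [sub_im, one_im, zero_sub]
  linarith

theorem hasDeriv_E {m : ℕ} {Z : ℂ} (hZ : 1 - exp (m * Z) ∈ slitPlane) :
    HasDerivAt (E m) ((1 - (m + 1) * exp (m * Z)) / (1 - exp (m * Z))) Z := by
  have h0 : 1 - exp (m * Z) ≠ 0 := slitPlane_ne_zero hZ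
  have h1 : HasDerivAt (fun Z : ℂ => exp (m * Z)) (exp (m * Z) * m) Z := by
    have := ((hasDerivAt_id Z).const_mul (m : ℂ)).cexp
    simpa using this
  have h2 : HasDerivAt (fun Z : ℂ => 1 - exp (m * Z)) (-(exp (m * Z) * m)) Z := by
    have := h1.const_sub 1
    simpa using this
  have h3 : HasDerivAt (E m) (1 + -(exp (m * Z) * m) / (1 - exp (m * Z))) Z :=
    (hasDerivAt_id Z).add (h2.clog hZ)
  have h4 : (1 - (m + 1) * exp (m * Z)) / (1 - exp (m * Z)) =
      1 + -(exp (m * Z) * m) / (1 - exp (m * Z)) := by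
    rw [div_eq_iff h0, add_mul (1 : ℂ) (-(exp (m * Z) * m) / (1 - exp (m * Z))),
      div_mul_cancel₀ _ h0]
    ring
  rw [h4]
  exact h3

theorem isOpen_Y (m : ℕ) : IsOpen (Y m) := by
  have h : Y m = ({W | -Real.pi < W.im} ∩ {W | W.im < Real.pi / m}) ∩
      ({W | W.im ≠ 0} ∪ {W | Wc m < W.re}) := by
    ext W
    simp only [Y, mem_ofPred_eq, mem_inter_iff, mem_union, ne_eq]
    tauto
  rw [h]
  refine IsOpen.inter (IsOpen.inter ?_ ?_) (IsOpen.union ?_ ?_)
  · exact isOpen_lt continuous_const continuous_im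
  · exact isOpen_lt continuous_im continuous_const
  · exact isOpen_ne_fun continuous_im continuous_const
  · exact isOpen_lt continuous_const continuous_re

section

variable {m : ℕ} (hm : 1 ≤ m) {Λ : ℂ → ℂ} (hd : DifferentiableOn ℂ Λ (Y m))
    (hY : ∀ W ∈ Y m, Λ W ∈ S m ∧ E m (Λ W) = W)

include hm hd hY in
theorem deriv_Lam {W : ℂ} (hW : W ∈ Y m) :
    (1 - (m + 1) * exp (m * Λ W)) ≠ 0 ∧
    HasDerivAt Λ ((1 - exp (m * Λ W)) / (1 - (m + 1) * exp (m * Λ W))) W := by
  have hs := slit hm (hY W hW).1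
  have h0 : 1 - exp (m * Λ W) ≠ 0 := slitPlane_ne_zero hs
  have h1 := hasDeriv_E hs
  have h2 : HasDerivAt Λ (deriv Λ W) W :=
    ((hd W hW).differentiableAt ((isOpen_Y m).mem_nhds hW)).hasDerivAt
  have h3 := h1.comp W h2
  have h4 : HasDerivAt (E m ∘ Λ) 1 W := by
    refine (hasDerivAt_id W).congr_of_eventuallyEq ?_
    filter_upwards [(isOpen_Y m).mem_nhds hW] with V hV
    exact (hY V hV).2
  have h5 := h3.unique h4
  have h6 : (1 - (m + 1) * exp (m * Λ W)) ≠ 0 := by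
    intro h
    rw [h, zero_div, zero_mul] at h5
    exact zero_ne_one h5
  refine ⟨h6, ?_⟩
  have h7 : deriv Λ W = (1 - exp (m * Λ W)) / (1 - (m + 1) * exp (m * Λ W)) := by
    field_simp at h5 ⊢
    linear_combination h5
  rw [← h7]
  exact h2

/-- the map in the coordinate `exp (m Z)` -/
noncomputable def ee (m : ℕ) (ζ : ℂ) : ℂ := log ζ / m + log (1 - ζ)

include hm in
theorem ee_exp {Z : ℂ} (hZ : Z ∈ S m) : ee m (exp (m * Z)) = E m Z := by
  have hm0 : (0 : ℝ) < m := by exact_mod_cast hm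
  have hmc : (m : ℂ) ≠ 0 := by exact_mod_cast hm0.ne'
  obtain ⟨h1, h2⟩ := hZ
  have h3 : ((m : ℂ) * Z).im = m * Z.im := by simp
  rw [lt_div_iff₀ hm0] at h2
  rw [ee, E, log_exp]
  · field_simp
  · rw [h3]; nlinarith [Real.pi_pos, mul_pos hm0 h1]
  · rw [h3]; linarith [mul_comm (m : ℝ) Z.im]

include hm in
theorem ee_crit : ee m (1 / (m + 1)) = Wc m := by
  have hm0 : (0 : ℝ) < m := by exact_mod_cast hm
  have hm1 : (0 : ℝ) < m + 1 := by linarith
  have h1 : (1 / (m + 1) : ℂ) = ((1 / (m + 1) : ℝ) : ℂ) := by push_cast; ring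
  have h2 : (1 : ℂ) - ((1 / (m + 1) : ℝ) : ℂ) = ((m / (m + 1) : ℝ) : ℂ) := by
    have : (1 : ℝ) - 1 / (m + 1) = m / (m + 1) := by field_simp; ring
    rw [← this]; push_cast; ring
  rw [ee, h1, h2, ← ofReal_log (by positivity), ← ofReal_log (by positivity), Wc,
    Real.log_div hm0.ne' hm1.ne', Real.log_div one_ne_zero hm1.ne', Real.log_one]
  push_cast
  have hmc : (m : ℂ) ≠ 0 := by exact_mod_cast hm0.ne'
  field_simp
  ring

include hm in
theorem ee_cont : ContinuousAt (ee m) (1 / (m + 1)) := by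
  have hm0 : (0 : ℝ) < m := by exact_mod_cast hm
  have hm1 : (0 : ℝ) < m + 1 := by linarith
  have h1 : (1 / (m + 1) : ℂ) = ((1 / (m + 1) : ℝ) : ℂ) := by push_cast; ring
  have h2 : (1 : ℂ) - ((1 / (m + 1) : ℝ) : ℂ) = ((m / (m + 1) : ℝ) : ℂ) := by
    have : (1 : ℝ) - 1 / (m + 1) = m / (m + 1) := by field_simp; ring
    rw [← this]; push_cast; ring
  have h3 : (1 / (m + 1) : ℂ) ∈ slitPlane := by
    rw [h1]; exact ofReal_mem_slitPlane.2 (by positivity)
  have h4 : (1 : ℂ) - (1 / (m + 1) : ℂ) ∈ slitPlane := by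
    rw [h1, h2]; exact ofReal_mem_slitPlane.2 (by positivity)
  unfold ee
  exact ((continuousAt_clog h3).div_const _).add
    ((continuousAt_const.sub continuousAt_id).clog h4)

include hm hd hY in
/-- the derivative is bounded near every point different from the critical value -/
theorem bound {Wb : ℂ} (hb : Wb ≠ Wc m) : ∃ C : ℝ, 0 ≤ C ∧ ∃ r > 0, ∀ W ∈ Y m, dist W Wb < r →
    ‖deriv Λ W‖ ≤ C := by
  have hm0 : (0 : ℝ) < m := by exact_mod_cast hm
  have hr : 0 < dist Wb (Wc m) / 2 := by have := dist_pos.2 hb; linarith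
  have h1 := Metric.continuousAt_iff.1 (ee_cont hm) _ hr
  obtain ⟨ε, hε, h1⟩ := h1
  rw [ee_crit hm] at h1
  refine ⟨1 + m / ((m + 1) * ε), by positivity, _, hr, fun W hW hd' => ?_⟩
  obtain ⟨h2, h3⟩ := deriv_Lam hm hd hY hW
  have hZ := (hY W hW).1
  set ζ := exp (m * Λ W) with hζ
  have h4 : ε ≤ dist ζ (1 / (m + 1)) := by
    by_contra hlt
    push Not at hlt
    have h5 := h1 hlt
    rw [ee_exp hm hZ, (hY W hW).2] at h5
    have h6 := dist_triangle_left Wb (Wc m) W
    linarith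
  have hm1 : (m + 1 : ℂ) ≠ 0 := by
    have : ((m + 1 : ℝ) : ℂ) ≠ 0 := by exact_mod_cast (by positivity : (m + 1 : ℝ) ≠ 0)
    simpa using this
  have hn1 : ‖(m + 1 : ℂ)‖ = m + 1 := by
    have : (m + 1 : ℂ) = ((m + 1 : ℝ) : ℂ) := by push_cast; ring
    rw [this, norm_real, Real.norm_eq_abs, abs_of_pos (by positivity)]
  have h5 : (m + 1) * ε ≤ ‖1 - (m + 1) * ζ‖ := by
    have h6 : 1 - (m + 1) * ζ = -((m + 1) * (ζ - 1 / (m + 1))) := by field_simp; ring
    rw [h6, norm_neg, norm_mul, hn1, ← dist_eq_norm]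
    exact mul_le_mul_of_nonneg_left h4 (by positivity)
  have h7 : 0 < (m + 1) * ε := by positivity
  rw [h3.deriv]
  have h8 : (1 - ζ) / (1 - (m + 1) * ζ) = (1 / (m + 1)) * (1 + m / (1 - (m + 1) * ζ)) := by
    rw [div_eq_iff h2, mul_assoc, add_mul, div_mul_cancel₀ _ h2]
    field_simp
    ring
  rw [h8, norm_mul, norm_div, norm_one, hn1]
  have h9 : ‖1 + (m : ℂ) / (1 - (m + 1) * ζ)‖ ≤ 1 + m / ((m + 1) * ε) := by
    refine (norm_add_le _ _).trans ?_
    rw [norm_one, norm_div]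
    have : ‖(m : ℂ)‖ = m := by simp
    rw [this]
    gcongr
  have h10 : 1 / ((m : ℝ) + 1) ≤ 1 := by
    rw [div_le_one (by positivity)]; linarith
  calc 1 / ((m : ℝ) + 1) * ‖1 + (m : ℂ) / (1 - (m + 1) * ζ)‖
      ≤ 1 * (1 + m / ((m + 1) * ε)) := by gcongr
    _ = _ := one_mul _

include hm hd hY in
/-- limits at the boundary -/
theorem limit_exists {D : Set ℂ} (hD : D ⊆ Y m) (hc : Convex ℝ D) {Wb : ℂ} (hb : Wb ≠ Wc m) :
    ∃ y, Tendsto Λ (𝓝[D] Wb) (𝓝 y) := by
  obtain ⟨C, hC, r, hr, h⟩ := bound hm hd hY hb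
  have h1 : Convex ℝ (D ∩ Metric.ball Wb r) := hc.inter (convex_ball Wb r)
  have h2 : LipschitzOnWith ⟨C, hC⟩ Λ (D ∩ Metric.ball Wb r) := by
    refine LipschitzOnWith.of_dist_le_mul fun x hx y hy => ?_
    rw [dist_eq_norm, dist_eq_norm]
    refine h1.norm_image_sub_le_of_norm_deriv_le (𝕜 := ℂ) ?_ ?_ hy hx
    · intro z hz
      exact (hd z (hD hz.1)).differentiableAt ((isOpen_Y m).mem_nhds (hD hz.1))
    · intro z hz
      exact h z (hD hz.1) hz.2
  obtain ⟨g, hg1, hg2⟩ := h2.extend_finite_dimension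
  refine ⟨g Wb, ?_⟩
  have h3 : Tendsto g (𝓝[D] Wb) (𝓝 (g Wb)) := hg1.continuous.continuousAt.tendsto.mono_left
    nhdsWithin_le_nhds
  refine h3.congr' ?_
  have h4 : D ∩ Metric.ball Wb r ∈ 𝓝[D] Wb :=
    inter_mem_nhdsWithin D (Metric.ball_mem_nhds Wb hr)
  filter_upwards [h4] with x hx
  exact (hg2 hx).symm

theorem convex_strip (a b : ℝ) : Convex ℝ {W : ℂ | a < W.im ∧ W.im < b} := by
  have : {W : ℂ | a < W.im ∧ W.im < b} = {W : ℂ | a < W.im} ∩ {W : ℂ | W.im < b} := rfl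
  rw [this]
  exact (convex_halfSpace_im_gt a).inter (convex_halfSpace_im_lt b)

theorem closure_strip {a b : ℝ} (hab : a < b) :
    {W : ℂ | a ≤ W.im ∧ W.im ≤ b} ⊆ closure {W : ℂ | a < W.im ∧ W.im < b} := by
  have h1 : {W : ℂ | a < W.im ∧ W.im < b} = univ ×ℂ Ioo a b := by
    ext W; simp [mem_reProdIm]
  rw [h1, closure_reProdIm, closure_Ioo hab.ne]
  intro W hW
  simp only [mem_reProdIm, closure_univ, mem_univ, true_and]
  exact hW

/-- the upper strip -/
def DA (m : ℕ) : Set ℂ := {W | 0 < W.im ∧ W.im < Real.pi / m}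

/-- the lower strip -/
def DB : Set ℂ := {W | -Real.pi < W.im ∧ W.im < 0}

theorem DA_sub (m : ℕ) : DA m ⊆ Y m := by
  rintro W ⟨h1, h2⟩
  exact ⟨by linarith [Real.pi_pos], h2, fun h => by linarith⟩

include hm in
theorem DB_sub : DB ⊆ Y m := by
  have hm0 : (0 : ℝ) < m := by exact_mod_cast hm
  rintro W ⟨h1, h2⟩
  have : 0 < Real.pi / m := div_pos Real.pi_pos hm0
  exact ⟨h1, by linarith, fun h => by linarith⟩

include hm hd hY in
theorem cont_A : ContinuousOn (extendFrom (DA m) Λ)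
    {W | 0 ≤ W.im ∧ W.im ≤ Real.pi / m ∧ W ≠ Wc m} := by
  have hm0 : (0 : ℝ) < m := by exact_mod_cast hm
  apply continuousOn_extendFrom
  · rintro W ⟨h1, h2, _⟩
    exact closure_strip (div_pos Real.pi_pos hm0) ⟨h1, h2⟩
  · rintro W ⟨_, _, h3⟩
    exact limit_exists hm hd hY (DA_sub m) (convex_strip _ _) h3

include hm hd hY in
theorem cont_B : ContinuousOn (extendFrom DB Λ) {W | -Real.pi ≤ W.im ∧ W.im ≤ 0 ∧ W ≠ Wc m} := by
  apply continuousOn_extendFrom
  · rintro W ⟨h1, h2, _⟩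
    exact closure_strip (by linarith [Real.pi_pos]) ⟨h1, h2⟩
  · rintro W ⟨_, _, h3⟩
    exact limit_exists hm hd hY (DB_sub hm) (convex_strip _ _) h3

include hd in
theorem ext_eq {D : Set ℂ} {W : ℂ} (hW : W ∈ Y m) (hc : W ∈ closure D) :
    extendFrom D Λ W = Λ W := by
  apply extendFrom_eq hc
  exact ((hd W hW).differentiableAt ((isOpen_Y m).mem_nhds hW)).continuousAt.tendsto.mono_left
    nhdsWithin_le_nhds

include hm hY in
theorem im_lt {W : ℂ} (hW : W ∈ Y m) : W.im < (Λ W).im := by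
  obtain ⟨hS, hE⟩ := hY W hW
  have h1 := exp_im_pos hm hS
  have h2 : (log (1 - exp (m * Λ W))).im < 0 := by
    rw [log_im, arg_neg_iff]
    simp only [sub_im, one_im, zero_sub]
    linarith
  have h3 := congrArg im hE
  rw [E, add_im] at h3
  linarith

include hm hd hY in
theorem top_side (s : ℝ) : 
    (extendFrom (DA m) Λ (s + (Real.pi / m : ℝ) * I)).re
      + Real.log (1 + Real.exp (m * (extendFrom (DA m) Λ (s + (Real.pi / m : ℝ) * I)).re)) = s := by
  have hm0 : (0 : ℝ) < m := by exact_mod_cast hm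
  have hpm : 0 < Real.pi / m := div_pos Real.pi_pos hm0
  set W : ℂ := s + (Real.pi / m : ℝ) * I with hWdef
  have him : W.im = Real.pi / m := by simp [hWdef]
  have hre : W.re = s := by simp [hWdef]
  have hne : W ≠ Wc m := by
    intro h
    have := congrArg im h
    rw [him, ofReal_im] at this
    exact hpm.ne' this
  have hcl : W ∈ closure (DA m) := closure_strip hpm ⟨by rw [him]; exact hpm.le, him.le⟩
  obtain ⟨y, hy⟩ := limit_exists hm hd hY (DA_sub m) (convex_strip _ _) hne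
  have hyW : extendFrom (DA m) Λ W = y := extendFrom_eq hcl hy
  rw [hyW]
  haveI : (𝓝[DA m] W).NeBot := mem_closure_iff_nhdsWithin_neBot.1 hcl
  have hid : Tendsto (fun V : ℂ => V) (𝓝[DA m] W) (𝓝 W) :=
    tendsto_id.mono_left nhdsWithin_le_nhds
  -- imaginary part of the limit
  have hyi : y.im = Real.pi / m := by
    apply le_antisymm
    · have h1 : Tendsto (fun V => (Λ V).im) (𝓝[DA m] W) (𝓝 y.im) :=
        (continuous_im.tendsto y).comp hy
      refine le_of_tendsto h1 ?_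
      filter_upwards [self_mem_nhdsWithin] with V hV
      exact (hY V (DA_sub m hV)).1.2.le
    · have h1 : Tendsto (fun V => (Λ V).im) (𝓝[DA m] W) (𝓝 y.im) :=
        (continuous_im.tendsto y).comp hy
      have h2 : Tendsto (fun V : ℂ => V.im) (𝓝[DA m] W) (𝓝 W.im) :=
        (continuous_im.tendsto W).comp hid
      rw [← him]
      refine le_of_tendsto_of_tendsto h2 h1 ?_
      filter_upwards [self_mem_nhdsWithin] with V hV
      exact (im_lt hm hY (DA_sub m hV)).le
  have hexp : exp (m * y) = ((-Real.exp (m * y.re) : ℝ) : ℂ) := by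
    have h1 : (m : ℂ) * y = ((m * y.re : ℝ) : ℂ) + Real.pi * I := by
      apply Complex.ext
      · simp
      · simp [hyi]
        field_simp
    rw [h1, exp_add, exp_pi_mul_I, ← ofReal_exp]
    push_cast
    ring
  have h1e : 1 - exp (m * y) = ((1 + Real.exp (m * y.re) : ℝ) : ℂ) := by
    rw [hexp]; push_cast; ring
  have hpos : 0 < 1 + Real.exp (m * y.re) := by positivity
  have hslit : 1 - exp (m * y) ∈ slitPlane := by
    rw [h1e]; exact ofReal_mem_slitPlane.2 hpos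
  have hEc : ContinuousAt (E m) y := (hasDeriv_E hslit).continuousAt
  have h2 : Tendsto (fun V => E m (Λ V)) (𝓝[DA m] W) (𝓝 (E m y)) := hEc.tendsto.comp hy
  have h3 : Tendsto (fun V => E m (Λ V)) (𝓝[DA m] W) (𝓝 W) := by
    refine hid.congr' ?_
    filter_upwards [self_mem_nhdsWithin] with V hV
    exact (hY V (DA_sub m hV)).2.symm
  have h4 := tendsto_nhds_unique h2 h3
  have h5 := congrArg re h4
  rw [hre, E, h1e, ← ofReal_log hpos.le, add_re, ofReal_re] at h5
  exact h5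

end

end J2

open J2 Complex Filter Topology Set in
open Real in
theorem exists_AB (m : ℕ) (hm : 1 ≤ m) (Λ : ℂ → ℂ) (hd : DifferentiableOn ℂ Λ (Y m))
    (hY : ∀ W ∈ Y m, Λ W ∈ S m ∧ E m (Λ W) = W)
    (hS : ∀ Z ∈ S m, E m Z ∈ Y m ∧ Λ (E m Z) = Z) :
    ∃ A B : ℝ → ℝ → ℝ,
      (∀ s x : ℝ, 0 < x → x < π / m → A s x = (Λ (s + x * Complex.I)).re) ∧
      (∀ s x : ℝ, 0 < x → x < π → B s x = (Λ (s - x * Complex.I)).re) ∧
      ContinuousOn (fun p : ℝ × ℝ => A p.1 p.2)
        {p | 0 ≤ p.2 ∧ p.2 ≤ π / m ∧ p ≠ (Wc m, 0)} ∧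
      ContinuousOn (fun p : ℝ × ℝ => B p.1 p.2)
        {p | 0 ≤ p.2 ∧ p.2 ≤ π ∧ p ≠ (Wc m, 0)} ∧
      (∀ s : ℝ, Wc m < s → A s 0 = B s 0) ∧
      (∀ s : ℝ, A s (π / m) + Real.log (1 + Real.exp (m * A s (π / m))) = s) ∧
      (∀ s : ℝ, HasDerivAt (fun t => A t (π / m))
        ((1 + Real.exp (m * A s (π / m))) / (1 + (m + 1) * Real.exp (m * A s (π / m)))) s) := by
  have hm0 : (0 : ℝ) < m := by exact_mod_cast hm
  have hpm : 0 < π / m := div_pos Real.pi_pos hm0
  let A : ℝ → ℝ → ℝ := fun s x => (extendFrom (DA m) Λ (s + (x : ℝ) * Complex.I)).re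
  let B : ℝ → ℝ → ℝ := fun s x => (extendFrom DB Λ (s - (x : ℝ) * Complex.I)).re
  have hAc : ContinuousOn (fun p : ℝ × ℝ => A p.1 p.2)
        {p | 0 ≤ p.2 ∧ p.2 ≤ π / m ∧ p ≠ (Wc m, 0)} := by
    apply Complex.continuous_re.comp_continuousOn
    apply (cont_A hm hd hY).comp (f := fun p : ℝ × ℝ => (p.1 : ℂ) + (p.2 : ℝ) * Complex.I)
    · fun_prop
    · rintro p ⟨h1, h2, h3⟩
      refine ⟨by simpa using h1, by simpa using h2, ?_⟩
      intro h
      apply h3
      apply Prod.ext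
      · simpa using congrArg re h
      · simpa using congrArg im h
  have hBc : ContinuousOn (fun p : ℝ × ℝ => B p.1 p.2)
        {p | 0 ≤ p.2 ∧ p.2 ≤ π ∧ p ≠ (Wc m, 0)} := by
    apply Complex.continuous_re.comp_continuousOn
    apply (cont_B hm hd hY).comp (f := fun p : ℝ × ℝ => (p.1 : ℂ) - (p.2 : ℝ) * Complex.I)
    · fun_prop
    · rintro p ⟨h1, h2, h3⟩
      refine ⟨by simpa using h2, by simpa using h1, ?_⟩
      intro h
      apply h3
      apply Prod.ext
      · simpa using congrArg re h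
      · have := congrArg im h
        simpa using this
  have hA6 : ∀ s : ℝ, A s (π / m) + Real.log (1 + Real.exp (m * A s (π / m))) = s := by
    intro s
    exact top_side hm hd hY s
  refine ⟨A, B, ?_, ?_, hAc, hBc, ?_, hA6, ?_⟩
  · intro s x h1 h2
    have hD : (s + (x : ℝ) * Complex.I : ℂ) ∈ DA m := ⟨by simpa using h1, by simpa using h2⟩
    show (extendFrom (DA m) Λ (s + (x : ℝ) * Complex.I)).re = _
    rw [ext_eq hd (DA_sub m hD) (subset_closure hD)]
  · intro s x h1 h2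
    have hD : (s - (x : ℝ) * Complex.I : ℂ) ∈ DB := ⟨by simpa using h2, by simpa using h1⟩
    show (extendFrom DB Λ (s - (x : ℝ) * Complex.I)).re = _
    rw [ext_eq hd (DB_sub hm hD) (subset_closure hD)]
  · intro s hs
    have hYs : (s : ℂ) ∈ Y m := ⟨by simpa using Real.pi_pos, by simpa using hpm, fun _ => by simpa using hs⟩
    show (extendFrom (DA m) Λ (s + ((0 : ℝ) : ℝ) * Complex.I)).re =
      (extendFrom DB Λ (s - ((0 : ℝ) : ℝ) * Complex.I)).re
    have e1 : (s + ((0 : ℝ) : ℂ) * Complex.I : ℂ) = s := by simp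
    have e2 : (s - ((0 : ℝ) : ℂ) * Complex.I : ℂ) = s := by simp
    rw [e1, e2, ext_eq hd hYs, ext_eq hd hYs]
    · exact closure_strip (by linarith [Real.pi_pos]) ⟨by simpa using Real.pi_pos.le, by simp⟩
    · exact closure_strip hpm ⟨by simp, by simpa using hpm.le⟩
  · intro s
    have hu : ∀ X : ℝ, HasDerivAt (fun X : ℝ => X + Real.log (1 + Real.exp (m * X)))
        ((1 + (m + 1) * Real.exp (m * X)) / (1 + Real.exp (m * X))) X := by
      intro X
      have hp : 0 < 1 + Real.exp (m * X) := by positivity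
      have h1 : HasDerivAt (fun X : ℝ => Real.exp (m * X)) (Real.exp (m * X) * m) X := by
        have := ((hasDerivAt_id X).const_mul (m : ℝ)).exp
        simpa using this
      have h2 : HasDerivAt (fun X : ℝ => X + Real.log (1 + Real.exp (m * X)))
          (1 + (Real.exp (m * X) * m) / (1 + Real.exp (m * X))) X :=
        (hasDerivAt_id X).add ((h1.const_add 1).log hp.ne')
      convert h2 using 1
      field_simp
      ring
    have hcont : ContinuousAt (fun t => A t (π / m)) s := by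
      have h1 : ContinuousOn (fun t : ℝ => A t (π / m)) univ := by
        apply hAc.comp (f := fun t : ℝ => (t, π / m))
        · fun_prop
        · intro t _
          refine ⟨hpm.le, le_rfl, ?_⟩
          intro h
          exact hpm.ne' (congrArg Prod.snd h)
      exact (continuousOn_univ.1 h1).continuousAt
    have h3 := HasDerivAt.of_local_left_inverse hcont (hu (A s (π / m))) (by positivity)
      (Eventually.of_forall hA6)
    rw [inv_div] at h3
    exact h3

end Pool.Agent.Helper714.L2
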