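import Mathlib
import Pool.Agent.Helper714.BU.ExtDefs

set_option autoImplicit false

namespace Pool.Agent.Helper714.L3a

/-- estimate for the logarithm near one -/
theorem j3_log_est {δ : ℝ} (_hδ : 0 < δ) {w : ℂ} (hw : ‖w‖ ≤ 1 - Real.exp (-δ)) :
    |Real.log ‖1 - w‖| ≤ δ := by
  have h1 : 1 - ‖w‖ ≤ ‖1 - w‖ := by
    have := norm_sub_norm_le (1 : ℂ) w
    rwa [norm_one] at this
  have h2 : ‖1 - w‖ ≤ 1 + ‖w‖ := by
    have := norm_sub_le (1 : ℂ) w
    rwa [norm_one] at this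
  have he : 0 < Real.exp (-δ) := Real.exp_pos _
  have h3 : Real.exp (-δ) ≤ ‖1 - w‖ := by linarith
  have h4 : ‖1 - w‖ ≤ Real.exp δ := by
    have a1 := Real.add_one_le_exp δ
    have a2 := Real.add_one_le_exp (-δ)
    linarith
  have h5 : 0 < ‖1 - w‖ := by linarith
  rw [abs_le]
  constructor
  · rw [Real.le_log_iff_exp_le h5]; exact h3
  · rw [Real.log_le_iff_le_exp h5]; exact h4

theorem j3_abs_sin_mul (k : ℕ) (x : ℝ) : |Real.sin (k * x)| ≤ k * |Real.sin x| := by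
  induction k with
  | zero => simp
  | succ k ih =>
    have : ((k + 1 : ℕ) : ℝ) * x = k * x + x := by push_cast; ring
    rw [this, Real.sin_add]
    have h1 : |Real.sin (k * x) * Real.cos x + Real.cos (k * x) * Real.sin x| ≤
        |Real.sin (k * x)| * |Real.cos x| + |Real.cos (k * x)| * |Real.sin x| := by
      rw [← abs_mul, ← abs_mul]; exact abs_add_le _ _
    have h2 : |Real.cos x| ≤ 1 := Real.abs_cos_le_one x
    have h3 : |Real.cos (k * x)| ≤ 1 := Real.abs_cos_le_one _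
    have h4 := abs_nonneg (Real.sin (k * x))
    have h5 := abs_nonneg (Real.sin x)
    push_cast
    nlinarith

theorem j3_zeta_re (m : ℕ) (Z : ℂ) :
    (Complex.exp (m * Z)).re = Real.exp (m * Z.re) * Real.cos (m * Z.im) := by
  rw [Complex.exp_re]; simp

theorem j3_zeta_im (m : ℕ) (Z : ℂ) :
    (Complex.exp (m * Z)).im = Real.exp (m * Z.re) * Real.sin (m * Z.im) := by
  rw [Complex.exp_im]; simp

theorem j3_zeta_norm (m : ℕ) (Z : ℂ) :
    ‖Complex.exp (m * Z)‖ = Real.exp (m * Z.re) := by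
  rw [Complex.norm_exp]; simp

theorem j3_ang {m : ℕ} (hm : 1 ≤ m) {Z : ℂ} (hZ : Z ∈ S m) :
    0 < m * Z.im ∧ m * Z.im < Real.pi ∧ Z.im ≤ m * Z.im := by
  have hm' : (1 : ℝ) ≤ m := by exact_mod_cast hm
  have hm0 : (0 : ℝ) < m := by linarith
  have h1 : 0 < Z.im := hZ.1
  have h2 : Z.im < Real.pi / m := hZ.2
  refine ⟨by positivity, ?_, ?_⟩
  · rw [lt_div_iff₀ hm0] at h2
    linarith
  · nlinarith

theorem j3_zeta_im_pos {m : ℕ} (hm : 1 ≤ m) {Z : ℂ} (hZ : Z ∈ S m) :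
    0 < (Complex.exp (m * Z)).im := by
  obtain ⟨h1, h2, h3⟩ := j3_ang hm hZ
  rw [j3_zeta_im]
  exact mul_pos (Real.exp_pos _) (Real.sin_pos_of_pos_of_lt_pi h1 h2)

theorem j3_one_sub_ne {m : ℕ} (hm : 1 ≤ m) {Z : ℂ} (hZ : Z ∈ S m) :
    1 - Complex.exp (m * Z) ≠ 0 := by
  intro h
  have := congrArg Complex.im h
  have h2 := j3_zeta_im_pos hm hZ
  simp only [Complex.sub_im, Complex.one_im, Complex.zero_im] at this
  linarith

theorem j3_re_E (m : ℕ) (Z : ℂ) :
    (E m Z).re = Z.re + Real.log ‖1 - Complex.exp (m * Z)‖ := by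
  unfold E
  rw [Complex.add_re, Complex.log_re]

theorem j3_im_E (m : ℕ) (Z : ℂ) :
    (E m Z).im = Z.im + Complex.arg (1 - Complex.exp (m * Z)) := by
  unfold E
  rw [Complex.add_im, Complex.log_im]

theorem j3_exp_E {m : ℕ} (hm : 1 ≤ m) {Z : ℂ} (hZ : Z ∈ S m) :
    Complex.exp (E m Z) = Complex.exp Z * (1 - Complex.exp (m * Z)) := by
  unfold E
  rw [Complex.exp_add, Complex.exp_log (j3_one_sub_ne hm hZ)]

theorem j3_arg {m : ℕ} (hm : 1 ≤ m) {Z : ℂ} (hZ : Z ∈ S m) :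
    -Real.pi < Complex.arg (1 - Complex.exp (m * Z)) ∧
      Complex.arg (1 - Complex.exp (m * Z)) < 0 := by
  refine ⟨Complex.neg_pi_lt_arg _, ?_⟩
  rw [Complex.arg_neg_iff]
  have := j3_zeta_im_pos hm hZ
  simp only [Complex.sub_im, Complex.one_im]
  linarith

/-- the imaginary part of `exp (E Z)` up to the positive factor `exp X` -/
theorem j3_im_exp {m : ℕ} (hm : 1 ≤ m) {Z : ℂ} (hZ : Z ∈ S m) :
    Real.exp (E m Z).re * Real.sin (E m Z).im =
      Real.exp Z.re * ((1 - (Complex.exp (m * Z)).re) * Real.sin Z.im -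
        (Complex.exp (m * Z)).im * Real.cos Z.im) := by
  rw [← Complex.exp_im, j3_exp_E hm hZ, Complex.mul_im, Complex.exp_re, Complex.exp_im]
  simp only [Complex.sub_im, Complex.sub_re, Complex.one_im, Complex.one_re]
  ring

/-- (1) on the lower part the real part of `Z` is bounded below -/
theorem re_lower (m : ℕ) (hm : 1 ≤ m) (Z : ℂ) (hZ : Z ∈ S m) (h : (E m Z).im ≤ 0) :
    -Real.log (m + 1) / m ≤ Z.re := by
  have hm' : (1 : ℝ) ≤ m := by exact_mod_cast hm
  have hm0 : (0 : ℝ) < m := by linarith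
  obtain ⟨h1, h2, h3⟩ := j3_ang hm hZ
  obtain ⟨a1, a2⟩ := j3_arg hm hZ
  have hZ0 : 0 < Z.im := hZ.1
  have hs : 0 < Real.sin Z.im := Real.sin_pos_of_pos_of_lt_pi hZ0 (by linarith)
  have hE : -Real.pi < (E m Z).im := by rw [j3_im_E]; linarith
  have hsE : Real.sin (E m Z).im ≤ 0 := Real.sin_nonpos_of_nonpos_of_neg_pi_le h hE.le
  have key := j3_im_exp hm hZ
  have k1 : Real.exp (E m Z).re * Real.sin (E m Z).im ≤ 0 :=
    mul_nonpos_of_nonneg_of_nonpos (Real.exp_pos _).le hsE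
  rw [key] at k1
  have k2 : (1 - (Complex.exp (m * Z)).re) * Real.sin Z.im -
        (Complex.exp (m * Z)).im * Real.cos Z.im ≤ 0 := by
    by_contra hc
    push Not at hc
    have := mul_pos (Real.exp_pos Z.re) hc
    linarith
  rw [j3_zeta_re, j3_zeta_im] at k2
  have k3 : Real.sin Z.im ≤ Real.exp (m * Z.re) * Real.sin (((m + 1 : ℕ) : ℝ) * Z.im) := by
    have : ((m + 1 : ℕ) : ℝ) * Z.im = m * Z.im + Z.im := by push_cast; ring
    rw [this, Real.sin_add]
    linarith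
  have k4 := (le_abs_self _).trans (j3_abs_sin_mul (m + 1) Z.im)
  rw [abs_of_pos hs] at k4
  have k5 : Real.sin Z.im ≤ Real.exp (m * Z.re) * (((m + 1 : ℕ) : ℝ) * Real.sin Z.im) :=
    k3.trans (mul_le_mul_of_nonneg_left k4 (Real.exp_pos _).le)
  have k6 : 1 ≤ Real.exp (m * Z.re) * ((m + 1 : ℕ) : ℝ) := by
    by_contra hc
    push Not at hc
    have := mul_lt_mul_of_pos_right hc hs
    linarith
  push_cast at k6
  have k7 : (0 : ℝ) < m + 1 := by linarith
  have k8 : 0 ≤ m * Z.re + Real.log (m + 1) := by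
    have := Real.log_le_log one_pos k6
    rw [Real.log_one, Real.log_mul (Real.exp_pos _).ne' k7.ne', Real.log_exp] at this
    exact this
  rw [div_le_iff₀ hm0]
  linarith

/-- above the real axis `exp (m Z)` stays away from `1` -/
theorem j3_away {m : ℕ} (hm : 1 ≤ m) {Z : ℂ} (hZ : Z ∈ S m) (h : 0 < (E m Z).im) :
    1 / 4 < ‖1 - Complex.exp (m * Z)‖ := by
  by_contra hc
  push Not at hc
  have hm' : (1 : ℝ) ≤ m := by exact_mod_cast hm
  obtain ⟨h1, h2, h3⟩ := j3_ang hm hZ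
  obtain ⟨a1, a2⟩ := j3_arg hm hZ
  have hZ0 : 0 < Z.im := hZ.1
  have hs : 0 < Real.sin Z.im := Real.sin_pos_of_pos_of_lt_pi hZ0 (by linarith)
  have hE : (E m Z).im < Real.pi := by rw [j3_im_E]; linarith
  have hsE : 0 < Real.sin (E m Z).im := Real.sin_pos_of_pos_of_lt_pi h hE
  have key := j3_im_exp hm hZ
  have k1 : 0 < Real.exp (E m Z).re * Real.sin (E m Z).im := mul_pos (Real.exp_pos _) hsE
  rw [key] at k1
  have k2 : 0 < (1 - (Complex.exp (m * Z)).re) * Real.sin Z.im -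
        (Complex.exp (m * Z)).im * Real.cos Z.im := by
    by_contra hc
    push Not at hc
    have := mul_nonpos_of_nonneg_of_nonpos (Real.exp_pos Z.re).le hc
    linarith
  have r1 : 1 - (Complex.exp (m * Z)).re ≤ 1 / 4 := by
    have := Complex.re_le_norm (1 - Complex.exp (m * Z))
    simp only [Complex.sub_re, Complex.one_re] at this
    linarith
  have r2 : ‖Complex.exp (m * Z)‖ ≤ 5 / 4 := by
    have h5 : Complex.exp (m * Z) = 1 - (1 - Complex.exp (m * Z)) := by ring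
    have := norm_sub_le (1 : ℂ) (1 - Complex.exp (m * Z))
    rw [← h5, norm_one] at this
    linarith
  have r3 : 3 / 4 ≤ ‖Complex.exp (m * Z)‖ := by
    have := norm_sub_norm_le (1 : ℂ) (Complex.exp (m * Z))
    rw [norm_one] at this
    linarith
  rw [j3_zeta_norm] at r2 r3
  have r4 : 3 / 5 ≤ Real.cos (m * Z.im) := by
    rw [j3_zeta_re] at r1
    by_contra hc
    push Not at hc
    have := Real.exp_pos (m * Z.re)
    rcases le_or_gt (Real.cos (m * Z.im)) 0 with h0 | h0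
    · nlinarith
    · nlinarith
  have r5 : m * Z.im ≤ Real.pi / 2 := by
    by_contra hc
    push Not at hc
    have := Real.cos_nonpos_of_pi_div_two_le_of_le hc.le (by linarith)
    linarith
  have r6 : Real.sin Z.im ≤ Real.sin (m * Z.im) :=
    Real.sin_le_sin_of_le_of_le_pi_div_two (by linarith [Real.pi_pos]) r5 h3
  have r7 : 3 / 5 ≤ Real.cos Z.im :=
    r4.trans (Real.cos_le_cos_of_nonneg_of_le_pi hZ0.le h2.le h3)
  rw [j3_zeta_im] at k2
  have r8 : 3 / 4 * Real.sin Z.im ≤ Real.exp (m * Z.re) * Real.sin (m * Z.im) := by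
    nlinarith
  have r9 : 3 / 4 * Real.sin Z.im * (3 / 5) ≤
      Real.exp (m * Z.re) * Real.sin (m * Z.im) * Real.cos Z.im :=
    mul_le_mul r8 r7 (by norm_num) (by linarith)
  have r10 : (1 - (Complex.exp (m * Z)).re) * Real.sin Z.im ≤ 1 / 4 * Real.sin Z.im :=
    mul_le_mul_of_nonneg_right r1 hs.le
  linarith

/-- (2) behaviour at `-∞` on the upper part -/
theorem asymp_neg (m : ℕ) (hm : 1 ≤ m) (δ : ℝ) (hδ : 0 < δ) :
    ∃ s₀ : ℝ, ∀ Z ∈ S m, 0 < (E m Z).im → (E m Z).re ≤ s₀ → |Z.re - (E m Z).re| ≤ δ := by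
  have hη : 0 < 1 - Real.exp (-δ) := by
    have : Real.exp (-δ) < 1 := by rw [Real.exp_lt_one_iff]; linarith
    linarith
  have hη1 : 1 - Real.exp (-δ) < 1 := by
    have := Real.exp_pos (-δ)
    linarith
  have hL : Real.log (1 - Real.exp (-δ)) < 0 := Real.log_neg hη hη1
  refine ⟨Real.log (1 - Real.exp (-δ)) - Real.log 4, ?_⟩
  intro Z hZ h1 h2
  have hm' : (1 : ℝ) ≤ m := by exact_mod_cast hm
  have h3 := j3_away hm hZ h1
  have h4 : -Real.log 4 ≤ Real.log ‖1 - Complex.exp (m * Z)‖ := by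
    have := Real.log_le_log (by norm_num) h3.le
    rwa [one_div, Real.log_inv] at this
  rw [j3_re_E] at h2 ⊢
  have h5 : Z.re ≤ Real.log (1 - Real.exp (-δ)) := by linarith
  have h6 : (m : ℝ) * Z.re ≤ Real.log (1 - Real.exp (-δ)) := by nlinarith
  have h7 : ‖Complex.exp (m * Z)‖ ≤ 1 - Real.exp (-δ) := by
    rw [j3_zeta_norm]
    exact (Real.exp_le_exp.2 h6).trans (Real.exp_log hη).le
  have h8 := j3_log_est hδ h7
  have : Z.re - (Z.re + Real.log ‖1 - Complex.exp (m * Z)‖) =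
      -Real.log ‖1 - Complex.exp (m * Z)‖ := by ring
  rw [this, abs_neg]
  exact h8

/-- (3) behaviour at `+∞` -/
theorem asymp_pos (m : ℕ) (hm : 1 ≤ m) (δ : ℝ) (hδ : 0 < δ) :
    ∃ s₁ : ℝ, ∀ Z ∈ S m, s₁ ≤ (E m Z).re → |Z.re - (E m Z).re / (m + 1)| ≤ δ := by
  have hη : 0 < 1 - Real.exp (-δ) := by
    have : Real.exp (-δ) < 1 := by rw [Real.exp_lt_one_iff]; linarith
    linarith
  have hη1 : 1 - Real.exp (-δ) < 1 := by
    have := Real.exp_pos (-δ)
    linarith
  have hL : Real.log (1 - Real.exp (-δ)) < 0 := Real.log_neg hη hη1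
  obtain ⟨M, hM⟩ : ∃ M, M = -Real.log (1 - Real.exp (-δ)) := ⟨_, rfl⟩
  have hM0 : 0 < M := by rw [hM]; linarith
  refine ⟨M + Real.log (1 + Real.exp (m * M)) + 1, ?_⟩
  intro Z hZ h1
  have hm' : (1 : ℝ) ≤ m := by exact_mod_cast hm
  have hne := j3_one_sub_ne hm hZ
  have hpos : 0 < ‖1 - Complex.exp (m * Z)‖ := norm_pos_iff.2 hne
  rw [j3_re_E] at h1 ⊢
  have h2 : M < Z.re := by
    by_contra hc
    push Not at hc
    have a1 : ‖1 - Complex.exp (m * Z)‖ ≤ 1 + Real.exp (m * M) := by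
      have := norm_sub_le (1 : ℂ) (Complex.exp (m * Z))
      rw [norm_one, j3_zeta_norm] at this
      have a2 : Real.exp (m * Z.re) ≤ Real.exp (m * M) := by
        apply Real.exp_le_exp.2
        apply mul_le_mul_of_nonneg_left hc (by linarith)
      linarith
    have a3 := Real.log_le_log hpos a1
    linarith
  have h3 : 1 - Complex.exp (m * Z) = -Complex.exp (m * Z) * (1 - (Complex.exp (m * Z))⁻¹) := by
    have := Complex.exp_ne_zero (m * Z)
    field_simp
    ring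
  have h4 : ‖(Complex.exp (m * Z))⁻¹‖ ≤ 1 - Real.exp (-δ) := by
    rw [norm_inv, j3_zeta_norm, ← Real.exp_neg, ← Real.exp_log hη, Real.exp_le_exp]
    nlinarith
  have h5 := j3_log_est hδ h4
  have h6 : 0 < ‖1 - (Complex.exp (m * Z))⁻¹‖ := by
    rw [norm_pos_iff]
    intro h0
    rw [h0, mul_zero] at h3
    exact hne h3
  have h7 : Real.log ‖1 - Complex.exp (m * Z)‖ =
      m * Z.re + Real.log ‖1 - (Complex.exp (m * Z))⁻¹‖ := by
    rw [h3, norm_mul, norm_neg, j3_zeta_norm, Real.log_mul (Real.exp_pos _).ne' h6.ne',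
      Real.log_exp]
  rw [h7]
  have hn : (0 : ℝ) < m + 1 := by linarith
  have h8 : Z.re - (Z.re + (m * Z.re + Real.log ‖1 - (Complex.exp (m * Z))⁻¹‖)) / (m + 1) =
      -(Real.log ‖1 - (Complex.exp (m * Z))⁻¹‖ / (m + 1)) := by
    field_simp
    ring
  rw [h8, abs_neg, abs_div, abs_of_pos hn, div_le_iff₀ hn]
  nlinarith

end Pool.Agent.Helper714.L3a
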