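import Mathlib
import Pool.Agent.Helper714.BU.ExtDefs

set_option autoImplicit false

open MeasureTheory Set

namespace Pool.Agent.Helper714.L3b

/-- auxiliary primitive -/
noncomputable def nPsi (m : ℕ) (Z : ℂ) : ℂ :=
  Z - (1 / ((m : ℂ) + 1)) * Complex.log (1 - ((m : ℂ) + 1) * Complex.exp (m * Z))

/-- auxiliary real primitive -/
noncomputable def npsi (m : ℕ) (X : ℝ) : ℝ :=
  X - (1 / ((m : ℝ) + 1)) * Real.log (1 + ((m : ℝ) + 1) * Real.exp (m * X))

lemma n_zeta_im_pos (m : ℕ) (hm : 1 ≤ m) {Z : ℂ} (hZ : Z ∈ S m) :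
    0 < (Complex.exp (m * Z)).im := by
  obtain ⟨h1, h2⟩ := hZ
  have hm0 : (0 : ℝ) < m := by exact_mod_cast hm
  rw [Complex.exp_im]
  have h3 : ((m : ℂ) * Z).im = m * Z.im := by simp
  have h4 : 0 < Real.sin (((m : ℂ) * Z).im) := by
    rw [h3]
    apply Real.sin_pos_of_pos_of_lt_pi (by positivity)
    rw [lt_div_iff₀ hm0] at h2
    linarith [mul_comm (m : ℝ) Z.im]
  positivity

lemma n_slit1 (m : ℕ) (hm : 1 ≤ m) {Z : ℂ} (hZ : Z ∈ S m) :
    1 - Complex.exp (m * Z) ∈ Complex.slitPlane := by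
  right
  have := n_zeta_im_pos m hm hZ
  simp only [Complex.sub_im, Complex.one_im]
  intro h0
  linarith

lemma n_slit2 (m : ℕ) (hm : 1 ≤ m) {Z : ℂ} (hZ : Z ∈ S m) :
    1 - ((m : ℂ) + 1) * Complex.exp (m * Z) ∈ Complex.slitPlane := by
  right
  have h := n_zeta_im_pos m hm hZ
  have : (1 - ((m : ℂ) + 1) * Complex.exp (m * Z)).im
      = - (((m : ℝ) + 1) * (Complex.exp (m * Z)).im) := by
    simp [Complex.add_re, Complex.add_im, Complex.mul_im]
  rw [this]
  have : 0 < ((m : ℝ) + 1) * (Complex.exp (m * Z)).im := by positivity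
  intro h0
  linarith

lemma n_derivE (m : ℕ) (hm : 1 ≤ m) {Z : ℂ} (hZ : Z ∈ S m) :
    HasDerivAt (E m) ((1 - ((m : ℂ) + 1) * Complex.exp (m * Z)) / (1 - Complex.exp (m * Z))) Z := by
  have hs := n_slit1 m hm hZ
  have h0 : 1 - Complex.exp (m * Z) ≠ 0 := Complex.slitPlane_ne_zero hs
  have h1 : HasDerivAt (fun z : ℂ => (m : ℂ) * z) (m : ℂ) Z := by
    simpa using (hasDerivAt_id Z).const_mul (m : ℂ)
  have h2 : HasDerivAt (fun z : ℂ => 1 - Complex.exp (m * z))
      (-(Complex.exp (m * Z) * m)) Z := by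
    simpa using (h1.cexp).const_sub 1
  have h3 := h2.clog hs
  have h4 := (hasDerivAt_id Z).add h3
  have h5 : (1 - ((m : ℂ) + 1) * Complex.exp (m * Z)) / (1 - Complex.exp (m * Z))
      = 1 + -(Complex.exp (m * Z) * m) / (1 - Complex.exp (m * Z)) := by
    field_simp
    ring
  rw [h5]
  exact h4

lemma n_derivPsi (m : ℕ) (hm : 1 ≤ m) {Z : ℂ} (hZ : Z ∈ S m) :
    HasDerivAt (nPsi m)
      ((1 - Complex.exp (m * Z)) / (1 - ((m : ℂ) + 1) * Complex.exp (m * Z))) Z := by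
  have hs := n_slit2 m hm hZ
  have h0 : 1 - ((m : ℂ) + 1) * Complex.exp (m * Z) ≠ 0 := Complex.slitPlane_ne_zero hs
  have hn : ((m : ℂ) + 1) ≠ 0 := by
    have : ((m + 1 : ℕ) : ℂ) ≠ 0 := by exact_mod_cast Nat.succ_ne_zero m
    simpa using this
  have h1 : HasDerivAt (fun z : ℂ => (m : ℂ) * z) (m : ℂ) Z := by
    simpa using (hasDerivAt_id Z).const_mul (m : ℂ)
  have h2 : HasDerivAt (fun z : ℂ => 1 - ((m : ℂ) + 1) * Complex.exp (m * z))
      (-(((m : ℂ) + 1) * (Complex.exp (m * Z) * m))) Z := by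
    simpa using ((h1.cexp).const_mul ((m : ℂ) + 1)).const_sub 1
  have h3 := (h2.clog hs).const_mul (1 / ((m : ℂ) + 1))
  have h4 := (hasDerivAt_id Z).sub h3
  have h5 : (1 - Complex.exp (m * Z)) / (1 - ((m : ℂ) + 1) * Complex.exp (m * Z))
      = 1 - 1 / ((m : ℂ) + 1) * (-(((m : ℂ) + 1) * (Complex.exp (m * Z) * m)) /
        (1 - ((m : ℂ) + 1) * Complex.exp (m * Z))) := by
    have e1 : 1 - 1 / ((m : ℂ) + 1) * (-(((m : ℂ) + 1) * (Complex.exp (m * Z) * m)) /
        (1 - ((m : ℂ) + 1) * Complex.exp (m * Z)))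
        = ((1 - ((m : ℂ) + 1) * Complex.exp (m * Z)) + Complex.exp (m * Z) * m) /
          (1 - ((m : ℂ) + 1) * Complex.exp (m * Z)) := by
      rw [add_div, div_self h0]
      generalize (1 - ((m : ℂ) + 1) * Complex.exp (m * Z)) = D at h0 ⊢
      field_simp
      ring
    rw [e1]
    congr 1
    ring
  rw [h5]
  exact h4

lemma n_mem_Y (m : ℕ) {W : ℂ} (h0 : 0 < W.im) (h1 : W.im < Real.pi / m) : W ∈ Y m := by
  refine ⟨by linarith [Real.pi_pos], h1, fun h => absurd h h0.ne'⟩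

lemma n_nhds_Y (m : ℕ) {W : ℂ} (h0 : 0 < W.im) (h1 : W.im < Real.pi / m) : Y m ∈ nhds W := by
  have h2 : {z : ℂ | 0 < z.im ∧ z.im < Real.pi / m} ∈ nhds W := by
    apply IsOpen.mem_nhds
    · exact (isOpen_lt continuous_const Complex.continuous_im).inter
        (isOpen_lt Complex.continuous_im continuous_const)
    · exact ⟨h0, h1⟩
  exact Filter.mem_of_superset h2 (fun z hz => n_mem_Y m hz.1 hz.2)

lemma n_derivLam (m : ℕ) (hm : 1 ≤ m) (Λ : ℂ → ℂ) (hd : DifferentiableOn ℂ Λ (Y m))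
    (hY : ∀ W ∈ Y m, Λ W ∈ S m ∧ E m (Λ W) = W) {W : ℂ} (h0 : 0 < W.im)
    (h1 : W.im < Real.pi / m) :
    HasDerivAt Λ (deriv Λ W) W ∧ deriv Λ W =
      (1 - Complex.exp (m * Λ W)) / (1 - ((m : ℂ) + 1) * Complex.exp (m * Λ W)) := by
  have hn := n_nhds_Y m h0 h1
  have hW := n_mem_Y m h0 h1
  have hder : HasDerivAt Λ (deriv Λ W) W := (hd.differentiableAt hn).hasDerivAt
  refine ⟨hder, ?_⟩
  have hE := n_derivE m hm (hY W hW).1
  have hcomp := HasDerivAt.comp W hE hder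
  have heq : (E m ∘ Λ) =ᶠ[nhds W] id := by
    filter_upwards [hn] with z hz
    exact (hY z hz).2
  have hid : HasDerivAt (E m ∘ Λ) 1 W := (hasDerivAt_id W).congr_of_eventuallyEq heq
  have h2 := hcomp.unique hid
  have ha : 1 - Complex.exp (m * Λ W) ≠ 0 :=
    Complex.slitPlane_ne_zero (n_slit1 m hm (hY W hW).1)
  have hb : 1 - ((m : ℂ) + 1) * Complex.exp (m * Λ W) ≠ 0 :=
    Complex.slitPlane_ne_zero (n_slit2 m hm (hY W hW).1)
  field_simp at h2 ⊢
  linear_combination h2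

lemma n_G_neg (m : ℕ) {Z : ℂ} (h : ((m : ℝ) + 1) * Real.exp (m * Z.re) ≤ 1 / 2) :
    |(nPsi m Z).re - Z.re| ≤ 3 / 2 * Real.exp (m * Z.re) := by
  have hn : (0 : ℝ) < (m : ℝ) + 1 := by positivity
  have hnorm : ‖-(((m : ℂ) + 1) * Complex.exp (m * Z))‖ = ((m : ℝ) + 1) * Real.exp (m * Z.re) := by
    rw [norm_neg, norm_mul, Complex.norm_exp]
    have h1 : ‖(m : ℂ) + 1‖ = (m : ℝ) + 1 := by
      have : ((m : ℂ) + 1) = ((m + 1 : ℕ) : ℂ) := by push_cast; ring
      rw [this, Complex.norm_natCast]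
      push_cast
      ring
    rw [h1]
    simp
  have hb := Complex.norm_log_one_add_half_le_self (z := -(((m : ℂ) + 1) * Complex.exp (m * Z)))
    (by rw [hnorm]; exact h)
  rw [hnorm] at hb
  have hre : (nPsi m Z).re - Z.re
      = -((1 / ((m : ℝ) + 1)) * (Complex.log (1 + -(((m : ℂ) + 1) * Complex.exp (m * Z)))).re) := by
    have hc : (1 / ((m : ℂ) + 1)) = ((1 / ((m : ℝ) + 1) : ℝ) : ℂ) := by push_cast; ring
    unfold nPsi
    rw [hc, Complex.sub_re, Complex.re_ofReal_mul, ← sub_eq_add_neg]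
    ring
  rw [hre, abs_neg, abs_mul, abs_of_pos (by positivity : 0 < 1 / ((m : ℝ) + 1))]
  have h3 := (Complex.abs_re_le_norm (Complex.log (1 + -(((m : ℂ) + 1) * Complex.exp (m * Z))))).trans hb
  calc 1 / ((m : ℝ) + 1) * |(Complex.log (1 + -(((m : ℂ) + 1) * Complex.exp (m * Z)))).re|
      ≤ 1 / ((m : ℝ) + 1) * (3 / 2 * (((m : ℝ) + 1) * Real.exp (m * Z.re))) := by gcongr
    _ = 3 / 2 * Real.exp (m * Z.re) := by field_simp

lemma n_G_pos (m : ℕ) {Z : ℂ} (h : Real.exp (-(m * Z.re)) ≤ 1 / 2) :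
    |(nPsi m Z).re - (Z.re / ((m : ℝ) + 1) - Real.log ((m : ℝ) + 1) / ((m : ℝ) + 1))|
      ≤ 3 / 2 * Real.exp (-(m * Z.re)) := by
  have hn : (0 : ℝ) < (m : ℝ) + 1 := by positivity
  have hn1 : (1 : ℝ) ≤ (m : ℝ) + 1 := by linarith [(Nat.cast_nonneg m : (0:ℝ) ≤ m)]
  have hnc : ((m : ℂ) + 1) ≠ 0 := by
    have : ((m + 1 : ℕ) : ℂ) ≠ 0 := by exact_mod_cast Nat.succ_ne_zero m
    simpa using this
  have h1 : ‖(m : ℂ) + 1‖ = (m : ℝ) + 1 := by
    have : ((m : ℂ) + 1) = ((m + 1 : ℕ) : ℂ) := by push_cast; ring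
    rw [this, Complex.norm_natCast]
    push_cast
    ring
  have hw : ‖((m : ℂ) + 1) * Complex.exp (m * Z)‖ = ((m : ℝ) + 1) * Real.exp (m * Z.re) := by
    rw [norm_mul, Complex.norm_exp, h1]
    simp
  have hw0 : ((m : ℂ) + 1) * Complex.exp (m * Z) ≠ 0 := mul_ne_zero hnc (Complex.exp_ne_zero _)
  set w := ((m : ℂ) + 1) * Complex.exp (m * Z) with hwdef
  have hinv : ‖-(w⁻¹)‖ ≤ Real.exp (-(m * Z.re)) := by
    rw [norm_neg, norm_inv, hw, mul_inv, ← Real.exp_neg]
    have : ((m : ℝ) + 1)⁻¹ ≤ 1 := inv_le_one_of_one_le₀ hn1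
    calc ((m : ℝ) + 1)⁻¹ * Real.exp (-(m * Z.re)) ≤ 1 * Real.exp (-(m * Z.re)) := by gcongr
      _ = _ := one_mul _
  have hb := Complex.norm_log_one_add_half_le_self (z := -(w⁻¹)) (hinv.trans h)
  have hfac : 1 - w = -(w * (1 + -(w⁻¹))) := by
    field_simp
    ring
  have hne : (1 + -(w⁻¹)) ≠ 0 := by
    intro h0
    have : ‖-(w⁻¹)‖ = 1 := by
      have : -(w⁻¹) = -1 := by linear_combination h0
      rw [this]; simp
    linarith [hinv.trans h]
  have hlog : (Complex.log (1 - w)).re = Real.log ((m : ℝ) + 1) + m * Z.re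
      + (Complex.log (1 + -(w⁻¹))).re := by
    rw [Complex.log_re, Complex.log_re, hfac, norm_neg, norm_mul, hw,
      Real.log_mul (by positivity) (by simpa using hne), Real.log_mul (by positivity) (by positivity),
      Real.log_exp]
  have hre : (nPsi m Z).re - (Z.re / ((m : ℝ) + 1) - Real.log ((m : ℝ) + 1) / ((m : ℝ) + 1))
      = -((1 / ((m : ℝ) + 1)) * (Complex.log (1 + -(w⁻¹))).re) := by
    have hc : (1 / ((m : ℂ) + 1)) = ((1 / ((m : ℝ) + 1) : ℝ) : ℂ) := by push_cast; ring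
    unfold nPsi
    rw [hc, Complex.sub_re, Complex.re_ofReal_mul, ← hwdef, hlog]
    field_simp
    ring
  rw [hre, abs_neg, abs_mul, abs_of_pos (by positivity : 0 < 1 / ((m : ℝ) + 1))]
  have h3 := (Complex.abs_re_le_norm (Complex.log (1 + -(w⁻¹)))).trans hb
  have h4 : 1 / ((m : ℝ) + 1) ≤ 1 := by
    rw [div_le_one hn]; exact hn1
  calc 1 / ((m : ℝ) + 1) * |(Complex.log (1 + -(w⁻¹))).re|
      ≤ 1 * (3 / 2 * Real.exp (-(m * Z.re))) := by
        apply mul_le_mul h4 _ (abs_nonneg _) (by norm_num)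
        exact h3.trans (by gcongr)
    _ = 3 / 2 * Real.exp (-(m * Z.re)) := one_mul _

lemma n_log_one_add_le {u : ℝ} (hu : 0 ≤ u) : |Real.log (1 + u)| ≤ u := by
  rw [abs_of_nonneg (Real.log_nonneg (by linarith))]
  have := Real.log_le_sub_one_of_pos (by linarith : 0 < 1 + u)
  linarith

lemma n_psi_neg (m : ℕ) (X : ℝ) : |npsi m X - X| ≤ Real.exp (m * X) := by
  have hn : (0 : ℝ) < (m : ℝ) + 1 := by positivity
  have h1 := n_log_one_add_le (u := ((m : ℝ) + 1) * Real.exp (m * X)) (by positivity)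
  have h2 : npsi m X - X = -((1 / ((m : ℝ) + 1)) * Real.log (1 + ((m : ℝ) + 1) * Real.exp (m * X))) := by
    unfold npsi; ring
  rw [h2, abs_neg, abs_mul, abs_of_pos (by positivity : 0 < 1 / ((m : ℝ) + 1))]
  calc _ ≤ 1 / ((m : ℝ) + 1) * (((m : ℝ) + 1) * Real.exp (m * X)) := by gcongr
    _ = _ := by field_simp

lemma n_psi_pos (m : ℕ) (X : ℝ) :
    |npsi m X - (X / ((m : ℝ) + 1) - Real.log ((m : ℝ) + 1) / ((m : ℝ) + 1))|
      ≤ Real.exp (-(m * X)) := by
  have hn : (0 : ℝ) < (m : ℝ) + 1 := by positivity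
  have hn1 : (1 : ℝ) ≤ (m : ℝ) + 1 := by linarith [(Nat.cast_nonneg m : (0:ℝ) ≤ m)]
  have hu : 0 ≤ (((m : ℝ) + 1) * Real.exp (m * X))⁻¹ := by positivity
  have h1 := n_log_one_add_le hu
  have hle : (((m : ℝ) + 1) * Real.exp (m * X))⁻¹ ≤ Real.exp (-(m * X)) := by
    rw [mul_inv, ← Real.exp_neg]
    have : ((m : ℝ) + 1)⁻¹ ≤ 1 := inv_le_one_of_one_le₀ hn1
    calc ((m : ℝ) + 1)⁻¹ * Real.exp (-(m * X)) ≤ 1 * Real.exp (-(m * X)) := by gcongr
      _ = _ := one_mul _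
  have hfac : 1 + ((m : ℝ) + 1) * Real.exp (m * X)
      = (((m : ℝ) + 1) * Real.exp (m * X)) * (1 + (((m : ℝ) + 1) * Real.exp (m * X))⁻¹) := by
    field_simp
    ring
  have hlog : Real.log (1 + ((m : ℝ) + 1) * Real.exp (m * X))
      = Real.log ((m : ℝ) + 1) + m * X + Real.log (1 + (((m : ℝ) + 1) * Real.exp (m * X))⁻¹) := by
    rw [hfac, Real.log_mul (by positivity) (by positivity), Real.log_mul (by positivity) (by positivity),
      Real.log_exp]
  have h2 : npsi m X - (X / ((m : ℝ) + 1) - Real.log ((m : ℝ) + 1) / ((m : ℝ) + 1))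
      = -((1 / ((m : ℝ) + 1)) * Real.log (1 + (((m : ℝ) + 1) * Real.exp (m * X))⁻¹)) := by
    unfold npsi
    rw [hlog]
    field_simp
    ring
  rw [h2, abs_neg, abs_mul, abs_of_pos (by positivity : 0 < 1 / ((m : ℝ) + 1))]
  have h4 : 1 / ((m : ℝ) + 1) ≤ 1 := by
    rw [div_le_one hn]; exact hn1
  calc _ ≤ 1 * Real.exp (-(m * X)) := by
        apply mul_le_mul h4 (h1.trans hle) (abs_nonneg _) (by norm_num)
    _ = _ := one_mul _

lemma n_A_neg (m : ℕ) (A : ℝ → ℝ) (hA : ∀ s, A s + Real.log (1 + Real.exp (m * A s)) = s) (a : ℝ) :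
    |npsi m (A a) - a| ≤ 2 * Real.exp (m * a) := by
  have h1 := n_psi_neg m (A a)
  have h2 : 0 ≤ Real.log (1 + Real.exp (m * A a)) :=
    Real.log_nonneg (by linarith [Real.exp_pos (m * A a)])
  have h3 : A a ≤ a := by linarith [hA a]
  have h4 := n_log_one_add_le (Real.exp_pos (m * A a)).le
  have h5 : |A a - a| ≤ Real.exp (m * A a) := by
    have : A a - a = -Real.log (1 + Real.exp (m * A a)) := by linarith [hA a]
    rw [this, abs_neg]; exact h4
  have h6 : Real.exp (m * A a) ≤ Real.exp (m * a) := by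
    apply Real.exp_le_exp.mpr
    gcongr
  calc |npsi m (A a) - a| = |(npsi m (A a) - A a) + (A a - a)| := by ring_nf
    _ ≤ |npsi m (A a) - A a| + |A a - a| := abs_add_le _ _
    _ ≤ _ := by linarith

lemma n_A_pos (m : ℕ) (A : ℝ → ℝ) (hA : ∀ s, A s + Real.log (1 + Real.exp (m * A s)) = s)
    (b : ℝ) (hb : Real.log 2 ≤ b) :
    |npsi m (A b) - (b / ((m : ℝ) + 1) ^ 2 - Real.log ((m : ℝ) + 1) / ((m : ℝ) + 1))|
      ≤ 2 * Real.exp (-(m * ((b - Real.log 2) / ((m : ℝ) + 1)))) := by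
  have hn : (0 : ℝ) < (m : ℝ) + 1 := by positivity
  have hn1 : (1 : ℝ) ≤ (m : ℝ) + 1 := by linarith [(Nat.cast_nonneg m : (0:ℝ) ≤ m)]
  have hA0 : 0 ≤ A b := by
    by_contra hneg
    push Not at hneg
    have h1 : Real.exp (m * A b) ≤ 1 := by
      rw [Real.exp_le_one_iff]
      have : (0 : ℝ) ≤ m := Nat.cast_nonneg m
      nlinarith
    have h2 : Real.log (1 + Real.exp (m * A b)) ≤ Real.log 2 := by
      apply Real.log_le_log (by positivity)
      linarith
    linarith [hA b]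
  have hlog : Real.log (1 + Real.exp (m * A b)) = m * A b + Real.log (1 + Real.exp (-(m * A b))) := by
    have hfac : 1 + Real.exp (m * A b) = Real.exp (m * A b) * (1 + Real.exp (-(m * A b))) := by
      rw [mul_add, ← Real.exp_add]
      simp
      ring
    rw [hfac, Real.log_mul (by positivity) (by positivity), Real.log_exp]
  have h0 := hA b
  rw [hlog] at h0
  have h4 := n_log_one_add_le (Real.exp_pos (-(m * A b))).le
  have h5 : |A b - b / ((m : ℝ) + 1)| ≤ Real.exp (-(m * A b)) := by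
    have : A b - b / ((m : ℝ) + 1)
        = -((1 / ((m : ℝ) + 1)) * Real.log (1 + Real.exp (-(m * A b)))) := by
      have e1 : b = ((m : ℝ) + 1) * A b + Real.log (1 + Real.exp (-(m * A b))) := by linarith
      have e2 : b / ((m : ℝ) + 1) = A b + (1 / ((m : ℝ) + 1)) * Real.log (1 + Real.exp (-(m * A b))) := by
        calc b / ((m : ℝ) + 1) = (((m : ℝ) + 1) * A b + Real.log (1 + Real.exp (-(m * A b)))) / ((m : ℝ) + 1) := by rw [← e1]
          _ = _ := by rw [add_div, mul_div_cancel_left₀ _ hn.ne']; ring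
      rw [e2]; ring
    rw [this, abs_neg, abs_mul, abs_of_pos (by positivity : 0 < 1 / ((m : ℝ) + 1))]
    have h4' : 1 / ((m : ℝ) + 1) ≤ 1 := by
      rw [div_le_one hn]; exact hn1
    calc _ ≤ 1 * Real.exp (-(m * A b)) := by
          apply mul_le_mul h4' h4 (abs_nonneg _) (by norm_num)
      _ = _ := one_mul _
  have h6 : (b - Real.log 2) / ((m : ℝ) + 1) ≤ A b := by
    rw [div_le_iff₀ hn]
    have : Real.log (1 + Real.exp (-(m * A b))) ≤ Real.log 2 := by
      apply Real.log_le_log (by positivity)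
      have : Real.exp (-(m * A b)) ≤ 1 := by
        rw [Real.exp_le_one_iff]
        have : (0 : ℝ) ≤ m := Nat.cast_nonneg m
        nlinarith
      linarith
    linarith
  have h7 : Real.exp (-(m * A b)) ≤ Real.exp (-(m * ((b - Real.log 2) / ((m : ℝ) + 1)))) := by
    apply Real.exp_le_exp.mpr
    have : (0 : ℝ) ≤ m := Nat.cast_nonneg m
    nlinarith
  have h8 := n_psi_pos m (A b)
  have h9 : |A b / ((m : ℝ) + 1) - b / ((m : ℝ) + 1) ^ 2| ≤ Real.exp (-(m * A b)) := by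
    have : A b / ((m : ℝ) + 1) - b / ((m : ℝ) + 1) ^ 2
        = (1 / ((m : ℝ) + 1)) * (A b - b / ((m : ℝ) + 1)) := by
      field_simp
    rw [this, abs_mul, abs_of_pos (by positivity : 0 < 1 / ((m : ℝ) + 1))]
    have h4' : 1 / ((m : ℝ) + 1) ≤ 1 := by
      rw [div_le_one hn]; exact hn1
    calc _ ≤ 1 * Real.exp (-(m * A b)) := by
          apply mul_le_mul h4' h5 (abs_nonneg _) (by norm_num)
      _ = _ := one_mul _
  have hsum : npsi m (A b) - (b / ((m : ℝ) + 1) ^ 2 - Real.log ((m : ℝ) + 1) / ((m : ℝ) + 1))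
      = (npsi m (A b) - (A b / ((m : ℝ) + 1) - Real.log ((m : ℝ) + 1) / ((m : ℝ) + 1)))
        + (A b / ((m : ℝ) + 1) - b / ((m : ℝ) + 1) ^ 2) := by ring
  rw [hsum]
  refine (abs_add_le _ _).trans ?_
  linarith

lemma n_deriv_psiA (m : ℕ) (A : ℝ → ℝ)
    (hA' : ∀ s, HasDerivAt A ((1 + Real.exp (m * A s)) / (1 + (m + 1) * Real.exp (m * A s))) s)
    (s : ℝ) :
    HasDerivAt (fun t => npsi m (A t))
      (((1 + Real.exp (m * A s)) / (1 + (m + 1) * Real.exp (m * A s))) ^ 2) s := by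
  have hn : (0 : ℝ) < (m : ℝ) + 1 := by positivity
  have hpos : 0 < 1 + ((m : ℝ) + 1) * Real.exp (m * A s) := by positivity
  have h1 : HasDerivAt (npsi m)
      ((1 + Real.exp (m * A s)) / (1 + (m + 1) * Real.exp (m * A s))) (A s) := by
    have h1 : HasDerivAt (fun z : ℝ => (m : ℝ) * z) (m : ℝ) (A s) := by
      simpa using (hasDerivAt_id (A s)).const_mul (m : ℝ)
    have h2 : HasDerivAt (fun z : ℝ => 1 + ((m : ℝ) + 1) * Real.exp (m * z))
        ((((m : ℝ) + 1) * (Real.exp (m * A s) * m))) (A s) := by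
      simpa using ((h1.exp).const_mul ((m : ℝ) + 1)).const_add 1
    have h3 := (h2.log hpos.ne').const_mul (1 / ((m : ℝ) + 1))
    have h4 := (hasDerivAt_id (A s)).sub h3
    have h5 : (1 + Real.exp (m * A s)) / (1 + ((m : ℝ) + 1) * Real.exp (m * A s))
        = 1 - 1 / ((m : ℝ) + 1) * ((((m : ℝ) + 1) * (Real.exp (m * A s) * m)) /
          (1 + ((m : ℝ) + 1) * Real.exp (m * A s))) := by
      field_simp
      ring
    rw [h5]
    exact h4
  have h2 := HasDerivAt.comp s h1 (hA' s)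
  rw [sq]
  exact h2

open Real in
theorem noether (m : ℕ) (hm : 1 ≤ m) (Λ : ℂ → ℂ) (hd : DifferentiableOn ℂ Λ (Y m))
    (hY : ∀ W ∈ Y m, Λ W ∈ S m ∧ E m (Λ W) = W)
    (hneg : ∀ δ : ℝ, 0 < δ → ∃ s₀ : ℝ, ∀ Z ∈ S m, 0 < (E m Z).im → (E m Z).re ≤ s₀ →
      |Z.re - (E m Z).re| ≤ δ)
    (hpos : ∀ δ : ℝ, 0 < δ → ∃ s₁ : ℝ, ∀ Z ∈ S m, s₁ ≤ (E m Z).re →
      |Z.re - (E m Z).re / (m + 1)| ≤ δ)
    (A : ℝ → ℝ) (hA : ∀ s, A s + Real.log (1 + Real.exp (m * A s)) = s)
    (hA' : ∀ s, HasDerivAt A ((1 + Real.exp (m * A s)) / (1 + (m + 1) * Real.exp (m * A s))) s)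
    (δ : ℝ) (hδ : 0 < δ) :
    ∃ s₀ s₁ : ℝ, ∀ a ≤ s₀, ∀ b, s₁ ≤ b → ∀ x, 0 < x → x < π / m →
      ∫⁻ s in Ioo a b,
        ENNReal.ofReal (((1 + Real.exp (m * A s)) / (1 + (m + 1) * Real.exp (m * A s))) ^ 2)
      ≤ (∫⁻ s in Ioo a b, ENNReal.ofReal (‖deriv Λ (s + x * Complex.I)‖ ^ 2))
        + ENNReal.ofReal δ := by
  have hm0 : (0 : ℝ) < m := by exact_mod_cast hm
  have hn : (0 : ℝ) < (m : ℝ) + 1 := by positivity
  have hn1 : (1 : ℝ) ≤ (m : ℝ) + 1 := by linarith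
  -- exponential smallness at -infinity
  obtain ⟨u₀, hu₀⟩ : ∃ u₀ : ℝ, ∀ u ≤ u₀, Real.exp (m * u) ≤ min (1 / (2 * ((m : ℝ) + 1))) (δ / 12) := by
    have hc : 0 < min (1 / (2 * ((m : ℝ) + 1))) (δ / 12) := by positivity
    refine ⟨Real.log (min (1 / (2 * ((m : ℝ) + 1))) (δ / 12)) / m, fun u hu => ?_⟩
    rw [le_div_iff₀ hm0] at hu
    calc Real.exp (m * u) ≤ Real.exp (Real.log (min (1 / (2 * ((m : ℝ) + 1))) (δ / 12))) := by
          apply Real.exp_le_exp.mpr
          linarith [mul_comm (m : ℝ) u]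
      _ = _ := Real.exp_log hc
  obtain ⟨t₀, ht₀⟩ := hneg (δ / 8) (by positivity)
  obtain ⟨t₁, ht₁⟩ := hpos (δ / 8) (by positivity)
  refine ⟨min t₀ (u₀ - δ / 8), max (max t₁ (Real.log 2))
    (((m : ℝ) + 1) * (-u₀ + δ / 8) + Real.log 2 + 0), fun a ha b hb x hx0 hx1 => ?_⟩
  rcases le_or_gt b a with hba | hab
  · rw [Ioo_eq_empty (by linarith)]
    simp
  have ha1 : a ≤ t₀ := ha.trans (min_le_left _ _)
  have ha2 : a ≤ u₀ - δ / 8 := ha.trans (min_le_right _ _)
  have hb1 : t₁ ≤ b := (le_max_left _ _).trans ((le_max_left _ _).trans hb)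
  have hb2 : Real.log 2 ≤ b := (le_max_right _ _).trans ((le_max_left _ _).trans hb)
  have hb3 : ((m : ℝ) + 1) * (-u₀ + δ / 8) + Real.log 2 + 0 ≤ b := (le_max_right _ _).trans hb
  have him : ∀ s : ℝ, ((s : ℂ) + x * Complex.I).im = x := by intro s; simp
  have hre : ∀ s : ℝ, ((s : ℂ) + x * Complex.I).re = s := by intro s; simp
  have hYs : ∀ s : ℝ, ((s : ℂ) + x * Complex.I) ∈ Y m := fun s =>
    n_mem_Y m (by rw [him]; exact hx0) (by rw [him]; exact hx1)
  have hLam : ∀ s : ℝ, HasDerivAt Λ (deriv Λ ((s : ℂ) + x * Complex.I)) ((s : ℂ) + x * Complex.I) ∧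
      deriv Λ ((s : ℂ) + x * Complex.I) =
      (1 - Complex.exp (m * Λ ((s : ℂ) + x * Complex.I))) /
        (1 - ((m : ℂ) + 1) * Complex.exp (m * Λ ((s : ℂ) + x * Complex.I))) := fun s =>
    n_derivLam m hm Λ hd hY (by rw [him]; exact hx0) (by rw [him]; exact hx1)
  have hline : ∀ s : ℝ, HasDerivAt (fun w : ℂ => w + x * Complex.I) 1 (s : ℂ) := by
    intro s
    simpa using (hasDerivAt_id (s : ℂ)).add_const (x * Complex.I)
  have hLamLine : ∀ s : ℝ, HasDerivAt (fun w : ℂ => Λ (w + x * Complex.I))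
      (deriv Λ ((s : ℂ) + x * Complex.I)) (s : ℂ) := by
    intro s
    have := HasDerivAt.comp (s : ℂ) (h₂ := Λ) (h := fun w : ℂ => w + x * Complex.I) (hLam s).1 (hline s)
    rw [mul_one] at this
    exact this
  have hcontLam : Continuous (fun s : ℝ => Λ ((s : ℂ) + x * Complex.I)) := by
    rw [continuous_iff_continuousAt]
    intro s
    exact (hLamLine s).comp_ofReal.continuousAt
  have hcontD : Continuous (fun s : ℝ => deriv Λ ((s : ℂ) + x * Complex.I)) := by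
    have : (fun s : ℝ => deriv Λ ((s : ℂ) + x * Complex.I)) = fun s : ℝ =>
        (1 - Complex.exp (m * Λ ((s : ℂ) + x * Complex.I))) /
        (1 - ((m : ℂ) + 1) * Complex.exp (m * Λ ((s : ℂ) + x * Complex.I))) := by
      funext s; exact (hLam s).2
    rw [this]
    apply Continuous.div
    · exact continuous_const.sub ((continuous_const.mul hcontLam).cexp)
    · exact continuous_const.sub (continuous_const.mul ((continuous_const.mul hcontLam).cexp))
    · intro s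
      exact Complex.slitPlane_ne_zero (n_slit2 m hm (hY _ (hYs s)).1)
  -- the primitive
  have hG : ∀ s : ℝ, HasDerivAt (fun t : ℝ => (nPsi m (Λ ((t : ℂ) + x * Complex.I))).re)
      ((deriv Λ ((s : ℂ) + x * Complex.I)) ^ 2).re s := by
    intro s
    have h1 := n_derivPsi m hm (hY _ (hYs s)).1
    have h2 := HasDerivAt.comp (s : ℂ) (h₂ := nPsi m) (h := fun w : ℂ => Λ (w + x * Complex.I)) h1
      (hLamLine s)
    rw [← (hLam s).2, ← sq] at h2
    exact h2.real_of_complex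
  have hFTC1 : ∫ s in a..b, ((deriv Λ ((s : ℂ) + x * Complex.I)) ^ 2).re
      = (nPsi m (Λ ((b : ℂ) + x * Complex.I))).re - (nPsi m (Λ ((a : ℂ) + x * Complex.I))).re := by
    apply intervalIntegral.integral_eq_sub_of_hasDerivAt (fun s _ => hG s)
    apply Continuous.intervalIntegrable
    fun_prop
  have hcontA : Continuous A := by
    rw [continuous_iff_continuousAt]
    intro s
    exact (hA' s).continuousAt
  have hcontA' : Continuous (fun s : ℝ =>
      ((1 + Real.exp (m * A s)) / (1 + ((m : ℝ) + 1) * Real.exp (m * A s))) ^ 2) := by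
    apply Continuous.pow
    apply Continuous.div
    · fun_prop
    · fun_prop
    · intro s
      positivity
  have hFTC2 : ∫ s in a..b, ((1 + Real.exp (m * A s)) / (1 + ((m : ℝ) + 1) * Real.exp (m * A s))) ^ 2
      = npsi m (A b) - npsi m (A a) := by
    apply intervalIntegral.integral_eq_sub_of_hasDerivAt (fun s _ => n_deriv_psiA m A hA' s)
    exact hcontA'.intervalIntegrable _ _
  -- convert to lintegrals
  have hL1 : ∫⁻ s in Ioo a b,
        ENNReal.ofReal (((1 + Real.exp (m * A s)) / (1 + (m + 1) * Real.exp (m * A s))) ^ 2)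
      = ENNReal.ofReal (npsi m (A b) - npsi m (A a)) := by
    rw [← hFTC2, intervalIntegral.integral_of_le hab.le, integral_Ioc_eq_integral_Ioo,
      ofReal_integral_eq_lintegral_ofReal]
    · exact (hcontA'.integrableOn_Icc).mono_set Ioo_subset_Icc_self
    · exact Filter.Eventually.of_forall fun s => sq_nonneg _
  have hcN : Continuous (fun s : ℝ => ‖deriv Λ ((s : ℂ) + x * Complex.I)‖ ^ 2) := by fun_prop
  have hcR : Continuous (fun s : ℝ => ((deriv Λ ((s : ℂ) + x * Complex.I)) ^ 2).re) := by fun_prop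
  have hL2 : ENNReal.ofReal ((nPsi m (Λ ((b : ℂ) + x * Complex.I))).re
        - (nPsi m (Λ ((a : ℂ) + x * Complex.I))).re)
      ≤ ∫⁻ s in Ioo a b, ENNReal.ofReal (‖deriv Λ (s + x * Complex.I)‖ ^ 2) := by
    rw [← ofReal_integral_eq_lintegral_ofReal
      ((hcN.integrableOn_Icc).mono_set Ioo_subset_Icc_self)
      (Filter.Eventually.of_forall fun s => sq_nonneg _)]
    apply ENNReal.ofReal_le_ofReal
    rw [← hFTC1, intervalIntegral.integral_of_le hab.le, integral_Ioc_eq_integral_Ioo]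
    apply integral_mono
    · exact (hcR.integrableOn_Icc).mono_set Ioo_subset_Icc_self
    · exact (hcN.integrableOn_Icc).mono_set Ioo_subset_Icc_self
    · intro s
      have := Complex.re_le_norm ((deriv Λ ((s : ℂ) + x * Complex.I)) ^ 2)
      rw [norm_pow] at this
      exact this
  rw [hL1]
  -- asymptotics
  have key : npsi m (A b) - npsi m (A a) ≤ ((nPsi m (Λ ((b : ℂ) + x * Complex.I))).re
        - (nPsi m (Λ ((a : ℂ) + x * Complex.I))).re) + δ := by
    -- left end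
    have hZa := hY _ (hYs a)
    have hZb := hY _ (hYs b)
    have hXa : |(Λ ((a : ℂ) + x * Complex.I)).re - a| ≤ δ / 8 := by
      have := ht₀ _ hZa.1 (by rw [hZa.2, him]; exact hx0) (by rw [hZa.2, hre]; exact ha1)
      rwa [hZa.2, hre] at this
    have hXb : |(Λ ((b : ℂ) + x * Complex.I)).re - b / ((m : ℝ) + 1)| ≤ δ / 8 := by
      have := ht₁ _ hZb.1 (by rw [hZb.2, hre]; exact hb1)
      rwa [hZb.2, hre] at this
    have hea := hu₀ (Λ ((a : ℂ) + x * Complex.I)).re (by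
      have := (abs_le.mp hXa).2; linarith)
    have hea1 := hea.trans (min_le_left _ _)
    have hea2 := hea.trans (min_le_right _ _)
    have hGa := n_G_neg m (Z := Λ ((a : ℂ) + x * Complex.I)) (by
      rw [le_div_iff₀ (by positivity)] at hea1
      linarith)
    have hea3 : Real.exp (m * a) ≤ δ / 12 := (hu₀ a (by linarith)).trans (min_le_right _ _)
    have hpa := n_A_neg m A hA a
    have hXb' : -u₀ ≤ (Λ ((b : ℂ) + x * Complex.I)).re := by
      have h1 := (abs_le.mp hXb).1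
      have h2 : -u₀ + δ / 8 ≤ b / ((m : ℝ) + 1) := by
        rw [le_div_iff₀ hn]
        have := Real.log_nonneg (by norm_num : (1:ℝ) ≤ 2)
        linarith [mul_comm ((m : ℝ) + 1) (-u₀ + δ / 8)]
      linarith
    have heb := hu₀ (-(Λ ((b : ℂ) + x * Complex.I)).re) (by linarith)
    rw [mul_neg] at heb
    have heb1 := heb.trans (min_le_left _ _)
    have heb2 := heb.trans (min_le_right _ _)
    have hGb := n_G_pos m (Z := Λ ((b : ℂ) + x * Complex.I)) (by
      refine heb1.trans ?_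
      rw [div_le_div_iff₀ (by positivity) (by norm_num)]
      linarith)
    have hpb := n_A_pos m A hA b hb2
    have heb3 : Real.exp (-(m * ((b - Real.log 2) / ((m : ℝ) + 1)))) ≤ δ / 12 := by
      have h1 : -((b - Real.log 2) / ((m : ℝ) + 1)) ≤ u₀ := by
        have : -u₀ ≤ (b - Real.log 2) / ((m : ℝ) + 1) := by
          rw [le_div_iff₀ hn]
          nlinarith
        linarith
      have := hu₀ _ h1
      rw [mul_neg] at this
      exact this.trans (min_le_right _ _)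
    have hXb2 : |(Λ ((b : ℂ) + x * Complex.I)).re / ((m : ℝ) + 1) - b / ((m : ℝ) + 1) ^ 2| ≤ δ / 8 := by
      have : (Λ ((b : ℂ) + x * Complex.I)).re / ((m : ℝ) + 1) - b / ((m : ℝ) + 1) ^ 2
          = (1 / ((m : ℝ) + 1)) * ((Λ ((b : ℂ) + x * Complex.I)).re - b / ((m : ℝ) + 1)) := by
        field_simp
      rw [this, abs_mul, abs_of_pos (by positivity : 0 < 1 / ((m : ℝ) + 1))]
      have h4' : 1 / ((m : ℝ) + 1) ≤ 1 := by
        rw [div_le_one hn]; exact hn1
      calc _ ≤ 1 * (δ / 8) := by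
            apply mul_le_mul h4' hXb (abs_nonneg _) (by norm_num)
        _ = _ := one_mul _
    rw [abs_le] at hXa hXb hGa hpa hGb hpb hXb2
    obtain ⟨_, _⟩ := hXa
    obtain ⟨_, _⟩ := hXb2
    obtain ⟨_, _⟩ := hGa
    obtain ⟨_, _⟩ := hGb
    obtain ⟨_, _⟩ := hpa
    obtain ⟨_, _⟩ := hpb
    linarith
  calc ENNReal.ofReal (npsi m (A b) - npsi m (A a))
      ≤ ENNReal.ofReal (((nPsi m (Λ ((b : ℂ) + x * Complex.I))).re
        - (nPsi m (Λ ((a : ℂ) + x * Complex.I))).re) + δ) := ENNReal.ofReal_le_ofReal key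
    _ ≤ ENNReal.ofReal ((nPsi m (Λ ((b : ℂ) + x * Complex.I))).re
        - (nPsi m (Λ ((a : ℂ) + x * Complex.I))).re) + ENNReal.ofReal δ := ENNReal.ofReal_add_le
    _ ≤ _ := by gcongr

end Pool.Agent.Helper714.L3b
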