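import Mathlib
import Pool.Agent.Helper714.BU.ExtDefs

set_option autoImplicit false

open MeasureTheory Set

namespace Pool.Agent.Helper714.L3c

lemma lint_complex (g : ℂ → ENNReal) (hg : Measurable g) (A B : Set ℝ) :
    ∫⁻ x in B, ∫⁻ s in A, g (s + x * Complex.I) = ∫⁻ W in {W : ℂ | W.re ∈ A ∧ W.im ∈ B}, g W := by
  have h1 := (Complex.volume_preserving_equiv_real_prod.symm).setLIntegral_comp_preimage_emb
    Complex.measurableEquivRealProd.symm.measurableEmbedding g {W : ℂ | W.re ∈ A ∧ W.im ∈ B}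
  have h2 : (Complex.measurableEquivRealProd.symm) ⁻¹' {W : ℂ | W.re ∈ A ∧ W.im ∈ B} = A ×ˢ B := by
    ext p
    simp [Complex.measurableEquivRealProd_symm_apply]
  rw [h2] at h1
  rw [← h1, Measure.volume_eq_prod, ← Measure.prod_restrict, lintegral_prod_symm']
  · apply lintegral_congr; intro x
    apply lintegral_congr; intro s
    congr 1
    rw [Complex.measurableEquivRealProd_symm_apply]
    apply Complex.ext <;> simp
  · exact hg.comp Complex.measurableEquivRealProd.symm.measurable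

lemma lint_neg (f : ℝ → ENNReal) (c : ℝ) :
    ∫⁻ x in Ioo 0 c, f (-x) = ∫⁻ x in Ioo (-c) 0, f x := by
  have h1 := (Measure.measurePreserving_neg (volume : Measure ℝ)).setLIntegral_comp_preimage_emb
    (MeasurableEquiv.neg ℝ).measurableEmbedding f (Ioo (-c) 0)
  have h2 : (Neg.neg : ℝ → ℝ) ⁻¹' (Ioo (-c) 0) = Ioo 0 c := by
    ext x
    simp only [mem_preimage, mem_Ioo]
    constructor
    · rintro ⟨h1, h2⟩; constructor <;> linarith
    · rintro ⟨h1, h2⟩; constructor <;> linarith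
  rw [← h1]
  rw [← h2]

lemma vol_rect (A B : Set ℝ) :
    volume {W : ℂ | W.re ∈ A ∧ W.im ∈ B} = volume B * volume A := by
  have h := lint_complex (fun _ => 1) measurable_const A B
  rw [setLIntegral_one, setLIntegral_const, setLIntegral_one] at h
  rw [← h, mul_comm]

lemma det_mul (c : ℂ) : |((ContinuousLinearMap.smulRight (1 : ℂ →L[ℂ] ℂ) c).restrictScalars ℝ).det|
    = ‖c‖ ^ 2 := by
  have h1 : ((ContinuousLinearMap.smulRight (1 : ℂ →L[ℂ] ℂ) c).restrictScalars ℝ).det = ‖c‖ ^ 2 := by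
    have h2 : ((ContinuousLinearMap.smulRight (1 : ℂ →L[ℂ] ℂ) c).restrictScalars ℝ).det
        = LinearMap.det (((ContinuousLinearMap.smulRight (1 : ℂ →L[ℂ] ℂ) c) : ℂ →ₗ[ℂ] ℂ).restrictScalars ℝ) := rfl
    rw [h2, LinearMap.det_restrictScalars, Algebra.norm_complex_eq]
    have h3 : LinearMap.det ((ContinuousLinearMap.smulRight (1 : ℂ →L[ℂ] ℂ) c) : ℂ →ₗ[ℂ] ℂ) = c := by
      simp
    rw [h3]
    exact Complex.normSq_eq_norm_sq c
  rw [h1]
  exact abs_of_nonneg (by positivity)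

lemma E_re (m : ℕ) (Z : ℂ) : (E m Z).re = Z.re + Real.log ‖1 - Complex.exp (m * Z)‖ := by
  simp [E, Complex.log_re]

lemma norm_exp_m (m : ℕ) (Z : ℂ) : ‖Complex.exp (m * Z)‖ = Real.exp (m * Z.re) := by
  rw [Complex.norm_exp]; simp

lemma E_re_le (m : ℕ) (Z : ℂ) : (E m Z).re ≤ Z.re + Real.exp (m * Z.re) := by
  rw [E_re]
  have h1 : ‖1 - Complex.exp (m * Z)‖ ≤ 1 + Real.exp (m * Z.re) := by
    calc ‖1 - Complex.exp (m * Z)‖ ≤ ‖(1:ℂ)‖ + ‖Complex.exp (m * Z)‖ := norm_sub_le _ _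
      _ = 1 + Real.exp (m * Z.re) := by rw [norm_exp_m]; simp
  have h2 : Real.log ‖1 - Complex.exp (m * Z)‖ ≤ Real.exp (m * Z.re) := by
    rcases (norm_nonneg (1 - Complex.exp (m * Z))).eq_or_lt with h | h
    · rw [← h, Real.log_zero]; positivity
    · have := Real.log_le_sub_one_of_pos h; linarith
  linarith

lemma le_E_re (m : ℕ) (hm : 1 ≤ m) (Z : ℂ) (hZ : 1 ≤ Z.re) : Z.re ≤ (E m Z).re := by
  rw [E_re]
  have hm' : (1:ℝ) ≤ m := by exact_mod_cast hm
  have h1 : Real.exp (m * Z.re) - 1 ≤ ‖1 - Complex.exp (m * Z)‖ := by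
    have := norm_sub_norm_le (Complex.exp (m * Z)) 1
    rw [norm_exp_m, norm_one, norm_sub_rev] at this
    exact this
  have h2 : (1:ℝ) ≤ ‖1 - Complex.exp (m * Z)‖ := by
    have h3 : (1:ℝ) ≤ m * Z.re := by nlinarith
    have h4 := Real.add_one_le_exp ((m:ℝ) * Z.re)
    linarith
  have := Real.log_nonneg h2
  linarith

open Real in
theorem area (m : ℕ) (hm : 1 ≤ m) (Λ : ℂ → ℂ) (hd : DifferentiableOn ℂ Λ (Y m))
    (hY : ∀ W ∈ Y m, Λ W ∈ S m ∧ E m (Λ W) = W)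
    (hlow : ∀ Z ∈ S m, (E m Z).im ≤ 0 → -Real.log (m + 1) / m ≤ Z.re)
    (hneg : ∀ δ : ℝ, 0 < δ → ∃ s₀ : ℝ, ∀ Z ∈ S m, 0 < (E m Z).im → (E m Z).re ≤ s₀ →
      |Z.re - (E m Z).re| ≤ δ)
    (hpos : ∀ δ : ℝ, 0 < δ → ∃ s₁ : ℝ, ∀ Z ∈ S m, s₁ ≤ (E m Z).re →
      |Z.re - (E m Z).re / (m + 1)| ≤ δ)
    (δ : ℝ) (hδ : 0 < δ) :
    ∃ s₀ s₁ : ℝ, ∀ a ≤ s₀, ∀ b, s₁ ≤ b →
      (∫⁻ x in Ioo 0 (π / m), ∫⁻ s in Ioo a b,
          ENNReal.ofReal (‖deriv Λ (s + x * Complex.I)‖ ^ 2))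
        + (∫⁻ x in Ioo 0 π, ∫⁻ s in Iio b,
          ENNReal.ofReal (‖deriv Λ (s - x * Complex.I)‖ ^ 2))
      ≤ ENNReal.ofReal (π / m * (b / (m + 1) - a) + δ) := by
  have hm' : (1:ℝ) ≤ m := by exact_mod_cast hm
  set h : ℝ := π / m with hh
  have hh0 : 0 < h := by rw [hh]; positivity
  set d : ℝ := δ / (2 * h) with hd'
  have hd0 : 0 < d := by rw [hd']; positivity
  obtain ⟨s₁', hs₁'⟩ := hpos d hd0
  refine ⟨min (Real.log d / m) (-Real.log (m + 1) / m), (m + 1) * max 1 s₁', ?_⟩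
  intro a ha b hb
  have ha1 : a ≤ Real.log d / m := ha.trans (min_le_left _ _)
  have ha2 : a ≤ -Real.log (m + 1) / m := ha.trans (min_le_right _ _)
  have hn : (0:ℝ) < m + 1 := by positivity
  have hb1 : max 1 s₁' ≤ b / (m + 1) := by
    rw [le_div_iff₀ hn, mul_comm]; exact hb
  set g : ℂ → ENNReal := fun W => ENNReal.ofReal (‖deriv Λ W‖ ^ 2) with hg
  have hgm : Measurable g := ((measurable_deriv Λ).norm.pow_const 2).ennreal_ofReal
  set U1 : Set ℂ := {W | W.re ∈ Ioo a b ∧ W.im ∈ Ioo 0 h} with hU1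
  set U2 : Set ℂ := {W | W.re ∈ Iio b ∧ W.im ∈ Ioo (-π) 0} with hU2
  have hU1o : IsOpen U1 :=
    (isOpen_Ioo.preimage Complex.continuous_re).inter (isOpen_Ioo.preimage Complex.continuous_im)
  have hU2o : IsOpen U2 :=
    (isOpen_Iio.preimage Complex.continuous_re).inter (isOpen_Ioo.preimage Complex.continuous_im)
  have hUo : IsOpen (U1 ∪ U2) := hU1o.union hU2o
  have hUY : U1 ∪ U2 ⊆ Y m := by
    rintro W (⟨hr, hi⟩ | ⟨hr, hi⟩)
    · refine ⟨?_, hi.2, fun h0 => absurd h0 hi.1.ne'⟩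
      have := Real.pi_pos; linarith [hi.1]
    · exact ⟨hi.1, hi.2.trans hh0, fun h0 => absurd h0 hi.2.ne⟩
  have hdisj : Disjoint U1 U2 := by
    rw [Set.disjoint_left]
    rintro W ⟨_, h1⟩ ⟨_, h2⟩
    exact absurd (h1.1.trans h2.2) (lt_irrefl _)
  have e1 : ∫⁻ x in Ioo 0 h, ∫⁻ s in Ioo a b, ENNReal.ofReal (‖deriv Λ (s + x * Complex.I)‖ ^ 2)
      = ∫⁻ W in U1, g W := lint_complex g hgm (Ioo a b) (Ioo 0 h)
  have e2 : ∫⁻ x in Ioo 0 π, ∫⁻ s in Iio b, ENNReal.ofReal (‖deriv Λ (s - x * Complex.I)‖ ^ 2)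
      = ∫⁻ W in U2, g W := by
    have h1 := lint_complex g hgm (Iio b) (Ioo (-π) 0)
    rw [← h1, ← lint_neg (fun x => ∫⁻ s in Iio b, g (s + x * Complex.I)) π]
    apply lintegral_congr; intro x
    apply lintegral_congr; intro s
    simp only [hg]
    congr 4
    push_cast
    ring
  have e3 : ∫⁻ W in U1 ∪ U2, g W = volume (Λ '' (U1 ∪ U2)) := by
    rw [← lintegral_abs_det_fderiv_eq_addHaar_image volume hUo.measurableSet
      (f := Λ) (f' := fun W => (ContinuousLinearMap.smulRight (1 : ℂ →L[ℂ] ℂ) (deriv Λ W)).restrictScalars ℝ)]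
    · apply lintegral_congr; intro W
      rw [det_mul]
    · intro W hW
      have h1 : DifferentiableAt ℂ Λ W :=
        (hd.mono hUY).differentiableAt (hUo.mem_nhds hW)
      have h2 : HasFDerivAt Λ (ContinuousLinearMap.smulRight (1 : ℂ →L[ℂ] ℂ) (deriv Λ W)) W :=
        h1.hasDerivAt.hasFDerivAt
      exact (h2.restrictScalars ℝ).hasFDerivWithinAt
    · intro W1 h1 W2 h2 h12
      rw [← (hY W1 (hUY h1)).2, ← (hY W2 (hUY h2)).2, h12]
  rw [e1, e2, ← lintegral_union hU2o.measurableSet hdisj, e3]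
  have e4 : Λ '' (U1 ∪ U2) ⊆ {W : ℂ | W.re ∈ Icc (a - d) (b / (m + 1) + d) ∧ W.im ∈ Ioo 0 h} := by
    rintro _ ⟨W, hW, rfl⟩
    obtain ⟨hS, hE⟩ := hY W (hUY hW)
    refine ⟨⟨?_, ?_⟩, hS⟩
    · rcases hW with ⟨hr, hi⟩ | ⟨hr, hi⟩
      · by_contra hlt
        rw [not_le] at hlt
        have h1 := E_re_le m (Λ W)
        rw [hE] at h1
        have h2 : (m:ℝ) * (Λ W).re ≤ Real.log d := by
          have h3 : (Λ W).re ≤ Real.log d / m := by linarith
          rw [le_div_iff₀ (by linarith)] at h3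
          linarith
        have h3 : Real.exp (m * (Λ W).re) ≤ d := by
          calc Real.exp (m * (Λ W).re) ≤ Real.exp (Real.log d) := Real.exp_le_exp.2 h2
            _ = d := Real.exp_log hd0
        have := hr.1
        linarith
      · have h1 := hlow (Λ W) hS (by rw [hE]; exact hi.2.le)
        linarith
    · have hb2 : W.re < b := by
        rcases hW with ⟨hr, hi⟩ | ⟨hr, hi⟩
        · exact hr.2
        · exact hr
      rcases le_total s₁' W.re with h1 | h1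
      · have h2 := hs₁' (Λ W) hS (by rw [hE]; exact h1)
        rw [hE] at h2
        have h3 := (abs_le.1 h2).2
        have h4 : W.re / (m + 1) ≤ b / (m + 1) := by gcongr
        linarith
      · by_cases h2 : 1 ≤ (Λ W).re
        · have h3 := le_E_re m hm (Λ W) h2
          rw [hE] at h3
          have := le_max_right 1 s₁'
          linarith
        · have := le_max_left 1 s₁'
          linarith
  refine (measure_mono e4).trans ?_
  rw [vol_rect, Real.volume_Icc, Real.volume_Ioo, ← ENNReal.ofReal_mul (by linarith)]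
  apply ENNReal.ofReal_le_ofReal
  have h5 : h * d * 2 = δ := by rw [hd']; field_simp
  nlinarith

end Pool.Agent.Helper714.L3c
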