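import Mathlib
import Pool.Agent.Helper714.BU.ExtDefs

set_option autoImplicit false

namespace Pool.Agent.Helper714.L4

open Equiv

theorem tl_inv {n : ℕ} (s : Equiv.Perm (Fin n)) (h : s.support.card ≤ 2) :
    (∀ a, s (s a) = a) ∧ (∀ a b, s a ≠ a → s b ≠ b → b = a ∨ b = s a) := by
  rcases Nat.lt_or_ge s.support.card 2 with h1 | h1
  · have h2 : s = 1 := Equiv.Perm.card_support_le_one.1 (by omega)
    subst h2
    simp
  · have h2 : s.support.card = 2 := le_antisymm h h1
    rw [Equiv.Perm.card_support_eq_two] at h2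
    obtain ⟨p, q, hpq, rfl⟩ := h2
    refine ⟨fun a => Equiv.swap_apply_self p q a, ?_⟩
    intro a b ha hb
    rcases eq_or_ne a p with rfl | ha1
    · rw [Equiv.swap_apply_left]
      by_contra hcon
      push Not at hcon
      exact hb (Equiv.swap_apply_of_ne_of_ne hcon.1 hcon.2)
    · rcases eq_or_ne a q with rfl | ha2
      · rw [Equiv.swap_apply_right]
        by_contra hcon
        push Not at hcon
        exact hb (Equiv.swap_apply_of_ne_of_ne hcon.2 hcon.1)
      · exact absurd (Equiv.swap_apply_of_ne_of_ne ha1 ha2) ha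

theorem tl_count {n : ℕ} {ι : Type} [Finite ι] (σ : ι → Equiv.Perm (Fin (n + 1)))
    (hinv : ∀ j a, σ j (σ j a) = a)
    (hfix : ∀ j a b, σ j a ≠ a → σ j b ≠ b → b = a ∨ b = σ j a)
    (hconn : ∀ T : Set (Fin (n + 1)), T.Nonempty → (∀ j, ∀ i ∈ T, σ j i ∈ T) → T = Set.univ) :
    n ≤ Nat.card ι := by
  classical
  let G : SimpleGraph (Fin (n + 1)) :=
    { Adj := fun a b => a ≠ b ∧ ∃ k, σ k a = b
      symm := ⟨fun a b h => ⟨h.1.symm, by
        obtain ⟨k, hk⟩ := h.2
        exact ⟨k, by rw [← hk, hinv]⟩⟩⟩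
      loopless := ⟨fun a h => h.1 rfl⟩ }
  have hG : G.Connected := by
    rw [SimpleGraph.connected_iff]
    refine ⟨?_, inferInstance⟩
    intro a b
    have h := hconn {c | G.Reachable a c} ⟨a, SimpleGraph.Reachable.refl a⟩ (by
      intro j i hi
      by_cases h1 : σ j i = i
      · rw [h1]; exact hi
      · exact SimpleGraph.Reachable.trans hi (SimpleGraph.Adj.reachable ⟨fun h => h1 h.symm, j, rfl⟩))
    have : b ∈ {c | G.Reachable a c} := by rw [h]; trivial
    exact this
  have h1 := hG.card_vert_le_card_edgeSet_add_one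
  have h2 : Nat.card G.edgeSet ≤ Nat.card ι := by
    have hch : ∀ e : G.edgeSet, ∃ k : ι, ∃ a : Fin (n + 1), σ k a ≠ a ∧ (e : Sym2 _) = s(a, σ k a) := by
      rintro ⟨e, he⟩
      induction e using Sym2.ind with
      | _ a b =>
        rw [SimpleGraph.mem_edgeSet] at he
        obtain ⟨h3, k, hk⟩ := he
        exact ⟨k, a, by rw [hk]; exact h3.symm, by simp [hk]⟩
    choose k a ha he using hch
    apply Nat.card_le_card_of_injective k
    intro e e' hee
    have h3 := hfix (k e) (a e) (a e') (ha e) (by rw [hee]; exact ha e')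
    apply Subtype.ext
    rw [he e, he e', ← hee]
    rcases h3 with h3 | h3
    · rw [h3]
    · rw [h3, hinv, Sym2.eq_swap]
  rw [Nat.card_eq_fintype_card, Fintype.card_fin] at h1
  omega

/-- `m` permutations of `m+1` points, each moving at most two points, with only trivial invariant
sets.  Then the transpositions form a tree and the nonzero points can be labelled by the branch
at `0`. -/
theorem tree_label (m : ℕ) (hm : 1 ≤ m) (σ : Fin m → Equiv.Perm (Fin (m + 1)))
    (h2 : ∀ j, (σ j).support.card ≤ 2)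
    (hconn : ∀ T : Set (Fin (m + 1)), T.Nonempty → (∀ j, ∀ i ∈ T, σ j i ∈ T) → T = Set.univ) :
    ∃ lab : Fin (m + 1) → Fin m,
      (∀ i, i ≠ 0 → σ (lab i) 0 ≠ 0) ∧
      (∀ j i, i ≠ 0 → σ j i ≠ 0 → σ j i ≠ i → lab (σ j i) = lab i) ∧
      (∀ j, σ j 0 ≠ 0 → lab (σ j 0) = j) ∧
      (∀ j i, i ≠ 0 → σ j i = 0 → lab i = j) := by
  classical
  have hinv : ∀ j a, σ j (σ j a) = a := fun j => (tl_inv (σ j) (h2 j)).1
  have hfix : ∀ j a b, σ j a ≠ a → σ j b ≠ b → b = a ∨ b = σ j a := fun j => (tl_inv (σ j) (h2 j)).2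
  let step : Fin (m + 1) → Fin (m + 1) → Prop := fun a b => a ≠ 0 ∧ b ≠ 0 ∧ ∃ k, σ k a = b
  have hex : ∀ i : Fin (m + 1), i ≠ 0 → ∃ j, σ j 0 ≠ 0 ∧ Relation.ReflTransGen step (σ j 0) i := by
    have h3 := hconn {i | i = 0 ∨ (i ≠ 0 ∧ ∃ j, σ j 0 ≠ 0 ∧ Relation.ReflTransGen step (σ j 0) i)}
      ⟨0, Or.inl rfl⟩ (by
        intro k i hi
        by_cases h0 : σ k i = 0
        · exact Or.inl h0
        · right
          refine ⟨h0, ?_⟩
          rcases hi with hi | ⟨hi, j, hj, hr⟩
          · subst hi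
            exact ⟨k, h0, Relation.ReflTransGen.refl⟩
          · exact ⟨j, hj, hr.tail ⟨hi, h0, k, rfl⟩⟩)
    intro i hi
    have h4 : i ∈ {i | i = 0 ∨ (i ≠ 0 ∧ ∃ j, σ j 0 ≠ 0 ∧ Relation.ReflTransGen step (σ j 0) i)} := by
      rw [h3]; trivial
    rcases h4 with h4 | h4
    · exact absurd h4 hi
    · exact h4.2
  have huniq : ∀ i j j', σ j 0 ≠ 0 → σ j' 0 ≠ 0 → Relation.ReflTransGen step (σ j 0) i →
      Relation.ReflTransGen step (σ j' 0) i → j = j' := by
    intro i j j' hj hj' hr hr'
    by_contra hne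
    have h3 := tl_count (ι := {k : Fin m // k ≠ j}) (fun k => σ k.1) (fun k => hinv k.1)
      (fun k => hfix k.1) (by
        intro T hT hTinv
        apply hconn T hT
        have hk : ∀ k, k ≠ j → ∀ a, (a ∈ T ↔ σ k a ∈ T) := by
          intro k hk a
          constructor
          · exact hTinv ⟨k, hk⟩ a
          · intro h
            have := hTinv ⟨k, hk⟩ _ h
            rwa [hinv] at this
        have hstep : ∀ a b, step a b → (a ∈ T ↔ b ∈ T) := by
          rintro a b ⟨ha, hb, k, rfl⟩
          by_cases hkj : k = j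
          · subst hkj
            have : σ k a = a := by
              by_contra hcon
              rcases hfix k 0 a hj hcon with h | h
              · exact ha h
              · rw [h, hinv] at hb
                exact hb rfl
            rw [this]
          · exact hk k hkj a
        have hreach : ∀ a b, Relation.ReflTransGen step a b → (a ∈ T ↔ b ∈ T) := by
          intro a b h
          induction h with
          | refl => exact Iff.rfl
          | tail _ h5 ih => exact ih.trans (hstep _ _ h5)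
        have hx : σ j 0 ∈ T ↔ (0 : Fin (m + 1)) ∈ T :=
          (hreach _ _ hr).trans ((hreach _ _ hr').symm.trans (hk j' (fun h => hne h.symm) 0).symm)
        intro k a ha
        by_cases hkj : k = j
        · subst hkj
          by_cases hfa : σ k a = a
          · rw [hfa]; exact ha
          · rcases hfix k 0 a hj hfa with h | h
            · rw [h] at ha ⊢
              exact hx.2 ha
            · rw [h] at ha ⊢
              rw [hinv]
              exact hx.1 ha
        · exact (hk k hkj a).1 ha)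
    have h4 : Nat.card {k : Fin m // k ≠ j} = m - 1 := by
      rw [Nat.card_eq_fintype_card, Fintype.card_subtype_compl]
      simp
    omega
  have hm0 : 0 < m := hm
  have hne : Nonempty (Fin m) := ⟨⟨0, hm0⟩⟩
  choose! lab hlab1 hlab2 using hex
  have hB : ∀ j, σ j 0 ≠ 0 → lab (σ j 0) = j := fun j hj =>
    huniq _ _ _ (hlab1 _ hj) hj (hlab2 _ hj) Relation.ReflTransGen.refl
  refine ⟨lab, hlab1, ?_, hB, ?_⟩
  · intro j i hi hji _
    exact huniq _ _ _ (hlab1 _ hji) (hlab1 _ hi) (hlab2 _ hji)
      ((hlab2 _ hi).tail ⟨hi, hji, j, rfl⟩)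
  · intro j i hi hji
    have h5 : σ j 0 = i := by rw [← hji, hinv]
    have h6 := hB j (by rw [h5]; exact hi)
    rwa [h5] at h6

end Pool.Agent.Helper714.L4
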