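import Mathlib
import Pool.Agent.Helper714.BU.ExtDefs

set_option autoImplicit false

open Polynomial

namespace Pool.Agent.Helper714.L6

/-- continuous functions that are polynomial along real lines -/
def LP {m : ℕ} (F : (Fin m → ℂ) → ℂ) : Prop :=
  Continuous F ∧ ∀ u w : Fin m → ℂ, ∃ p : ℂ[X], ∀ s : ℝ, F (u + s • (w - u)) = p.eval (s : ℂ)

variable {m : ℕ}

theorem LP.const (c : ℂ) : LP (fun _ : Fin m → ℂ => c) :=
  ⟨continuous_const, fun _ _ => ⟨C c, by simp⟩⟩

theorem LP.coord (i : Fin m) : LP (fun u : Fin m → ℂ => u i) :=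
  ⟨continuous_apply i, fun u w => ⟨C (u i) + X * C (w i - u i), by intro s; simp⟩⟩

theorem LP.add {F G : (Fin m → ℂ) → ℂ} (hF : LP F) (hG : LP G) : LP (fun u => F u + G u) := by
  refine ⟨hF.1.add hG.1, fun u w => ?_⟩
  obtain ⟨p, hp⟩ := hF.2 u w
  obtain ⟨q, hq⟩ := hG.2 u w
  exact ⟨p + q, fun s => by simp only [hp, hq, eval_add]⟩

theorem LP.sub {F G : (Fin m → ℂ) → ℂ} (hF : LP F) (hG : LP G) : LP (fun u => F u - G u) := by
  refine ⟨hF.1.sub hG.1, fun u w => ?_⟩
  obtain ⟨p, hp⟩ := hF.2 u w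
  obtain ⟨q, hq⟩ := hG.2 u w
  exact ⟨p - q, fun s => by simp only [hp, hq, eval_sub]⟩

theorem LP.mul {F G : (Fin m → ℂ) → ℂ} (hF : LP F) (hG : LP G) : LP (fun u => F u * G u) := by
  refine ⟨hF.1.mul hG.1, fun u w => ?_⟩
  obtain ⟨p, hp⟩ := hF.2 u w
  obtain ⟨q, hq⟩ := hG.2 u w
  exact ⟨p * q, fun s => by simp only [hp, hq, eval_mul]⟩

theorem LP.pow {F : (Fin m → ℂ) → ℂ} (hF : LP F) (n : ℕ) : LP (fun u => F u ^ n) := by
  refine ⟨hF.1.pow n, fun u w => ?_⟩
  obtain ⟨p, hp⟩ := hF.2 u w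
  exact ⟨p ^ n, fun s => by simp only [hp, eval_pow]⟩

theorem LP.sum {ι : Type} (s : Finset ι) (F : ι → (Fin m → ℂ) → ℂ) (hF : ∀ i ∈ s, LP (F i)) :
    LP (fun u => ∑ i ∈ s, F i u) := by
  classical
  induction s using Finset.induction_on with
  | empty => simpa using LP.const 0
  | insert a s ha ih =>
    simp only [Finset.sum_insert ha]
    exact (hF a (Finset.mem_insert_self _ _)).add (ih fun i hi => hF i (Finset.mem_insert_of_mem hi))

theorem LP.conj {F : (Fin m → ℂ) → ℂ} (hF : LP F) : LP (fun u => starRingEnd ℂ (F u)) := by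
  refine ⟨Complex.continuous_conj.comp hF.1, fun u w => ?_⟩
  obtain ⟨p, hp⟩ := hF.2 u w
  refine ⟨p.map (starRingEnd ℂ), fun s => ?_⟩
  simp only [hp]
  rw [eval_map]
  have h := Polynomial.eval₂_at_apply (p := p) (starRingEnd ℂ) (s : ℂ)
  rw [Complex.conj_ofReal] at h
  exact h.symm

theorem LP.dense {F : (Fin m → ℂ) → ℂ} (hF : LP F) (w : Fin m → ℂ) (hw : F w ≠ 0) :
    Dense {u | F u ≠ 0} := by
  intro u
  obtain ⟨p, hp⟩ := hF.2 u w
  have hp0 : p ≠ 0 := by
    rintro rfl
    apply hw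
    have := hp 1
    simpa using this
  have hfin : {s : ℝ | p.eval (s : ℂ) = 0}.Finite := by
    have h1 : {s : ℝ | p.eval (s : ℂ) = 0} = (fun s : ℝ => (s : ℂ)) ⁻¹' {x | x ∈ p.roots} := by
      ext s
      simp [Polynomial.mem_roots hp0]
    rw [h1]
    apply Set.Finite.preimage (Complex.ofReal_injective.injOn)
    exact (p.roots.toFinset.finite_toSet).subset (fun x hx => by simpa using hx)
  have hd : Dense ({s : ℝ | p.eval (s : ℂ) = 0}ᶜ) := hfin.countable.dense_compl ℝ
  have hc : Continuous (fun s : ℝ => u + s • (w - u)) := by fun_prop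
  have h0 : (0 : ℝ) ∈ closure ({s : ℝ | p.eval (s : ℂ) = 0}ᶜ) := hd 0
  have h1 := image_closure_subset_closure_image hc (Set.mem_image_of_mem _ h0)
  simp only [zero_smul, add_zero] at h1
  refine closure_mono ?_ h1
  rintro _ ⟨s, hs, rfl⟩
  simp only [Set.mem_ofPred_eq]
  rw [hp]
  exact hs

theorem LP.isOpen {F : (Fin m → ℂ) → ℂ} (hF : LP F) : IsOpen {u | F u ≠ 0} :=
  isOpen_ne_fun hF.1 continuous_const

theorem exists_near {ι : Type} [Countable ι] (F : ι → (Fin m → ℂ) → ℂ) (hF : ∀ i, LP (F i))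
    (hw : ∀ i, ∃ w, F i w ≠ 0) (u₀ : Fin m → ℂ) (V : Set (Fin m → ℂ)) (hV : V ∈ nhds u₀) :
    ∃ u ∈ V, ∀ i, F i u ≠ 0 := by
  have h : Dense (⋂ i, {u | F i u ≠ 0}) := by
    apply dense_iInter_of_isOpen
    · intro i; exact (hF i).isOpen
    · intro i
      obtain ⟨w, hw⟩ := hw i
      exact (hF i).dense w hw
  obtain ⟨u, huV, hu⟩ := mem_closure_iff_nhds.mp (h u₀) V hV
  exact ⟨u, huV, fun i => Set.mem_iInter.mp hu i⟩

/-- the derivative with reciprocal roots `u` -/
noncomputable def DD (u : Fin m → ℂ) : ℂ[X] := ∏ j, (1 - C (u j) * X)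

theorem LP_coeff (s : Finset (Fin m)) :
    ∀ k, LP (fun u : Fin m → ℂ => (∏ j ∈ s, (1 - C (u j) * X)).coeff k) := by
  classical
  induction s using Finset.induction_on with
  | empty => intro k; simpa using LP.const _
  | insert a s ha ih =>
    intro k
    simp only [Finset.prod_insert ha, sub_mul, one_mul, coeff_sub, mul_assoc, coeff_C_mul]
    cases k with
    | zero =>
      simp only [coeff_X_mul_zero, mul_zero, sub_zero]
      exact ih 0
    | succ k =>
      simp only [coeff_X_mul]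
      exact (ih (k + 1)).sub ((LP.coord a).mul (ih k))

theorem DD_natDegree (u : Fin m → ℂ) : (DD u).natDegree ≤ m := by
  unfold DD
  refine (natDegree_prod_le _ _).trans ?_
  have : ∀ j ∈ (Finset.univ : Finset (Fin m)), (1 - C (u j) * X).natDegree ≤ 1 := by
    intro j _
    compute_degree
  exact (Finset.sum_le_sum this).trans (by simp)

theorem DD_coeff_zero (u : Fin m → ℂ) : (DD u).coeff 0 = 1 := by
  unfold DD
  rw [coeff_zero_prod]
  simp

theorem DD_coeff_top (u : Fin m → ℂ) (hu : ∀ j, u j ≠ 0) : (DD u).coeff m ≠ 0 := by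
  have h : (DD u).natDegree = m := by
    unfold DD
    rw [natDegree_prod]
    · have : ∀ j ∈ (Finset.univ : Finset (Fin m)), (1 - C (u j) * X).natDegree = 1 := by
        intro j _
        rw [natDegree_sub_eq_right_of_natDegree_lt]
        · exact natDegree_C_mul_X _ (hu j)
        · rw [natDegree_C_mul_X _ (hu j), natDegree_one]; norm_num
      rw [Finset.sum_congr rfl this]; simp
    · intro j _ h0
      have := congrArg (fun p => coeff p 0) h0
      simp at this
  have h0 : DD u ≠ 0 := by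
    intro h0
    have := DD_coeff_zero u
    rw [h0] at this
    simp at this
  have := leadingCoeff_ne_zero.mpr h0
  rwa [leadingCoeff, h] at this

/-- antiderivative -/
noncomputable def AD (m : ℕ) (p : ℂ[X]) : ℂ[X] :=
  ∑ k ∈ Finset.range (m + 1), monomial (k + 1) (p.coeff k / (k + 1))

theorem AD_coeff_zero (p : ℂ[X]) : (AD m p).coeff 0 = 0 := by
  unfold AD
  rw [finsetSum_coeff]
  apply Finset.sum_eq_zero
  intro k _
  rw [coeff_monomial, if_neg (by omega)]

theorem AD_coeff_succ (p : ℂ[X]) (k : ℕ) :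
    (AD m p).coeff (k + 1) = if k ≤ m then p.coeff k / (k + 1) else 0 := by
  unfold AD
  rw [finsetSum_coeff]
  simp only [coeff_monomial, Nat.add_right_cancel_iff]
  rw [Finset.sum_ite_eq']
  simp only [Finset.mem_range, Nat.lt_succ_iff]

theorem AD_derivative (p : ℂ[X]) (hp : p.natDegree ≤ m) : derivative (AD m p) = p := by
  ext k
  rw [coeff_derivative, AD_coeff_succ]
  by_cases h : k ≤ m
  · rw [if_pos h]
    have : ((k : ℂ) + 1) ≠ 0 := by exact_mod_cast Nat.succ_ne_zero k
    field_simp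
  · rw [if_neg h, zero_mul, coeff_eq_zero_of_natDegree_lt (by omega)]

theorem AD_eval (p : ℂ[X]) (x : ℂ) :
    (AD m p).eval x = ∑ k ∈ Finset.range (m + 1), p.coeff k / (k + 1) * x ^ (k + 1) := by
  unfold AD
  rw [eval_finsetSum]
  simp only [eval_monomial]

/-- critical values up to the factor `u j ^ (m + 1)` -/
noncomputable def CC (j : Fin m) (u : Fin m → ℂ) : ℂ :=
  ∑ k ∈ Finset.range (m + 1), (DD u).coeff k * (1 / (k + 1)) * u j ^ (m - k)

theorem LP_CC (j : Fin m) : LP (CC j) := by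
  unfold CC
  apply LP.sum
  intro k _
  exact ((LP_coeff Finset.univ k).mul (LP.const _)).mul ((LP.coord j).pow _)

theorem CC_eq (j : Fin m) (u : Fin m → ℂ) (hu : u j ≠ 0) :
    CC j u = u j ^ (m + 1) * (AD m (DD u)).eval (u j)⁻¹ := by
  unfold CC
  rw [AD_eval, Finset.mul_sum]
  apply Finset.sum_congr rfl
  intro k hk
  rw [Finset.mem_range] at hk
  have h1 : u j ^ (m + 1) = u j ^ (m - k) * u j ^ (k + 1) := by
    rw [← pow_add]; congr 1; omega
  have h2 : u j ^ (k + 1) * (u j)⁻¹ ^ (k + 1) = 1 := by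
    rw [← mul_pow, mul_inv_cancel₀ hu, one_pow]
  calc (DD u).coeff k * (1 / (k + 1)) * u j ^ (m - k)
      = (DD u).coeff k / (k + 1) * u j ^ (m - k) * 1 := by ring
    _ = (DD u).coeff k / (k + 1) * u j ^ (m - k) * (u j ^ (k + 1) * (u j)⁻¹ ^ (k + 1)) := by rw [h2]
    _ = u j ^ (m + 1) * ((DD u).coeff k / (k + 1) * (u j)⁻¹ ^ (k + 1)) := by rw [h1]; ring

theorem CC_point (j : Fin m) : CC j (Pi.single j 1) ≠ 0 := by
  have hm : 1 ≤ m := by have := j.2; omega
  have hD : DD (Pi.single j 1 : Fin m → ℂ) = 1 - X := by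
    unfold DD
    rw [Finset.prod_eq_single j]
    · simp
    · intro b _ hb; rw [Pi.single_eq_of_ne hb]; simp
    · simp
  rw [CC_eq j _ (by simp), hD, AD_eval]
  have : ∑ k ∈ Finset.range (m + 1), ((1 - X : ℂ[X]).coeff k) / (k + 1) *
      ((Pi.single j 1 : Fin m → ℂ) j)⁻¹ ^ (k + 1) = ∑ k ∈ Finset.range 2,
      ((1 - X : ℂ[X]).coeff k) / (k + 1) * ((Pi.single j 1 : Fin m → ℂ) j)⁻¹ ^ (k + 1) := by
    symm
    apply Finset.sum_subset
    · intro k hk; rw [Finset.mem_range] at hk ⊢; omega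
    · intro k _ hk
      rw [Finset.mem_range, not_lt] at hk
      have h1 : (1 : ℂ[X]).coeff k = 0 := by rw [coeff_one, if_neg (by omega)]
      have h2 : (X : ℂ[X]).coeff k = 0 := by rw [coeff_X, if_neg (by omega)]
      rw [coeff_sub, h1, h2]; simp
  rw [this, Finset.sum_range_succ, Finset.sum_range_succ, Finset.sum_range_zero]
  simp [coeff_one, coeff_X]
  norm_num

/-- vanishes only if the critical values have a real ratio -/
noncomputable def GG (i j : Fin m) (u : Fin m → ℂ) : ℂ :=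
  CC i u * starRingEnd ℂ (u i) ^ (m + 1) * (starRingEnd ℂ (CC j u) * u j ^ (m + 1)) -
    starRingEnd ℂ (CC i u * starRingEnd ℂ (u i) ^ (m + 1) *
      (starRingEnd ℂ (CC j u) * u j ^ (m + 1)))

theorem LP_GG (i j : Fin m) : LP (GG i j) := by
  unfold GG
  have h1 : LP (fun u : Fin m → ℂ => CC i u * starRingEnd ℂ (u i) ^ (m + 1) *
      (starRingEnd ℂ (CC j u) * u j ^ (m + 1))) :=
    ((LP_CC i).mul ((LP.coord i).conj.pow _)).mul ((LP_CC j).conj.mul ((LP.coord j).pow _))
  exact h1.sub h1.conj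

theorem GG_point (i j : Fin m) (hij : i ≠ j) :
    GG i j (Pi.single i 1 + Pi.single j Complex.I) ≠ 0 := by
  set w : Fin m → ℂ := Pi.single i 1 + Pi.single j Complex.I with hw
  have hm : 2 ≤ m := by
    have h1 := i.2
    have h2 := j.2
    by_contra hcon
    apply hij
    apply Fin.ext
    omega
  have hi : w i = 1 := by rw [hw]; simp [hij]
  have hj : w j = Complex.I := by rw [hw]; simp [hij.symm]
  have hD : DD w = 1 - C (1 + Complex.I) * X + C Complex.I * X ^ 2 := by
    unfold DD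
    rw [← Finset.mul_prod_erase Finset.univ _ (Finset.mem_univ i),
      ← Finset.mul_prod_erase (Finset.univ.erase i) _
        (Finset.mem_erase.mpr ⟨hij.symm, Finset.mem_univ j⟩), Finset.prod_eq_one]
    · rw [hi, hj, map_add, map_one]; ring
    · intro k hk
      rw [Finset.mem_erase, Finset.mem_erase] at hk
      rw [hw, Pi.add_apply, Pi.single_eq_of_ne hk.2.1, Pi.single_eq_of_ne hk.1]; simp
  have hev : ∀ x : ℂ, (AD m (DD w)).eval x
      = x - (1 + Complex.I) / 2 * x ^ 2 + Complex.I / 3 * x ^ 3 := by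
    intro x
    rw [hD, AD_eval]
    have : ∑ k ∈ Finset.range (m + 1),
        ((1 - C (1 + Complex.I) * X + C Complex.I * X ^ 2 : ℂ[X]).coeff k) / (k + 1) * x ^ (k + 1)
        = ∑ k ∈ Finset.range 3,
        ((1 - C (1 + Complex.I) * X + C Complex.I * X ^ 2 : ℂ[X]).coeff k) / (k + 1) *
          x ^ (k + 1) := by
      symm
      apply Finset.sum_subset
      · intro k hk; rw [Finset.mem_range] at hk ⊢; omega
      · intro k _ hk
        rw [Finset.mem_range, not_lt] at hk
        have h1 : (1 : ℂ[X]).coeff k = 0 := by rw [coeff_one, if_neg (by omega)]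
        have h2 : (X : ℂ[X]).coeff k = 0 := by rw [coeff_X, if_neg (by omega)]
        have h3 : (X ^ 2 : ℂ[X]).coeff k = 0 := by rw [coeff_X_pow, if_neg (by omega)]
        rw [coeff_add, coeff_sub, coeff_C_mul, coeff_C_mul, h1, h2, h3]; simp
    rw [this, Finset.sum_range_succ, Finset.sum_range_succ, Finset.sum_range_succ,
      Finset.sum_range_zero]
    simp only [coeff_add, coeff_sub, coeff_C_mul, coeff_one, coeff_X, coeff_X_pow]
    norm_num
    ring
  have hCi : CC i w = (3 - Complex.I) / 6 := by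
    rw [CC_eq i w (by rw [hi]; norm_num), hev, hi]
    norm_num
    ring
  have hCj : CC j w = Complex.I ^ (m + 1) * ((1 - 3 * Complex.I) / 6) := by
    rw [CC_eq j w (by rw [hj]; exact Complex.I_ne_zero), hev, hj, Complex.inv_I]
    congr 1
    have h2 : Complex.I ^ 2 = -1 := Complex.I_sq
    have h3 : Complex.I ^ 3 = - Complex.I := by rw [pow_succ, h2]; ring
    have h4 : Complex.I ^ 4 = 1 := by rw [pow_succ, h3]; ring_nf; rw [h2]; norm_num
    ring_nf
    rw [h2, h3, h4]
    ring
  have hI : starRingEnd ℂ (Complex.I ^ (m + 1)) * Complex.I ^ (m + 1) = 1 := by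
    rw [map_pow, ← mul_pow, Complex.conj_I]
    have : -Complex.I * Complex.I = 1 := by rw [neg_mul, Complex.I_mul_I, neg_neg]
    rw [this, one_pow]
  have hF : CC i w * starRingEnd ℂ (w i) ^ (m + 1) *
      (starRingEnd ℂ (CC j w) * w j ^ (m + 1)) = (6 + 8 * Complex.I) / 36 := by
    rw [hCi, hCj, hi, hj, map_one, one_pow, mul_one, map_mul]
    have h5 : starRingEnd ℂ ((1 - 3 * Complex.I) / 6) = (1 + 3 * Complex.I) / 6 := by
      rw [map_div₀, map_sub, map_mul, Complex.conj_I, map_one]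
      simp only [map_ofNat]
      ring
    rw [h5]
    calc (3 - Complex.I) / 6 * (starRingEnd ℂ (Complex.I ^ (m + 1)) * ((1 + 3 * Complex.I) / 6) *
          Complex.I ^ (m + 1))
        = (3 - Complex.I) / 6 * ((1 + 3 * Complex.I) / 6) *
          (starRingEnd ℂ (Complex.I ^ (m + 1)) * Complex.I ^ (m + 1)) := by ring
      _ = (6 + 8 * Complex.I) / 36 := by
        rw [hI]
        have h2 : Complex.I ^ 2 = -1 := Complex.I_sq
        ring_nf
        rw [h2]
        ring
  unfold GG
  rw [hF]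
  have h5 : starRingEnd ℂ ((6 + 8 * Complex.I) / 36) = (6 - 8 * Complex.I) / 36 := by
    rw [map_div₀, map_add, map_mul, Complex.conj_I]
    simp only [map_ofNat]
    ring
  rw [h5]
  intro h
  have h6 : Complex.I = 0 := by linear_combination (36 / 16) * h
  exact Complex.I_ne_zero h6

theorem same_ray_im {a b : ℂ} (h : SameRay ℝ a b) :
    a * starRingEnd ℂ b = starRingEnd ℂ (a * starRingEnd ℂ b) := by
  rcases h with h | h | ⟨r, s, hr, hs, h⟩
  · rw [h]; simp
  · rw [h]; simp
  · have ha : a = ((s / r : ℝ) : ℂ) * b := by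
      have hr' : (r : ℂ) ≠ 0 := by exact_mod_cast hr.ne'
      rw [Complex.real_smul, Complex.real_smul] at h
      push_cast
      field_simp
      linear_combination h
    rw [ha]
    simp only [map_mul, Complex.conj_ofReal, Complex.conj_conj]
    ring

/-- Arbitrarily small perturbations make a polynomial generic: simple critical points, nonzero
critical values, no two of them on the same ray from the origin. -/
theorem exists_generic (m : ℕ) (hm : 1 ≤ m) (P : ℂ[X]) (hdeg : P.natDegree = m + 1)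
    (h0 : P.coeff 0 = 0) (h1 : P.coeff 1 = 1) (ε : ℝ) (hε : 0 < ε) :
    ∃ Q : ℂ[X], Q.natDegree = m + 1 ∧ Q.coeff 0 = 0 ∧ Q.coeff 1 = 1 ∧
      (∀ k, ‖Q.coeff k - P.coeff k‖ < ε) ∧
      ∃ z : Fin m → ℂ, Function.Injective z ∧
        (∀ x, Q.derivative.eval x = 0 ↔ ∃ j, z j = x) ∧
        (∀ j, Q.eval (z j) ≠ 0) ∧
        (∀ i j, i ≠ j → ¬ SameRay ℝ (Q.eval (z i)) (Q.eval (z j))) := by
  have hP' : P.derivative.natDegree = m := by
    rw [natDegree_derivative, hdeg]; rfl
  have hP0 : P.derivative.coeff 0 = 1 := by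
    rw [coeff_derivative]; simp [h1]
  have hPne : P.derivative ≠ 0 := by
    intro h; rw [h] at hP0; simp at hP0
  obtain ⟨u₀, hu₀⟩ : ∃ u₀ : Fin m → ℂ, DD u₀ = P.derivative := by
    obtain ⟨l, hl⟩ : ∃ l : List ℂ, (l : Multiset ℂ) = P.derivative.roots :=
      Quotient.exists_rep _
    have hs := IsAlgClosed.splits P.derivative
    have hlen : l.length = m := by
      have h2 := hs.natDegree_eq_card_roots
      rw [← hl, hP', Multiset.coe_card] at h2
      exact h2.symm
    have hprod := hs.eq_prod_roots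
    rw [← hl] at hprod
    have hprod2 : P.derivative = C P.derivative.leadingCoeff *
        ∏ j : Fin l.length, (X - C (l.get j)) := by
      conv_lhs => rw [hprod]
      congr 1
      have hm : l.map (fun x => X - C x) = List.ofFn (fun j : Fin l.length => X - C (l.get j)) := by
        conv_lhs => rw [← List.ofFn_get l]
        rw [List.map_ofFn]
        rfl
      rw [Multiset.map_coe, Multiset.prod_coe, hm, List.prod_ofFn]
    subst hlen
    have hz : ∀ j : Fin l.length, l.get j ≠ 0 := by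
      intro j hj
      have h3 := hP0
      rw [hprod2, mul_coeff_zero, coeff_zero_prod, Finset.prod_eq_zero (Finset.mem_univ j)] at h3
      · simp at h3
      · rw [hj]; simp
    refine ⟨fun j => (l.get j)⁻¹, ?_⟩
    have h4 : ∀ j : Fin l.length, (X - C (l.get j)) = C (-(l.get j)) * (1 - C ((l.get j)⁻¹) * X) := by
      intro j
      rw [mul_sub, ← mul_assoc, ← C_mul, neg_mul, mul_inv_cancel₀ (hz j)]
      simp
      ring
    have h5 : P.derivative = C (P.derivative.leadingCoeff * ∏ j : Fin l.length, (-(l.get j))) *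
        DD (fun j => (l.get j)⁻¹) := by
      unfold DD
      rw [C_mul, map_prod, mul_assoc, ← Finset.prod_mul_distrib]
      conv_lhs => rw [hprod2]
      congr 1
      exact Finset.prod_congr rfl (fun j _ => h4 j)
    have h6 : P.derivative.leadingCoeff * ∏ j : Fin l.length, (-(l.get j)) = 1 := by
      have h7 := hP0
      rw [h5, mul_coeff_zero, coeff_C_zero, DD_coeff_zero, mul_one] at h7
      exact h7
    rw [h6, map_one, one_mul] at h5
    exact h5.symm
  -- closeness
  have hV : {u : Fin m → ℂ | ∀ k ∈ Finset.range (m + 1), ‖(DD u).coeff k - (DD u₀).coeff k‖ < ε}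
      ∈ nhds u₀ := by
    have : ∀ k ∈ Finset.range (m + 1), ∀ᶠ u in nhds u₀, ‖(DD u).coeff k - (DD u₀).coeff k‖ < ε := by
      intro k _
      have hc : Continuous (fun u : Fin m → ℂ => ‖(DD u).coeff k - (DD u₀).coeff k‖) :=
        ((LP_coeff (m := m) Finset.univ k).1.sub continuous_const).norm
      have h2 : ‖(DD u₀).coeff k - (DD u₀).coeff k‖ < ε := by simpa using hε
      exact (hc.tendsto u₀).eventually (gt_mem_nhds h2)
    exact (Finset.eventually_all _).mpr this
  let PP : Type := {p : Fin m × Fin m // p.1 ≠ p.2}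
  let Fam : (Fin m ⊕ Fin m) ⊕ (PP ⊕ PP) → (Fin m → ℂ) → ℂ :=
    Sum.elim (Sum.elim (fun j u => u j) (fun j => CC j))
      (Sum.elim (fun p u => u p.1.1 - u p.1.2) (fun p => GG p.1.1 p.1.2))
  obtain ⟨u, huV, hu⟩ := exists_near Fam (by
    rintro ((j | j) | (p | p))
    · exact LP.coord j
    · exact LP_CC j
    · exact (LP.coord _).sub (LP.coord _)
    · exact LP_GG _ _) (by
    rintro ((j | j) | (p | p))
    · exact ⟨fun _ => 1, by simp [Fam]⟩
    · exact ⟨_, CC_point j⟩
    · exact ⟨Pi.single p.1.1 1, by simp [Fam, p.2.symm]⟩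
    · exact ⟨_, GG_point _ _ p.2⟩) u₀ _ hV
  have e1 : ∀ j, u j ≠ 0 := fun j => hu (Sum.inl (Sum.inl j))
  have e2 : ∀ j, CC j u ≠ 0 := fun j => hu (Sum.inl (Sum.inr j))
  have e3 : ∀ i j, i ≠ j → u i ≠ u j := fun i j hij =>
    sub_ne_zero.mp (hu (Sum.inr (Sum.inl ⟨(i, j), hij⟩)))
  have e4 : ∀ i j, i ≠ j → GG i j u ≠ 0 := fun i j hij => hu (Sum.inr (Sum.inr ⟨(i, j), hij⟩))
  refine ⟨AD m (DD u), ?_, AD_coeff_zero _, ?_, ?_, fun j => (u j)⁻¹, ?_, ?_, ?_, ?_⟩
  · apply natDegree_eq_of_le_of_coeff_ne_zero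
    · rw [natDegree_le_iff_coeff_eq_zero]
      intro N hN
      obtain ⟨k, rfl⟩ : ∃ k, N = k + 1 := ⟨N - 1, by omega⟩
      rw [AD_coeff_succ, if_neg (by omega)]
    · rw [AD_coeff_succ, if_pos (le_refl _)]
      have : ((m : ℂ) + 1) ≠ 0 := by exact_mod_cast Nat.succ_ne_zero m
      exact div_ne_zero (DD_coeff_top u e1) this
  · have := AD_coeff_succ (m := m) (DD u) 0
    rw [zero_add, if_pos (Nat.zero_le _), DD_coeff_zero] at this
    simpa using this
  · intro k
    cases k with
    | zero => rw [AD_coeff_zero, h0]; simpa using hε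
    | succ k =>
      rw [AD_coeff_succ]
      by_cases hk : k ≤ m
      · rw [if_pos hk]
        have h2 := huV k (Finset.mem_range.mpr (by omega))
        rw [hu₀, coeff_derivative] at h2
        have hk0 : ((k : ℂ) + 1) ≠ 0 := by exact_mod_cast Nat.succ_ne_zero k
        have h3 : (DD u).coeff k / (k + 1) - P.coeff (k + 1)
            = ((DD u).coeff k - P.coeff (k + 1) * (k + 1)) / (k + 1) := by
          field_simp
        rw [h3, norm_div]
        have h4 : (1 : ℝ) ≤ ‖((k : ℂ) + 1)‖ := by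
          have : ((k : ℂ) + 1) = ((k + 1 : ℕ) : ℂ) := by push_cast; ring
          rw [this, Complex.norm_natCast]
          exact_mod_cast Nat.succ_le_succ (Nat.zero_le k)
        exact lt_of_le_of_lt (div_le_self (norm_nonneg _) h4) h2
      · rw [if_neg hk, coeff_eq_zero_of_natDegree_lt (by omega)]
        simpa using hε
  · intro i j hij
    by_contra hne
    exact e3 i j hne (inv_injective hij)
  · intro x
    rw [AD_derivative _ (DD_natDegree u)]
    unfold DD
    rw [eval_prod, Finset.prod_eq_zero_iff]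
    constructor
    · rintro ⟨j, _, hj⟩
      refine ⟨j, ?_⟩
      simp only [eval_sub, eval_one, eval_mul, eval_C, eval_X] at hj
      exact inv_eq_of_mul_eq_one_right (sub_eq_zero.mp hj).symm
    · rintro ⟨j, hj⟩
      refine ⟨j, Finset.mem_univ _, ?_⟩
      simp only [eval_sub, eval_one, eval_mul, eval_C, eval_X]
      rw [← hj]
      simp [e1 j]
  · intro j h
    apply e2 j
    rw [CC_eq j u (e1 j), h, mul_zero]
  · intro i j hij h
    apply e4 i j hij
    have h2 := same_ray_im h
    unfold GG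
    rw [CC_eq i u (e1 i), CC_eq j u (e1 j)]
    set a := (AD m (DD u)).eval (u i)⁻¹
    set b := (AD m (DD u)).eval (u j)⁻¹
    simp only [map_mul, map_pow, Complex.conj_conj] at h2 ⊢
    linear_combination (u i ^ (m + 1) * starRingEnd ℂ (u i) ^ (m + 1) *
      (starRingEnd ℂ (u j) ^ (m + 1) * u j ^ (m + 1))) * h2

end Pool.Agent.Helper714.L6
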