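import Mathlib
import Pool.Agent.Helper714.BU.ExtDefs

set_option autoImplicit false

open Polynomial Metric

namespace Pool.Agent.Helper714.L7

/-- The disc on which the inverse germ of a polynomial is analytic is stable under small
perturbations of the coefficients. -/
theorem inverse_stable (N : ℕ) (P : ℂ[X]) (hdeg : P.natDegree ≤ N) (h0 : P.coeff 0 = 0)
    (g : ℂ → ℂ) (ρ r : ℝ) (hr : 0 < r) (hrρ : r < ρ) (hg : DifferentiableOn ℂ g (ball 0 ρ))
    (hg0 : g 0 = 0) (hPg : ∀ w ∈ ball (0 : ℂ) ρ, P.eval (g w) = w) :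
    ∃ ε > 0, ∀ Q : ℂ[X], Q.natDegree ≤ N → Q.coeff 0 = 0 →
      (∀ k, ‖Q.coeff k - P.coeff k‖ < ε) →
      ∃ g' : ℂ → ℂ, DifferentiableOn ℂ g' (ball 0 r) ∧ g' 0 = 0 ∧
        ∀ w ∈ ball (0 : ℂ) r, Q.eval (g' w) = w := by
  set r1 := (r + ρ) / 2 with hr1
  set r2 := (r1 + ρ) / 2 with hr2
  have h1 : r < r1 := by rw [hr1]; linarith
  have h1' : r1 < ρ := by rw [hr1]; linarith
  have h2 : r1 < r2 := by rw [hr2]; linarith
  have h2' : r2 < ρ := by rw [hr2]; linarith
  have hr10 : 0 < r1 := hr.trans h1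
  -- bound for g
  have hsub2 : closedBall (0:ℂ) r2 ⊆ ball 0 ρ := closedBall_subset_ball h2'
  obtain ⟨M0, hM0⟩ := (isCompact_closedBall (0:ℂ) r2).exists_bound_of_continuousOn
    (hg.continuousOn.mono hsub2)
  set M := max M0 1 with hM
  have hM1 : 1 ≤ M := le_max_right _ _
  have hgM : ∀ w ∈ closedBall (0:ℂ) r2, ‖g w‖ ≤ M := fun w hw => (hM0 w hw).trans (le_max_left _ _)
  set C := ∑ k ∈ Finset.range (N + 1), M ^ k with hC
  have hCpos : 0 < C := by
    rw [hC]
    apply Finset.sum_pos
    · intro k _; positivity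
    · exact ⟨0, by simp⟩
  set δ := min ((r2 - r1) / 2) (r1 - r) with hδ
  have hδpos : 0 < δ := by rw [hδ]; apply lt_min <;> linarith
  refine ⟨δ / C, by positivity, ?_⟩
  intro Q hQdeg hQ0 hQ
  set u : ℂ → ℂ := fun w => (Q - P).eval (g w) with hu
  have hbound : ∀ z : ℂ, ‖z‖ ≤ M → ‖(Q - P).eval z‖ ≤ δ := by
    intro z hz
    have hd : (Q - P).natDegree < N + 1 := by
      have := Polynomial.natDegree_sub_le Q P
      have h3 : max Q.natDegree P.natDegree ≤ N := max_le hQdeg hdeg
      omega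
    rw [Polynomial.eval_eq_sum_range' hd]
    calc ‖∑ i ∈ Finset.range (N + 1), (Q - P).coeff i * z ^ i‖
        ≤ ∑ i ∈ Finset.range (N + 1), ‖(Q - P).coeff i * z ^ i‖ := norm_sum_le _ _
      _ ≤ ∑ i ∈ Finset.range (N + 1), δ / C * M ^ i := by
          apply Finset.sum_le_sum
          intro i _
          rw [norm_mul, norm_pow, Polynomial.coeff_sub]
          gcongr
          exact (hQ i).le
      _ = δ := by
          rw [← Finset.mul_sum, ← hC]
          field_simp
  have hub : ∀ w ∈ closedBall (0:ℂ) r2, ‖u w‖ ≤ δ := fun w hw => hbound _ (hgM w hw)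
  have hud : DifferentiableOn ℂ u (ball 0 ρ) := by
    intro w hw
    exact (Polynomial.differentiable (Q - P)).differentiableAt.comp_differentiableWithinAt w (hg w hw)
  have hudat : ∀ w ∈ closedBall (0:ℂ) r1, DifferentiableAt ℂ u w := by
    intro w hw
    exact hud.differentiableAt (isOpen_ball.mem_nhds (closedBall_subset_ball h1' hw))
  have hderiv : ∀ w ∈ closedBall (0:ℂ) r1, ‖deriv u w‖ ≤ 1 / 2 := by
    intro w hw
    have hR : 0 < r2 - r1 := by linarith
    have hsub : closedBall w (r2 - r1) ⊆ closedBall (0:ℂ) r2 := by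
      intro z hz
      rw [mem_closedBall, dist_eq_norm] at hz
      rw [mem_closedBall, dist_zero_right] at hw ⊢
      calc ‖z‖ = ‖(z - w) + w‖ := by ring_nf
        _ ≤ ‖z - w‖ + ‖w‖ := norm_add_le _ _
        _ ≤ r2 := by linarith
    have h3 := Complex.norm_deriv_le_of_forall_mem_sphere_norm_le hR
      (f := u) (c := w) (C := δ) ((hud.mono (hsub.trans hsub2)).diffContOnCl_ball subset_rfl)
      (fun z hz => hub z (hsub (sphere_subset_closedBall hz)))
    refine h3.trans ?_
    rw [div_le_iff₀ hR]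
    have : δ ≤ (r2 - r1) / 2 := min_le_left _ _
    linarith
  have hlip : ∀ w ∈ closedBall (0:ℂ) r1, ∀ w' ∈ closedBall (0:ℂ) r1, ‖u w' - u w‖ ≤ 1 / 2 * ‖w' - w‖ := by
    intro w hw w' hw'
    exact Convex.norm_image_sub_le_of_norm_deriv_le hudat hderiv (convex_closedBall _ _) hw hw'
  -- fixed points
  have hfix : ∀ v ∈ ball (0:ℂ) r, ∃ w ∈ ball (0:ℂ) r1, w + u w = v := by
    intro v hv
    rw [mem_ball, dist_zero_right] at hv
    have hlt : ∀ w ∈ closedBall (0:ℂ) r1, ‖v - u w‖ < r1 := by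
      intro w hw
      have h4 : ‖u w‖ ≤ δ := hub w (closedBall_subset_closedBall h2.le hw)
      have h5 : δ ≤ r1 - r := min_le_right _ _
      calc ‖v - u w‖ ≤ ‖v‖ + ‖u w‖ := norm_sub_le _ _
        _ < r1 := by linarith
    have hmaps : Set.MapsTo (fun w => v - u w) (closedBall (0:ℂ) r1) (closedBall (0:ℂ) r1) := by
      intro w hw
      rw [mem_closedBall, dist_zero_right]
      exact (hlt w hw).le
    have hcon : ContractingWith (1 / 2) (hmaps.restrict (fun w => v - u w) _ _) := by
      refine ⟨by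
        rw [← NNReal.coe_lt_coe]; norm_num, ?_⟩
      apply LipschitzWith.of_dist_le_mul
      rintro ⟨x, hx⟩ ⟨y, hy⟩
      rw [Subtype.dist_eq, Subtype.dist_eq]
      simp only [Set.MapsTo.val_restrict_apply]
      rw [dist_eq_norm, dist_eq_norm]
      have h6 := hlip x hx y hy
      have h7 : (v - u x) - (v - u y) = u y - u x := by ring
      rw [h7, ← norm_neg (x - y), neg_sub]
      push_cast
      exact h6
    obtain ⟨w, hw, hwf, _⟩ := hcon.exists_fixedPoint' (isClosed_closedBall.isComplete) hmaps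
      (x := 0) (mem_closedBall_self hr10.le) (edist_ne_top _ _)
    refine ⟨w, ?_, ?_⟩
    · rw [mem_ball, dist_zero_right]
      have := hlt w hw
      have h8 : v - u w = w := hwf
      rwa [h8] at this
    · have h8 : v - u w = w := hwf
      linear_combination (-1 : ℂ) * h8
  choose! k hk1 hk2 using hfix
  have hk1' : ∀ v ∈ ball (0:ℂ) r, k v ∈ closedBall (0:ℂ) r1 := fun v hv => ball_subset_closedBall (hk1 v hv)
  have hklip : ∀ v ∈ ball (0:ℂ) r, ∀ v' ∈ ball (0:ℂ) r, ‖k v' - k v‖ ≤ 2 * ‖v' - v‖ := by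
    intro v hv v' hv'
    have h9 := hlip (k v) (hk1' v hv) (k v') (hk1' v' hv')
    have h10 : k v' - k v = (v' - v) - (u (k v') - u (k v)) := by
      linear_combination hk2 v' hv' - hk2 v hv
    have h11 : ‖k v' - k v‖ ≤ ‖v' - v‖ + ‖u (k v') - u (k v)‖ := by
      calc ‖k v' - k v‖ = ‖(v' - v) - (u (k v') - u (k v))‖ := by rw [← h10]
        _ ≤ _ := norm_sub_le _ _
    linarith
  have hu0 : u 0 = 0 := by
    simp only [hu]
    rw [hg0, ← Polynomial.coeff_zero_eq_eval_zero, Polynomial.coeff_sub, hQ0, h0, sub_zero]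
  have hr0 : (0:ℂ) ∈ ball (0:ℂ) r := mem_ball_self hr
  have hk0 : k 0 = 0 := by
    have h12 := hlip 0 (mem_closedBall_self hr10.le) (k 0) (hk1' 0 hr0)
    have h13 : k 0 - 0 = -(u (k 0) - u 0) := by
      linear_combination hk2 0 hr0 - hu0
    have h14 : ‖k 0 - 0‖ = ‖u (k 0) - u 0‖ := by rw [h13, norm_neg]
    have h15 : ‖k 0 - 0‖ = 0 := by
      have := norm_nonneg (k 0 - 0)
      linarith
    have := norm_eq_zero.1 h15
    simpa using this
  have hkcont : ContinuousOn k (ball (0:ℂ) r) := by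
    have : LipschitzOnWith 2 k (ball (0:ℂ) r) := by
      apply LipschitzOnWith.of_dist_le_mul
      intro x hx y hy
      rw [dist_eq_norm, dist_eq_norm]
      exact hklip y hy x hx
    exact this.continuousOn
  have hkd : DifferentiableOn ℂ k (ball (0:ℂ) r) := by
    intro v hv
    have hnh : ball (0:ℂ) r ∈ nhds v := isOpen_ball.mem_nhds hv
    have h16 : HasDerivAt (fun w => w + u w) (1 + deriv u (k v)) (k v) :=
      (hasDerivAt_id (k v)).add (hudat (k v) (hk1' v hv)).hasDerivAt
    have h17 : (1 + deriv u (k v)) ≠ 0 := by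
      intro h
      have h18 : deriv u (k v) = -1 := by linear_combination h
      have h19 := hderiv (k v) (hk1' v hv)
      rw [h18, norm_neg, norm_one] at h19
      norm_num at h19
    have h20 := HasDerivAt.of_local_left_inverse (hkcont.continuousAt hnh) h16 h17 (by
      filter_upwards [hnh] with y hy
      exact hk2 y hy)
    exact h20.differentiableAt.differentiableWithinAt
  refine ⟨fun v => g (k v), ?_, ?_, ?_⟩
  · apply hg.comp hkd
    intro v hv
    exact ball_subset_ball h1'.le (hk1 v hv)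
  · simp only [hk0, hg0]
  · intro v hv
    have h21 := hk2 v hv
    have h22 := hPg (k v) (ball_subset_ball h1'.le (hk1 v hv))
    simp only [hu] at h21
    rw [Polynomial.eval_sub, h22] at h21
    linear_combination h21

end Pool.Agent.Helper714.L7
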