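import Mathlib
import Pool.Agent.Helper714.BU.ExtDefs
import Pool.Agent.Helper714.BU.Defs

set_option autoImplicit false

open Polynomial Metric Topology

namespace Pool.Agent.Helper714.L8

namespace Trinom

lemma pow_sub_le (n : ℕ) (r : ℝ) (z w : ℂ) (hz : ‖z‖ ≤ r) (hw : ‖w‖ ≤ r) :
    ‖z^n - w^n‖ ≤ n * r^(n-1) * ‖z - w‖ := by
  have hr : 0 ≤ r := (norm_nonneg z).trans hz
  rw [← (Commute.all z w).geom_sum₂_mul n, norm_mul]
  apply mul_le_mul_of_nonneg_right _ (norm_nonneg _)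
  refine (norm_sum_le _ _).trans ?_
  have : ∀ i ∈ Finset.range n, ‖z^i * w^(n-1-i)‖ ≤ r^(n-1) := by
    intro i hi
    rw [Finset.mem_range] at hi
    rw [norm_mul, norm_pow, norm_pow]
    calc ‖z‖^i * ‖w‖^(n-1-i) ≤ r^i * r^(n-1-i) := by gcongr
      _ = r^(n-1) := by rw [← pow_add]; congr 1; omega
  refine (Finset.sum_le_sum this).trans ?_
  simp

section
variable (n : ℕ) (hn : 2 ≤ n) (τ R : ℝ) (hτ : 0 < τ) (hR1 : 1 < R) (hτR : n * τ * R^(n-1) = 1)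
  (hR : R - τ * R^n = 1)

include hn hτ hR1 hτR

lemma coef_lt {r : ℝ} (h0 : 0 ≤ r) (hr : r < R) : n * τ * r^(n-1) < 1 := by
  have hn0 : (0:ℝ) < n := by positivity
  rw [← hτR]
  apply mul_lt_mul_of_pos_left _ (by positivity)
  exact pow_lt_pow_left₀ hr h0 (by omega)

/-- lower bound -/
lemma lower {r : ℝ} {z w : ℂ} (hz : ‖z‖ ≤ r) (hw : ‖w‖ ≤ r) :
    (1 - n * τ * r^(n-1)) * ‖z - w‖ ≤ ‖(z + τ * z^n) - (w + τ * w^n)‖ := by
  have h1 := pow_sub_le n r z w hz hw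
  have h2 : (z + τ * z^n) - (w + τ * w^n) = (z - w) - (-(τ * (z^n - w^n))) := by ring
  rw [h2]
  have h3 := norm_sub_norm_le (z-w) (-(τ * (z^n - w^n)))
  have h4 : ‖-((τ:ℂ) * (z^n - w^n))‖ = τ * ‖z^n - w^n‖ := by
    rw [norm_neg, norm_mul, Complex.norm_real, Real.norm_of_nonneg hτ.le]
  rw [h4] at h3
  have h5 : τ * ‖z^n - w^n‖ ≤ τ * (n * r^(n-1) * ‖z - w‖) := mul_le_mul_of_nonneg_left h1 hτ.le
  nlinarith

lemma inj {z w : ℂ} (hz : ‖z‖ < R) (hw : ‖w‖ < R) (h : z + τ * z^n = w + τ * w^n) : z = w := by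
  set r := max ‖z‖ ‖w‖ with hr
  have hrR : r < R := max_lt hz hw
  have hr0 : 0 ≤ r := (norm_nonneg z).trans (le_max_left _ _)
  have h1 := lower n hn τ R hτ hR1 hτR (r := r) (le_max_left ‖z‖ ‖w‖) (le_max_right ‖z‖ ‖w‖)
  rw [h, sub_self, norm_zero] at h1
  have h2 := coef_lt n hn τ R hτ hR1 hτR hr0 hrR
  have h3 : ‖z - w‖ ≤ 0 := by
    by_contra hcon
    push Not at hcon
    nlinarith [mul_pos (by linarith : 0 < 1 - n * τ * r^(n-1)) hcon]
  exact sub_eq_zero.1 (norm_le_zero_iff.1 h3)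

lemma surj {r : ℝ} (h0 : 0 ≤ r) (hr : r < R) {w : ℂ} (hw : ‖w‖ ≤ r - τ * r^n) :
    ∃ z : ℂ, ‖z‖ ≤ r ∧ z + τ * z^n = w := by
  have hlt := coef_lt n hn τ R hτ hR1 hτR h0 hr
  have hc0 : 0 ≤ n * τ * r^(n-1) := by positivity
  set f : ℂ → ℂ := fun z => w - τ * z^n with hf
  have hmap : Set.MapsTo f (closedBall 0 r) (closedBall 0 r) := by
    intro z hz
    rw [mem_closedBall_zero_iff] at hz ⊢
    have h1 : ‖f z‖ ≤ ‖w‖ + ‖(τ:ℂ) * z^n‖ := norm_sub_le _ _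
    rw [norm_mul, Complex.norm_real, Real.norm_of_nonneg hτ.le, norm_pow] at h1
    have h2 : ‖z‖^n ≤ r^n := pow_le_pow_left₀ (norm_nonneg _) hz n
    nlinarith
  have hcon : ContractingWith (⟨n * τ * r^(n-1), hc0⟩ : NNReal) (hmap.restrict f _ _) := by
    refine ⟨by exact_mod_cast hlt, ?_⟩
    apply LipschitzWith.of_dist_le_mul
    rintro ⟨z, hz⟩ ⟨v, hv⟩
    rw [mem_closedBall_zero_iff] at hz hv
    show dist (f z) (f v) ≤ (n * τ * r^(n-1)) * dist z v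
    rw [dist_eq_norm, dist_eq_norm]
    have h2 : f z - f v = -(τ * (z^n - v^n)) := by simp only [hf]; ring
    rw [h2, norm_neg, norm_mul, Complex.norm_real, Real.norm_of_nonneg hτ.le]
    have h1 := pow_sub_le n r z v hz hv
    have h5 : τ * ‖z^n - v^n‖ ≤ τ * (n * r^(n-1) * ‖z - v‖) := mul_le_mul_of_nonneg_left h1 hτ.le
    linarith
  obtain ⟨y, hy, hfix, -⟩ := hcon.exists_fixedPoint' (isClosed_closedBall.isComplete) hmap
    (x := 0) (by simpa using h0) (edist_ne_top _ _)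
  refine ⟨y, mem_closedBall_zero_iff.1 hy, ?_⟩
  have : w - τ * y^n = y := hfix
  linear_combination -this

include hR

lemma exists_r {w : ℂ} (hw : ‖w‖ < 1) : ∃ r : ℝ, 0 < r ∧ r < R ∧ ‖w‖ < r - τ * r^n := by
  have hcont : ContinuousAt (fun r : ℝ => r - τ * r^n) R := by fun_prop
  have h1 : ∀ᶠ r in 𝓝 R, ‖w‖ < r - τ * r^n := by
    have := hcont.eventually (lt_mem_nhds (a := ‖w‖) (by show ‖w‖ < R - τ * R^n; rw [hR]; exact hw))
    exact this
  have h2 : ∀ᶠ r in 𝓝 R, 0 < r := lt_mem_nhds (by linarith)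
  have h3 : ∀ᶠ r in 𝓝[<] R, r < R := eventually_mem_nhdsWithin
  obtain ⟨r, h4, h5, h6⟩ := ((h1.filter_mono nhdsWithin_le_nhds).and ((h2.filter_mono nhdsWithin_le_nhds).and h3)).exists
  exact ⟨r, h5, h6, h4⟩

theorem main_inv : ∃ g : ℂ → ℂ, DifferentiableOn ℂ g (ball 0 1) ∧ Set.InjOn g (ball 0 1) ∧
      ∀ᶠ z in 𝓝 (0 : ℂ), g (z + τ * z^n) = z := by
  have hex : ∀ w : ℂ, ‖w‖ < 1 → ∃ z : ℂ, ‖z‖ < R ∧ z + τ * z^n = w := by
    intro w hw
    obtain ⟨r, h1, h2, h3⟩ := exists_r n hn τ R hτ hR1 hτR hR hw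
    obtain ⟨z, hz, hz2⟩ := surj n hn τ R hτ hR1 hτR h1.le h2 h3.le
    exact ⟨z, lt_of_le_of_lt hz h2, hz2⟩
  classical
  set g : ℂ → ℂ := fun w => if h : ‖w‖ < 1 then (hex w h).choose else 0 with hg
  have g1 : ∀ w : ℂ, ‖w‖ < 1 → ‖g w‖ < R ∧ g w + τ * (g w)^n = w := by
    intro w hw
    have : g w = (hex w hw).choose := by simp only [hg, dif_pos hw]
    rw [this]; exact (hex w hw).choose_spec
  have guniq : ∀ z w : ℂ, ‖z‖ < R → ‖w‖ < 1 → z + τ * z^n = w → g w = z := by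
    intro z w hz hw h
    exact inj n hn τ R hτ hR1 hτR (g1 w hw).1 hz ((g1 w hw).2.trans h.symm)
  have gr : ∀ (r : ℝ) (w : ℂ), 0 < r → r < R → ‖w‖ < r - τ * r^n → ‖w‖ < 1 → ‖g w‖ ≤ r := by
    intro r w h0 h1 h2 h3
    obtain ⟨z, hz, hz2⟩ := surj n hn τ R hτ hR1 hτR h0.le h1 h2.le
    rw [guniq z w (lt_of_le_of_lt hz h1) h3 hz2]; exact hz
  have gcont : ∀ w : ℂ, ‖w‖ < 1 → ContinuousAt g w := by
    intro w hw
    obtain ⟨r, h1, h2, h3⟩ := exists_r n hn τ R hτ hR1 hτR hR hw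
    have hlt := coef_lt n hn τ R hτ hR1 hτR h1.le h2
    have hcpos : 0 < 1 - n * τ * r^(n-1) := by linarith
    rw [Metric.continuousAt_iff']
    intro ε hε
    have e1 : ∀ᶠ v in 𝓝 w, ‖v‖ < r - τ * r^n := (continuous_norm.continuousAt (x := w)).eventually (gt_mem_nhds h3)
    have e2 : ∀ᶠ v in 𝓝 w, ‖v‖ < 1 := (continuous_norm.continuousAt (x := w)).eventually (gt_mem_nhds hw)
    have e3 : ∀ᶠ v in 𝓝 w, dist v w < ε * (1 - n * τ * r^(n-1)) := Metric.ball_mem_nhds w (by positivity)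
    filter_upwards [e1, e2, e3] with v v1 v2 v3
    have hl := lower n hn τ R hτ hR1 hτR (r := r) (gr r v h1 h2 v1 v2) (gr r w h1 h2 h3 hw)
    rw [(g1 v v2).2, (g1 w hw).2] at hl
    rw [dist_eq_norm] at v3 ⊢
    by_contra hcon
    push Not at hcon
    nlinarith [mul_le_mul_of_nonneg_left hcon hcpos.le]
  refine ⟨g, ?_, ?_, ?_⟩
  · intro w hw
    rw [mem_ball_zero_iff] at hw
    apply DifferentiableAt.differentiableWithinAt
    have hd : HasDerivAt (fun z : ℂ => z + τ * z^n) (1 + τ * (n * (g w)^(n-1))) (g w) := by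
      have := (hasDerivAt_pow n (g w)).const_mul (τ:ℂ)
      exact (hasDerivAt_id (g w)).add this
    have hne : (1 + (τ:ℂ) * (n * (g w)^(n-1))) ≠ 0 := by
      intro h0
      have h1 : (τ:ℂ) * (n * (g w)^(n-1)) = -1 := by linear_combination h0
      have h2 := congrArg norm h1
      rw [norm_mul, norm_mul, norm_pow, Complex.norm_real, Real.norm_of_nonneg hτ.le, norm_neg, norm_one,
        Complex.norm_natCast] at h2
      have h3 := coef_lt n hn τ R hτ hR1 hτR (norm_nonneg (g w)) (g1 w hw).1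
      linarith
    have hloc : ∀ᶠ v in 𝓝 w, (fun z : ℂ => z + τ * z^n) (g v) = v := by
      have e2 : ∀ᶠ v in 𝓝 w, ‖v‖ < 1 := (continuous_norm.continuousAt (x := w)).eventually (gt_mem_nhds hw)
      filter_upwards [e2] with v hv
      exact (g1 v hv).2
    exact (hd.of_local_left_inverse (gcont w hw) hne hloc).differentiableAt
  · intro w hw v hv h
    rw [mem_ball_zero_iff] at hw hv
    rw [← (g1 w hw).2, ← (g1 v hv).2, h]
  · have e1 : ∀ᶠ z in 𝓝 (0:ℂ), ‖z‖ < R :=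
      (continuous_norm.continuousAt (x := (0:ℂ))).eventually (gt_mem_nhds (by show ‖(0:ℂ)‖ < R; rw [norm_zero]; linarith))
    have hc : ContinuousAt (fun z : ℂ => ‖z + (τ:ℂ) * z^n‖) (0:ℂ) := by fun_prop
    have h0 : (fun z : ℂ => ‖z + (τ:ℂ) * z^n‖) 0 < 1 := by simp [show n ≠ 0 by omega]
    have e2 : ∀ᶠ z in 𝓝 (0:ℂ), ‖z + (τ:ℂ) * z^n‖ < 1 := hc.eventually (gt_mem_nhds h0)
    filter_upwards [e1, e2] with z z1 z2
    exact guniq z _ z1 z2 rfl

end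

end Trinom

/-- the extremal polynomial -/
theorem extremal (n : ℕ) (hn : 2 ≤ n) :
    (X + C ((((n : ℝ) - 1) ^ (n - 1) / (n : ℝ) ^ n : ℝ) : ℂ) * X ^ n : ℂ[X]) ∈ V n := by
  have hn2 : (2:ℝ) ≤ n := by exact_mod_cast hn
  have hn1 : (0:ℝ) < (n:ℝ) - 1 := by linarith
  have hn0 : (0:ℝ) < n := by linarith
  set τ : ℝ := ((n : ℝ) - 1) ^ (n - 1) / (n : ℝ) ^ n with hτdef
  have hτ : 0 < τ := by positivity
  set R : ℝ := n / (n - 1) with hRdef
  have hR1 : 1 < R := by rw [hRdef, one_lt_div hn1]; linarith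
  have hnn : (n:ℝ)^n = n^(n-1) * n := by
    rw [← pow_succ]; congr 1; omega
  have hτR : n * τ * R^(n-1) = 1 := by
    rw [hτdef, hRdef, div_pow, hnn]
    have : ((n:ℝ)-1)^(n-1) ≠ 0 := by positivity
    field_simp
  have hR : R - τ * R^n = 1 := by
    have e : R^n = R^(n-1) * R := by rw [← pow_succ]; congr 1; omega
    have e2 : τ * R^n = R / n := by
      rw [e, eq_div_iff hn0.ne']
      linear_combination R * hτR
    rw [e2, hRdef]
    field_simp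
  have heval : (fun z : ℂ => (X + C ((τ : ℝ) : ℂ) * X ^ n : ℂ[X]).eval z) = fun z : ℂ => z + (τ:ℂ) * z^n := by
    funext z; simp
  refine ⟨?_, ?_, ?_, ?_⟩
  · refine (natDegree_add_le _ _).trans (max_le ?_ ?_)
    · rw [natDegree_X]; omega
    · exact natDegree_C_mul_X_pow_le _ _
  · rw [coeff_add, coeff_X_zero, coeff_C_mul_X_pow, if_neg (by omega), add_zero]
  · rw [coeff_add, coeff_X_one, coeff_C_mul_X_pow, if_neg (by omega), add_zero]
  · rw [heval]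
    refine ⟨?_, ?_, ?_, ?_, ?_⟩
    · intro z _
      fun_prop
    · simp [show n ≠ 0 by omega]
    · have hd : HasDerivAt (fun z : ℂ => z + τ * z^n) (1 + τ * (n * (0:ℂ)^(n-1))) 0 := by
        have := (hasDerivAt_pow n (0:ℂ)).const_mul (τ:ℂ)
        exact (hasDerivAt_id (0:ℂ)).add this
      rw [hd.deriv]
      simp [show n - 1 ≠ 0 by omega]
    · intro z hz w hw h
      rw [mem_ball_zero_iff] at hz hw
      exact Trinom.inj n hn τ R hτ hR1 hτR (by linarith) (by linarith) h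
    · exact Trinom.main_inv n hn τ R hτ hR1 hτR hR

end Pool.Agent.Helper714.L8
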