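import Mathlib

set_option autoImplicit false

open Polynomial Topology Set Filter

namespace Pool.Agent.Helper714.Sheets

/-- `w` is not a critical value of `P`. -/
def NonCrit (P : ℂ[X]) (w : ℂ) : Prop := ∀ z, P.derivative.eval z = 0 → P.eval z ≠ w

lemma exists_lift (P : ℂ[X]) {U : Set ℂ} {c₀ : ℂ} (hc₀ : c₀ ∈ U) (hU : StarConvex ℝ c₀ U)
    (hUo : IsOpen U)
    {q : ℂ → ℂ} (hq : ContinuousOn q U) (hcrit : ∀ x ∈ U, NonCrit P (q x)) {x₀ z₀ : ℂ}
    (hx : x₀ ∈ U) (h : P.eval z₀ = q x₀) :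
    ∃ H : ℂ → ℂ, ContinuousOn H U ∧ H x₀ = z₀ ∧ ∀ x ∈ U, P.eval (H x) = q x := by
  classical
  have : ContractibleSpace U := hU.contractibleSpace ⟨c₀, hc₀⟩
  have : LocallyPathConnectedSpace U := hUo.locallyPathConnectedSpace
  have hcov := P.isCoveringMapOn_eval
  obtain ⟨F, ⟨hF0, hF⟩, -⟩ := hcov.existsUnique_continuousMap_lifts
    (A := U) ⟨U.domRestrict q, continuousOn_iff_continuous_domRestrict.mp hq⟩ (a₀ := ⟨x₀, hx⟩)
    (e₀ := z₀) h (by
      rintro ⟨a, ha⟩ ⟨z, hz, hz2⟩
      exact hcrit a ha z hz hz2)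
  refine ⟨fun x => if hx : x ∈ U then F ⟨x, hx⟩ else 0, ?_, ?_, ?_⟩
  · rw [continuousOn_iff_continuous_domRestrict]
    convert! map_continuous F
    ext z
    simp
  · simp [hx, hF0]
  · intro x hx
    have := congrFun hF ⟨x, hx⟩
    simpa [hx] using this

lemma locally_inj (P : ℂ[X]) :
    IsLocallyInjective (fun z : {z : ℂ // P.derivative.eval z ≠ 0} => P.eval (z : ℂ)) := by
  rw [isLocallyInjective_iff_nhds]
  rintro ⟨z, hz⟩
  have h1 := (P.hasStrictDerivAt z).hasStrictFDerivAt_equiv hz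
  obtain ⟨s, hs, hinj⟩ : ∃ s ∈ 𝓝 z, InjOn P.eval s :=
    ⟨_, (h1.toOpenPartialHomeomorph P.eval).open_source.mem_nhds
      h1.mem_toOpenPartialHomeomorph_source, (h1.toOpenPartialHomeomorph P.eval).injOn⟩
  refine ⟨Subtype.val ⁻¹' s, continuous_subtype_val.continuousAt.preimage_mem_nhds hs, ?_⟩
  intro a ha b hb hab
  exact Subtype.ext (hinj ha hb hab)

lemma lift_unique (P : ℂ[X]) {U : Set ℂ} (hU : IsPreconnected U) {q : ℂ → ℂ}
    (hcrit : ∀ x ∈ U, NonCrit P (q x)) {H H' : ℂ → ℂ} (hH : ContinuousOn H U)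
    (hH' : ContinuousOn H' U) (hq : ∀ x ∈ U, P.eval (H x) = q x)
    (hq' : ∀ x ∈ U, P.eval (H' x) = q x) {x₀ : ℂ} (hx : x₀ ∈ U) (h0 : H x₀ = H' x₀) :
    EqOn H H' U := by
  have hne : ∀ x ∈ U, P.derivative.eval (H x) ≠ 0 := fun x hx h => hcrit x hx _ h (hq x hx)
  have hne' : ∀ x ∈ U, P.derivative.eval (H' x) ≠ 0 := fun x hx h => hcrit x hx _ h (hq' x hx)
  have : PreconnectedSpace U := isPreconnected_iff_preconnectedSpace.mp hU
  let g₁ : U → {z : ℂ // P.derivative.eval z ≠ 0} := fun x => ⟨H x, hne x x.2⟩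
  let g₂ : U → {z : ℂ // P.derivative.eval z ≠ 0} := fun x => ⟨H' x, hne' x x.2⟩
  have hc₁ : Continuous g₁ :=
    Continuous.subtype_mk (continuousOn_iff_continuous_domRestrict.mp hH) _
  have hc₂ : Continuous g₂ :=
    Continuous.subtype_mk (continuousOn_iff_continuous_domRestrict.mp hH') _
  have := (T2Space.isSeparatedMap _).eq_of_comp_eq (locally_inj P) hc₁ hc₂
    (by ext x; simp [g₁, g₂, hq x x.2, hq' x x.2]) ⟨x₀, hx⟩ (Subtype.ext h0)
  intro x hx
  exact congrArg Subtype.val (congrFun this ⟨x, hx⟩)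

/-- A complete system of lifts of `q` over `U` along `P`. -/
structure Lifts (P : ℂ[X]) (n : ℕ) (U : Set ℂ) (q : ℂ → ℂ) (H : Fin n → ℂ → ℂ) : Prop where
  cont : ∀ i, ContinuousOn (H i) U
  eval : ∀ i, ∀ x ∈ U, P.eval (H i x) = q x
  exu : ∀ x ∈ U, ∀ z, P.eval z = q x → ∃! i, H i x = z

lemma exists_roots (P : ℂ[X]) (n : ℕ) (hn : 1 ≤ n) (hdeg : P.natDegree = n) {w : ℂ}
    (hw : NonCrit P w) : ∃ r : Fin n → ℂ, Function.Injective r ∧ ∀ z, P.eval z = w ↔ ∃ i, r i = z := by
  classical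
  set Q := P - C w with hQ
  have hdQ : Q.natDegree = n := by rw [hQ, natDegree_sub_C, hdeg]
  have hQ0 : Q ≠ 0 := by
    intro h
    rw [h] at hdQ
    simp at hdQ
    omega
  have hder : Q.derivative = P.derivative := by simp [hQ]
  have hnodup : Q.roots.Nodup := by
    rw [Multiset.nodup_iff_count_le_one]
    intro a
    by_contra hcon
    push Not at hcon
    rw [count_roots] at hcon
    have h1 : Q.IsRoot a := by
      rw [← rootMultiplicity_pos hQ0]; omega
    have h2 : Q.derivative.IsRoot a := by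
      have := (one_lt_rootMultiplicity_iff_isRoot hQ0).mp hcon
      exact this.2
    rw [hder] at h2
    exact hw a h2 (by simpa [hQ, sub_eq_zero] using h1)
  have hcard : Q.roots.toFinset.card = n := by
    rw [Multiset.toFinset_card_of_nodup hnodup, ← hdQ]
    exact (splits_iff_card_roots.mp (IsAlgClosed.splits Q))
  let e := (Q.roots.toFinset.equivFinOfCardEq hcard).symm
  refine ⟨fun i => (e i : ℂ), ?_, ?_⟩
  · intro i j hij
    exact e.injective (Subtype.ext hij)
  · intro z
    have : P.eval z = w ↔ z ∈ Q.roots.toFinset := by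
      rw [Multiset.mem_toFinset, mem_roots hQ0]
      simp [hQ, sub_eq_zero]
    rw [this]
    constructor
    · intro hz
      exact ⟨e.symm ⟨z, hz⟩, by simp⟩
    · rintro ⟨i, rfl⟩
      exact (e i).2

lemma exists_lifts (P : ℂ[X]) (n : ℕ) (hn : 1 ≤ n) (hdeg : P.natDegree = n) {U : Set ℂ} {c₀ : ℂ}
    (hc₀ : c₀ ∈ U) (hU : StarConvex ℝ c₀ U)
    (hUo : IsOpen U) {q : ℂ → ℂ} (hq : ContinuousOn q U) (hcrit : ∀ x ∈ U, NonCrit P (q x)) :
    ∃ H : Fin n → ℂ → ℂ, Lifts P n U q H := by
  classical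
  obtain ⟨r, hr, hr'⟩ := exists_roots P n hn hdeg (hcrit c₀ hc₀)
  have h1 : ∀ i, ∃ H : ℂ → ℂ, ContinuousOn H U ∧ H c₀ = r i ∧ ∀ x ∈ U, P.eval (H x) = q x :=
    fun i => exists_lift P hc₀ hU hUo hq hcrit hc₀ ((hr' _).mpr ⟨i, rfl⟩)
  choose H hH1 hH2 hH3 using h1
  have hpre : IsPreconnected U := (hU.isPathConnected hc₀).isConnected.isPreconnected
  have hinj : ∀ x ∈ U, Function.Injective (fun i => H i x) := by
    intro x hx i j hij
    have := lift_unique P hpre hcrit (hH1 i) (hH1 j) (hH3 i) (hH3 j) hx hij hc₀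
    rw [hH2, hH2] at this
    exact hr this
  refine ⟨H, hH1, hH3, ?_⟩
  intro x hx z hz
  obtain ⟨r', hr1, hr2⟩ := exists_roots P n hn hdeg (hcrit x hx)
  have hmap : ∀ i, ∃ j, r' j = H i x := fun i => (hr2 _).mp (hH3 i x hx)
  choose f hf using hmap
  have hfinj : Function.Injective f := by
    intro i j hij
    apply hinj x hx
    show H i x = H j x
    rw [← hf i, ← hf j, hij]
  have hfsurj : Function.Surjective f := Finite.surjective_of_injective hfinj
  obtain ⟨j, hj⟩ := (hr2 z).mp hz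
  obtain ⟨i, hi⟩ := hfsurj j
  refine ⟨i, by show H i x = z; rw [← hf i, hi, hj], ?_⟩
  intro i' hi'
  apply hinj x hx
  show H i' x = H i x
  rw [hi', ← hf i, hi, hj]

/-- any lift over a preconnected set is one of the complete system -/
lemma Lifts.match {P : ℂ[X]} {n : ℕ} {U : Set ℂ} {q : ℂ → ℂ} {H : Fin n → ℂ → ℂ}
    (hL : Lifts P n U q H) (hcrit : ∀ x ∈ U, NonCrit P (q x)) {V : Set ℂ} (hV : IsPreconnected V)
    (hne : V.Nonempty) {φ : ℂ → ℂ} (hφ : ContinuousOn φ V) (hφm : MapsTo φ V U) {h : ℂ → ℂ}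
    (hc : ContinuousOn h V) (he : ∀ x ∈ V, P.eval (h x) = q (φ x)) :
    ∃ k, ∀ x ∈ V, h x = H k (φ x) := by
  obtain ⟨x₀, hx₀⟩ := hne
  obtain ⟨k, hk, -⟩ := hL.exu (φ x₀) (hφm hx₀) (h x₀) (he x₀ hx₀)
  refine ⟨k, ?_⟩
  exact lift_unique P hV (q := fun x => q (φ x)) (fun x hx => hcrit _ (hφm hx)) hc
    ((hL.cont k).comp hφ hφm) he (fun x hx => hL.eval k _ (hφm hx)) hx₀ hk.symm

/-- local form of completeness -/
lemma Lifts.loc {P : ℂ[X]} {n : ℕ} {U : Set ℂ} {q : ℂ → ℂ} {H : Fin n → ℂ → ℂ}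
    (hL : Lifts P n U q H) (hU : IsOpen U) {z₀ x₀ : ℂ} (hx₀ : x₀ ∈ U) {k : Fin n}
    (hk : H k x₀ = z₀) {φ : ℂ → ℂ} (hφ : ContinuousAt φ z₀) (hφ0 : φ z₀ = x₀)
    (hφe : ∀ᶠ z in 𝓝 z₀, q (φ z) = P.eval z) :
    ∀ᶠ z in 𝓝 z₀, φ z ∈ U ∧ H k (φ z) = z := by
  subst hφ0
  have hU' : ∀ᶠ z in 𝓝 z₀, φ z ∈ U := hφ.preimage_mem_nhds (hU.mem_nhds hx₀)
  have hne : ∀ i, i ≠ k → ∀ᶠ z in 𝓝 z₀, H i (φ z) ≠ z := by
    intro i hi
    have hc : ContinuousAt (fun z => H i (φ z)) z₀ :=
      ContinuousAt.comp (f := φ) ((hL.cont i).continuousAt (hU.mem_nhds hx₀)) hφ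
    have h1 : H i (φ z₀) ≠ z₀ := by
      intro h
      obtain ⟨k', -, hk'⟩ := hL.exu (φ z₀) hx₀ z₀ hφe.self_of_nhds.symm
      exact hi ((hk' i h).trans (hk' k hk).symm)
    exact (hc.ne_iff_eventually_ne continuousAt_id).mp h1
  have hne' : ∀ᶠ z in 𝓝 z₀, ∀ i, i ≠ k → H i (φ z) ≠ z := by
    rw [eventually_all]
    intro i
    by_cases hi : i = k
    · exact Eventually.of_forall fun z h => absurd hi h
    · filter_upwards [hne i hi] with z hz _
      exact hz
  filter_upwards [hU', hne', hφe] with z h1 h2 h3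
  refine ⟨h1, ?_⟩
  obtain ⟨i, hi, -⟩ := hL.exu (φ z) h1 z h3.symm
  by_cases hik : i = k
  · rw [← hik]; exact hi
  · exact absurd hi (h2 i hik)

/-! ### The cut plane -/

section cut

variable {m : ℕ}

/-- the plane cut along the rays `[1,∞) c j` -/
def Om (c : Fin m → ℂ) : Set ℂ := {w | ∀ j, ¬ ((w / c j).im = 0 ∧ 1 ≤ (w / c j).re)}

lemma isOpen_Om (c : Fin m → ℂ) : IsOpen (Om c) := by
  have : Om c = ⋂ j, {w | ¬ ((w / c j).im = 0 ∧ 1 ≤ (w / c j).re)} := by
    ext w; simp [Om]
  rw [this]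
  refine isOpen_iInter_of_finite fun j => ?_
  have h1 : IsClosed {w : ℂ | (w / c j).im = 0 ∧ 1 ≤ (w / c j).re} := by
    have hc : Continuous fun w : ℂ => w / c j := continuous_id.div_const _
    exact (isClosed_eq (Complex.continuous_im.comp hc) continuous_const).inter
      (isClosed_le continuous_const (Complex.continuous_re.comp hc))
  exact h1.isOpen_compl

lemma zero_mem_Om (c : Fin m → ℂ) : (0 : ℂ) ∈ Om c := by
  intro j h
  simp at h
  linarith

lemma starConvex_Om (c : Fin m → ℂ) : StarConvex ℝ 0 (Om c) := by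
  rw [starConvex_zero_iff]
  intro w hw a ha ha1 j h
  obtain ⟨h1, h2⟩ := h
  have e : (a • w) / c j = (a : ℂ) * (w / c j) := by
    rw [Complex.real_smul]; ring
  rw [e, Complex.re_ofReal_mul] at h2
  rw [e, Complex.im_ofReal_mul] at h1
  have ha0 : 0 < a := by
    rcases ha.lt_or_eq with h | h
    · exact h
    · rw [← h] at h2; simp at h2; linarith
  apply hw j
  constructor
  · rcases mul_eq_zero.mp h1 with h | h
    · linarith
    · exact h
  · by_contra hcon
    push Not at hcon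
    nlinarith

lemma Om_noncrit {P : ℂ[X]} {z c : Fin m → ℂ} (hzc : ∀ j, P.eval (z j) = c j)
    (hder : ∀ x, P.derivative.eval x = 0 → ∃ j, z j = x) (hc0 : ∀ j, c j ≠ 0) {w : ℂ}
    (hw : w ∈ Om c) : NonCrit P w := by
  intro x hx hxw
  obtain ⟨j, rfl⟩ := hder x hx
  rw [hzc] at hxw
  apply hw j
  rw [← hxw, div_self (hc0 j)]
  simp

/-- Positive multiples: `w / c` is a positive real. -/
lemma sameRay_of_div {w c : ℂ} (hc : c ≠ 0) (h1 : (w / c).im = 0) (h2 : 0 < (w / c).re) :
    SameRay ℝ w c := by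
  have e : w = ((w / c).re) • c := by
    have : w / c = (((w / c).re : ℝ) : ℂ) := by
      apply Complex.ext <;> simp [h1]
    rw [Complex.real_smul, ← this, div_mul_cancel₀ _ hc]
  rw [e]
  exact SameRay.sameRay_pos_smul_left c h2

/-- A thin sector around the ray `j` contains no other ray. -/
lemma exists_eta (c : Fin m → ℂ) (hc0 : ∀ j, c j ≠ 0)
    (hray : ∀ i j, i ≠ j → ¬ SameRay ℝ (c i) (c j)) (j : Fin m) :
    ∃ η : ℝ, 0 < η ∧ η ≤ Real.pi ∧ ∀ i, i ≠ j → ∀ α : ℂ, |α.im| < η →
      ¬ ((c j * Complex.exp α / c i).im = 0 ∧ 0 < (c j * Complex.exp α / c i).re) := by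
  classical
  have hpos : ∀ i, i ≠ j → 0 < |Complex.arg (c i / c j)| := by
    intro i hij
    rw [abs_pos]
    intro h
    rw [Complex.arg_eq_zero_iff] at h
    apply hray i j hij
    apply sameRay_of_div (hc0 j) h.2
    rcases h.1.lt_or_eq with h' | h'
    · exact h'
    · exfalso
      have : c i / c j = 0 := Complex.ext (by rw [← h']; simp) (by rw [h.2]; simp)
      exact div_ne_zero (hc0 i) (hc0 j) this
  have hex : ∃ η : ℝ, 0 < η ∧ η ≤ Real.pi ∧ ∀ i, i ≠ j → η ≤ |Complex.arg (c i / c j)| := by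
    have hfin : ∀ s : Finset (Fin m), ∃ η : ℝ, 0 < η ∧ η ≤ Real.pi ∧
        ∀ i ∈ s, i ≠ j → η ≤ |Complex.arg (c i / c j)| := by
      intro s
      induction s using Finset.induction_on with
      | empty => exact ⟨Real.pi, Real.pi_pos, le_rfl, by simp⟩
      | insert a s ha ih =>
        obtain ⟨η, h1, h2, h3⟩ := ih
        by_cases haj : a = j
        · refine ⟨η, h1, h2, ?_⟩
          intro i hi hij
          rcases Finset.mem_insert.mp hi with h | h
          · exact absurd (h.trans haj) hij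
          · exact h3 i h hij
        · refine ⟨min η |Complex.arg (c a / c j)|, lt_min h1 (hpos a haj),
            (min_le_left _ _).trans h2, ?_⟩
          intro i hi hij
          rcases Finset.mem_insert.mp hi with h | h
          · rw [h]; exact min_le_right _ _
          · exact (min_le_left _ _).trans (h3 i h hij)
    obtain ⟨η, h1, h2, h3⟩ := hfin Finset.univ
    exact ⟨η, h1, h2, fun i hij => h3 i (Finset.mem_univ i) hij⟩
  obtain ⟨η, h1, h2, h3⟩ := hex
  refine ⟨η, h1, h2, ?_⟩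
  rintro i hij α hα ⟨h4, h5⟩
  set t := (c j * Complex.exp α / c i).re with ht
  have e1 : c j * Complex.exp α / c i = (t : ℂ) := by
    apply Complex.ext <;> simp [h4, ht]
  have e2 : Complex.exp α = (t : ℂ) * (c i / c j) := by
    rw [← e1]
    field_simp [hc0 i, hc0 j]
  have e3 : Complex.arg (Complex.exp α) = Complex.arg (c i / c j) := by
    rw [e2, Complex.arg_real_mul _ h5]
  have hα' : |α.im| < Real.pi := lt_of_lt_of_le hα h2
  rw [abs_lt] at hα'
  have e4 : Complex.arg (Complex.exp α) = α.im := by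
    rw [Complex.arg_exp, toIocMod_eq_self]
    constructor <;> [linarith [hα'.1]; linarith [hα'.2]]
  have h6 := h3 i hij
  rw [← e3, e4] at h6
  linarith

/-- sector minus a half line, in logarithmic coordinates at a critical value -/
def K (η : ℝ) : Set ℂ := {α | |α.im| < η ∧ (α.im ≠ 0 ∨ 0 < α.re)}

/-- the same with the other half line removed -/
def K' (η : ℝ) : Set ℂ := {α | |α.im| < η ∧ (α.im ≠ 0 ∨ α.re < 0)}

lemma isOpen_K (η : ℝ) : IsOpen (K η) := by
  apply IsOpen.inter
  · exact isOpen_lt (by fun_prop : Continuous fun α : ℂ => |α.im|) continuous_const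
  · apply IsOpen.union
    · exact isOpen_ne_fun Complex.continuous_im continuous_const
    · exact isOpen_lt continuous_const Complex.continuous_re

lemma isOpen_K' (η : ℝ) : IsOpen (K' η) := by
  apply IsOpen.inter
  · exact isOpen_lt (by fun_prop : Continuous fun α : ℂ => |α.im|) continuous_const
  · apply IsOpen.union
    · exact isOpen_ne_fun Complex.continuous_im continuous_const
    · exact isOpen_lt Complex.continuous_re continuous_const

lemma starConvex_K {η x : ℝ} (hx : 0 < x) : StarConvex ℝ (x : ℂ) (K η) := by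
  intro w hw a b ha hb hab
  obtain ⟨h1, h2⟩ := hw
  have e1 : (a • (x : ℂ) + b • w).im = b * w.im := by simp
  have e2 : (a • (x : ℂ) + b • w).re = a * x + b * w.re := by simp
  constructor
  · rw [e1, abs_mul, abs_of_nonneg hb]
    have : 0 ≤ |w.im| := abs_nonneg _
    nlinarith
  · rw [e1, e2]
    rcases hb.lt_or_eq with hb | hb
    · rcases h2 with h2 | h2
      · left; exact mul_ne_zero hb.ne' h2
      · right; nlinarith
    · right
      rw [← hb] at hab ⊢
      nlinarith

lemma starConvex_K' {η x : ℝ} (hx : x < 0) : StarConvex ℝ (x : ℂ) (K' η) := by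
  intro w hw a b ha hb hab
  obtain ⟨h1, h2⟩ := hw
  have e1 : (a • (x : ℂ) + b • w).im = b * w.im := by simp
  have e2 : (a • (x : ℂ) + b • w).re = a * x + b * w.re := by simp
  constructor
  · rw [e1, abs_mul, abs_of_nonneg hb]
    have : 0 ≤ |w.im| := abs_nonneg _
    nlinarith
  · rw [e1, e2]
    rcases hb.lt_or_eq with hb | hb
    · rcases h2 with h2 | h2
      · left; exact mul_ne_zero hb.ne' h2
      · right; nlinarith
    · right
      rw [← hb] at hab ⊢
      nlinarith

lemma convex_upper (η : ℝ) : Convex ℝ {α : ℂ | |α.im| < η ∧ 0 < α.im} := by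
  have : {α : ℂ | |α.im| < η ∧ 0 < α.im} = {α : ℂ | α.im < η} ∩ {α : ℂ | 0 < α.im} := by
    ext α
    simp only [mem_ofPred_eq, mem_inter_iff]
    constructor
    · rintro ⟨h1, h2⟩
      exact ⟨(le_abs_self _).trans_lt h1, h2⟩
    · rintro ⟨h1, h2⟩
      exact ⟨by rwa [abs_of_pos h2], h2⟩
  rw [this]
  exact (convex_halfSpace_im_lt η).inter (convex_halfSpace_im_gt 0)

lemma convex_lower (η : ℝ) : Convex ℝ {α : ℂ | |α.im| < η ∧ α.im < 0} := by
  have : {α : ℂ | |α.im| < η ∧ α.im < 0} = {α : ℂ | -η < α.im} ∩ {α : ℂ | α.im < 0} := by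
    ext α
    simp only [mem_ofPred_eq, mem_inter_iff]
    constructor
    · rintro ⟨h1, h2⟩
      rw [abs_of_neg h2] at h1
      exact ⟨by linarith, h2⟩
    · rintro ⟨h1, h2⟩
      exact ⟨by rw [abs_of_neg h2]; linarith, h2⟩
  rw [this]
  exact (convex_halfSpace_im_gt (-η)).inter (convex_halfSpace_im_lt 0)

lemma exp_im_zero {α : ℂ} (h1 : |α.im| < Real.pi) (h2 : (Complex.exp α).im = 0)  :
    α.im = 0 ∨ (Complex.exp α).re < 0 := by
  rw [Complex.exp_im] at h2
  have h3 : Real.sin α.im = 0 := by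
    rcases mul_eq_zero.mp h2 with h | h
    · exact absurd h (Real.exp_pos _).ne'
    · exact h
  left
  rw [abs_lt] at h1
  exact (Real.sin_eq_zero_iff_of_lt_of_lt h1.1 h1.2).mp h3

lemma mem_Om_of_K' {c : Fin m → ℂ} (hc0 : ∀ j, c j ≠ 0) {j : Fin m} {η : ℝ} (hη : η ≤ Real.pi)
    (hη' : ∀ i, i ≠ j → ∀ α : ℂ, |α.im| < η →
      ¬ ((c j * Complex.exp α / c i).im = 0 ∧ 0 < (c j * Complex.exp α / c i).re))
    {α : ℂ} (hα : α ∈ K' η) : c j * Complex.exp α ∈ Om c := by
  rintro i ⟨h1, h2⟩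
  by_cases hij : i = j
  · subst hij
    have e : c i * Complex.exp α / c i = Complex.exp α := by
      field_simp [hc0 i]
    rw [e] at h1 h2
    rcases exp_im_zero (hα.1.trans_le hη) h1 with h | h
    · rcases hα.2 with h' | h'
      · exact h' h
      · rw [Complex.exp_re, h, Real.cos_zero, mul_one] at h2
        have := Real.exp_lt_one_iff.mpr h'
        linarith
    · linarith
  · exact hη' i hij α hα.1 ⟨h1, by linarith⟩

lemma noncrit_of_K {P : ℂ[X]} {z c : Fin m → ℂ} (hzc : ∀ j, P.eval (z j) = c j)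
    (hder : ∀ x, P.derivative.eval x = 0 → ∃ j, z j = x)
    (hc0 : ∀ j, c j ≠ 0) {j : Fin m} {η : ℝ} (hη : η ≤ Real.pi)
    (hη' : ∀ i, i ≠ j → ∀ α : ℂ, |α.im| < η →
      ¬ ((c j * Complex.exp α / c i).im = 0 ∧ 0 < (c j * Complex.exp α / c i).re))
    {α : ℂ} (hα : α ∈ K η) : NonCrit P (c j * Complex.exp α) := by
  intro x hx hxw
  obtain ⟨i, rfl⟩ := hder x hx
  rw [hzc] at hxw
  by_cases hij : i = j
  · subst hij
    have e : Complex.exp α = 1 := by
      have := hxw.symm
      exact mul_left_cancel₀ (hc0 i) (by rw [this, mul_one])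
    rcases exp_im_zero (hα.1.trans_le hη) (by rw [e]; simp) with h | h
    · rcases hα.2 with h' | h'
      · exact h' h
      · have h5 : (Complex.exp α).re = 1 := by rw [e]; simp
        rw [Complex.exp_re, h, Real.cos_zero, mul_one] at h5
        rw [Real.exp_eq_one_iff] at h5
        linarith
    · rw [e] at h; simp at h; linarith
  · apply hη' i hij α hα.1
    rw [← hxw, div_self (hc0 i)]
    simp

lemma norm_lt_im {δ : ℝ} {α : ℂ} (h : α ∈ Metric.ball (0 : ℂ) δ) : |α.im| < δ := by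
  rw [mem_ball_zero_iff] at h
  exact (Complex.abs_im_le_norm α).trans_lt h

/-- Crossing data over the ray `j`. -/
lemma exists_cross {P : ℂ[X]} {z c : Fin m → ℂ} (hdeg : P.natDegree = m + 1)
    (hzc : ∀ j, P.eval (z j) = c j)
    (hder : ∀ x, P.derivative.eval x = 0 → ∃ j, z j = x)
    (hc0 : ∀ j, c j ≠ 0) (hray : ∀ i j, i ≠ j → ¬ SameRay ℝ (c i) (c j))
    {G : Fin (m + 1) → ℂ → ℂ} (hG : Lifts P (m + 1) (Om c) id G) (j : Fin m) :
    ∃ (η : ℝ) (H : Fin (m + 1) → ℂ → ℂ) (l r : Equiv.Perm (Fin (m + 1))), 0 < η ∧ η ≤ Real.pi ∧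
      Lifts P (m + 1) (K η) (fun α => c j * Complex.exp α) H ∧
      (∀ α ∈ K' η, c j * Complex.exp α ∈ Om c) ∧
      (∀ k α, |α.im| < η → 0 < α.im → H k α = G (l k) (c j * Complex.exp α)) ∧
      (∀ k α, |α.im| < η → α.im < 0 → H k α = G (r k) (c j * Complex.exp α)) ∧
      (∀ (δ : ℝ) (h : ℂ → ℂ), 0 < δ → δ ≤ η → ContinuousOn h (Metric.ball 0 δ) →
        (∀ α ∈ Metric.ball (0 : ℂ) δ, P.eval (h α) = c j * Complex.exp α) →
        ∃ k, l k = r k ∧ ∀ α ∈ Metric.ball (0 : ℂ) δ, α ∈ K' η →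
          h α = G (l k) (c j * Complex.exp α)) := by
  classical
  obtain ⟨η, hη0, hηπ, hη'⟩ := exists_eta c hc0 hray j
  have hOm : ∀ α ∈ K' η, c j * Complex.exp α ∈ Om c := fun α hα => mem_Om_of_K' hc0 hηπ hη' hα
  have hqc : Continuous (fun α : ℂ => c j * Complex.exp α) := by fun_prop
  have hGcrit : ∀ x ∈ Om c, NonCrit P (id x) := fun x hx => Om_noncrit hzc hder hc0 hx
  have hKcrit : ∀ α ∈ K η, NonCrit P (c j * Complex.exp α) :=
    fun α hα => noncrit_of_K hzc hder hc0 hηπ hη' hα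
  have h1K : ((1 : ℝ) : ℂ) ∈ K η := by
    constructor
    · simpa using hη0
    · right; simp
  obtain ⟨H, hH⟩ := exists_lifts P (m + 1) (by omega) hdeg h1K (starConvex_K one_pos) (isOpen_K η)
    (q := fun α => c j * Complex.exp α) hqc.continuousOn hKcrit
  -- upper part
  have hupK : ∀ α : ℂ, |α.im| < η ∧ 0 < α.im → α ∈ K η ∧ α ∈ K' η := fun α h =>
    ⟨⟨h.1, Or.inl h.2.ne'⟩, ⟨h.1, Or.inl h.2.ne'⟩⟩
  have hloK : ∀ α : ℂ, |α.im| < η ∧ α.im < 0 → α ∈ K η ∧ α ∈ K' η := fun α h =>
    ⟨⟨h.1, Or.inl h.2.ne⟩, ⟨h.1, Or.inl h.2.ne⟩⟩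
  have hup : ∀ k, ∃ k', ∀ α ∈ {α : ℂ | |α.im| < η ∧ 0 < α.im},
      H k α = G k' (c j * Complex.exp α) := by
    intro k
    refine hG.match hGcrit (convex_upper η).isPreconnected ?_ hqc.continuousOn ?_
      ((hH.cont k).mono fun α hα => (hupK α hα).1) ?_
    · refine ⟨((η / 2 : ℝ) : ℂ) * Complex.I, ?_, ?_⟩
      · simp only [Complex.im_ofReal_mul, Complex.I_im, mul_one]
        rw [abs_of_pos (by linarith)]; linarith
      · simp only [Complex.im_ofReal_mul, Complex.I_im, mul_one]; linarith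
    · intro α hα
      exact hOm α (hupK α hα).2
    · intro α hα
      exact hH.eval k α (hupK α hα).1
  have hlo : ∀ k, ∃ k', ∀ α ∈ {α : ℂ | |α.im| < η ∧ α.im < 0},
      H k α = G k' (c j * Complex.exp α) := by
    intro k
    refine hG.match hGcrit (convex_lower η).isPreconnected ?_ hqc.continuousOn ?_
      ((hH.cont k).mono fun α hα => (hloK α hα).1) ?_
    · refine ⟨((-(η / 2) : ℝ) : ℂ) * Complex.I, ?_, ?_⟩
      · simp only [Complex.im_ofReal_mul, Complex.I_im, mul_one]
        rw [abs_neg, abs_of_pos (by linarith)]; linarith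
      · simp only [Complex.im_ofReal_mul, Complex.I_im, mul_one]; linarith
    · intro α hα
      exact hOm α (hloK α hα).2
    · intro α hα
      exact hH.eval k α (hloK α hα).1
  choose l₀ hl₀ using hup
  choose r₀ hr₀ using hlo
  have hl₀inj : Function.Injective l₀ := by
    intro k k' hkk
    set α : ℂ := ((η / 2 : ℝ) : ℂ) * Complex.I with hα
    have him : α.im = η / 2 := by rw [hα, Complex.im_ofReal_mul]; simp
    have hmem : |α.im| < η ∧ 0 < α.im := by
      rw [him, abs_of_pos (by linarith)]; constructor <;> linarith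
    have e : H k α = H k' α := by rw [hl₀ k α hmem, hl₀ k' α hmem, hkk]
    obtain ⟨i, -, hi⟩ := hH.exu α (hupK α hmem).1 (H k α) (hH.eval k α (hupK α hmem).1)
    rw [hi k rfl, hi k' e.symm]
  have hr₀inj : Function.Injective r₀ := by
    intro k k' hkk
    set α : ℂ := ((-(η / 2) : ℝ) : ℂ) * Complex.I with hα
    have him : α.im = -(η / 2) := by rw [hα, Complex.im_ofReal_mul]; simp
    have hmem : |α.im| < η ∧ α.im < 0 := by
      rw [him, abs_neg, abs_of_pos (by linarith)]; constructor <;> linarith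
    have e : H k α = H k' α := by rw [hr₀ k α hmem, hr₀ k' α hmem, hkk]
    obtain ⟨i, -, hi⟩ := hH.exu α (hloK α hmem).1 (H k α) (hH.eval k α (hloK α hmem).1)
    rw [hi k rfl, hi k' e.symm]
  let l : Equiv.Perm (Fin (m + 1)) := Equiv.ofBijective l₀ (Finite.injective_iff_bijective.mp hl₀inj)
  let r : Equiv.Perm (Fin (m + 1)) := Equiv.ofBijective r₀ (Finite.injective_iff_bijective.mp hr₀inj)
  refine ⟨η, H, l, r, hη0, hηπ, hH, hOm, fun k α h1 h2 => hl₀ k α ⟨h1, h2⟩,
    fun k α h1 h2 => hr₀ k α ⟨h1, h2⟩, ?_⟩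
  intro δ h hδ hδη hc he
  have hball : ∀ α ∈ Metric.ball (0 : ℂ) δ, |α.im| < η := fun α hα =>
    (norm_lt_im hα).trans_le hδη
  -- match with `H` on `ball ∩ K`
  have hcentre : ((δ / 2 : ℝ) : ℂ) ∈ Metric.ball (0 : ℂ) δ ∩ K η := by
    constructor
    · rw [mem_ball_zero_iff, Complex.norm_real, Real.norm_of_nonneg (by linarith)]; linarith
    · constructor
      · simpa using hη0
      · right; rw [Complex.ofReal_re]; linarith
  have hcentre' : ((-(δ / 2) : ℝ) : ℂ) ∈ Metric.ball (0 : ℂ) δ ∩ K' η := by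
    constructor
    · rw [mem_ball_zero_iff, Complex.norm_real, Real.norm_eq_abs, abs_neg,
        abs_of_pos (by linarith)]; linarith
    · constructor
      · simpa using hη0
      · right; rw [Complex.ofReal_re]; linarith
  have hpre : IsPreconnected (Metric.ball (0 : ℂ) δ ∩ K η) := by
    have h1 : StarConvex ℝ ((δ / 2 : ℝ) : ℂ) (Metric.ball (0 : ℂ) δ ∩ K η) :=
      ((convex_ball (0 : ℂ) δ).starConvex hcentre.1).inter (starConvex_K (by linarith))
    exact (h1.isPathConnected hcentre).isConnected.isPreconnected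
  have hpre' : IsPreconnected (Metric.ball (0 : ℂ) δ ∩ K' η) := by
    have h1 : StarConvex ℝ ((-(δ / 2) : ℝ) : ℂ) (Metric.ball (0 : ℂ) δ ∩ K' η) :=
      ((convex_ball (0 : ℂ) δ).starConvex hcentre'.1).inter (starConvex_K' (by linarith))
    exact (h1.isPathConnected hcentre').isConnected.isPreconnected
  obtain ⟨k, hk⟩ := hH.match hKcrit hpre ⟨_, hcentre⟩ (φ := id) continuousOn_id
    (fun α hα => hα.2) (hc.mono inter_subset_left) (fun α hα => he α hα.1)
  obtain ⟨x, hx⟩ := hG.match hGcrit hpre' ⟨_, hcentre'⟩ hqc.continuousOn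
    (fun α hα => hOm α hα.2) (hc.mono inter_subset_left) (fun α hα => he α hα.1)
  have hlk : l₀ k = x := by
    set α : ℂ := ((δ / 2 : ℝ) : ℂ) * Complex.I with hα
    have him : α.im = δ / 2 := by rw [hα, Complex.im_ofReal_mul]; simp
    have hmem : |α.im| < η ∧ 0 < α.im := by
      rw [him, abs_of_pos (by linarith)]; constructor <;> linarith
    have hb : α ∈ Metric.ball (0 : ℂ) δ := by
      rw [mem_ball_zero_iff, hα, norm_mul, Complex.norm_real, Complex.norm_I,
        Real.norm_of_nonneg (by linarith)]; linarith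
    have e1 := hk α ⟨hb, (hupK α hmem).1⟩
    have e2 := hx α ⟨hb, (hupK α hmem).2⟩
    have e3 := hl₀ k α hmem
    have hm' := hOm α (hupK α hmem).2
    obtain ⟨i, -, hi⟩ := hG.exu _ hm' (h α) (he α hb)
    rw [hi x e2.symm, hi (l₀ k) (e3.symm.trans e1.symm)]
  have hrk : r₀ k = x := by
    set α : ℂ := ((-(δ / 2) : ℝ) : ℂ) * Complex.I with hα
    have him : α.im = -(δ / 2) := by rw [hα, Complex.im_ofReal_mul]; simp
    have hmem : |α.im| < η ∧ α.im < 0 := by
      rw [him, abs_neg, abs_of_pos (by linarith)]; constructor <;> linarith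
    have hb : α ∈ Metric.ball (0 : ℂ) δ := by
      rw [mem_ball_zero_iff, hα, norm_mul, Complex.norm_real, Complex.norm_I,
        Real.norm_eq_abs, abs_neg, abs_of_pos (by linarith)]; linarith
    have e1 := hk α ⟨hb, (hloK α hmem).1⟩
    have e2 := hx α ⟨hb, (hloK α hmem).2⟩
    have e3 := hr₀ k α hmem
    have hm' := hOm α (hloK α hmem).2
    obtain ⟨i, -, hi⟩ := hG.exu _ hm' (h α) (he α hb)
    rw [hi x e2.symm, hi (r₀ k) (e3.symm.trans e1.symm)]
  refine ⟨k, ?_, ?_⟩
  · show l₀ k = r₀ k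
    rw [hlk, hrk]
  · intro α hα hα'
    show h α = G (l₀ k) _
    rw [hlk]
    exact hx α ⟨hα, hα'⟩

lemma card_simple {P : ℂ[X]} {z c : Fin m → ℂ} (hm : 1 ≤ m) (hdeg : P.natDegree = m + 1)
    (hz : Function.Injective z) (hzc : ∀ j, P.eval (z j) = c j)
    (hder : ∀ x, P.derivative.eval x = 0 ↔ ∃ j, z j = x)
    (hcinj : Function.Injective c) (j : Fin m) :
    ∃ s : Finset ℂ, m - 1 ≤ s.card ∧ ∀ ζ ∈ s, P.eval ζ = c j ∧ P.derivative.eval ζ ≠ 0 := by
  classical
  set Q := P - C (c j) with hQ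
  have hdQ : Q.natDegree = m + 1 := by rw [hQ, natDegree_sub_C, hdeg]
  have hQ0 : Q ≠ 0 := by
    intro h
    rw [h] at hdQ
    simp at hdQ
  have hQder : Q.derivative = P.derivative := by simp [hQ]
  have hdP' : P.derivative.natDegree ≤ m := by
    have := natDegree_derivative_le P
    omega
  have hP'0 : P.derivative ≠ 0 := by
    intro h
    have : P.natDegree = 0 := derivative_eq_zero.mp h
    omega
  have himg : (Finset.univ.image z) ⊆ P.derivative.roots.toFinset := by
    intro x hx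
    obtain ⟨i, -, rfl⟩ := Finset.mem_image.mp hx
    rw [Multiset.mem_toFinset, mem_roots hP'0]
    exact (hder _).mpr ⟨i, rfl⟩
  have hcardimg : (Finset.univ.image z).card = m := by
    rw [Finset.card_image_of_injective _ hz, Finset.card_univ, Fintype.card_fin]
  have hnodup' : P.derivative.roots.Nodup := by
    rw [← Multiset.toFinset_card_eq_card_iff_nodup]
    apply le_antisymm (Multiset.toFinset_card_le _)
    calc Multiset.card P.derivative.roots ≤ P.derivative.natDegree := card_roots' _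
      _ ≤ m := hdP'
      _ = (Finset.univ.image z).card := hcardimg.symm
      _ ≤ _ := Finset.card_le_card himg
  have hcount : ∀ a, Q.roots.count a ≤ if a = z j then 2 else 1 := by
    intro a
    by_cases hroot : Q.IsRoot a
    · have h1 := derivative_rootMultiplicity_of_root hroot
      rw [hQder, ← count_roots, ← count_roots] at h1
      have h2 := Multiset.nodup_iff_count_le_one.mp hnodup' a
      by_cases haj : a = z j
      · rw [if_pos haj]; omega
      · rw [if_neg haj]
        have h3 : P.derivative.roots.count a = 0 := by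
          rw [Multiset.count_eq_zero, mem_roots hP'0]
          intro h4
          obtain ⟨i, hi⟩ := (hder a).mp h4
          have h5 : P.eval a = c j := by
            have : Q.eval a = 0 := hroot
            rw [hQ] at this
            simpa [sub_eq_zero] using this
          rw [← hi, hzc] at h5
          exact haj (by rw [← hi, hcinj h5])
        omega
    · have : Q.roots.count a = 0 := by
        rw [Multiset.count_eq_zero, mem_roots hQ0]
        exact hroot
      rw [this]; exact Nat.zero_le _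
  have hcardQ : Multiset.card Q.roots = m + 1 := by
    rw [← hdQ]
    exact (splits_iff_card_roots.mp (IsAlgClosed.splits Q))
  have hsum : m + 1 ≤ Q.roots.toFinset.card + 1 := by
    rw [← hcardQ, ← Multiset.toFinset_sum_count_eq]
    calc ∑ a ∈ Q.roots.toFinset, Q.roots.count a
        ≤ ∑ a ∈ Q.roots.toFinset, (1 + if a = z j then 1 else 0) := by
          apply Finset.sum_le_sum
          intro a _
          have := hcount a
          split_ifs at this ⊢ <;> omega
      _ ≤ Q.roots.toFinset.card + 1 := by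
          rw [Finset.sum_add_distrib, Finset.sum_const, smul_eq_mul, mul_one,
            Finset.sum_ite_eq']
          split_ifs <;> omega
  refine ⟨Q.roots.toFinset.erase (z j), ?_, ?_⟩
  · have := Finset.pred_card_le_card_erase (s := Q.roots.toFinset) (a := z j)
    omega
  · intro ζ hζ
    rw [Finset.mem_erase, Multiset.mem_toFinset, mem_roots hQ0] at hζ
    have h5 : P.eval ζ = c j := by
      have : Q.eval ζ = 0 := hζ.2
      rw [hQ] at this
      simpa [sub_eq_zero] using this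
    refine ⟨h5, ?_⟩
    intro h4
    obtain ⟨i, hi⟩ := (hder ζ).mp h4
    rw [← hi, hzc] at h5
    exact hζ.1 (by rw [← hi, hcinj h5])

/-- local inverse at a noncritical point -/
lemma local_lift (P : ℂ[X]) {ζ : ℂ} (hζ : P.derivative.eval ζ ≠ 0) :
    ∃ (g : ℂ → ℂ) (s : Set ℂ), IsOpen s ∧ P.eval ζ ∈ s ∧ ContinuousOn g s ∧
      g (P.eval ζ) = ζ ∧ ∀ w ∈ s, P.eval (g w) = w := by
  have h1 := (P.hasStrictDerivAt ζ).hasStrictFDerivAt_equiv hζ
  set e := h1.toOpenPartialHomeomorph P.eval with he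
  have hmem : ζ ∈ e.source := h1.mem_toOpenPartialHomeomorph_source
  have hcoe : ∀ x, e x = P.eval x := fun x => rfl
  refine ⟨e.symm, e.target, e.open_target, ?_, e.continuousOn_symm, ?_, ?_⟩
  · rw [← hcoe]; exact e.map_source hmem
  · rw [← hcoe]; exact e.left_inv hmem
  · intro w hw
    rw [← hcoe]; exact e.right_inv hw

lemma support_le {P : ℂ[X]} {z c : Fin m → ℂ} (hm : 1 ≤ m) (hdeg : P.natDegree = m + 1)
    (hz : Function.Injective z) (hzc : ∀ j, P.eval (z j) = c j)
    (hder : ∀ x, P.derivative.eval x = 0 ↔ ∃ j, z j = x)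
    (hcinj : Function.Injective c) (j : Fin m) {η : ℝ} (hη : 0 < η)
    {G : Fin (m + 1) → ℂ → ℂ} {l r : Equiv.Perm (Fin (m + 1))}
    (hfix : ∀ (δ : ℝ) (h : ℂ → ℂ), 0 < δ → δ ≤ η → ContinuousOn h (Metric.ball 0 δ) →
        (∀ α ∈ Metric.ball (0 : ℂ) δ, P.eval (h α) = c j * Complex.exp α) →
        ∃ k, l k = r k ∧ ∀ α ∈ Metric.ball (0 : ℂ) δ, α ∈ K' η →
          h α = G (l k) (c j * Complex.exp α)) :
    (r * l⁻¹ : Equiv.Perm (Fin (m + 1))).support.card ≤ 2 := by
  classical
  obtain ⟨s, hs, hs'⟩ := card_simple hm hdeg hz hzc hder hcinj j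
  have key : ∀ ζ ∈ s, ∃ k, l k = r k ∧ ∃ h : ℂ → ℂ, ContinuousAt h 0 ∧ h 0 = ζ ∧
      ∀ᶠ x : ℝ in 𝓝[<] (0 : ℝ), h (x : ℂ) = G (l k) (c j * Complex.exp (x : ℂ)) := by
    intro ζ hζ
    obtain ⟨h1, h2⟩ := hs' ζ hζ
    obtain ⟨g, t, ht, hmem, hcont, hg, hPg⟩ := local_lift P h2
    rw [h1] at hmem hg
    have hqc : Continuous (fun α : ℂ => c j * Complex.exp α) := by fun_prop
    have hnb : (fun α : ℂ => c j * Complex.exp α) ⁻¹' t ∈ 𝓝 (0 : ℂ) := by
      apply hqc.continuousAt.preimage_mem_nhds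
      rw [Complex.exp_zero, mul_one]
      exact ht.mem_nhds hmem
    obtain ⟨δ₀, hδ₀, hball⟩ := Metric.mem_nhds_iff.mp hnb
    set δ := min δ₀ η with hδ
    have hδpos : 0 < δ := lt_min hδ₀ hη
    have hsub : Metric.ball (0 : ℂ) δ ⊆ (fun α : ℂ => c j * Complex.exp α) ⁻¹' t :=
      (Metric.ball_subset_ball (min_le_left _ _)).trans hball
    have hcomp : ContinuousOn (fun α => g (c j * Complex.exp α)) (Metric.ball (0 : ℂ) δ) :=
      hcont.comp hqc.continuousOn hsub
    obtain ⟨k, hk1, hk2⟩ := hfix δ (fun α => g (c j * Complex.exp α)) hδpos (min_le_right _ _)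
      hcomp (fun α hα => hPg _ (hsub hα))
    refine ⟨k, hk1, _, hcomp.continuousAt (Metric.ball_mem_nhds _ hδpos), ?_, ?_⟩
    · simp only [Complex.exp_zero, mul_one]; exact hg
    · have h3 : ∀ᶠ x in 𝓝[<] (0 : ℝ), -δ < x :=
        (eventually_gt_nhds (by linarith)).filter_mono nhdsWithin_le_nhds
      filter_upwards [h3, self_mem_nhdsWithin] with x hx1 hx2
      have hx2' : x < 0 := hx2
      apply hk2
      · rw [mem_ball_zero_iff, Complex.norm_real, Real.norm_eq_abs, abs_of_neg hx2']; linarith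
      · refine ⟨by simpa using hη, Or.inr ?_⟩
        rw [Complex.ofReal_re]; exact hx2'
  choose! k hk1 h hh1 hh2 hh3 using key
  have hcoe : Tendsto (fun x : ℝ => (x : ℂ)) (𝓝[<] (0 : ℝ)) (𝓝 0) := by
    have : ContinuousAt (fun x : ℝ => (x : ℂ)) 0 := Complex.continuous_ofReal.continuousAt
    have h2 := this.tendsto
    rw [Complex.ofReal_zero] at h2
    exact h2.mono_left nhdsWithin_le_nhds
  have hinj : Set.InjOn (fun ζ => l (k ζ)) (s : Set ℂ) := by
    intro ζ hζ ζ' hζ' heq
    have heq' : l (k ζ) = l (k ζ') := heq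
    have t1 : Tendsto (fun x : ℝ => h ζ x) (𝓝[<] (0 : ℝ)) (𝓝 ζ) := by
      have := (hh1 ζ hζ).tendsto.comp hcoe
      rwa [hh2 ζ hζ] at this
    have t2 : Tendsto (fun x : ℝ => h ζ' x) (𝓝[<] (0 : ℝ)) (𝓝 ζ') := by
      have := (hh1 ζ' hζ').tendsto.comp hcoe
      rwa [hh2 ζ' hζ'] at this
    have t3 : (fun x : ℝ => h ζ x) =ᶠ[𝓝[<] (0 : ℝ)] fun x : ℝ => h ζ' x := by
      filter_upwards [hh3 ζ hζ, hh3 ζ' hζ'] with x hx1 hx2
      rw [hx1, hx2, heq']
    exact tendsto_nhds_unique t1 (t2.congr' t3.symm)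
  have hfixed : ∀ ζ ∈ s, (r * l⁻¹ : Equiv.Perm (Fin (m + 1))) (l (k ζ)) = l (k ζ) := by
    intro ζ hζ
    have h1 : (l⁻¹ : Equiv.Perm (Fin (m + 1))) (l (k ζ)) = k ζ := l.symm_apply_apply _
    rw [Equiv.Perm.mul_apply, h1, hk1 ζ hζ]
  have hsub : s.image (fun ζ => l (k ζ)) ⊆ (r * l⁻¹ : Equiv.Perm (Fin (m + 1))).supportᶜ := by
    intro x hx
    obtain ⟨ζ, hζ, rfl⟩ := Finset.mem_image.mp hx
    rw [Finset.mem_compl, Equiv.Perm.notMem_support]
    exact hfixed ζ hζ
  have hcard := Finset.card_le_card hsub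
  rw [Finset.card_image_of_injOn hinj, Finset.card_compl, Fintype.card_fin] at hcard
  have huniv := Finset.card_le_univ (r * l⁻¹ : Equiv.Perm (Fin (m + 1))).support
  rw [Fintype.card_fin] at huniv
  omega

lemma log_facts {c w : ℂ} (hc : c ≠ 0) (hw : w / c ∈ Complex.slitPlane) :
    c * Complex.exp (Complex.log (w / c)) = w := by
  rw [Complex.exp_log (Complex.slitPlane_ne_zero hw), mul_div_cancel₀ _ hc]

theorem exists_sheets {P : ℂ[X]} {z c : Fin m → ℂ} (hm : 1 ≤ m) (hdeg : P.natDegree = m + 1)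
    (h0 : P.eval 0 = 0) (hz : Function.Injective z) (hzc : ∀ j, P.eval (z j) = c j)
    (hder : ∀ x, P.derivative.eval x = 0 ↔ ∃ j, z j = x)
    (hc0 : ∀ j, c j ≠ 0) (hray : ∀ i j, i ≠ j → ¬ SameRay ℝ (c i) (c j))
    {g : ℂ → ℂ} {ρ : ℝ} (hρ : 0 < ρ) (hg : ContinuousOn g (Metric.ball 0 ρ)) (hg0 : g 0 = 0)
    (hPg : ∀ w ∈ Metric.ball (0 : ℂ) ρ, P.eval (g w) = w) :
    ∃ (τ : ℂ → Fin (m + 1)) (σ : Fin m → Equiv.Perm (Fin (m + 1))),
      τ 0 = 0 ∧
      (∀ x, P.eval x ∈ Om c → ∀ᶠ x' in 𝓝 x, τ x' = τ x) ∧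
      (∀ j x (t : ℝ), 1 < t → P.eval x = t * c j →
        ∀ᶠ x' in 𝓝 x, τ x' = τ x ∨ τ x' = σ j (τ x)) ∧
      (∀ x x', P.eval x ∈ Om c → P.eval x' = P.eval x → τ x = τ x' → x = x') ∧
      (∀ j, (σ j).support.card ≤ 2) ∧
      (∀ T : Set (Fin (m + 1)), T.Nonempty → (∀ j, ∀ i ∈ T, σ j i ∈ T) → T = Set.univ) ∧
      (∀ j, ‖c j‖ < ρ → σ j 0 = 0) := by
  classical
  have hder' : ∀ x, P.derivative.eval x = 0 → ∃ j, z j = x := fun x hx => (hder x).mp hx
  have hcinj : Function.Injective c := by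
    intro i j hij
    by_contra hne
    exact hray i j hne (by rw [hij])
  have hGcrit : ∀ x ∈ Om c, NonCrit P (id x) := fun x hx => Om_noncrit hzc hder' hc0 hx
  obtain ⟨G₁, hG₁⟩ := exists_lifts P (m + 1) (by omega) hdeg (zero_mem_Om c) (starConvex_Om c)
    (isOpen_Om c) (q := id) continuousOn_id hGcrit
  -- renumber so that the principal sheet is `0`
  obtain ⟨i₀, hi₀, -⟩ := hG₁.exu 0 (zero_mem_Om c) 0 h0
  set G : Fin (m + 1) → ℂ → ℂ := fun i => G₁ (Equiv.swap 0 i₀ i) with hGdef
  have hG : Lifts P (m + 1) (Om c) id G := by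
    refine ⟨fun i => hG₁.cont _, fun i => hG₁.eval _, ?_⟩
    intro x hx y hy
    obtain ⟨i, hi, hi'⟩ := hG₁.exu x hx y hy
    refine ⟨Equiv.swap 0 i₀ i, by simpa [hGdef] using hi, ?_⟩
    intro i' h'
    have := hi' _ h'
    rw [← this]; simp
  have hG0 : G 0 0 = 0 := by simp [hGdef, hi₀]
  have hcross := fun j => exists_cross hdeg hzc hder' hc0 hray hG j
  choose η H l r hη hηπ hH hOm hl hr hfix using hcross
  -- the tile function
  have hτ : ∀ x, ∃ i : Fin (m + 1), (P.eval x ∈ Om c → G i (P.eval x) = x) ∧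
      (∀ j (t : ℝ), 1 < t → P.eval x = t * c j → ∃ k, H j k (Real.log t) = x ∧ i = l j k) := by
    intro x
    by_cases hx : P.eval x ∈ Om c
    · obtain ⟨i, hi, -⟩ := hG.exu _ hx x rfl
      refine ⟨i, fun _ => hi, ?_⟩
      intro j t ht he
      exfalso
      apply hx j
      rw [he, mul_div_cancel_right₀ _ (hc0 j)]
      simp [ht.le]
    · by_cases hx2 : ∃ j, ∃ t : ℝ, 1 < t ∧ P.eval x = t * c j
      · obtain ⟨j, t, ht, he⟩ := hx2
        have hlog : ((Real.log t : ℝ) : ℂ) ∈ K (η j) := by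
          refine ⟨by simpa using hη j, Or.inr ?_⟩
          rw [Complex.ofReal_re]; exact Real.log_pos ht
        have he' : P.eval x = c j * Complex.exp ((Real.log t : ℝ) : ℂ) := by
          rw [← Complex.ofReal_exp, Real.exp_log (by linarith), he, mul_comm]
        obtain ⟨k, hk, -⟩ := (hH j).exu _ hlog x he'
        refine ⟨l j k, fun h => absurd h hx, ?_⟩
        intro j' t' ht' hh'
        have hjj : j' = j := by
          by_contra hne
          apply hray j' j hne
          have h1 : (t' : ℂ) * c j' = (t : ℂ) * c j := by rw [← he, ← hh']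
          apply sameRay_of_div (hc0 j)
          · have : c j' / c j = ((t / t' : ℝ) : ℂ) := by
              have ht0 : (t' : ℂ) ≠ 0 := by exact_mod_cast (by linarith : t' ≠ 0)
              rw [div_eq_iff (hc0 j)]
              push_cast
              field_simp
              linear_combination h1
            rw [this]; simp
          · have : c j' / c j = ((t / t' : ℝ) : ℂ) := by
              have ht0 : (t' : ℂ) ≠ 0 := by exact_mod_cast (by linarith : t' ≠ 0)
              rw [div_eq_iff (hc0 j)]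
              push_cast
              field_simp
              linear_combination h1
            rw [this, Complex.ofReal_re]
            positivity
        subst hjj
        have htt : t' = t := by
          have h1 : (t' : ℂ) * c j' = (t : ℂ) * c j' := by rw [← he, ← hh']
          exact_mod_cast mul_right_cancel₀ (hc0 j') h1
        subst htt
        exact ⟨k, hk, rfl⟩
      · refine ⟨0, fun h => absurd h hx, ?_⟩
        intro j t ht he
        exact absurd ⟨j, t, ht, he⟩ hx2
  choose τ hτ1 hτ2 using hτ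
  set σ : Fin m → Equiv.Perm (Fin (m + 1)) := fun j => r j * (l j)⁻¹ with hσ
  have hσl : ∀ j k, σ j (l j k) = r j k := by
    intro j k
    have h1 : ((l j)⁻¹ : Equiv.Perm (Fin (m + 1))) (l j k) = k := (l j).symm_apply_apply _
    rw [hσ]
    show (r j * (l j)⁻¹) (l j k) = _
    rw [Equiv.Perm.mul_apply, h1]
  have hτG : ∀ i, ∀ w ∈ Om c, τ (G i w) = i := by
    intro i w hw
    have he := hG.eval i w hw
    obtain ⟨i', -, hi'⟩ := hG.exu w hw (G i w) he
    have h1 := hτ1 (G i w) (by rw [he]; exact hw)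
    rw [he] at h1
    have h2 : G (τ (G i w)) w = G i w := h1
    exact (hi' _ h2).trans (hi' i rfl).symm
  have hA : ∀ x, P.eval x ∈ Om c → ∀ᶠ x' in 𝓝 x, τ x' = τ x := by
    intro x hx
    have h1 := hG.loc (isOpen_Om c) (φ := fun y => P.eval y) (x₀ := P.eval x) hx (hτ1 x hx)
      P.continuous.continuousAt rfl (Eventually.of_forall fun y => rfl)
    filter_upwards [h1] with y hy
    have := hτG (τ x) (P.eval y) hy.1
    rwa [hy.2] at this
  have hB : ∀ j x (t : ℝ), 1 < t → P.eval x = t * c j →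
      ∀ᶠ x' in 𝓝 x, τ x' = τ x ∨ τ x' = σ j (τ x) := by
    intro j x t ht he
    obtain ⟨k, hk, hτk⟩ := hτ2 x j t ht he
    have hlog : ((Real.log t : ℝ) : ℂ) ∈ K (η j) := by
      refine ⟨by simpa using hη j, Or.inr ?_⟩
      rw [Complex.ofReal_re]; exact Real.log_pos ht
    have hdiv : P.eval x / c j = (t : ℂ) := by rw [he, mul_div_cancel_right₀ _ (hc0 j)]
    have hslit : P.eval x / c j ∈ Complex.slitPlane := by
      rw [hdiv, Complex.ofReal_mem_slitPlane]; linarith
    have hφ : ContinuousAt (fun y => Complex.log (P.eval y / c j)) x := by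
      have h1 : ContinuousAt (fun y => P.eval y / c j) x :=
        (P.continuous.div_const _).continuousAt
      exact h1.clog hslit
    have hφ0 : Complex.log (P.eval x / c j) = ((Real.log t : ℝ) : ℂ) := by
      rw [hdiv, Complex.ofReal_log (by linarith)]
    have hslit' : ∀ᶠ y in 𝓝 x, P.eval y / c j ∈ Complex.slitPlane :=
      (P.continuous.div_const _).continuousAt.preimage_mem_nhds
        (Complex.isOpen_slitPlane.mem_nhds hslit)
    have hφe : ∀ᶠ y in 𝓝 x, c j * Complex.exp (Complex.log (P.eval y / c j)) = P.eval y := by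
      filter_upwards [hslit'] with y hy
      exact log_facts (hc0 j) hy
    have hloc := (hH j).loc (isOpen_K (η j)) (φ := fun y => Complex.log (P.eval y / c j)) hlog hk
      hφ hφ0 hφe
    have hre : ∀ᶠ y in 𝓝 x, 0 < (Complex.log (P.eval y / c j)).re := by
      have h1 : ContinuousAt (fun y => (Complex.log (P.eval y / c j)).re) x :=
        Complex.continuous_re.continuousAt.comp hφ
      apply h1.eventually (lt_mem_nhds _)
      show 0 < (Complex.log (P.eval x / c j)).re
      rw [hφ0, Complex.ofReal_re]; exact Real.log_pos ht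
    filter_upwards [hloc, hφe, hre] with y hy1 hy2 hy3
    set α := Complex.log (P.eval y / c j) with hα
    rcases lt_trichotomy α.im 0 with him | him | him
    · right
      have h1 := hr j k α hy1.1.1 him
      rw [hy2, hy1.2] at h1
      have hmem : P.eval y ∈ Om c := by
        rw [← hy2]; exact hOm j α ⟨hy1.1.1, Or.inl him.ne⟩
      have h2 := hτG (r j k) (P.eval y) hmem
      rw [← h1] at h2
      rw [h2, hτk, hσl]
    · left
      have hαr : α = ((α.re : ℝ) : ℂ) := by
        apply Complex.ext <;> simp [him]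
      have he' : P.eval y = (Real.exp α.re : ℝ) * c j := by
        rw [← hy2, mul_comm]
        congr 1
        rw [Complex.ofReal_exp, ← hαr]
      obtain ⟨k', hk', hτk'⟩ := hτ2 y j (Real.exp α.re) (Real.one_lt_exp_iff.mpr hy3) he'
      rw [Real.log_exp, ← hαr] at hk'
      obtain ⟨k₂, -, hk₂⟩ := (hH j).exu α hy1.1 y hy2.symm
      have h3 : k' = k := (hk₂ k' hk').trans (hk₂ k hy1.2).symm
      rw [hτk', hτk, h3]
    · left
      have h1 := hl j k α hy1.1.1 him
      rw [hy2, hy1.2] at h1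
      have hmem : P.eval y ∈ Om c := by
        rw [← hy2]; exact hOm j α ⟨hy1.1.1, Or.inl him.ne'⟩
      have h2 := hτG (l j k) (P.eval y) hmem
      rw [← h1] at h2
      rw [h2, hτk]
  refine ⟨τ, σ, ?_, hA, hB, ?_, ?_, ?_, ?_⟩
  · have := hτG 0 0 (zero_mem_Om c)
    rwa [hG0] at this
  · intro x x' hx he hττ
    have h1 := hτ1 x hx
    have h2 := hτ1 x' (by rw [he]; exact hx)
    rw [← h1, ← h2, he, hττ]
  · intro j
    exact support_le hm hdeg hz hzc hder hcinj j (hη j) (hfix j)
  · -- connectivity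
    intro T hT hinv
    have hinv' : ∀ j i, σ j i ∈ T → i ∈ T := by
      intro j i hi
      have hfin : T.Finite := Set.toFinite T
      have himg : (σ j) '' T ⊆ T := by
        rintro _ ⟨y, hy, rfl⟩
        exact hinv j y hy
      have heq : (σ j) '' T = T :=
        Set.eq_of_subset_of_ncard_le himg
          (by rw [Set.ncard_image_of_injective _ (σ j).injective]) hfin
      rw [← heq] at hi
      obtain ⟨y, hy, hyi⟩ := hi
      rwa [(σ j).injective hyi] at hy
    set M : Set ℂ := {x | ∀ j, P.eval x ≠ c j} with hM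
    have hMc : Mᶜ.Countable := by
      have : Mᶜ = ⋃ j, {x | P.eval x = c j} := by
        ext x; simp [hM]
      rw [this]
      apply Set.countable_iUnion
      intro j
      apply Set.Finite.countable
      have hne : P - C (c j) ≠ 0 := by
        intro h
        have h2 : (P - C (c j)).natDegree = m + 1 := by rw [natDegree_sub_C, hdeg]
        rw [h] at h2; simp at h2
      apply Set.Finite.subset (P - C (c j)).roots.toFinset.finite_toSet
      intro x hx
      rw [Finset.mem_coe, Multiset.mem_toFinset, mem_roots hne]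
      have hx' : P.eval x = c j := hx
      simp [IsRoot, hx']
    have hMconn : IsPreconnected M := by
      have h1 := hMc.isPathConnected_compl_of_one_lt_rank (by
        rw [Complex.rank_real_complex]; norm_num)
      rw [compl_compl] at h1
      exact h1.isConnected.isPreconnected
    have hlocc : ∀ x ∈ M, ∀ᶠ y in 𝓝 x, (τ y ∈ T ↔ τ x ∈ T) := by
      intro x hx
      by_cases hxO : P.eval x ∈ Om c
      · filter_upwards [hA x hxO] with y hy
        rw [hy]
      · simp only [Om, Set.mem_ofPred_eq, not_forall, not_not] at hxO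
        obtain ⟨j, hj1, hj2⟩ := hxO
        set t := (P.eval x / c j).re with ht
        have he : P.eval x = (t : ℂ) * c j := by
          have : P.eval x / c j = (t : ℂ) := by
            apply Complex.ext <;> simp [hj1, ht]
          rw [← this, div_mul_cancel₀ _ (hc0 j)]
        have ht1 : 1 < t := by
          rcases hj2.lt_or_eq with h | h
          · exact h
          · exfalso
            apply hx j
            rw [he, ← h]; simp
        filter_upwards [hB j x t ht1 he] with y hy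
        rcases hy with hy | hy
        · rw [hy]
        · rw [hy]
          exact ⟨hinv' j _, hinv j _⟩
    have hall : ∀ x ∈ M, ∀ y ∈ M, τ x ∈ T → τ y ∈ T := by
      intro x hx y hy hxT
      by_contra hyT
      obtain ⟨v, hv, hv1, hv2⟩ := hMconn
        (interior {v | τ v ∈ T}) (interior {v | τ v ∉ T}) isOpen_interior isOpen_interior
        (by
          intro v hv
          by_cases hvT : τ v ∈ T
          · left
            rw [mem_interior_iff_mem_nhds]
            filter_upwards [hlocc v hv] with y hy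
            exact hy.mpr hvT
          · right
            rw [mem_interior_iff_mem_nhds]
            filter_upwards [hlocc v hv] with y hy
            exact fun h => hvT (hy.mp h))
        ⟨x, hx, by
          rw [mem_interior_iff_mem_nhds]
          filter_upwards [hlocc x hx] with y hy
          exact hy.mpr hxT⟩
        ⟨y, hy, by
          rw [mem_interior_iff_mem_nhds]
          filter_upwards [hlocc y hy] with v hv
          exact fun h => hyT (hv.mp h)⟩
      have e1 : v ∈ {v | τ v ∈ T} := interior_subset hv1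
      have e2 : v ∈ {v | τ v ∉ T} := interior_subset hv2
      exact e2 e1
    obtain ⟨i, hi⟩ := hT
    have hGM : ∀ i, G i 0 ∈ M := by
      intro i j h
      rw [hG.eval i 0 (zero_mem_Om c)] at h
      exact hc0 j h.symm
    ext i'
    simp only [Set.mem_univ, iff_true]
    have := hall (G i 0) (hGM i) (G i' 0) (hGM i') (by rw [hτG i 0 (zero_mem_Om c)]; exact hi)
    rwa [hτG i' 0 (zero_mem_Om c)] at this
  · -- the principal inverse
    intro j hj
    have hqc : Continuous (fun α : ℂ => c j * Complex.exp α) := by fun_prop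
    -- `g = G 0` on the cut disc
    have hgG : ∀ w ∈ Metric.ball (0 : ℂ) ρ ∩ Om c, g w = G 0 w := by
      have hst : StarConvex ℝ (0 : ℂ) (Metric.ball (0 : ℂ) ρ ∩ Om c) :=
        ((convex_ball (0 : ℂ) ρ).starConvex (Metric.mem_ball_self hρ)).inter (starConvex_Om c)
      have hmem0 : (0 : ℂ) ∈ Metric.ball (0 : ℂ) ρ ∩ Om c :=
        ⟨Metric.mem_ball_self hρ, zero_mem_Om c⟩
      exact lift_unique P (hst.isPathConnected hmem0).isConnected.isPreconnected (q := id)
        (fun w hw => hGcrit w hw.2) (hg.mono inter_subset_left)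
        ((hG.cont 0).mono inter_subset_right) (fun w hw => hPg w hw.1)
        (fun w hw => hG.eval 0 w hw.2) hmem0 (by rw [hg0, hG0])
    have hnb : (fun α : ℂ => c j * Complex.exp α) ⁻¹' (Metric.ball (0 : ℂ) ρ) ∈ 𝓝 (0 : ℂ) := by
      apply hqc.continuousAt.preimage_mem_nhds
      rw [Complex.exp_zero, mul_one]
      exact Metric.isOpen_ball.mem_nhds (by rwa [mem_ball_zero_iff])
    obtain ⟨δ₀, hδ₀, hball⟩ := Metric.mem_nhds_iff.mp hnb
    set δ := min δ₀ (η j) with hδ
    have hδpos : 0 < δ := lt_min hδ₀ (hη j)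
    have hsub : Metric.ball (0 : ℂ) δ ⊆
        (fun α : ℂ => c j * Complex.exp α) ⁻¹' (Metric.ball (0 : ℂ) ρ) :=
      (Metric.ball_subset_ball (min_le_left _ _)).trans hball
    obtain ⟨k, hk1, hk2⟩ := hfix j δ (fun α => g (c j * Complex.exp α)) hδpos (min_le_right _ _)
      (hg.comp hqc.continuousOn hsub) (fun α hα => hPg _ (hsub hα))
    set α : ℂ := ((-(δ / 2) : ℝ) : ℂ) with hα
    have hαb : α ∈ Metric.ball (0 : ℂ) δ := by
      rw [mem_ball_zero_iff, hα, Complex.norm_real, Real.norm_eq_abs, abs_neg,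
        abs_of_pos (by linarith)]; linarith
    have hαK : α ∈ K' (η j) := by
      refine ⟨by simpa [hα] using hη j, Or.inr ?_⟩
      rw [hα, Complex.ofReal_re]; linarith
    have h1 := hk2 α hαb hαK
    have h2 := hgG (c j * Complex.exp α) ⟨hsub hαb, hOm j α hαK⟩
    have hmem := hOm j α hαK
    have h3 : G (l j k) (c j * Complex.exp α) = G 0 (c j * Complex.exp α) := by
      rw [← h2, ← h1]
    obtain ⟨i, -, hi⟩ := hG.exu _ hmem (G 0 (c j * Complex.exp α)) (hG.eval 0 _ hmem)
    have h4 : l j k = 0 := (hi _ h3).trans (hi 0 rfl).symm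
    have h5 := hσl j k
    rw [h4, ← hk1, h4] at h5
    exact h5

end cut

end Pool.Agent.Helper714.Sheets
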