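import Mathlib
import Pool.Agent.Helper714.BU.ExtDefs
import Pool.Agent.Helper714.BU.Sheets
import Pool.Agent.Helper714.BU.L1
import Pool.Agent.Helper714.BU.L2
import Pool.Agent.Helper714.BU.L3a
import Pool.Agent.Helper714.BU.L3b
import Pool.Agent.Helper714.BU.L3c
import Pool.Agent.Helper714.BU.L4
import Pool.Agent.Helper714.BU.L10
import Pool.Agent.Helper714.BU.L11
import Pool.Agent.Helper714.BU.L12
import Pool.Agent.Helper714.BU.L13
import Pool.Agent.Helper714.BU.L14
import Pool.Agent.Helper714.BU.L15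
import Pool.Agent.Helper714.BU.L16

set_option autoImplicit false

open Set MeasureTheory Polynomial Topology Filter

namespace Pool.Agent.Helper714.Main

open Pool.Agent.Helper714 Sheets

/-! ### properties of `ang` and `D` -/

lemma ang_nonneg (c w : ℂ) : 0 ≤ ang c w := abs_nonneg _

lemma ang_le_pi (c w : ℂ) : ang c w ≤ Real.pi := Complex.abs_arg_le_pi _

lemma ang_real_mul {c : ℂ} (hc : c ≠ 0) {t : ℝ} (ht : 0 < t) : ang c ((t : ℂ) * c) = 0 := by
  unfold ang
  rw [mul_div_cancel_right₀ _ hc, Complex.arg_ofReal_of_nonneg ht.le, abs_zero]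

lemma D_nonneg {m : ℕ} (c : Fin m → ℂ) (vis : Finset (Fin m)) (w : ℂ) : 0 ≤ D m c vis w := by
  unfold D
  rw [Finset.le_fold_min]
  exact ⟨by positivity, fun j _ => ang_nonneg _ _⟩

lemma D_le {m : ℕ} (c : Fin m → ℂ) (vis : Finset (Fin m)) (w : ℂ) :
    D m c vis w ≤ Real.pi / m := by
  unfold D
  rw [Finset.fold_min_le]
  exact Or.inl le_rfl

lemma D_le_ang {m : ℕ} (c : Fin m → ℂ) (vis : Finset (Fin m)) (w : ℂ) {j : Fin m}
    (hj : j ∈ vis) : D m c vis w ≤ ang (c j) w := by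
  unfold D
  rw [Finset.fold_min_le]
  exact Or.inr ⟨j, hj, le_rfl⟩

/-- values of the competitor on the sheets -/
noncomputable def FF (m : ℕ) (c : Fin m → ℂ) (vis : Finset (Fin m)) (lab : Fin (m + 1) → Fin m)
    (A B : ℝ → ℝ → ℝ) (i : Fin (m + 1)) (w : ℂ) : ℝ :=
  if i = 0 then A (Real.log ‖w‖) (D m c vis w) else B (Real.log ‖w‖) (ang (c (lab i)) w)

/-- energy densities on the sheets -/
noncomputable def KK (m : ℕ) (c : Fin m → ℂ) (vis : Finset (Fin m)) (lab : Fin (m + 1) → Fin m)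
    (Λ : ℂ → ℂ) (A' : ℝ → ℝ) (i : Fin (m + 1)) (w : ℂ) : ENNReal :=
  if i = 0 then
    (if D m c vis w < Real.pi / m then
        ENNReal.ofReal (‖deriv Λ (Real.log ‖w‖ + D m c vis w * Complex.I)‖ ^ 2)
      else ENNReal.ofReal (A' (Real.log ‖w‖) ^ 2)) * ENNReal.ofReal (1 / ‖w‖ ^ 2)
  else ENNReal.ofReal (‖deriv Λ (Real.log ‖w‖ - ang (c (lab i)) w * Complex.I)‖ ^ 2)
    * ENNReal.ofReal (1 / ‖w‖ ^ 2)

/-- tie lemma -/
lemma tie {ci cj w : ℂ} (hci : ci ≠ 0) (hcj : cj ≠ 0) (hw : w ≠ 0)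
    (hray : ¬ SameRay ℝ ci cj) (h : ang ci w = ang cj w) :
    (((1 : ℂ) / (ci * cj)) * w ^ 2).im = 0 := by
  unfold ang at h
  have hwi : w / ci ≠ 0 := div_ne_zero hw hci
  have hwj : w / cj ≠ 0 := div_ne_zero hw hcj
  rcases abs_eq_abs.mp h with h | h
  · exfalso
    apply hray
    have h1 := (Complex.arg_eq_arg_iff hwi hwj).mp h
    have h2 : ci = ((‖w / cj‖ / ‖w / ci‖ : ℝ)) • cj := by
      rw [Complex.real_smul, Complex.ofReal_div]
      generalize ((‖w / cj‖ : ℂ) / (‖w / ci‖ : ℂ)) = r at h1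
      field_simp at h1
      exact h1.symm
    rw [h2]
    exact SameRay.sameRay_pos_smul_left cj (by positivity)
  · have e1 := Complex.norm_mul_exp_arg_mul_I (w / ci)
    have e2 := Complex.norm_mul_exp_arg_mul_I (w / cj)
    have e3 : (1 : ℂ) / (ci * cj) * w ^ 2 = (w / ci) * (w / cj) := by
      field_simp
    rw [e3, ← e1, ← e2, h]
    have e4 : (‖w / ci‖ : ℂ) * Complex.exp (((-(w / cj).arg : ℝ) : ℂ) * Complex.I) *
        ((‖w / cj‖ : ℂ) * Complex.exp (((w / cj).arg : ℂ) * Complex.I)) =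
        ((‖w / ci‖ * ‖w / cj‖ : ℝ) : ℂ) := by
      have : Complex.exp (((-(w / cj).arg : ℝ) : ℂ) * Complex.I) *
          Complex.exp (((w / cj).arg : ℂ) * Complex.I) = 1 := by
        rw [← Complex.exp_add]
        push_cast
        rw [show -((w / cj).arg : ℂ) * Complex.I + ((w / cj).arg : ℂ) * Complex.I = 0 by ring,
          Complex.exp_zero]
      push_cast
      push_cast at this
      linear_combination (‖w / ci‖ * ‖w / cj‖ : ℂ) * this
    rw [e4, Complex.ofReal_im]

structure SheetData (m : ℕ) (P : ℂ[X]) (c : Fin m → ℂ) (τ : ℂ → Fin (m + 1))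
    (σ : Fin m → Equiv.Perm (Fin (m + 1))) (lab : Fin (m + 1) → Fin m) (vis : Finset (Fin m)) :
    Prop where
  hc0 : ∀ j, c j ≠ 0
  hray : ∀ i j, i ≠ j → ¬ SameRay ℝ (c i) (c j)
  hvis : ∀ j, j ∈ vis ↔ σ j 0 ≠ 0
  hτ0 : τ 0 = 0
  hloc : ∀ x, P.eval x ∈ Om c → ∀ᶠ x' in 𝓝 x, τ x' = τ x
  hcross : ∀ j x (t : ℝ), 1 < t → P.eval x = t * c j →
        ∀ᶠ x' in 𝓝 x, τ x' = τ x ∨ τ x' = σ j (τ x)
  hinj : ∀ x x', P.eval x ∈ Om c → P.eval x' = P.eval x → τ x = τ x' → x = x'
  hrad : ∀ j, j ∈ vis → Wc m ≤ Real.log ‖c j‖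
  lab1 : ∀ i, i ≠ 0 → σ (lab i) 0 ≠ 0
  lab2 : ∀ j i, i ≠ 0 → σ j i ≠ 0 → σ j i ≠ i → lab (σ j i) = lab i
  lab3 : ∀ j, σ j 0 ≠ 0 → lab (σ j 0) = j
  lab4 : ∀ j i, i ≠ 0 → σ j i = 0 → lab i = j

structure ExtData (m : ℕ) (Λ : ℂ → ℂ) (A B : ℝ → ℝ → ℝ) (A' : ℝ → ℝ) : Prop where
  hd : DifferentiableOn ℂ Λ (Y m)
  hA1 : ∀ s x : ℝ, 0 < x → x < Real.pi / m → A s x = (Λ (s + x * Complex.I)).re
  hB1 : ∀ s x : ℝ, 0 < x → x < Real.pi → B s x = (Λ (s - x * Complex.I)).re
  hA' : ∀ s, HasDerivAt (fun t => A t (Real.pi / m)) (A' s) s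
  hA : ContinuousOn (fun p : ℝ × ℝ => A p.1 p.2) {p | 0 ≤ p.2 ∧ p.2 ≤ Real.pi / m ∧ p ≠ (Wc m, 0)}
  hB : ContinuousOn (fun p : ℝ × ℝ => B p.1 p.2) {p | 0 ≤ p.2 ∧ p.2 ≤ Real.pi ∧ p ≠ (Wc m, 0)}
  hAB : ∀ s : ℝ, Wc m < s → A s 0 = B s 0

section data

variable {m : ℕ} {P : ℂ[X]} {c : Fin m → ℂ} {τ : ℂ → Fin (m + 1)}
  {σ : Fin m → Equiv.Perm (Fin (m + 1))} {lab : Fin (m + 1) → Fin m} {vis : Finset (Fin m)}
  {A B : ℝ → ℝ → ℝ} {Λ : ℂ → ℂ} {A' : ℝ → ℝ}

lemma FF_match (hm : 1 ≤ m) (hS : SheetData m P c τ σ lab vis) (hE : ExtData m Λ A B A')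
    (i : Fin (m + 1)) (j : Fin m) (t : ℝ) (ht : 1 < t) :
    FF m c vis lab A B i (t * c j) = FF m c vis lab A B (σ j i) (t * c j) := by
  have hcj := hS.hc0 j
  have hm0 : (0 : ℝ) < m := by exact_mod_cast hm
  have hang : ang (c j) ((t : ℂ) * c j) = 0 := ang_real_mul hcj (by linarith)
  have hlog : j ∈ vis → Wc m < Real.log ‖(t : ℂ) * c j‖ := by
    intro hj
    have h1 := hS.hrad j hj
    rw [norm_mul, Complex.norm_real, Real.norm_of_nonneg (by linarith),
      Real.log_mul (by linarith) (norm_ne_zero_iff.mpr hcj)]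
    have := Real.log_pos ht
    linarith
  have hD : j ∈ vis → D m c vis ((t : ℂ) * c j) = 0 := by
    intro hj
    apply le_antisymm _ (D_nonneg _ _ _)
    rw [← hang]
    exact D_le_ang _ _ _ hj
  by_cases hfix : σ j i = i
  · rw [hfix]
  · by_cases hi : i = 0
    · subst hi
      have hj : j ∈ vis := (hS.hvis j).mpr hfix
      rw [FF, FF, if_pos rfl, if_neg hfix, hS.lab3 j hfix, hang, hD hj]
      exact hE.hAB _ (hlog hj)
    · by_cases hi' : σ j i = 0
      · have hj : j ∈ vis := by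
          rw [hS.hvis]
          intro h
          exact hi ((σ j).injective (hi'.trans h.symm))
        rw [FF, FF, if_neg hi, if_pos hi', hS.lab4 j i hi hi', hang, hD hj]
        exact (hE.hAB _ (hlog hj)).symm
      · rw [FF, FF, if_neg hi, if_neg hi', hS.lab2 j i hi hi' hfix]

lemma FF_cont (hm : 1 ≤ m) (hS : SheetData m P c τ σ lab vis) (hE : ExtData m Λ A B A')
    (i : Fin (m + 1)) {w : ℂ} (hw : w ≠ 0)
    (hw' : ∀ j, w ≠ ((Real.exp (Wc m) / ‖c j‖ : ℝ) : ℂ) * c j) :
    ContinuousAt (FF m c vis lab A B i) w := by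
  by_cases hi : i = 0
  · have : FF m c vis lab A B i = fun w => A (Real.log ‖w‖) (D m c vis w) := by
      ext w; rw [FF, if_pos hi]
    rw [this]
    exact L10.F0_cont m hm c hS.hc0 vis A hE.hA w hw fun j _ => hw' j
  · have : FF m c vis lab A B i = fun w => B (Real.log ‖w‖) (ang (c (lab i)) w) := by
      ext w; rw [FF, if_neg hi]
    rw [this]
    exact L10.F1_cont m hm _ (hS.hc0 _) B hE.hB w hw (hw' _)

/-- the competitor is continuous outside a finite set -/
lemma f_cont (hm : 1 ≤ m) (hS : SheetData m P c τ σ lab vis) (hE : ExtData m Λ A B A') {x : ℂ}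
    (h0 : P.eval x ≠ 0) (h1 : ∀ j, P.eval x ≠ c j)
    (h2 : ∀ j, P.eval x ≠ ((Real.exp (Wc m) / ‖c j‖ : ℝ) : ℂ) * c j) :
    ContinuousAt (fun x => FF m c vis lab A B (τ x) (P.eval x)) x := by
  have hcomp : ∀ i, ContinuousAt (fun x => FF m c vis lab A B i (P.eval x)) x := fun i =>
    ContinuousAt.comp (f := fun x => P.eval x) (FF_cont hm hS hE i h0 h2)
      P.continuous.continuousAt
  by_cases hx : P.eval x ∈ Om c
  · refine (hcomp (τ x)).congr ?_
    filter_upwards [hS.hloc x hx] with y hy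
    rw [hy]
  · simp only [Om, Set.mem_ofPred_eq, not_forall, not_not] at hx
    obtain ⟨j, hj1, hj2⟩ := hx
    set t := (P.eval x / c j).re with ht
    have he : P.eval x = (t : ℂ) * c j := by
      have : P.eval x / c j = (t : ℂ) := by
        apply Complex.ext <;> simp [hj1, ht]
      rw [← this, div_mul_cancel₀ _ (hS.hc0 j)]
    have ht1 : 1 < t := by
      rcases hj2.lt_or_eq with h | h
      · exact h
      · exfalso
        apply h1 j
        rw [he, ← h]; simp
    have hmatch : FF m c vis lab A B (τ x) (P.eval x)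
        = FF m c vis lab A B (σ j (τ x)) (P.eval x) := by
      rw [he]; exact FF_match hm hS hE (τ x) j t ht1
    have hcr := hS.hcross j x t ht1 he
    rw [ContinuousAt, tendsto_iff_norm_sub_tendsto_zero]
    have hb1 := tendsto_iff_norm_sub_tendsto_zero.mp (hcomp (τ x))
    have hb2 := tendsto_iff_norm_sub_tendsto_zero.mp (hcomp (σ j (τ x)))
    have hsum := hb1.add hb2
    rw [add_zero] at hsum
    refine squeeze_zero' (Eventually.of_forall fun _ => norm_nonneg _) ?_ hsum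
    filter_upwards [hcr] with y hy
    rcases hy with hy | hy
    · rw [hy]
      exact le_add_of_nonneg_right (norm_nonneg _)
    · rw [hy, hmatch]
      exact le_add_of_nonneg_left (norm_nonneg _)

lemma path_deriv (P : ℂ[X]) (y x : ℝ) :
    HasDerivAt (fun x : ℝ => P.eval (Complex.exp (x + y * Complex.I)))
      (P.derivative.eval (Complex.exp (x + y * Complex.I)) * Complex.exp (x + y * Complex.I)) x := by
  have h1 : HasDerivAt (fun x : ℝ => (x : ℂ) + y * Complex.I) 1 x := by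
    simpa using (Complex.ofRealCLM.hasDerivAt (x := x)).add_const ((y : ℂ) * Complex.I)
  have h2 := h1.cexp
  rw [mul_one] at h2
  exact (P.hasDerivAt _).comp x h2

lemma f_deriv (hm : 1 ≤ m) (hS : SheetData m P c τ σ lab vis) (hE : ExtData m Λ A B A')
    (x y : ℝ)
    (h0 : P.eval (Complex.exp (x + y * Complex.I)) ≠ 0)
    (him : ∀ j, (P.eval (Complex.exp (x + y * Complex.I)) / c j).im ≠ 0)
    (htie : ∀ i j, i ≠ j → ang (c i) (P.eval (Complex.exp (x + y * Complex.I))) ≠
      ang (c j) (P.eval (Complex.exp (x + y * Complex.I))))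
    (hh : ∀ j, ang (c j) (P.eval (Complex.exp (x + y * Complex.I))) ≠ Real.pi / m) :
    ∃ D' : ℝ, HasDerivAt (fun x : ℝ => FF m c vis lab A B (τ (Complex.exp (x + y * Complex.I)))
        (P.eval (Complex.exp (x + y * Complex.I)))) D' x ∧
      ENNReal.ofReal (D' ^ 2) ≤ KK m c vis lab Λ A' (τ (Complex.exp (x + y * Complex.I)))
        (P.eval (Complex.exp (x + y * Complex.I))) *
        ENNReal.ofReal (‖P.derivative.eval (Complex.exp (x + y * Complex.I)) *
          Complex.exp (x + y * Complex.I)‖ ^ 2) := by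
  set z := Complex.exp (x + y * Complex.I) with hz
  set w : ℝ → ℂ := fun x => P.eval (Complex.exp (x + y * Complex.I)) with hw
  set w' := P.derivative.eval z * z with hw'
  have hwd : HasDerivAt w w' x := path_deriv P y x
  have hwx : w x = P.eval z := rfl
  have hOm : P.eval z ∈ Om c := by
    intro j hj
    exact him j hj.1
  have hexp : ContinuousAt (fun x : ℝ => Complex.exp (x + y * Complex.I)) x := by
    fun_prop
  have hloc : ∀ᶠ x' : ℝ in 𝓝 x, τ (Complex.exp (x' + y * Complex.I)) = τ z :=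
    hexp.eventually (hS.hloc z hOm)
  have hcalc : ∀ a : ℝ, ENNReal.ofReal (a ^ 2 * (‖w'‖ / ‖P.eval z‖) ^ 2)
      = ENNReal.ofReal (a ^ 2) * ENNReal.ofReal (1 / ‖P.eval z‖ ^ 2) *
        ENNReal.ofReal (‖w'‖ ^ 2) := by
    intro a
    rw [← ENNReal.ofReal_mul (by positivity), ← ENNReal.ofReal_mul (by positivity)]
    congr 1
    ring
  by_cases hi : τ z = 0
  · have hcongr : (fun x : ℝ => FF m c vis lab A B (τ (Complex.exp (x + y * Complex.I)))
        (P.eval (Complex.exp (x + y * Complex.I)))) =ᶠ[𝓝 x]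
        fun x => A (Real.log ‖w x‖) (D m c vis (w x)) := by
      filter_upwards [hloc] with x' hx'
      rw [hx', hi, FF, if_pos rfl]
    by_cases hlt : D m c vis (P.eval z) < Real.pi / m
    · obtain ⟨D', h1, h2⟩ := L11.F0_deriv m hm c hS.hc0 vis Λ hE.hd A hE.hA1 w w' x hwd h0
        (fun j _ => him j) (fun i _ j _ hij => htie i j hij) hlt
      refine ⟨D', h1.congr_of_eventuallyEq hcongr, ?_⟩
      rw [hi, KK, if_pos rfl, if_pos hlt, ← hcalc]
      exact ENNReal.ofReal_le_ofReal h2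
    · obtain ⟨D', h1, h2⟩ := L11.F0_deriv' m hm c hS.hc0 vis A A' hE.hA' w w' x hwd h0
        (fun j hj => lt_of_le_of_ne ((not_lt.mp hlt).trans (D_le_ang c vis _ hj)) (hh j).symm)
      refine ⟨D', h1.congr_of_eventuallyEq hcongr, ?_⟩
      rw [hi, KK, if_pos rfl, if_neg hlt, ← hcalc]
      exact ENNReal.ofReal_le_ofReal h2
  · have hcongr : (fun x : ℝ => FF m c vis lab A B (τ (Complex.exp (x + y * Complex.I)))
        (P.eval (Complex.exp (x + y * Complex.I)))) =ᶠ[𝓝 x]
        fun x => B (Real.log ‖w x‖) (ang (c (lab (τ z))) (w x)) := by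
      filter_upwards [hloc] with x' hx'
      rw [hx', FF, if_neg hi]
    obtain ⟨D', h1, h2⟩ := L11.F1_deriv m hm (c (lab (τ z))) (hS.hc0 _) Λ hE.hd B hE.hB1 w w' x
      hwd h0 (him _)
    refine ⟨D', h1.congr_of_eventuallyEq hcongr, ?_⟩
    rw [KK, if_neg hi, ← hcalc]
    exact ENNReal.ofReal_le_ofReal h2

lemma ang_eq {c w : ℂ} (h : ℝ) (hh : ang c w = h) :
    ((Complex.exp (-(h * Complex.I)) / c) * w).im = 0 ∨
      ((Complex.exp (h * Complex.I) / c) * w).im = 0 := by
  unfold ang at hh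
  have e1 := Complex.norm_mul_exp_arg_mul_I (w / c)
  have e2 : ∀ a : ℂ, a / c * w = a * (w / c) := fun a => by ring
  rcases abs_choice (w / c).arg with h' | h'
  · left
    rw [h'] at hh
    rw [e2, ← e1, hh]
    have : Complex.exp (-(h * Complex.I)) * ((‖w / c‖ : ℂ) * Complex.exp (h * Complex.I))
        = (‖w / c‖ : ℂ) := by
      have h1 : Complex.exp (-(h * Complex.I)) * Complex.exp (h * Complex.I) = 1 := by
        rw [← Complex.exp_add, neg_add_cancel, Complex.exp_zero]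
      linear_combination (‖w / c‖ : ℂ) * h1
    rw [this, Complex.ofReal_im]
  · right
    rw [h'] at hh
    have hh' : (w / c).arg = -h := by linarith
    rw [e2, ← e1, hh']
    have : Complex.exp (h * Complex.I) * ((‖w / c‖ : ℂ) * Complex.exp (((-h : ℝ) : ℂ) * Complex.I))
        = (‖w / c‖ : ℂ) := by
      have h1 : Complex.exp (h * Complex.I) * Complex.exp (((-h : ℝ) : ℂ) * Complex.I) = 1 := by
        rw [← Complex.exp_add]
        push_cast
        rw [show (h : ℂ) * Complex.I + -(h : ℂ) * Complex.I = 0 by ring, Complex.exp_zero]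
      linear_combination (‖w / c‖ : ℂ) * h1
    rw [this, Complex.ofReal_im]

/-- the points where the competitor may be discontinuous -/
def Bad (m : ℕ) (P : ℂ[X]) (c : Fin m → ℂ) : Set ℂ :=
  {z | P.eval z = 0 ∨ (∃ j, P.eval z = c j) ∨
    ∃ j, P.eval z = ((Real.exp (Wc m) / ‖c j‖ : ℝ) : ℂ) * c j}

lemma finite_fiber (hdeg : P.natDegree = m + 1) (w : ℂ) : {z | P.eval z = w}.Finite := by
  have hne : P - C w ≠ 0 := by
    intro h
    have h2 : (P - C w).natDegree = m + 1 := by rw [natDegree_sub_C, hdeg]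
    rw [h] at h2; simp at h2
  apply Set.Finite.subset (P - C w).roots.toFinset.finite_toSet
  intro x hx
  rw [Finset.mem_coe, Multiset.mem_toFinset, mem_roots hne]
  have hx' : P.eval x = w := hx
  simp [IsRoot, hx']

lemma finite_Bad (hdeg : P.natDegree = m + 1) (c : Fin m → ℂ) : (Bad m P c).Finite := by
  have : Bad m P c = {z | P.eval z = 0} ∪ ((⋃ j, {z | P.eval z = c j}) ∪
      ⋃ j, {z | P.eval z = ((Real.exp (Wc m) / ‖c j‖ : ℝ) : ℂ) * c j}) := by
    ext z; simp [Bad]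
  rw [this]
  exact (finite_fiber hdeg _).union ((Set.finite_iUnion fun j => finite_fiber hdeg _).union
    (Set.finite_iUnion fun j => finite_fiber hdeg _))

lemma line_ineq' (hm : 1 ≤ m) (hdeg : P.natDegree = m + 1) (hP0 : P.coeff 0 = 0)
    (hP1 : P.coeff 1 = 1) (hS : SheetData m P c τ σ lab vis) (hE : ExtData m Λ A B A') :
    ∃ Exc : Set ℝ, Exc.Finite ∧ ∀ y ∈ Ioo (-Real.pi) Real.pi, y ∉ Exc → ∀ a b : ℝ, a < b →
      ENNReal.ofReal ((FF m c vis lab A B (τ (Complex.exp (b + y * Complex.I)))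
          (P.eval (Complex.exp (b + y * Complex.I)))
        - FF m c vis lab A B (τ (Complex.exp (a + y * Complex.I)))
          (P.eval (Complex.exp (a + y * Complex.I)))) ^ 2)
      ≤ ENNReal.ofReal (b - a) * ∫⁻ x in Ioo a b,
        ({z | P.eval z ∈ Om c ∩ {0}ᶜ}.indicator (fun z =>
          KK m c vis lab Λ A' (τ z) (P.eval z) *
            ENNReal.ofReal (‖P.derivative.eval z * z‖ ^ 2))) (Complex.exp (x + y * Complex.I)) := by
  set h : ℝ := Real.pi / m with hh
  -- exceptional directions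
  set E1 : Set ℝ := Complex.arg '' (Bad m P c) with hE1
  set E2 : Set ℝ := ⋃ j : Fin m, {y : ℝ | y ∈ Ioo (-Real.pi) Real.pi ∧
      ¬ {x : ℝ | ((1 / c j) * P.eval (Complex.exp (x + y * Complex.I))).im = 0}.Finite} with hE2
  set E3 : Set ℝ := ⋃ i : Fin m, ⋃ j : Fin m, {y : ℝ | y ∈ Ioo (-Real.pi) Real.pi ∧
      ¬ {x : ℝ | ((1 / (c i * c j)) *
        (P.eval (Complex.exp (x + y * Complex.I))) ^ 2).im = 0}.Finite} with hE3
  set E4 : Set ℝ := ⋃ j : Fin m, {y : ℝ | y ∈ Ioo (-Real.pi) Real.pi ∧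
      ¬ {x : ℝ | ((Complex.exp (-(h * Complex.I)) / c j) *
        P.eval (Complex.exp (x + y * Complex.I))).im = 0}.Finite} with hE4
  set E5 : Set ℝ := ⋃ j : Fin m, {y : ℝ | y ∈ Ioo (-Real.pi) Real.pi ∧
      ¬ {x : ℝ | ((Complex.exp (h * Complex.I) / c j) *
        P.eval (Complex.exp (x + y * Complex.I))).im = 0}.Finite} with hE5
  refine ⟨E1 ∪ E2 ∪ E3 ∪ E4 ∪ E5, ?_, ?_⟩
  · have f1 : E1.Finite := (finite_Bad hdeg c).image _
    have f2 : E2.Finite := Set.finite_iUnion fun j =>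
      L12.finite_lines P hP0 hP1 _ (one_div_ne_zero (hS.hc0 j))
    have f3 : E3.Finite := Set.finite_iUnion fun i => Set.finite_iUnion fun j =>
      L12.finite_lines_sq P hP0 hP1 _ (one_div_ne_zero (mul_ne_zero (hS.hc0 i) (hS.hc0 j)))
    have f4 : E4.Finite := Set.finite_iUnion fun j =>
      L12.finite_lines P hP0 hP1 _ (div_ne_zero (Complex.exp_ne_zero _) (hS.hc0 j))
    have f5 : E5.Finite := Set.finite_iUnion fun j =>
      L12.finite_lines P hP0 hP1 _ (div_ne_zero (Complex.exp_ne_zero _) (hS.hc0 j))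
    exact (((f1.union f2).union f3).union f4).union f5
  · intro y hy hyE a b hab
    simp only [Set.mem_union, not_or] at hyE
    obtain ⟨⟨⟨⟨hy1, hy2⟩, hy3⟩, hy4⟩, hy5⟩ := hyE
    have hbad : ∀ x : ℝ, Complex.exp (x + y * Complex.I) ∉ Bad m P c := by
      intro x hx
      apply hy1
      refine ⟨_, hx, ?_⟩
      rw [Complex.exp_add, ← Complex.ofReal_exp, Complex.arg_real_mul _ (Real.exp_pos x),
        Complex.arg_exp_mul_I, toIocMod_eq_self]
      constructor
      · exact hy.1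
      · have := hy.2; linarith
    have g2 : ∀ j, {x : ℝ | ((1 / c j) * P.eval (Complex.exp (x + y * Complex.I))).im = 0}.Finite := by
      intro j
      by_contra hcon
      exact hy2 (Set.mem_iUnion.mpr ⟨j, hy, hcon⟩)
    have g3 : ∀ i j, {x : ℝ | ((1 / (c i * c j)) *
        (P.eval (Complex.exp (x + y * Complex.I))) ^ 2).im = 0}.Finite := by
      intro i j
      by_contra hcon
      exact hy3 (Set.mem_iUnion.mpr ⟨i, Set.mem_iUnion.mpr ⟨j, hy, hcon⟩⟩)
    have g4 : ∀ j, {x : ℝ | ((Complex.exp (-(h * Complex.I)) / c j) *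
        P.eval (Complex.exp (x + y * Complex.I))).im = 0}.Finite := by
      intro j
      by_contra hcon
      exact hy4 (Set.mem_iUnion.mpr ⟨j, hy, hcon⟩)
    have g5 : ∀ j, {x : ℝ | ((Complex.exp (h * Complex.I) / c j) *
        P.eval (Complex.exp (x + y * Complex.I))).im = 0}.Finite := by
      intro j
      by_contra hcon
      exact hy5 (Set.mem_iUnion.mpr ⟨j, hy, hcon⟩)
    set s : Set ℝ := (⋃ j, {x : ℝ | ((1 / c j) * P.eval (Complex.exp (x + y * Complex.I))).im = 0})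
      ∪ (⋃ i, ⋃ j, {x : ℝ | ((1 / (c i * c j)) *
        (P.eval (Complex.exp (x + y * Complex.I))) ^ 2).im = 0})
      ∪ (⋃ j, {x : ℝ | ((Complex.exp (-(h * Complex.I)) / c j) *
        P.eval (Complex.exp (x + y * Complex.I))).im = 0})
      ∪ (⋃ j, {x : ℝ | ((Complex.exp (h * Complex.I) / c j) *
        P.eval (Complex.exp (x + y * Complex.I))).im = 0}) with hs
    have hsfin : s.Finite :=
      (((Set.finite_iUnion g2).union (Set.finite_iUnion fun i => Set.finite_iUnion (g3 i))).union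
        (Set.finite_iUnion g4)).union (Set.finite_iUnion g5)
    refine L13.line_ineq a b hab (fun x : ℝ => FF m c vis lab A B
      (τ (Complex.exp (x + y * Complex.I))) (P.eval (Complex.exp (x + y * Complex.I)))) ?_ s hsfin
      _ ?_
    · intro x _
      apply ContinuousAt.continuousWithinAt
      have hb := hbad x
      simp only [Bad, Set.mem_ofPred_eq, not_or, not_exists] at hb
      have hfc := f_cont hm hS hE (x := Complex.exp (x + y * Complex.I)) hb.1 hb.2.1 hb.2.2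
      have hexp : ContinuousAt (fun x : ℝ => Complex.exp (x + y * Complex.I)) x := by
        fun_prop
      exact ContinuousAt.comp (f := fun x : ℝ => Complex.exp (x + y * Complex.I)) hfc hexp
    · intro x _ hx
      simp only [hs, Set.mem_union, Set.mem_iUnion, Set.mem_ofPred_eq, not_or, not_exists] at hx
      obtain ⟨⟨⟨hx2, hx3⟩, hx4⟩, hx5⟩ := hx
      have hb := hbad x
      simp only [Bad, Set.mem_ofPred_eq, not_or, not_exists] at hb
      have him : ∀ j, (P.eval (Complex.exp (x + y * Complex.I)) / c j).im ≠ 0 := by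
        intro j
        have := hx2 j
        rwa [one_div, inv_mul_eq_div] at this
      obtain ⟨D', h1, h2⟩ := f_deriv hm hS hE x y hb.1 him
        (fun i j hij heq => hx3 i j (tie (hS.hc0 i) (hS.hc0 j) hb.1 (hS.hray i j hij) heq))
        (fun j heq => by
          rcases ang_eq _ heq with h' | h'
          · exact hx4 j h'
          · exact hx5 j h')
      refine ⟨D', h1, ?_⟩
      rw [Set.indicator_of_mem]
      · exact h2
      · refine ⟨fun j hj => him j hj.1, ?_⟩
        exact hb.1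

end data

end Pool.Agent.Helper714.Main
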