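import Mathlib
import Pool.Agent.Helper714.BU.Main1

set_option autoImplicit false

open Set MeasureTheory Polynomial Topology Filter

namespace Pool.Agent.Helper714.Main

open Pool.Agent.Helper714 Sheets

/-- all facts about the extremal map -/
structure Ext2 (m : ℕ) (Λ : ℂ → ℂ) (A B : ℝ → ℝ → ℝ) : Prop where
  hd : DifferentiableOn ℂ Λ (Y m)
  hY : ∀ W ∈ Y m, Λ W ∈ S m ∧ E m (Λ W) = W
  hA1 : ∀ s x : ℝ, 0 < x → x < Real.pi / m → A s x = (Λ (s + x * Complex.I)).re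
  hB1 : ∀ s x : ℝ, 0 < x → x < Real.pi → B s x = (Λ (s - x * Complex.I)).re
  hA : ContinuousOn (fun p : ℝ × ℝ => A p.1 p.2) {p | 0 ≤ p.2 ∧ p.2 ≤ Real.pi / m ∧ p ≠ (Wc m, 0)}
  hB : ContinuousOn (fun p : ℝ × ℝ => B p.1 p.2) {p | 0 ≤ p.2 ∧ p.2 ≤ Real.pi ∧ p ≠ (Wc m, 0)}
  hAB : ∀ s : ℝ, Wc m < s → A s 0 = B s 0
  hAs : ∀ s : ℝ, A s (Real.pi / m) + Real.log (1 + Real.exp (m * A s (Real.pi / m))) = s
  hAd : ∀ s : ℝ, HasDerivAt (fun t => A t (Real.pi / m))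
        ((1 + Real.exp (m * A s (Real.pi / m))) / (1 + (m + 1) * Real.exp (m * A s (Real.pi / m)))) s

/-- derivative of the boundary function -/
noncomputable def Ad (m : ℕ) (A : ℝ → ℝ → ℝ) (s : ℝ) : ℝ :=
  (1 + Real.exp (m * A s (Real.pi / m))) / (1 + (m + 1) * Real.exp (m * A s (Real.pi / m)))

lemma exists_ext (m : ℕ) (hm : 1 ≤ m) : ∃ Λ A B, Ext2 m Λ A B := by
  obtain ⟨Λ, h1, h2, h3⟩ := L1.exists_Lam m hm
  obtain ⟨A, B, g1, g2, g3, g4, g5, g6, g7⟩ := L2.exists_AB m hm Λ h1 h2 h3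
  exact ⟨Λ, A, B, h1, h2, g1, g2, g3, g4, g5, g6, g7⟩

lemma Ext2.toExt {m : ℕ} {Λ : ℂ → ℂ} {A B : ℝ → ℝ → ℝ} (h : Ext2 m Λ A B) :
    ExtData m Λ A B (Ad m A) :=
  ⟨h.hd, h.hA1, h.hB1, h.hAd, h.hA, h.hB, h.hAB⟩

section

variable {m : ℕ} {Λ : ℂ → ℂ} {A B : ℝ → ℝ → ℝ}

lemma Ad_cont (h : Ext2 m Λ A B) : Continuous (Ad m A) := by
  have h1 : Continuous (fun s => A s (Real.pi / m)) :=
    continuous_iff_continuousAt.mpr fun s => (h.hAd s).continuousAt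
  unfold Ad
  apply Continuous.div
  · fun_prop
  · fun_prop
  · intro s
    positivity

lemma Ad_le (A : ℝ → ℝ → ℝ) (s : ℝ) : 0 ≤ Ad m A s ∧ Ad m A s ≤ 1 := by
  unfold Ad
  refine ⟨by positivity, ?_⟩
  rw [div_le_one (by positivity)]
  have : 0 ≤ (m : ℝ) * Real.exp (m * A s (Real.pi / m)) := by positivity
  linarith

/-- closure argument -/
lemma le_of_open {H : ℝ} (hH : 0 < H) {φ : ℝ → ℝ} (hφ : ContinuousOn φ (Icc 0 H)) {C : ℝ}
    (h : ∀ x ∈ Ioo 0 H, φ x ≤ C) : ∀ x ∈ Icc 0 H, φ x ≤ C := by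
  intro x hx
  have hcl : closure (Ioo (0 : ℝ) H) = Icc 0 H := closure_Ioo hH.ne
  exact le_on_closure h (by rw [hcl]; exact hφ) continuousOn_const (by rw [hcl]; exact hx)

lemma ge_of_open {H : ℝ} (hH : 0 < H) {φ : ℝ → ℝ} (hφ : ContinuousOn φ (Icc 0 H)) {C : ℝ}
    (h : ∀ x ∈ Ioo 0 H, C ≤ φ x) : ∀ x ∈ Icc 0 H, C ≤ φ x := by
  intro x hx
  have hcl : closure (Ioo (0 : ℝ) H) = Icc 0 H := closure_Ioo hH.ne
  exact le_on_closure h continuousOn_const (by rw [hcl]; exact hφ) (by rw [hcl]; exact hx)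

lemma contA (h : Ext2 m Λ A B) {s : ℝ} (hs : s ≠ Wc m) :
    ContinuousOn (fun x => A s x) (Icc 0 (Real.pi / m)) := by
  have : ContinuousOn ((fun p : ℝ × ℝ => A p.1 p.2) ∘ fun x : ℝ => (s, x))
      (Icc 0 (Real.pi / m)) := by
    apply h.hA.comp (by fun_prop)
    intro x hx
    refine ⟨hx.1, hx.2, ?_⟩
    intro h'
    exact hs (Prod.mk.inj h').1
  exact this

lemma contB (h : Ext2 m Λ A B) {s : ℝ} (hs : s ≠ Wc m) :
    ContinuousOn (fun x => B s x) (Icc 0 Real.pi) := by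
  have : ContinuousOn ((fun p : ℝ × ℝ => B p.1 p.2) ∘ fun x : ℝ => (s, x))
      (Icc 0 Real.pi) := by
    apply h.hB.comp (by fun_prop)
    intro x hx
    refine ⟨hx.1, hx.2, ?_⟩
    intro h'
    exact hs (Prod.mk.inj h').1
  exact this

lemma W_mem_up {s x : ℝ} (hx0 : 0 < x) (hx1 : x < Real.pi / m) :
    ((s : ℂ) + x * Complex.I) ∈ Y m := by
  have him : ((s : ℂ) + x * Complex.I).im = x := by simp
  refine ⟨?_, ?_, ?_⟩
  · rw [him]; linarith [Real.pi_pos]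
  · rw [him]; exact hx1
  · rw [him]; intro h; exact absurd h hx0.ne'

lemma W_mem_lo {s x : ℝ} (hx0 : 0 < x) (hx1 : x < Real.pi) :
    ((s : ℂ) - x * Complex.I) ∈ Y m := by
  have him : ((s : ℂ) - x * Complex.I).im = -x := by simp
  refine ⟨?_, ?_, ?_⟩
  · rw [him]; linarith
  · rw [him]
    have : 0 ≤ Real.pi / m := by positivity
    linarith
  · rw [him]; intro h; exact absurd (neg_eq_zero.mp h) hx0.ne'

lemma A_upper (hm : 1 ≤ m) (h : Ext2 m Λ A B) (δ : ℝ) (hδ : 0 < δ) :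
    ∃ s₀ : ℝ, ∀ s ≤ s₀, ∀ x ∈ Icc 0 (Real.pi / m), A s x ≤ s + δ := by
  have hm0 : (0 : ℝ) < m := by exact_mod_cast hm
  obtain ⟨s₀, hs₀⟩ := L3a.asymp_neg m hm δ hδ
  refine ⟨min s₀ (Wc m - 1), fun s hs => ?_⟩
  have hsW : s ≠ Wc m := by
    intro h'
    have := (le_min_iff.mp hs).2
    linarith
  apply le_of_open (div_pos Real.pi_pos hm0) (contA h hsW)
  intro x hx
  obtain ⟨h1, h2⟩ := h.hY _ (W_mem_up (m := m) (s := s) hx.1 hx.2)
  have h3 := hs₀ _ h1 (by rw [h2]; simpa using hx.1)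
    (by rw [h2]; simpa using (le_min_iff.mp hs).1)
  rw [h.hA1 s x hx.1 hx.2]
  rw [h2] at h3
  have h4 : ((s : ℂ) + x * Complex.I).re = s := by simp
  rw [h4] at h3
  have := (abs_le.mp h3).2
  linarith

lemma A_lower (hm : 1 ≤ m) (h : Ext2 m Λ A B) (δ : ℝ) (hδ : 0 < δ) :
    ∃ s₁ : ℝ, ∀ s, s₁ ≤ s → (∀ x ∈ Icc 0 (Real.pi / m), s / (m + 1) - δ ≤ A s x) ∧
      (∀ x ∈ Icc 0 Real.pi, s / (m + 1) - δ ≤ B s x) := by
  have hm0 : (0 : ℝ) < m := by exact_mod_cast hm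
  obtain ⟨s₁, hs₁⟩ := L3a.asymp_pos m hm δ hδ
  refine ⟨max s₁ (Wc m + 1), fun s hs => ?_⟩
  have hsW : s ≠ Wc m := by
    intro h'
    have := (max_le_iff.mp hs).2
    linarith
  constructor
  · apply ge_of_open (div_pos Real.pi_pos hm0) (contA h hsW)
    intro x hx
    obtain ⟨h1, h2⟩ := h.hY _ (W_mem_up (m := m) (s := s) hx.1 hx.2)
    have h3 := hs₁ _ h1 (by rw [h2]; simpa using (max_le_iff.mp hs).1)
    rw [h.hA1 s x hx.1 hx.2]
    rw [h2] at h3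
    have h4 : ((s : ℂ) + x * Complex.I).re = s := by simp
    rw [h4] at h3
    have := (abs_le.mp h3).1
    linarith
  · apply ge_of_open Real.pi_pos (contB h hsW)
    intro x hx
    obtain ⟨h1, h2⟩ := h.hY _ (W_mem_lo (m := m) (s := s) hx.1 hx.2)
    have h3 := hs₁ _ h1 (by rw [h2]; simpa using (max_le_iff.mp hs).1)
    rw [h.hB1 s x hx.1 hx.2]
    rw [h2] at h3
    have h4 : ((s : ℂ) - x * Complex.I).re = s := by simp
    rw [h4] at h3
    have := (abs_le.mp h3).1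
    linarith

lemma meas_k (Λ : ℂ → ℂ) : Measurable (Function.uncurry fun s x : ℝ =>
    ENNReal.ofReal (‖deriv Λ (s + x * Complex.I)‖ ^ 2)) := by
  apply ENNReal.measurable_ofReal.comp
  apply Measurable.pow_const
  apply Measurable.norm
  apply (measurable_deriv Λ).comp
  fun_prop

lemma meas_k' (Λ : ℂ → ℂ) : Measurable (Function.uncurry fun s x : ℝ =>
    ENNReal.ofReal (‖deriv Λ (s - x * Complex.I)‖ ^ 2)) := by
  apply ENNReal.measurable_ofReal.comp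
  apply Measurable.pow_const
  apply Measurable.norm
  apply (measurable_deriv Λ).comp
  fun_prop

lemma meas_k2 (Λ : ℂ → ℂ) {u v : ℂ → ℝ} (hu : Measurable u) (hv : Measurable v) :
    Measurable (fun w : ℂ => ENNReal.ofReal (‖deriv Λ (u w + v w * Complex.I)‖ ^ 2)) := by
  apply ENNReal.measurable_ofReal.comp
  apply Measurable.pow_const
  apply Measurable.norm
  apply (measurable_deriv Λ).comp
  fun_prop

lemma meas_k2' (Λ : ℂ → ℂ) {u v : ℂ → ℝ} (hu : Measurable u) (hv : Measurable v) :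
    Measurable (fun w : ℂ => ENNReal.ofReal (‖deriv Λ (u w - v w * Complex.I)‖ ^ 2)) := by
  apply ENNReal.measurable_ofReal.comp
  apply Measurable.pow_const
  apply Measurable.norm
  apply (measurable_deriv Λ).comp
  fun_prop

lemma meas_kH (h : Ext2 m Λ A B) : Measurable fun s : ℝ => ENNReal.ofReal (Ad m A s ^ 2) := by
  apply ENNReal.measurable_ofReal.comp
  exact ((Ad_cont h).pow 2).measurable

lemma KK_meas (h : Ext2 m Λ A B) (c : Fin m → ℂ) (vis : Finset (Fin m))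
    (lab : Fin (m + 1) → Fin m) (i : Fin (m + 1)) :
    Measurable (KK m c vis lab Λ (Ad m A) i) := by
  have hlog : Measurable fun w : ℂ => Real.log ‖w‖ := Real.measurable_log.comp measurable_norm
  have hD := L15.D_measurable m c vis
  have hn : Measurable fun w : ℂ => ENNReal.ofReal (1 / ‖w‖ ^ 2) := by
    apply ENNReal.measurable_ofReal.comp
    exact (measurable_norm.pow_const 2).const_div 1
  by_cases hi : i = 0
  · have e : KK m c vis lab Λ (Ad m A) i = fun w =>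
      (if D m c vis w < Real.pi / m then
        ENNReal.ofReal (‖deriv Λ (Real.log ‖w‖ + D m c vis w * Complex.I)‖ ^ 2)
      else ENNReal.ofReal (Ad m A (Real.log ‖w‖) ^ 2)) * ENNReal.ofReal (1 / ‖w‖ ^ 2) := by
      ext w; rw [KK, if_pos hi]
    rw [e]
    apply Measurable.mul _ hn
    exact Measurable.ite (measurableSet_lt hD measurable_const) (meas_k2 Λ hlog hD)
      ((meas_kH h).comp hlog)
  · have e : KK m c vis lab Λ (Ad m A) i = fun w =>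
      ENNReal.ofReal (‖deriv Λ (Real.log ‖w‖ - ang (c (lab i)) w * Complex.I)‖ ^ 2)
        * ENNReal.ofReal (1 / ‖w‖ ^ 2) := by
      ext w; rw [KK, if_neg hi]
    rw [e]
    apply Measurable.mul _ hn
    exact meas_k2' Λ hlog (L15.ang_measurable _)

/-- the regions swept by the sheets -/
def RR (m : ℕ) (s₀ s₁ : ℝ) (i : Fin (m + 1)) : Set ℂ :=
  if i = 0 then {w | w ≠ 0 ∧ s₀ < Real.log ‖w‖ ∧ Real.log ‖w‖ < s₁}
  else {w | w ≠ 0 ∧ Real.log ‖w‖ < s₁}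

lemma energy (hm : 1 ≤ m) (h : Ext2 m Λ A B) (c : Fin m → ℂ) (hc : ∀ j, c j ≠ 0)
    (vis : Finset (Fin m)) (lab : Fin (m + 1) → Fin m) (δ : ℝ) (hδ : 0 < δ) :
    ∃ u₀ u₁ : ℝ, ∀ s₀ ≤ u₀, ∀ s₁, u₁ ≤ s₁ →
      ∑ i, ∫⁻ w in RR m s₀ s₁ i, KK m c vis lab Λ (Ad m A) i w ≤
        ENNReal.ofReal (2 * Real.pi * (s₁ / (m + 1) - s₀) + (2 * m + 2 * Real.pi) * δ) := by
  have hm0 : (0 : ℝ) < m := by exact_mod_cast hm
  have hpi := Real.pi_pos
  obtain ⟨a₀, a₁, ha⟩ := L3b.noether m hm Λ h.hd h.hY (L3a.asymp_neg m hm) (L3a.asymp_pos m hm)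
    (fun s => A s (Real.pi / m)) h.hAs h.hAd δ hδ
  obtain ⟨b₀, b₁, hb⟩ := L3c.area m hm Λ h.hd h.hY (L3a.re_lower m hm) (L3a.asymp_neg m hm)
    (L3a.asymp_pos m hm) δ hδ
  refine ⟨min 0 (min a₀ b₀), max 0 (max a₁ b₁), fun s₀ hs₀ s₁ hs₁ => ?_⟩
  simp only [le_min_iff] at hs₀
  simp only [max_le_iff] at hs₁
  have hfin : ∫⁻ s in Ioo s₀ s₁, ENNReal.ofReal (Ad m A s ^ 2) ≠ ⊤ := by
    apply ne_of_lt
    calc ∫⁻ s in Ioo s₀ s₁, ENNReal.ofReal (Ad m A s ^ 2)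
        ≤ ∫⁻ s in Ioo s₀ s₁, 1 := by
          apply lintegral_mono
          intro s
          obtain ⟨h1, h2⟩ := Ad_le (m := m) A s
          have h3 : ENNReal.ofReal (Ad m A s ^ 2) ≤ ENNReal.ofReal 1 :=
            ENNReal.ofReal_le_ofReal (by nlinarith)
          rwa [ENNReal.ofReal_one] at h3
      _ < ⊤ := by
          rw [lintegral_one, Measure.restrict_apply_univ, Real.volume_Ioo]
          exact ENNReal.ofReal_lt_top
  have hmain := L15.polar_main m hm c hc vis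
    (fun s x : ℝ => ENNReal.ofReal (‖deriv Λ (s + x * Complex.I)‖ ^ 2)) (meas_k Λ)
    (fun s => ENNReal.ofReal (Ad m A s ^ 2)) (meas_kH h) s₀ s₁ (ENNReal.ofReal δ) hfin
    (fun x hx0 hx1 => ha s₀ hs₀.2.1 s₁ hs₁.2.1 x hx0 hx1)
  have hone : ∀ i : Fin (m + 1), i ≠ 0 →
      ∫⁻ w in RR m s₀ s₁ i, KK m c vis lab Λ (Ad m A) i w =
        2 * ∫⁻ x in Ioo 0 Real.pi, ∫⁻ s in Iio s₁,
          ENNReal.ofReal (‖deriv Λ (s - x * Complex.I)‖ ^ 2) := by
    intro i hi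
    rw [RR, if_neg hi]
    have e : KK m c vis lab Λ (Ad m A) i = fun w =>
      ENNReal.ofReal (‖deriv Λ (Real.log ‖w‖ - ang (c (lab i)) w * Complex.I)‖ ^ 2)
        * ENNReal.ofReal (1 / ‖w‖ ^ 2) := by
      ext w; rw [KK, if_neg hi]
    rw [e]
    exact L15.polar_one (c (lab i)) (hc _)
      (fun s x : ℝ => ENNReal.ofReal (‖deriv Λ (s - x * Complex.I)‖ ^ 2)) (meas_k' Λ) s₁
  have hzero : ∫⁻ w in RR m s₀ s₁ 0, KK m c vis lab Λ (Ad m A) 0 w ≤
      2 * m * (∫⁻ x in Ioo 0 (Real.pi / m), ∫⁻ s in Ioo s₀ s₁,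
          ENNReal.ofReal (‖deriv Λ (s + x * Complex.I)‖ ^ 2))
        + ENNReal.ofReal (2 * Real.pi) * ENNReal.ofReal δ := by
    rw [RR, if_pos rfl]
    have e : KK m c vis lab Λ (Ad m A) 0 = fun w =>
      (if D m c vis w < Real.pi / m then
        ENNReal.ofReal (‖deriv Λ (Real.log ‖w‖ + D m c vis w * Complex.I)‖ ^ 2)
      else ENNReal.ofReal (Ad m A (Real.log ‖w‖) ^ 2)) * ENNReal.ofReal (1 / ‖w‖ ^ 2) := by
      ext w; rw [KK, if_pos rfl]
    rw [e]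
    exact hmain
  rw [Fin.sum_univ_succ]
  have hsum : ∑ i : Fin m, ∫⁻ w in RR m s₀ s₁ i.succ, KK m c vis lab Λ (Ad m A) i.succ w =
      m * (2 * ∫⁻ x in Ioo 0 Real.pi, ∫⁻ s in Iio s₁,
          ENNReal.ofReal (‖deriv Λ (s - x * Complex.I)‖ ^ 2)) := by
    rw [Finset.sum_congr rfl fun i _ => hone i.succ (Fin.succ_ne_zero i), Finset.sum_const,
      Finset.card_univ, Fintype.card_fin, nsmul_eq_mul]
  rw [hsum]
  set IA := ∫⁻ x in Ioo 0 (Real.pi / m), ∫⁻ s in Ioo s₀ s₁,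
          ENNReal.ofReal (‖deriv Λ (s + x * Complex.I)‖ ^ 2) with hIA
  set IB := ∫⁻ x in Ioo 0 Real.pi, ∫⁻ s in Iio s₁,
          ENNReal.ofReal (‖deriv Λ (s - x * Complex.I)‖ ^ 2) with hIB
  have harea := hb s₀ hs₀.2.2 s₁ hs₁.2.2
  rw [← hIA, ← hIB] at harea
  have hX : 0 ≤ s₁ / (m + 1) - s₀ := by
    have : 0 ≤ s₁ / ((m : ℝ) + 1) := div_nonneg hs₁.1 (by positivity)
    linarith [hs₀.1]
  calc (∫⁻ w in RR m s₀ s₁ 0, KK m c vis lab Λ (Ad m A) 0 w) + m * (2 * IB)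
      ≤ (2 * m * IA + ENNReal.ofReal (2 * Real.pi) * ENNReal.ofReal δ) + m * (2 * IB) := by
        gcongr
    _ = 2 * m * (IA + IB) + ENNReal.ofReal (2 * Real.pi) * ENNReal.ofReal δ := by ring
    _ ≤ 2 * m * ENNReal.ofReal (Real.pi / m * (s₁ / (m + 1) - s₀) + δ)
        + ENNReal.ofReal (2 * Real.pi) * ENNReal.ofReal δ := by gcongr
    _ = ENNReal.ofReal (2 * Real.pi * (s₁ / (m + 1) - s₀) + (2 * m + 2 * Real.pi) * δ) := by
        have e1 : (2 : ENNReal) * m = ENNReal.ofReal (2 * m) := by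
          rw [ENNReal.ofReal_mul (by norm_num), ENNReal.ofReal_natCast]
          norm_num
        rw [e1, ← ENNReal.ofReal_mul (by positivity), ← ENNReal.ofReal_mul (by positivity),
          ← ENNReal.ofReal_add (by positivity) (by positivity)]
        congr 1
        field_simp
        ring

end

end Pool.Agent.Helper714.Main
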