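import Mathlib
import Pool.Agent.Helper714.BU.Main2

set_option autoImplicit false

open Set MeasureTheory Polynomial Topology Filter

namespace Pool.Agent.Helper714.Main

open Pool.Agent.Helper714 Sheets

lemma final_numeric {m : ℕ} {T lam δ : ℝ} (hT : 0 < T)
    (h : 2 * Real.pi * (T + lam - 4 * δ) ^ 2 ≤
      T * (2 * Real.pi * (T + lam + 2 * δ) + (2 * m + 2 * Real.pi) * δ)) (hδ : 0 < δ) :
    lam ≤ (11 + m) * δ := by
  have hpi := Real.pi_gt_three
  by_contra hcon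
  push Not at hcon
  have h1 : 2 * Real.pi * T * (lam - 8 * δ) + 2 * Real.pi * (lam - 4 * δ) ^ 2 ≤
      T * (2 * Real.pi * (2 * δ) + (2 * m + 2 * Real.pi) * δ) := by nlinarith
  have h2 : 0 ≤ 2 * Real.pi * (lam - 4 * δ) ^ 2 := by positivity
  have h3 : 2 * Real.pi * T * (lam - 8 * δ) ≤
      T * (2 * Real.pi * (2 * δ) + (2 * m + 2 * Real.pi) * δ) := by linarith
  have h4 : 2 * Real.pi * (lam - 8 * δ) ≤
      (2 * Real.pi * (2 * δ) + (2 * m + 2 * Real.pi) * δ) := by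
    have : T * (2 * Real.pi * (lam - 8 * δ)) ≤
      T * (2 * Real.pi * (2 * δ) + (2 * m + 2 * Real.pi) * δ) := by linarith
    exact le_of_mul_le_mul_left this hT
  have h5 : 2 * Real.pi * ((11 + m) * δ) < 2 * Real.pi * lam := by
    apply mul_lt_mul_of_pos_left hcon (by positivity)
  have h6 : (0 : ℝ) ≤ m * δ := by positivity
  nlinarith

theorem generic_bound (m : ℕ) (hm : 1 ≤ m) (P : ℂ[X]) (hdeg : P.natDegree = m + 1)
    (hP0 : P.coeff 0 = 0) (hP1 : P.coeff 1 = 1) (z : Fin m → ℂ) (hz : Function.Injective z)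
    (hder : ∀ x, P.derivative.eval x = 0 ↔ ∃ j, z j = x)
    (hc0 : ∀ j, P.eval (z j) ≠ 0)
    (hray : ∀ i j, i ≠ j → ¬ SameRay ℝ (P.eval (z i)) (P.eval (z j)))
    (g : ℂ → ℂ) (hg : ContinuousOn g (Metric.ball 0 (Real.exp (Wc m)))) (hg0 : g 0 = 0)
    (hPg : ∀ w ∈ Metric.ball (0 : ℂ) (Real.exp (Wc m)), P.eval (g w) = w) :
    ‖P.coeff (m + 1)‖ ≤ 1 := by
  classical
  have hm0 : (0 : ℝ) < m := by exact_mod_cast hm
  have hpi := Real.pi_pos
  have hPe0 : P.eval 0 = 0 := by rw [← coeff_zero_eq_eval_zero, hP0]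
  obtain ⟨Λ, A, B, hE2⟩ := exists_ext m hm
  have hE := hE2.toExt
  set c : Fin m → ℂ := fun j => P.eval (z j) with hc
  obtain ⟨τ, σ, k1, k2, k3, k4, k5, k6, k7⟩ := exists_sheets (c := c) hm hdeg hPe0 hz
    (fun j => rfl) hder hc0 hray (Real.exp_pos _) hg hg0 hPg
  obtain ⟨lab, l1, l2, l3, l4⟩ := L4.tree_label m hm σ k5 k6
  set vis : Finset (Fin m) := Finset.univ.filter fun j => σ j 0 ≠ 0 with hvis
  have hS : SheetData m P c τ σ lab vis := by
    refine ⟨hc0, hray, ?_, k1, k2, k3, k4, ?_, l1, l2, l3, l4⟩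
    · intro j; simp [hvis]
    · intro j hj
      have hj' : σ j 0 ≠ 0 := by simpa [hvis] using hj
      have h1 : Real.exp (Wc m) ≤ ‖c j‖ := by
        by_contra hcon
        exact hj' (k7 j (not_le.mp hcon))
      exact (Real.le_log_iff_exp_le (norm_pos_iff.mpr (hc0 j))).mpr h1
  by_contra hcon
  push Not at hcon
  set L : ℝ := ‖P.coeff (m + 1)‖ with hL
  have hLpos : 0 < L := by linarith
  set lam : ℝ := Real.log L / (m + 1) with hlam
  have hlampos : 0 < lam := div_pos (Real.log_pos hcon) (by positivity)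
  set δ : ℝ := lam / (2 * (11 + m)) with hδ
  have hδpos : 0 < δ := by positivity
  suffices h : lam ≤ (11 + m) * δ by
    rw [hδ] at h
    field_simp at h
    linarith
  -- constants
  obtain ⟨⟨r₀, hr₀, hr₀'⟩, ⟨R₀, hR₀, hR₀'⟩⟩ :=
    L16.poly_asymp (m + 1) (by omega) P hdeg hP0 hP1 (δ / 2) (by positivity)
  obtain ⟨sA, hsA⟩ := A_upper hm hE2 δ hδpos
  obtain ⟨sB, hsB⟩ := A_lower hm hE2 δ hδpos
  obtain ⟨u₀, u₁, hu⟩ := energy hm hE2 c hc0 vis lab δ hδpos
  have hτ0 : ∀ᶠ x in 𝓝 (0 : ℂ), τ x = 0 := by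
    have := k2 0 (by rw [hPe0]; exact zero_mem_Om c)
    rwa [k1] at this
  obtain ⟨rτ, hrτ, hrτ'⟩ := Metric.eventually_nhds_iff.mp hτ0
  have hgc : ∀ᶠ w in 𝓝 (0 : ℂ), ‖g w‖ < min r₀ rτ := by
    have h1 : ContinuousAt (fun w => ‖g w‖) 0 :=
      (hg.continuousAt (Metric.ball_mem_nhds _ (Real.exp_pos _))).norm
    apply h1.eventually (gt_mem_nhds _)
    show ‖g 0‖ < _
    rw [hg0, norm_zero]
    exact lt_min hr₀ hrτ
  obtain ⟨εg, hεg, hεg'⟩ := Metric.eventually_nhds_iff.mp hgc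
  -- choice of `a`
  obtain ⟨a, ha1, ha2, ha3, ha4, ha5, ha6⟩ : ∃ a : ℝ, Real.exp a < r₀ ∧ Real.exp a < rτ ∧
      a + δ ≤ sA ∧ a - δ ≤ u₀ ∧ Real.exp a < εg ∧ Real.exp a < Real.exp (Wc m) := by
    have h1 : ∀ᶠ a : ℝ in atBot, Real.exp a < r₀ :=
      Real.tendsto_exp_atBot.eventually (gt_mem_nhds hr₀)
    have h2 : ∀ᶠ a : ℝ in atBot, Real.exp a < rτ :=
      Real.tendsto_exp_atBot.eventually (gt_mem_nhds hrτ)
    have h3 : ∀ᶠ a : ℝ in atBot, a ≤ sA - δ := eventually_le_atBot _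
    have h4 : ∀ᶠ a : ℝ in atBot, a ≤ u₀ + δ := eventually_le_atBot _
    have h5 : ∀ᶠ a : ℝ in atBot, Real.exp a < εg :=
      Real.tendsto_exp_atBot.eventually (gt_mem_nhds hεg)
    have h6 : ∀ᶠ a : ℝ in atBot, Real.exp a < Real.exp (Wc m) :=
      Real.tendsto_exp_atBot.eventually (gt_mem_nhds (Real.exp_pos _))
    obtain ⟨a, g1, g2, g3, g4, g5, g6⟩ :=
      (h1.and (h2.and (h3.and (h4.and (h5.and h6))))).exists
    exact ⟨a, g1, g2, by linarith, by linarith, g5, g6⟩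
  -- choice of `b`
  obtain ⟨b, hb1, hb2, hb3, hb4, hb5⟩ : ∃ b : ℝ, R₀ ≤ Real.exp b ∧
      u₁ ≤ (m + 1) * b + Real.log L + δ ∧ sB ≤ (m + 1) * b + Real.log L - δ ∧ a < b ∧
      0 ≤ b - a + lam - 4 * δ := by
    have h1 : ∀ᶠ b : ℝ in atTop, R₀ ≤ Real.exp b :=
      Real.tendsto_exp_atTop.eventually (eventually_ge_atTop _)
    have ht : Tendsto (fun b : ℝ => ((m : ℝ) + 1) * b) atTop atTop :=
      tendsto_id.const_mul_atTop (by positivity)
    have h2 : ∀ᶠ b : ℝ in atTop, u₁ - Real.log L - δ ≤ ((m : ℝ) + 1) * b :=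
      ht.eventually (eventually_ge_atTop _)
    have h3 : ∀ᶠ b : ℝ in atTop, sB - Real.log L + δ ≤ ((m : ℝ) + 1) * b :=
      ht.eventually (eventually_ge_atTop _)
    have h4 : ∀ᶠ b : ℝ in atTop, a < b := eventually_gt_atTop _
    have h5 : ∀ᶠ b : ℝ in atTop, a - lam + 4 * δ ≤ b := eventually_ge_atTop _
    obtain ⟨b, g1, g2, g3, g4, g5⟩ := (h1.and (h2.and (h3.and (h4.and h5)))).exists
    exact ⟨b, g1, by linarith, by linarith, g4, by linarith⟩
  set T : ℝ := b - a with hT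
  have hTpos : 0 < T := by linarith
  set s₀ : ℝ := a - δ with hs₀
  set s₁ : ℝ := (m + 1) * b + Real.log L + δ with hs₁
  have hn1 : (0 : ℝ) < (m : ℝ) + 1 := by positivity
  -- regions
  have hR : ∀ x, P.eval x ∈ Om c ∩ {0}ᶜ → Real.exp a < ‖x‖ → ‖x‖ < Real.exp b →
      P.eval x ∈ RR m s₀ s₁ (τ x) := by
    intro x hx hxa hxb
    have hPx0 : P.eval x ≠ 0 := hx.2
    have hup : Real.log ‖P.eval x‖ < s₁ := by
      have h1 := (hR₀' (Real.exp b) hb1 x).1 hxb.le hPx0
      rw [Real.log_exp] at h1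
      push_cast at h1
      rw [hs₁]
      linarith
    by_cases hi : τ x = 0
    · rw [hi, RR, if_pos rfl]
      refine ⟨hPx0, ?_, hup⟩
      by_contra hlo
      push Not at hlo
      have hnorm : ‖P.eval x‖ < Real.exp a := by
        have h1 : ‖P.eval x‖ ≤ Real.exp s₀ :=
          (Real.log_le_iff_le_exp (norm_pos_iff.mpr hPx0)).mp hlo
        have h2 : Real.exp s₀ < Real.exp a := Real.exp_lt_exp.mpr (by linarith)
        linarith
      set w := P.eval x with hw
      have hgw := hεg' (y := w) (by rw [dist_zero_right]; linarith)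
      have hwb : w ∈ Metric.ball (0 : ℂ) (Real.exp (Wc m)) := by
        rw [mem_ball_zero_iff]; linarith
      have hPgw := hPg w hwb
      have hτg : τ (g w) = 0 := hrτ' (by
        rw [dist_zero_right]; exact hgw.trans_le (min_le_right _ _))
      have hxg : x = g w := k4 x (g w) hx.1 hPgw (by rw [hi, hτg])
      have hx0 : x ≠ 0 := by
        intro h
        rw [h, norm_zero] at hxa
        linarith [Real.exp_pos a]
      have hxr : ‖x‖ ≤ r₀ := by
        rw [hxg]; exact (hgw.trans_le (min_le_left _ _)).le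
      have h3 := (hr₀' x hx0 hxr).2
      have h4 := (abs_le.mp h3).1
      have h5 : a < Real.log ‖x‖ := (Real.lt_log_iff_exp_lt (norm_pos_iff.mpr hx0)).mpr hxa
      rw [← hw] at h4
      linarith
    · rw [RR, if_neg hi]
      exact ⟨hPx0, hup⟩
  -- energy
  have hen := L14.energy_le (m + 1) P (Om c ∩ {0}ᶜ) ((isOpen_Om c).inter isOpen_compl_singleton) τ
    (fun x hx => k2 x hx.1) (fun x x' hx => k4 x x' hx.1) (KK m c vis lab Λ (Ad m A))
    (KK_meas hE2 c vis lab) a b (RR m s₀ s₁) hR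
  have hen2 := hen.trans (hu s₀ (by linarith) s₁ (by linarith))
  -- lines
  obtain ⟨Exc, hExc, hline⟩ := line_ineq' hm hdeg hP0 hP1 hS hE
  have hnormexp : ∀ x y : ℝ, ‖Complex.exp (x + y * Complex.I)‖ = Real.exp x := by
    intro x y
    rw [Complex.norm_exp]; simp
  have hinner : ∀ y : ℝ, FF m c vis lab A B (τ (Complex.exp (a + y * Complex.I)))
      (P.eval (Complex.exp (a + y * Complex.I))) ≤ a + 2 * δ := by
    intro y
    set x := Complex.exp (a + y * Complex.I) with hx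
    have hxn : ‖x‖ = Real.exp a := hnormexp a y
    have hτx : τ x = 0 := hrτ' (by rw [dist_zero_right, hxn]; exact ha2)
    have hx0 : x ≠ 0 := Complex.exp_ne_zero _
    obtain ⟨h1, h2⟩ := hr₀' x hx0 (by rw [hxn]; exact ha1.le)
    rw [hxn, Real.log_exp] at h2
    have h3 := (abs_le.mp h2).2
    rw [hτx, FF, if_pos rfl]
    have h4 := hsA (Real.log ‖P.eval x‖) (by linarith) (D m c vis (P.eval x))
      ⟨D_nonneg _ _ _, D_le _ _ _⟩
    linarith
  have houter : ∀ y : ℝ, b + lam - 2 * δ ≤ FF m c vis lab A B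
      (τ (Complex.exp (b + y * Complex.I))) (P.eval (Complex.exp (b + y * Complex.I))) := by
    intro y
    set x := Complex.exp (b + y * Complex.I) with hx
    have hxn : ‖x‖ = Real.exp b := hnormexp b y
    obtain ⟨h1, h2⟩ := (hR₀' (Real.exp b) hb1 x).2 hxn
    rw [Real.log_exp] at h2
    push_cast at h2
    obtain ⟨h3, h4⟩ := hsB (Real.log ‖P.eval x‖) (by linarith)
    have h5 : b + lam - δ ≤ Real.log ‖P.eval x‖ / (m + 1) := by
      rw [le_div_iff₀ hn1, hlam]
      have : (b + Real.log L / (m + 1) - δ) * ((m : ℝ) + 1) =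
          (m + 1) * b + Real.log L - δ * (m + 1) := by field_simp
      rw [this]
      nlinarith
    by_cases hi : τ x = 0
    · rw [hi, FF, if_pos rfl]
      have := h3 (D m c vis (P.eval x)) ⟨D_nonneg _ _ _, D_le _ _ _⟩
      linarith
    · rw [FF, if_neg hi]
      have := h4 (ang (c (lab (τ x))) (P.eval x)) ⟨ang_nonneg _ _, ang_le_pi _ _⟩
      linarith
  set kk : ℝ → ENNReal := fun y => ∫⁻ x in Ioo a b,
        ({z | P.eval z ∈ Om c ∩ {0}ᶜ}.indicator (fun z =>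
          KK m c vis lab Λ (Ad m A) (τ z) (P.eval z) *
            ENNReal.ofReal (‖P.derivative.eval z * z‖ ^ 2))) (Complex.exp (x + y * Complex.I))
    with hkk
  have hline2 : ∀ y ∈ Ioo (-Real.pi) Real.pi, y ∉ Exc →
      ENNReal.ofReal ((T + lam - 4 * δ) ^ 2) ≤ ENNReal.ofReal T * kk y := by
    intro y hy hyE
    refine le_trans (ENNReal.ofReal_le_ofReal ?_) (hline y hy hyE a b hb4)
    have h1 := hinner y
    have h2 := houter y
    apply pow_le_pow_left₀ (by linarith)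
    linarith
  have hint : ENNReal.ofReal (2 * Real.pi) * ENNReal.ofReal ((T + lam - 4 * δ) ^ 2) ≤
      ENNReal.ofReal T * ∫⁻ y in Ioo (-Real.pi) Real.pi, kk y := by
    rw [← lintegral_const_mul' _ _ ENNReal.ofReal_ne_top]
    have h1 : ENNReal.ofReal (2 * Real.pi) * ENNReal.ofReal ((T + lam - 4 * δ) ^ 2) =
        ∫⁻ y in Ioo (-Real.pi) Real.pi, ENNReal.ofReal ((T + lam - 4 * δ) ^ 2) := by
      rw [lintegral_const, Measure.restrict_apply_univ, Real.volume_Ioo, mul_comm]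
      congr 2
      ring
    rw [h1]
    apply lintegral_mono_ae
    have h2 : ∀ᵐ y ∂(volume.restrict (Ioo (-Real.pi) Real.pi)), y ∈ Ioo (-Real.pi) Real.pi :=
      ae_restrict_mem measurableSet_Ioo
    have h3 : ∀ᵐ y ∂(volume.restrict (Ioo (-Real.pi) Real.pi)), y ∉ Exc :=
      ae_restrict_of_ae (hExc.countable.ae_notMem volume)
    filter_upwards [h2, h3] with y hy1 hy2
    exact hline2 y hy1 hy2
  have hfinal : 2 * Real.pi * (T + lam - 4 * δ) ^ 2 ≤
      T * (2 * Real.pi * (s₁ / (m + 1) - s₀) + (2 * m + 2 * Real.pi) * δ) := by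
    have h1 : ENNReal.ofReal (2 * Real.pi) * ENNReal.ofReal ((T + lam - 4 * δ) ^ 2) ≤
        ENNReal.ofReal T *
          ENNReal.ofReal (2 * Real.pi * (s₁ / (m + 1) - s₀) + (2 * m + 2 * Real.pi) * δ) :=
      hint.trans (by gcongr)
    have hX : 0 ≤ s₁ / (m + 1) - s₀ := by
      have : s₁ / ((m : ℝ) + 1) = b + lam + δ / (m + 1) := by
        rw [hs₁, hlam]; field_simp
      rw [this, hs₀]
      have : 0 ≤ δ / ((m : ℝ) + 1) := by positivity
      linarith
    rw [← ENNReal.ofReal_mul (by positivity), ← ENNReal.ofReal_mul hTpos.le,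
      ENNReal.ofReal_le_ofReal_iff (by positivity)] at h1
    exact h1
  apply final_numeric (m := m) hTpos _ hδpos
  refine hfinal.trans ?_
  have h1 : s₁ / ((m : ℝ) + 1) - s₀ ≤ T + lam + 2 * δ := by
    have e1 : s₁ / ((m : ℝ) + 1) = b + lam + δ / (m + 1) := by
      rw [hs₁, hlam]; field_simp
    have e2 : δ / ((m : ℝ) + 1) ≤ δ := by
      rw [div_le_iff₀ hn1]; nlinarith
    rw [e1, hs₀]
    linarith
  gcongr

end Pool.Agent.Helper714.Main
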