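import Mathlib
import Pool.Agent.Helper714.BU.Main3
import Pool.Agent.Helper714.BU.L6
import Pool.Agent.Helper714.BU.L7
import Pool.Agent.Helper714.BU.Defs

set_option autoImplicit false

open Set Polynomial Topology Filter

namespace Pool.Agent.Helper714.Main

open Pool.Agent.Helper714

/-- removal of genericity, normalised form -/
theorem normalised_bound (m : ℕ) (hm : 1 ≤ m) (P : ℂ[X]) (hdeg : P.natDegree = m + 1)
    (hP0 : P.coeff 0 = 0) (hP1 : P.coeff 1 = 1) (g : ℂ → ℂ) (ρ : ℝ) (hρ : Real.exp (Wc m) < ρ)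
    (hg : DifferentiableOn ℂ g (Metric.ball 0 ρ)) (hg0 : g 0 = 0)
    (hPg : ∀ w ∈ Metric.ball (0 : ℂ) ρ, P.eval (g w) = w) :
    ‖P.coeff (m + 1)‖ ≤ 1 := by
  apply le_of_forall_pos_le_add
  intro e he
  obtain ⟨ε, hε, hstab⟩ := L7.inverse_stable (m + 1) P hdeg.le hP0 g ρ (Real.exp (Wc m))
    (Real.exp_pos _) hρ hg hg0 hPg
  obtain ⟨Q, q1, q2, q3, q4, z, z1, z2, z3, z4⟩ := L6.exists_generic m hm P hdeg hP0 hP1
    (min ε e) (lt_min hε he)
  obtain ⟨g', g1, g2, g3⟩ := hstab Q q1.le q2 fun k => (q4 k).trans_le (min_le_left _ _)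
  have h1 := generic_bound m hm Q q1 q2 q3 z z1 z2 z3 z4 g' g1.continuousOn g2 g3
  have h2 := q4 (m + 1)
  have h3 : ‖P.coeff (m + 1)‖ ≤ ‖Q.coeff (m + 1)‖ + ‖Q.coeff (m + 1) - P.coeff (m + 1)‖ := by
    have := norm_sub_norm_le (P.coeff (m + 1)) (Q.coeff (m + 1))
    rw [norm_sub_rev] at this
    linarith
  have h4 := h2.le.trans (min_le_right _ _)
  linarith

lemma exp_Wc (m : ℕ) (hm : 1 ≤ m) :
    Real.exp (Wc m) ^ m = (m : ℝ) ^ m / ((m : ℝ) + 1) ^ (m + 1) := by
  have hm0 : (0 : ℝ) < m := by exact_mod_cast hm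
  rw [← Real.exp_nat_mul, Wc]
  have : (m : ℝ) * (Real.log m - (m + 1) / m * Real.log (m + 1)) =
      (m : ℕ) * Real.log m - ((m + 1 : ℕ) : ℝ) * Real.log (m + 1) := by
    push_cast
    field_simp
  rw [this, Real.exp_sub, Real.exp_nat_mul, Real.exp_nat_mul, Real.exp_log hm0,
    Real.exp_log (by positivity)]

/-- the sharp bound for the last coefficient when the inverse germ is analytic in the unit disc -/
theorem main_bound (m : ℕ) (hm : 1 ≤ m) (P : ℂ[X]) (hdeg : P.natDegree ≤ m + 1)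
    (hP0 : P.coeff 0 = 0) (hP1 : P.coeff 1 = 1) (g : ℂ → ℂ)
    (hg : DifferentiableOn ℂ g (Metric.ball 0 1)) (hg0 : g 0 = 0)
    (hPg : ∀ w ∈ Metric.ball (0 : ℂ) 1, P.eval (g w) = w) :
    ‖P.coeff (m + 1)‖ ≤ (m : ℝ) ^ m / ((m : ℝ) + 1) ^ (m + 1) := by
  rcases hdeg.lt_or_eq with hdeg | hdeg
  · rw [coeff_eq_zero_of_natDegree_lt hdeg, norm_zero]
    positivity
  -- scaling
  have key : ∀ t : ℝ, 0 < t → t < 1 →
      t ^ m * ‖P.coeff (m + 1)‖ ≤ (m : ℝ) ^ m / ((m : ℝ) + 1) ^ (m + 1) := by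
    intro t ht0 ht1
    set μ : ℝ := t / Real.exp (Wc m) with hμ
    have hμ0 : 0 < μ := div_pos ht0 (Real.exp_pos _)
    have hμc : (μ : ℂ) ≠ 0 := by exact_mod_cast hμ0.ne'
    set Q : ℂ[X] := C ((μ : ℂ)⁻¹) * P.comp (C (μ : ℂ) * X) with hQ
    have hQe : ∀ x, Q.eval x = (μ : ℂ)⁻¹ * P.eval (μ * x) := by
      intro x; simp [hQ, eval_comp]
    have hQc : ∀ k, Q.coeff k = (μ : ℂ)⁻¹ * (P.coeff k * (μ : ℂ) ^ k) := by
      intro k
      rw [hQ, coeff_C_mul, comp_C_mul_X_coeff]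
    have hQdeg : Q.natDegree = m + 1 := by
      apply le_antisymm
      · rw [natDegree_le_iff_coeff_eq_zero]
        intro k hk
        rw [hQc, coeff_eq_zero_of_natDegree_lt (by omega)]
        simp
      · apply le_natDegree_of_ne_zero
        rw [hQc]
        have : P.coeff (m + 1) ≠ 0 := by
          rw [← hdeg]
          have : P ≠ 0 := by
            intro h
            rw [h] at hdeg
            simp at hdeg
          exact leadingCoeff_ne_zero.mpr this
        positivity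
    have hb : Real.exp (Wc m) < 1 / μ := by
      rw [hμ, one_div_div, lt_div_iff₀ ht0]
      have := Real.exp_pos (Wc m)
      nlinarith
    have hball : ∀ w ∈ Metric.ball (0 : ℂ) (1 / μ), (μ : ℂ) * w ∈ Metric.ball (0 : ℂ) 1 := by
      intro w hw
      rw [mem_ball_zero_iff] at hw ⊢
      rw [norm_mul, Complex.norm_real, Real.norm_of_nonneg hμ0.le]
      rw [lt_div_iff₀ hμ0] at hw
      linarith
    have h1 := normalised_bound m hm Q hQdeg (by rw [hQc, hP0]; simp)
      (by rw [hQc, hP1]; field_simp) (fun w => (μ : ℂ)⁻¹ * g (μ * w)) (1 / μ) hb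
      (by
        apply DifferentiableOn.const_mul
        apply hg.comp
        · fun_prop
        · exact hball)
      (by simp [hg0])
      (by
        intro w hw
        rw [hQe, mul_inv_cancel_left₀ hμc, hPg _ (hball w hw), inv_mul_cancel_left₀ hμc])
    rw [hQc, norm_mul, norm_mul, norm_inv, norm_pow, Complex.norm_real,
      Real.norm_of_nonneg hμ0.le] at h1
    have h2 : μ ^ m * ‖P.coeff (m + 1)‖ ≤ 1 := by
      have : μ⁻¹ * (‖P.coeff (m + 1)‖ * μ ^ (m + 1)) = μ ^ m * ‖P.coeff (m + 1)‖ := by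
        rw [pow_succ]
        field_simp
      rwa [this] at h1
    rw [hμ, div_pow, exp_Wc m hm] at h2
    have h3 : (0 : ℝ) < (m : ℝ) ^ m / ((m : ℝ) + 1) ^ (m + 1) := by positivity
    rw [div_mul_eq_mul_div, div_le_one h3] at h2
    exact h2
  have hlim : Tendsto (fun t : ℝ => t ^ m * ‖P.coeff (m + 1)‖) (𝓝[<] 1)
      (𝓝 (1 ^ m * ‖P.coeff (m + 1)‖)) := by
    apply Tendsto.mono_left _ nhdsWithin_le_nhds
    exact ((continuous_pow m).mul continuous_const).tendsto 1
  rw [one_pow, one_mul] at hlim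
  refine le_of_tendsto hlim ?_
  have h0 : ∀ᶠ t : ℝ in 𝓝[<] 1, 0 < t := (lt_mem_nhds one_pos).filter_mono nhdsWithin_le_nhds
  filter_upwards [h0, self_mem_nhdsWithin] with t ht0 ht1
  exact key t ht0 ht1

/-- the upper bound on the class `V n` -/
theorem upper_bound (n : ℕ) (hn : 2 ≤ n) (P : ℂ[X]) (hP : P ∈ V n) :
    ‖P.coeff n‖ ≤ ((n : ℝ) - 1) ^ (n - 1) / (n : ℝ) ^ n := by
  obtain ⟨hdeg, hP0, hP1, -, -, -, -, g, hg, -, hloc⟩ := hP
  obtain ⟨m, rfl⟩ : ∃ m, n = m + 1 := ⟨n - 1, by omega⟩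
  have hm : 1 ≤ m := by omega
  have hPe0 : P.eval 0 = 0 := by rw [← coeff_zero_eq_eval_zero, hP0]
  have hg0 : g 0 = 0 := by
    have := hloc.self_of_nhds
    simpa [hPe0] using this
  -- `P ∘ g = id` near `0`, hence on the disc
  have hder : P.derivative.eval 0 = 1 := by
    rw [← coeff_zero_eq_eval_zero, coeff_derivative]
    simp [hP1]
  have hPd : HasStrictDerivAt (fun z => P.eval z) 1 0 := by
    have := P.hasStrictDerivAt 0
    rwa [hder] at this
  have hmap : map (fun z => P.eval z) (𝓝 (0 : ℂ)) = 𝓝 0 := by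
    have := hPd.map_nhds_eq one_ne_zero
    rwa [hPe0] at this
  have hPg' : ∀ᶠ w in 𝓝 (0 : ℂ), P.eval (g w) = w := by
    rw [← hmap, eventually_map]
    filter_upwards [hloc] with z hz
    show P.eval (g (P.eval z)) = P.eval z
    rw [hz]
  have hPg : ∀ w ∈ Metric.ball (0 : ℂ) 1, P.eval (g w) = w := by
    have h1 : AnalyticOnNhd ℂ (fun w => P.eval (g w)) (Metric.ball 0 1) := by
      apply DifferentiableOn.analyticOnNhd _ Metric.isOpen_ball
      exact P.differentiable.comp_differentiableOn hg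
    have h2 : AnalyticOnNhd ℂ (fun w : ℂ => w) (Metric.ball 0 1) := fun w _ => analyticAt_id
    exact h1.eqOn_of_preconnected_of_eventuallyEq h2 (convex_ball (0 : ℂ) 1).isPreconnected
      (Metric.mem_ball_self one_pos) hPg'
  have h := main_bound m hm P hdeg hP0 hP1 g hg hg0 hPg
  have e1 : (((m + 1 : ℕ) : ℝ) - 1) = m := by push_cast; ring
  rw [e1]
  push_cast
  simpa using h

end Pool.Agent.Helper714.Main
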